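import Pool.Agent.H761R2.SV.Defs
import Pool.Agent.Helper366.IV.CP

/-! Module POMP: Cauchy–Pompeiu for functions vanishing at infinity. -/

set_option autoImplicit false
open Complex MeasureTheory Filter Topology Metric Set
open scoped ContDiff

namespace Pool.Agent.H761R2.SV

theorem integrableOn_norm_inv (r : ℝ) :
    IntegrableOn (fun w : ℂ => ‖w‖⁻¹) (ball (0 : ℂ) r) := by
  rw [integrableOn_fun_norm_addHaar (volume : Measure ℂ) (f := fun y : ℝ => y⁻¹)]
  have h1 : IntegrableOn (fun _ : ℝ => (1 : ℝ)) (Ioo 0 r) := by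
    simp
  refine h1.congr_fun ?_ measurableSet_Ioo
  intro y hy
  have hy0 : y ≠ 0 := hy.1.ne'
  simp [Complex.finrank_real_complex, hy0]

/-- a continuous compactly supported function times the Cauchy kernel is integrable -/
theorem integrable_mul_cauchy {f : ℂ → ℂ} (hf : Continuous f) (hc : HasCompactSupport f) (z : ℂ) :
    Integrable (fun w => f w * (z - w)⁻¹) := by
  obtain ⟨M, hM⟩ := hc.exists_bound_of_continuous hf
  obtain ⟨R, hR⟩ := (hc.isCompact.isBounded).subset_closedBall (0 : ℂ)
  have hM0 : 0 ≤ M := (norm_nonneg _).trans (hM 0)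
  -- dominating function
  have h1 : Integrable ((ball (0 : ℂ) (R + ‖z‖ + 1)).indicator (fun w : ℂ => ‖w‖⁻¹)) :=
    (integrable_indicator_iff measurableSet_ball).2 (integrableOn_norm_inv _)
  have h2 : Integrable (fun w : ℂ =>
      M * (ball (0 : ℂ) (R + ‖z‖ + 1)).indicator (fun w : ℂ => ‖w‖⁻¹) (z - w)) :=
    (h1.comp_sub_left z).const_mul M
  have hmeas : AEStronglyMeasurable (fun w => f w * (z - w)⁻¹) volume := by
    apply Measurable.aestronglyMeasurable
    have : Measurable f := hf.measurable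
    fun_prop
  refine h2.mono' hmeas (Eventually.of_forall fun w => ?_)
  rw [norm_mul, norm_inv]
  by_cases hw : w ∈ tsupport f
  · have hw1 : ‖w‖ ≤ R := by simpa using hR hw
    have hmem : z - w ∈ ball (0 : ℂ) (R + ‖z‖ + 1) := by
      rw [mem_ball_zero_iff]
      have := norm_sub_le z w
      linarith
    rw [indicator_of_mem hmem]
    exact mul_le_mul_of_nonneg_right (hM w) (by positivity)
  · rw [image_eq_zero_of_notMem_tsupport hw, norm_zero, zero_mul]
    apply mul_nonneg hM0
    apply indicator_nonneg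
    intro w _
    positivity

/-- Cauchy–Pompeiu for compactly supported functions, in the other normalisation. -/
theorem pompeiu_compact {G : ℂ → ℂ} (hG : ContDiff ℝ 1 G) (hc : HasCompactSupport G) (z : ℂ) :
    ∫ w, dbar G w * (z - w)⁻¹ = Real.pi * G z := by
  rw [← Pool.Agent.Helper366.IV.cauchy_pompeiu G hG hc z,
    ← integral_sub_left_eq_self (fun w => dbar G w * (z - w)⁻¹) volume z]
  apply integral_congr_ae
  refine Eventually.of_forall fun w => ?_
  simp only [dbar, sub_sub_cancel, div_eq_mul_inv]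

theorem dbar_mul {F G : ℂ → ℂ} (hF : ContDiff ℝ 1 F) (hG : ContDiff ℝ 1 G) (w : ℂ) :
    dbar (fun w => F w * G w) w = dbar F w * G w + F w * dbar G w := by
  have h1 : DifferentiableAt ℝ F w := hF.differentiable (by simp) w
  have h2 : DifferentiableAt ℝ G w := hG.differentiable (by simp) w
  simp only [dbar]
  rw [fderiv_fun_mul h1 h2]
  simp only [add_apply, smul_apply, smul_eq_mul]
  ring

theorem dbar_comp_smul {G : ℂ → ℂ} (hG : ContDiff ℝ 1 G) (c : ℝ) (w : ℂ) :
    dbar (fun w => G (c • w)) w = c * dbar G (c • w) := by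
  have h2 : HasFDerivAt G (fderiv ℝ G (c • w)) (c • w) :=
    (hG.differentiable (by simp) (c • w)).hasFDerivAt
  have h3 : HasFDerivAt (fun w : ℂ => c • w) (c • ContinuousLinearMap.id ℝ ℂ) w :=
    (hasFDerivAt_id w).const_smul c
  have h4 := h2.comp w h3
  have h5 : fderiv ℝ (fun w => G (c • w)) w = (fderiv ℝ G (c • w)).comp
      (c • ContinuousLinearMap.id ℝ ℂ) := h4.fderiv
  have h6 : ∀ v : ℂ, fderiv ℝ (fun w => G (c • w)) w v = c * fderiv ℝ G (c • w) v := by
    intro v
    rw [h5, ContinuousLinearMap.comp_apply, smul_apply,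
      ContinuousLinearMap.id_apply, map_smul, Complex.real_smul]
  simp only [dbar, h6]
  ring

theorem continuous_dbar {F : ℂ → ℂ} (hF : ContDiff ℝ 1 F) : Continuous (dbar F) := by
  have h := hF.continuous_fderiv (by simp)
  unfold dbar
  fun_prop

/-- Module POMP (file `Pomp.lean`): Cauchy–Pompeiu for functions vanishing at infinity. -/
theorem pompeiu {F : ℂ → ℂ} (hF : ContDiff ℝ 1 F) (hs : HasCompactSupport (dbar F))
    (h0 : Tendsto F (cocompact ℂ) (𝓝 0)) (z : ℂ) :
    ∫ w, dbar F w * (z - w)⁻¹ = Real.pi * F z := by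
  -- a smooth bump
  let b : ContDiffBump (0 : ℂ) := ⟨1, 2, one_pos, one_lt_two⟩
  set θ : ℂ → ℂ := fun w => ((b w : ℝ) : ℂ) with hθ
  have hθd : ContDiff ℝ 1 θ := by
    have : ContDiff ℝ 1 (fun w : ℂ => b w) := b.contDiff
    exact Complex.ofRealCLM.contDiff.comp this
  have hθ1 : ∀ w : ℂ, ‖w‖ ≤ 1 → θ w = 1 := by
    intro w hw
    have : b w = 1 := b.one_of_mem_closedBall (by simpa [b] using hw)
    simp [hθ, this]
  have hθ0 : ∀ w : ℂ, 2 ≤ ‖w‖ → θ w = 0 := by
    intro w hw
    have : b w = 0 := b.zero_of_le_dist (by simpa [b] using hw)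
    simp [hθ, this]
  have hθc : Continuous θ := hθd.continuous
  have hdc : Continuous (dbar θ) := continuous_dbar hθd
  have hθs : HasCompactSupport θ := by
    apply HasCompactSupport.of_support_subset_isCompact (isCompact_closedBall (0 : ℂ) 2)
    intro w hw
    by_contra hn
    apply hw
    apply hθ0
    simp only [mem_closedBall, dist_zero_right, not_le] at hn
    exact hn.le
  have hdθs : HasCompactSupport (dbar θ) := by
    have h1 : HasCompactSupport (fderiv ℝ θ) := hθs.fderiv ℝ
    apply HasCompactSupport.of_support_subset_isCompact h1.isCompact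
    intro w hw
    by_contra hn
    apply hw
    simp [dbar, image_eq_zero_of_notMem_tsupport hn]
  obtain ⟨C, hC⟩ := hdθs.exists_bound_of_continuous hdc
  have hC0 : 0 ≤ C := (norm_nonneg _).trans (hC 0)
  -- support of dbar θ
  have hdθ1 : ∀ w : ℂ, ‖w‖ < 1 → dbar θ w = 0 := by
    intro w hw
    have h1 : θ =ᶠ[𝓝 w] fun _ => (1 : ℂ) := by
      have : {v : ℂ | ‖v‖ < 1} ∈ 𝓝 w := (isOpen_lt continuous_norm continuous_const).mem_nhds hw
      filter_upwards [this] with v hv
      exact hθ1 v hv.le
    simp [dbar, h1.fderiv_eq]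
  have hdθ2 : ∀ w : ℂ, 2 < ‖w‖ → dbar θ w = 0 := by
    intro w hw
    have h1 : θ =ᶠ[𝓝 w] fun _ => (0 : ℂ) := by
      have : {v : ℂ | 2 < ‖v‖} ∈ 𝓝 w := (isOpen_lt continuous_const continuous_norm).mem_nhds hw
      filter_upwards [this] with v hv
      exact hθ0 v hv.le
    simp [dbar, h1.fderiv_eq]
  obtain ⟨R0, hR0⟩ := (hs.isCompact.isBounded).subset_closedBall (0 : ℂ)
  have hdF0 : ∀ w : ℂ, R0 < ‖w‖ → dbar F w = 0 := by
    intro w hw
    apply image_eq_zero_of_notMem_tsupport
    intro hmem
    have := hR0 hmem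
    rw [mem_closedBall_zero_iff] at this
    linarith
  -- the key estimate
  have key : ∀ ε : ℝ, 0 < ε →
      ‖(∫ w, dbar F w * (z - w)⁻¹) - Real.pi * F z‖ ≤ (8 * Real.pi * C) * ε := by
    intro ε hε
    have hev : ∀ᶠ w in cocompact ℂ, ‖F w‖ < ε := by
      have := (tendsto_zero_iff_norm_tendsto_zero.1 h0)
      exact this.eventually (gt_mem_nhds hε)
    rw [← cobounded_eq_cocompact] at hev
    obtain ⟨R1, hR1⟩ : ∃ R1 : ℝ, ∀ w : ℂ, R1 ≤ ‖w‖ → ‖F w‖ < ε := by
      have h2 := (hasBasis_cobounded_norm (E := ℂ)).eventually_iff.1 hev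
      obtain ⟨R1, _, h3⟩ := h2
      exact ⟨R1, fun w hw => h3 hw⟩
    -- choose R
    obtain ⟨R, hRa, hRb, hRc, hRd⟩ : ∃ R : ℝ, 1 ≤ R ∧ R0 ≤ R ∧ R1 ≤ R ∧ 2 * ‖z‖ ≤ R :=
      ⟨max (max 1 R0) (max R1 (2 * ‖z‖)), (le_max_left _ _).trans (le_max_left _ _),
        (le_max_right _ _).trans (le_max_left _ _), (le_max_left _ _).trans (le_max_right _ _),
        (le_max_right _ _).trans (le_max_right _ _)⟩
    have hR : 0 < R := by linarith
    set θR : ℂ → ℂ := fun w => θ (R⁻¹ • w) with hθR
    have hθRd : ContDiff ℝ 1 θR := by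
      exact hθd.comp (contDiff_const_smul _)
    have hnormR : ∀ w : ℂ, ‖R⁻¹ • w‖ = ‖w‖ / R := by
      intro w
      rw [norm_smul, Real.norm_of_nonneg (inv_nonneg.2 hR.le), div_eq_inv_mul]
    have hGd : ContDiff ℝ 1 (fun w => F w * θR w) := hF.mul hθRd
    have hGs : HasCompactSupport (fun w => F w * θR w) := by
      apply HasCompactSupport.of_support_subset_isCompact (isCompact_closedBall (0 : ℂ) (2 * R))
      intro w hw
      by_contra hn
      apply hw
      simp only [mem_closedBall, dist_zero_right, not_le] at hn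
      have : θR w = 0 := by
        apply hθ0
        rw [hnormR, le_div_iff₀ hR]; exact hn.le
      simp [this]
    have hCP := pompeiu_compact hGd hGs z
    have hθz : θR z = 1 := by
      apply hθ1
      rw [hnormR, div_le_one hR]
      have := norm_nonneg z
      linarith
    have hdθR : ∀ w, dbar θR w = (R⁻¹ : ℝ) * dbar θ (R⁻¹ • w) := fun w => dbar_comp_smul hθd R⁻¹ w
    have hsplit : ∀ w, dbar (fun w => F w * θR w) w * (z - w)⁻¹ =
        dbar F w * (z - w)⁻¹ + (F w * dbar θR w) * (z - w)⁻¹ := by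
      intro w
      rw [dbar_mul hF hθRd]
      have : dbar F w * θR w = dbar F w := by
        by_cases hw : ‖w‖ ≤ R
        · have : θR w = 1 := by
            apply hθ1
            rw [hnormR, div_le_one hR]; exact hw
          rw [this, mul_one]
        · push Not at hw
          rw [hdF0 w (by linarith), zero_mul]
      rw [this]; ring
    have hg2c : Continuous (fun w => F w * dbar θR w) := by
      have := continuous_dbar hθRd
      have := hF.continuous
      fun_prop
    have hzero : ∀ w : ℂ, w ∉ closedBall (0 : ℂ) (2 * R) → F w * dbar θR w = 0 := by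
      intro w hw
      simp only [mem_closedBall, dist_zero_right, not_le] at hw
      rw [hdθR, hdθ2 _ (by rw [hnormR, lt_div_iff₀ hR]; exact hw)]
      simp
    have hg2s : HasCompactSupport (fun w => F w * dbar θR w) := by
      apply HasCompactSupport.of_support_subset_isCompact (isCompact_closedBall (0 : ℂ) (2 * R))
      intro w hw
      by_contra hn
      exact hw (hzero w hn)
    have hi1 := integrable_mul_cauchy (continuous_dbar hF) hs z
    have hi2 := integrable_mul_cauchy hg2c hg2s z
    rw [integral_congr_ae (Eventually.of_forall hsplit), integral_add hi1 hi2, hθz, mul_one] at hCP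
    have hdiff : (∫ w, dbar F w * (z - w)⁻¹) - Real.pi * F z =
        - ∫ w, (F w * dbar θR w) * (z - w)⁻¹ := by
      rw [← hCP]; ring
    rw [hdiff, norm_neg]
    have hset : ∫ w, (F w * dbar θR w) * (z - w)⁻¹ =
        ∫ w in closedBall (0 : ℂ) (2 * R), (F w * dbar θR w) * (z - w)⁻¹ := by
      rw [setIntegral_eq_integral_of_forall_compl_eq_zero]
      intro w hw
      rw [hzero w hw, zero_mul]
    rw [hset]
    have hbound : ∀ w ∈ closedBall (0 : ℂ) (2 * R),
        ‖(F w * dbar θR w) * (z - w)⁻¹‖ ≤ 2 * ε * C / R ^ 2 := by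
      intro w _
      by_cases hw : ‖w‖ < R
      · rw [hdθR, hdθ1 _ (by rw [hnormR, div_lt_one hR]; exact hw)]
        simp only [mul_zero, zero_mul, norm_zero]
        positivity
      · push Not at hw
        have e1 : ‖F w‖ ≤ ε := (hR1 w (by linarith)).le
        have e2 : ‖dbar θR w‖ ≤ C / R := by
          rw [hdθR, norm_mul, Complex.norm_real, Real.norm_of_nonneg (inv_nonneg.2 hR.le),
            div_eq_inv_mul]
          exact mul_le_mul_of_nonneg_left (hC _) (inv_nonneg.2 hR.le)
        have e3 : R / 2 ≤ ‖z - w‖ := by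
          have h1 : ‖w‖ ≤ ‖z‖ + ‖z - w‖ := by
            have : w = z - (z - w) := by ring
            calc ‖w‖ = ‖z - (z - w)‖ := by rw [← this]
              _ ≤ ‖z‖ + ‖z - w‖ := norm_sub_le _ _
          linarith
        have e4 : ‖(z - w)⁻¹‖ ≤ 2 / R := by
          rw [norm_inv]
          have := inv_anti₀ (by positivity) e3
          rwa [inv_div] at this
        calc ‖(F w * dbar θR w) * (z - w)⁻¹‖ = ‖F w‖ * ‖dbar θR w‖ * ‖(z - w)⁻¹‖ := by
              rw [norm_mul, norm_mul]
          _ ≤ ε * (C / R) * (2 / R) := by gcongr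
          _ = 2 * ε * C / R ^ 2 := by field_simp
    have hvol : (volume : Measure ℂ) (closedBall (0 : ℂ) (2 * R)) < ⊤ :=
      measure_closedBall_lt_top
    refine (norm_setIntegral_le_of_norm_le_const hvol hbound).trans ?_
    have hv : volume.real (closedBall (0 : ℂ) (2 * R)) = Real.pi * (2 * R) ^ 2 := by
      rw [Measure.real, Complex.volume_closedBall]
      simp only [ENNReal.toReal_mul, ENNReal.toReal_pow, ENNReal.coe_toReal, NNReal.coe_real_pi]
      rw [ENNReal.toReal_ofReal (by positivity)]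
      ring
    rw [hv]
    apply le_of_eq
    field_simp
    ring
  have hfin : ‖(∫ w, dbar F w * (z - w)⁻¹) - Real.pi * F z‖ ≤ 0 := by
    apply le_of_forall_pos_le_add
    intro ε hε
    have h1 := key (ε / (8 * Real.pi * C + 1)) (by positivity)
    refine h1.trans ?_
    have h2 : (8 * Real.pi * C) * (ε / (8 * Real.pi * C + 1)) ≤ ε := by
      rw [mul_div_assoc', div_le_iff₀ (by positivity)]
      nlinarith
    linarith
  have := norm_le_zero_iff.1 hfin
  exact sub_eq_zero.1 this

end Pool.Agent.H761R2.SV
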