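import Pool.Agent.H761R2.SV.Pomp

/-! Module HOL: continuity and Cauchy–Pompeiu representations for `f · s^(n+1)`. -/

set_option autoImplicit false
open Complex MeasureTheory Filter Topology
open scoped ContDiff ComplexConjugate

namespace Pool.Agent.H761R2.SV

theorem dbar_mulA {f g : ℂ → ℂ} {z : ℂ} (hf : DifferentiableAt ℝ f z)
    (hg : DifferentiableAt ℝ g z) :
    dbar (fun w => f w * g w) z = dbar f z * g z + f z * dbar g z := by
  unfold dbar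
  have h : fderiv ℝ (fun w => f w * g w) z = f z • fderiv ℝ g z + g z • fderiv ℝ f z :=
    fderiv_fun_mul hf hg
  rw [h]
  simp only [_root_.add_apply, _root_.smul_apply, smul_eq_mul]
  ring

theorem dbar_add {f g : ℂ → ℂ} {z : ℂ} (hf : DifferentiableAt ℝ f z)
    (hg : DifferentiableAt ℝ g z) :
    dbar (fun w => f w + g w) z = dbar f z + dbar g z := by
  unfold dbar
  have h : fderiv ℝ (fun w => f w + g w) z = fderiv ℝ f z + fderiv ℝ g z :=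
    fderiv_fun_add hf hg
  rw [h]
  simp only [_root_.add_apply]
  ring

theorem dbar_hol {f : ℂ → ℂ} {z : ℂ} (hf : DifferentiableAt ℂ f z) : dbar f z = 0 := by
  unfold dbar
  have h : fderiv ℝ f z = (fderiv ℂ f z).restrictScalars ℝ := hf.fderiv_restrictScalars ℝ
  rw [h]
  simp only [ContinuousLinearMap.coe_restrictScalars']
  have h2 : fderiv ℂ f z I = I * fderiv ℂ f z 1 := by
    have := (fderiv ℂ f z).map_smul I 1
    rw [smul_eq_mul, mul_one, smul_eq_mul] at this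
    exact this
  rw [h2, ← mul_assoc, I_mul_I]
  ring

theorem dbar_congr {f g : ℂ → ℂ} {z : ℂ} (h : f =ᶠ[𝓝 z] g) : dbar f z = dbar g z := by
  unfold dbar
  rw [h.fderiv_eq]

theorem dbarR_congr {s t : ℂ → ℝ} {z : ℂ} (h : s =ᶠ[𝓝 z] t) : dbarR s z = dbarR t z := by
  unfold dbarR
  rw [h.fderiv_eq]

theorem dbar_const (c : ℂ) (z : ℂ) : dbar (fun _ => c) z = 0 := by
  unfold dbar
  simp

theorem dbarR_const (c : ℝ) (z : ℂ) : dbarR (fun _ => c) z = 0 := by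
  unfold dbarR
  simp

theorem dbar_ofReal {s : ℂ → ℝ} {z : ℂ} (hs : DifferentiableAt ℝ s z) :
    dbar (fun w => ((s w : ℝ) : ℂ)) z = dbarR s z := by
  unfold dbar dbarR
  have h : fderiv ℝ (fun w => ((s w : ℝ) : ℂ)) z = Complex.ofRealCLM.comp (fderiv ℝ s z) := by
    have := (Complex.ofRealCLM.hasFDerivAt (x := s z)).comp z hs.hasFDerivAt
    exact this.fderiv
  rw [h]
  simp

theorem dbar_pow_real {s : ℂ → ℝ} {z : ℂ} (hs : DifferentiableAt ℝ s z) (n : ℕ) :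
    dbar (fun w => ((s w : ℝ) : ℂ) ^ (n + 1)) z
      = ((n : ℂ) + 1) * ((s z : ℝ) : ℂ) ^ n * dbarR s z := by
  have hS : DifferentiableAt ℝ (fun w => ((s w : ℝ) : ℂ)) z :=
    (Complex.ofRealCLM.differentiableAt).comp z hs
  induction n with
  | zero =>
    simp only [zero_add, pow_one, Nat.cast_zero, pow_zero, mul_one, one_mul]
    exact dbar_ofReal hs
  | succ n ih =>
    have h1 : (fun w => ((s w : ℝ) : ℂ) ^ (n + 1 + 1))
        = fun w => ((s w : ℝ) : ℂ) ^ (n + 1) * ((s w : ℝ) : ℂ) := by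
      funext w
      rw [pow_succ]
    have hSp : DifferentiableAt ℝ (fun w => ((s w : ℝ) : ℂ) ^ (n + 1)) z := hS.pow (n + 1)
    rw [h1, dbar_mulA hSp hS, ih, dbar_ofReal hs]
    push_cast
    ring

section
variable {Ω : Set ℂ} {s : ℂ → ℝ}

theorem contDiff_S (hs : ContDiff ℝ ∞ s) (n : ℕ) :
    ContDiff ℝ ∞ (fun w => ((s w : ℝ) : ℂ) ^ (n + 1)) :=
  (Complex.ofRealCLM.contDiff.comp hs).pow (n + 1)

theorem hol_at (hΩ : IsOpen Ω) {f : ℂ → ℂ} (hf : DifferentiableOn ℂ f Ω) {z : ℂ} (hz : z ∈ Ω) :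
    ContDiffAt ℝ ∞ f z :=
  ((hf.contDiffOn hΩ).contDiffAt (hΩ.mem_nhds hz)).restrict_scalars ℝ

theorem fS_contDiff (hΩ : IsOpen Ω) (hs : ContDiff ℝ ∞ s) (hts : tsupport s ⊆ Ω) {f : ℂ → ℂ}
    (hf : DifferentiableOn ℂ f Ω) (n : ℕ) :
    ContDiff ℝ ∞ (fun w => f w * ((s w : ℝ) : ℂ) ^ (n + 1)) := by
  rw [contDiff_iff_contDiffAt]
  intro z
  by_cases hz : z ∈ Ω
  · exact (hol_at hΩ hf hz).mul (contDiff_S hs n).contDiffAt
  · have h0 : s =ᶠ[𝓝 z] 0 := notMem_tsupport_iff_eventuallyEq.1 (fun h => hz (hts h))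
    have h1 : (fun w => f w * ((s w : ℝ) : ℂ) ^ (n + 1)) =ᶠ[𝓝 z] fun _ => 0 := by
      filter_upwards [h0] with w hw
      rw [hw]
      simp
    exact contDiffAt_const.congr_of_eventuallyEq h1

theorem fS_dbar (hΩ : IsOpen Ω) (hs : ContDiff ℝ ∞ s) (hts : tsupport s ⊆ Ω) {f : ℂ → ℂ}
    (hf : DifferentiableOn ℂ f Ω) (n : ℕ) (z : ℂ) :
    dbar (fun w => f w * ((s w : ℝ) : ℂ) ^ (n + 1)) z
      = f z * (((n : ℂ) + 1) * ((s z : ℝ) : ℂ) ^ n * dbarR s z) := by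
  have hsd : DifferentiableAt ℝ s z := (hs.differentiable (by simp)).differentiableAt
  by_cases hz : z ∈ Ω
  · have hfz : DifferentiableAt ℂ f z := hf.differentiableAt (hΩ.mem_nhds hz)
    have hSd : DifferentiableAt ℝ (fun w => ((s w : ℝ) : ℂ) ^ (n + 1)) z :=
      ((contDiff_S hs n).differentiable (by simp)).differentiableAt
    rw [dbar_mulA (hfz.restrictScalars ℝ) hSd, dbar_hol hfz, dbar_pow_real hsd]
    ring
  · have h0 : s =ᶠ[𝓝 z] 0 := notMem_tsupport_iff_eventuallyEq.1 (fun h => hz (hts h))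
    have h1 : (fun w => f w * ((s w : ℝ) : ℂ) ^ (n + 1)) =ᶠ[𝓝 z] fun _ => 0 := by
      filter_upwards [h0] with w hw
      rw [hw]
      simp
    have h0' : s =ᶠ[𝓝 z] fun _ => (0:ℝ) := h0
    rw [dbar_congr h1, dbar_const, dbarR_congr h0', dbarR_const]
    ring

theorem pole_contDiff (hs : ContDiff ℝ ∞ s) {q : ℂ} (hq : ∀ᶠ z in 𝓝 q, s z = 1) (n : ℕ) :
    ContDiff ℝ ∞ (fun w => (((s w : ℝ) : ℂ) ^ (n + 1) - 1) * (w - q)⁻¹) := by
  rw [contDiff_iff_contDiffAt]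
  intro z
  by_cases hz : z = q
  · subst hz
    have h1 : (fun w => (((s w : ℝ) : ℂ) ^ (n + 1) - 1) * (w - z)⁻¹) =ᶠ[𝓝 z] fun _ => 0 := by
      filter_upwards [hq] with w hw
      rw [hw]
      simp
    exact contDiffAt_const.congr_of_eventuallyEq h1
  · have h2 : ContDiffAt ℝ ∞ (fun w : ℂ => (w - q)⁻¹) z := by
      apply ContDiffAt.inv
      · fun_prop
      · exact sub_ne_zero.2 hz
    exact ((contDiff_S hs n).contDiffAt.sub contDiffAt_const).mul h2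

theorem pole_dbar (hs : ContDiff ℝ ∞ s) {q : ℂ} (hq : ∀ᶠ z in 𝓝 q, s z = 1) (n : ℕ) (z : ℂ) :
    dbar (fun w => (((s w : ℝ) : ℂ) ^ (n + 1) - 1) * (w - q)⁻¹) z
      = (z - q)⁻¹ * (((n : ℂ) + 1) * ((s z : ℝ) : ℂ) ^ n * dbarR s z) := by
  have hsd : DifferentiableAt ℝ s z := (hs.differentiable (by simp)).differentiableAt
  have hSd : DifferentiableAt ℝ (fun w => ((s w : ℝ) : ℂ) ^ (n + 1)) z :=
    ((contDiff_S hs n).differentiable (by simp)).differentiableAt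
  by_cases hz : z = q
  · subst hz
    have h1 : (fun w => (((s w : ℝ) : ℂ) ^ (n + 1) - 1) * (w - z)⁻¹) =ᶠ[𝓝 z] fun _ => 0 := by
      filter_upwards [hq] with w hw
      rw [hw]
      simp
    rw [dbar_congr h1, dbar_const]
    simp
  · have h2 : DifferentiableAt ℂ (fun w : ℂ => (w - q)⁻¹) z := by
      apply DifferentiableAt.inv
      · fun_prop
      · exact sub_ne_zero.2 hz
    have h3 : (fun w => ((s w : ℝ) : ℂ) ^ (n + 1) - 1)
        = fun w => ((s w : ℝ) : ℂ) ^ (n + 1) + (-1) := by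
      funext w
      ring
    have h4 : dbar (fun w => ((s w : ℝ) : ℂ) ^ (n + 1) - 1) z
        = ((n : ℂ) + 1) * ((s z : ℝ) : ℂ) ^ n * dbarR s z := by
      rw [h3, dbar_add hSd (differentiableAt_const _), dbar_pow_real hsd, dbar_const, add_zero]
    rw [dbar_mulA (hSd.sub_const _) (h2.restrictScalars ℝ), h4, dbar_hol h2]
    ring

theorem pole_eq (f : ℂ → ℂ) (s : ℂ → ℝ) (q : ℂ) (n : ℕ) (w : ℂ) :
    (f w - (w - q)⁻¹) * ((s w : ℝ) : ℂ) ^ (n + 1) + (((s w : ℝ) : ℂ) ^ (n + 1) - 1) * (w - q)⁻¹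
      = f w * ((s w : ℝ) : ℂ) ^ (n + 1) - (w - q)⁻¹ := by
  ring

theorem pole_F (hΩ : IsOpen Ω) (hs : ContDiff ℝ ∞ s) (hts : tsupport s ⊆ Ω) {q : ℂ}
    (hq : ∀ᶠ z in 𝓝 q, s z = 1) {f : ℂ → ℂ}
    (hf : DifferentiableOn ℂ (fun z => f z - (z - q)⁻¹) Ω) (n : ℕ) :
    ContDiff ℝ ∞ (fun w => f w * ((s w : ℝ) : ℂ) ^ (n + 1) - (w - q)⁻¹) ∧
    ∀ z, dbar (fun w => f w * ((s w : ℝ) : ℂ) ^ (n + 1) - (w - q)⁻¹) z
      = f z * (((n : ℂ) + 1) * ((s z : ℝ) : ℂ) ^ n * dbarR s z) := by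
  have e : (fun w => f w * ((s w : ℝ) : ℂ) ^ (n + 1) - (w - q)⁻¹)
      = fun w => (f w - (w - q)⁻¹) * ((s w : ℝ) : ℂ) ^ (n + 1)
        + (((s w : ℝ) : ℂ) ^ (n + 1) - 1) * (w - q)⁻¹ := by
    funext w
    rw [pole_eq]
  rw [e]
  have c1 := fS_contDiff hΩ hs hts hf n
  have c2 := pole_contDiff hs hq n
  refine ⟨c1.add c2, ?_⟩
  intro z
  rw [dbar_add (c1.differentiable (by simp)).differentiableAt
    (c2.differentiable (by simp)).differentiableAt, fS_dbar hΩ hs hts hf n z, pole_dbar hs hq n z]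
  ring

/-- Module HOL, continuity -/
theorem hol_cont (hΩ : IsOpen Ω) (hs : ContDiff ℝ ∞ s)
    (hts : tsupport s ⊆ Ω) (q : ℂ) (hq : ∀ᶠ z in 𝓝 q, s z = 1) {f : ℂ → ℂ}
    (hf : DifferentiableOn ℂ (fun z => f z - (z - q)⁻¹) Ω) (n : ℕ) :
    Continuous (fun w => f w * (((n : ℂ) + 1) * ((s w : ℝ) : ℂ) ^ n * dbarR s w)) := by
  obtain ⟨h1, h2⟩ := pole_F hΩ hs hts hq hf n
  have h3 := continuous_dbar (h1.of_le (by simp))
  have h4 : (fun w => f w * (((n : ℂ) + 1) * ((s w : ℝ) : ℂ) ^ n * dbarR s w))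
      = dbar (fun w => f w * ((s w : ℝ) : ℂ) ^ (n + 1) - (w - q)⁻¹) := by
    funext z
    rw [h2]
  rw [h4]
  exact h3

theorem tendsto_fS (h01 : ∀ z, 0 ≤ s z ∧ s z ≤ 1) {f : ℂ → ℂ}
    (h0 : Tendsto f (cocompact ℂ) (𝓝 0)) (n : ℕ) :
    Tendsto (fun w => f w * ((s w : ℝ) : ℂ) ^ (n + 1)) (cocompact ℂ) (𝓝 0) := by
  have h1 : Tendsto (fun w => ‖f w‖) (cocompact ℂ) (𝓝 0) := by
    have := h0.norm
    rwa [norm_zero] at this
  refine squeeze_zero_norm ?_ h1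
  intro w
  rw [norm_mul, norm_pow, Complex.norm_real, Real.norm_eq_abs, abs_of_nonneg (h01 w).1]
  have : s w ^ (n + 1) ≤ 1 := pow_le_one₀ (h01 w).1 (h01 w).2
  nlinarith [norm_nonneg (f w)]

theorem tendsto_pole (q : ℂ) : Tendsto (fun w : ℂ => (w - q)⁻¹) (cocompact ℂ) (𝓝 0) := by
  have h1 : Tendsto (fun w : ℂ => w - q) (cocompact ℂ) (cocompact ℂ) :=
    (Homeomorph.subRight q).isClosedEmbedding.tendsto_cocompact
  rw [← Metric.cobounded_eq_cocompact] at h1 ⊢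
  exact (tendsto_inv₀_cobounded (α := ℂ)).comp h1

/-- Module HOL, representation without pole -/
theorem hol_rep (hΩ : IsOpen Ω) (hs : ContDiff ℝ ∞ s)
    (h01 : ∀ z, 0 ≤ s z ∧ s z ≤ 1) (hts : tsupport s ⊆ Ω) (hcs : HasCompactSupport (dbarR s))
    {f : ℂ → ℂ} (hf : DifferentiableOn ℂ f Ω) (h0 : Tendsto f (cocompact ℂ) (𝓝 0)) (n : ℕ) (z : ℂ) :
    ∫ w, f w * (((n : ℂ) + 1) * ((s w : ℝ) : ℂ) ^ n * dbarR s w) * (z - w)⁻¹ =
      Real.pi * (f z * ((s z : ℝ) : ℂ) ^ (n + 1)) := by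
  have c1 := fS_contDiff hΩ hs hts hf n
  have e : dbar (fun w => f w * ((s w : ℝ) : ℂ) ^ (n + 1))
      = fun z => (f z * (((n : ℂ) + 1) * ((s z : ℝ) : ℂ) ^ n)) * dbarR s z := by
    funext z
    rw [fS_dbar hΩ hs hts hf n z]
    ring
  have hc : HasCompactSupport (dbar (fun w => f w * ((s w : ℝ) : ℂ) ^ (n + 1))) := by
    rw [e]
    exact hcs.mul_left
  rw [← pompeiu (c1.of_le (by simp)) hc (tendsto_fS h01 h0 n) z, e]
  congr 1
  funext w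
  ring

/-- Module HOL, representation with a pole at `q` -/
theorem pole_rep (hΩ : IsOpen Ω) (hs : ContDiff ℝ ∞ s)
    (h01 : ∀ z, 0 ≤ s z ∧ s z ≤ 1) (hts : tsupport s ⊆ Ω) (hcs : HasCompactSupport (dbarR s))
    (q : ℂ) (hq : ∀ᶠ z in 𝓝 q, s z = 1)
    {f : ℂ → ℂ} (hf : DifferentiableOn ℂ (fun z => f z - (z - q)⁻¹) Ω)
    (h0 : Tendsto f (cocompact ℂ) (𝓝 0)) (n : ℕ) (z : ℂ) :
    ∫ w, f w * (((n : ℂ) + 1) * ((s w : ℝ) : ℂ) ^ n * dbarR s w) * (z - w)⁻¹ =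
      Real.pi * (f z * ((s z : ℝ) : ℂ) ^ (n + 1) - (z - q)⁻¹) := by
  obtain ⟨c1, h2⟩ := pole_F hΩ hs hts hq hf n
  have e : dbar (fun w => f w * ((s w : ℝ) : ℂ) ^ (n + 1) - (w - q)⁻¹)
      = fun z => (f z * (((n : ℂ) + 1) * ((s z : ℝ) : ℂ) ^ n)) * dbarR s z := by
    funext z
    rw [h2 z]
    ring
  have hc : HasCompactSupport
      (dbar (fun w => f w * ((s w : ℝ) : ℂ) ^ (n + 1) - (w - q)⁻¹)) := by
    rw [e]
    exact hcs.mul_left
  have ht : Tendsto (fun w => f w * ((s w : ℝ) : ℂ) ^ (n + 1) - (w - q)⁻¹)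
      (cocompact ℂ) (𝓝 0) := by
    have := (tendsto_fS h01 h0 n).sub (tendsto_pole q)
    rwa [sub_zero] at this
  rw [← pompeiu (c1.of_le (by simp)) hc ht z, e]
  congr 1
  funext w
  ring

end

end Pool.Agent.H761R2.SV
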