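import Pool.Agent.H761R2.SV.Rho

set_option autoImplicit false
open Matrix Finset Complex MeasureTheory Filter Topology
open scoped ComplexConjugate

namespace Pool.Agent.H761R2.SV

section
variable {ι : Type} [Fintype ι] [DecidableEq ι]

lemma Gm_mulVec_inl (x : ι → ℂ) (m : ι → ℝ) (v : ι ⊕ ι → ℂ) (i : ι) :
    (Gm x m).mulVec v (Sum.inl i) = ((m i)⁻¹ : ℝ) * v (Sum.inl i) +
      ∑ j, (x i - x j)⁻¹ * v (Sum.inr j) := by
  simp only [Gm, Matrix.mulVec, dotProduct, Matrix.add_apply, add_mul, Finset.sum_add_distrib,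
    Fintype.sum_sum_type]
  have h1 : ∑ j : ι, (diagonal (fun i => ((dd m i : ℝ) : ℂ)) : Matrix (ι ⊕ ι) (ι ⊕ ι) ℂ)
      (Sum.inl i) (Sum.inl j) * v (Sum.inl j) = ((m i)⁻¹ : ℝ) * v (Sum.inl i) := by
    rw [Finset.sum_eq_single i]
    · simp [dd]
    · intro b _ hb; rw [diagonal_apply_ne _ (by simpa using Ne.symm hb), zero_mul]
    · simp
  have h2 : ∑ j : ι, (diagonal (fun i => ((dd m i : ℝ) : ℂ)) : Matrix (ι ⊕ ι) (ι ⊕ ι) ℂ)
      (Sum.inl i) (Sum.inr j) * v (Sum.inr j) = 0 :=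
    Finset.sum_eq_zero fun j _ => by rw [diagonal_apply_ne _ (by simp), zero_mul]
  have h3 : ∑ j : ι, Lam x x (Sum.inl i) (Sum.inl j) * v (Sum.inl j) = 0 :=
    Finset.sum_eq_zero fun j _ => by simp [Lam, entM, lab]
  have h4 : ∑ j : ι, Lam x x (Sum.inl i) (Sum.inr j) * v (Sum.inr j) =
      ∑ j, (x i - x j)⁻¹ * v (Sum.inr j) :=
    Finset.sum_congr rfl fun j _ => by simp [Lam, entM, lab]
  rw [h1, h2, h3, h4]
  ring

lemma Gm_mulVec_inr (x : ι → ℂ) (m : ι → ℝ) (v : ι ⊕ ι → ℂ) (i : ι) :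
    (Gm x m).mulVec v (Sum.inr i) = ((m i)⁻¹ : ℝ) * v (Sum.inr i) +
      ∑ j, (-conj ((x j - x i)⁻¹)) * v (Sum.inl j) := by
  simp only [Gm, Matrix.mulVec, dotProduct, Matrix.add_apply, add_mul, Finset.sum_add_distrib,
    Fintype.sum_sum_type]
  have h1 : ∑ j : ι, (diagonal (fun i => ((dd m i : ℝ) : ℂ)) : Matrix (ι ⊕ ι) (ι ⊕ ι) ℂ)
      (Sum.inr i) (Sum.inr j) * v (Sum.inr j) = ((m i)⁻¹ : ℝ) * v (Sum.inr i) := by
    rw [Finset.sum_eq_single i]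
    · simp [dd]
    · intro b _ hb; rw [diagonal_apply_ne _ (by simpa using Ne.symm hb), zero_mul]
    · simp
  have h2 : ∑ j : ι, (diagonal (fun i => ((dd m i : ℝ) : ℂ)) : Matrix (ι ⊕ ι) (ι ⊕ ι) ℂ)
      (Sum.inr i) (Sum.inl j) * v (Sum.inl j) = 0 :=
    Finset.sum_eq_zero fun j _ => by rw [diagonal_apply_ne _ (by simp), zero_mul]
  have h3 : ∑ j : ι, Lam x x (Sum.inr i) (Sum.inr j) * v (Sum.inr j) = 0 :=
    Finset.sum_eq_zero fun j _ => by simp [Lam, entM, lab]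
  have h4 : ∑ j : ι, Lam x x (Sum.inr i) (Sum.inl j) * v (Sum.inl j) =
      ∑ j, (-conj ((x j - x i)⁻¹)) * v (Sum.inl j) :=
    Finset.sum_congr rfl fun j _ => by
      show ent (false, x i) (true, x j) * _ = _
      rw [ent_BA]
  rw [h1, h2, h3, h4]
  ring

end

lemma sqrt_sum_le {ι : Type} [Fintype ι] (m : ι → ℝ) (hm : ∀ i, 0 < m i) (f : ι → ℝ) (D A : ℝ)
    (hD : 0 ≤ D) (hf0 : ∀ i, 0 ≤ f i) (hf : ∀ i, f i ≤ D) (hA : ∑ i, m i ≤ A) :
    Real.sqrt (∑ i, m i * f i ^ 2) ≤ D * Real.sqrt A := by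
  have h1 : ∑ i, m i * f i ^ 2 ≤ D ^ 2 * A := by
    calc ∑ i, m i * f i ^ 2 ≤ ∑ i, m i * D ^ 2 := Finset.sum_le_sum fun i _ =>
          mul_le_mul_of_nonneg_left (pow_le_pow_left₀ (hf0 i) (hf i) 2) (hm i).le
      _ = D ^ 2 * ∑ i, m i := by rw [← Finset.sum_mul, mul_comm]
      _ ≤ _ := mul_le_mul_of_nonneg_left hA (sq_nonneg D)
  calc _ ≤ Real.sqrt (D ^ 2 * A) := Real.sqrt_le_sqrt h1
    _ = D * Real.sqrt A := by rw [Real.sqrt_mul (sq_nonneg D), Real.sqrt_sq hD]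

lemma disc {g : ℂ → ℝ} (hg : Continuous g) (hg0 : ∀ z, 0 ≤ g z) (hgc : HasCompactSupport g)
    (p q : ℂ) (hp : p ∉ tsupport g) {f1 f2 F1 F2 : ℂ → ℂ} (hf1 : Continuous f1) (hf2 : Continuous f2)
    (z1 : ∀ z, g z = 0 → f1 z = 0) (z2 : ∀ z, g z = 0 → f2 z = 0)
    (hF1 : ∀ z, ∫ w, f1 w * (z - w)⁻¹ = F1 z) (hF2 : ∀ z, ∫ w, f2 w * (z - w)⁻¹ = F2 z)
    {h : ℂ → ℝ} (hh : Continuous h)
    (b1 : ∀ z, g z ≠ 0 → ‖conj (f2 z) / (g z : ℂ) + F1 z‖ ≤ h z)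
    (b2 : ∀ z, g z ≠ 0 → ‖f1 z / (g z : ℂ) + conj (F2 z) + conj ((z - q)⁻¹)‖ ≤ h z)
    {A H D : ℝ} (hA : ∫ z, g z < A) (hH : 4 * ∫ z, g z * h z ^ 2 < H) (hD0 : 0 ≤ D)
    (hD : ∀ z, g z ≠ 0 → ‖(p - z)⁻¹‖ ≤ D) {η : ℝ} (hη : 0 < η) :
    ∀ᶠ δ : ℝ in 𝓝[>] 0,
      ‖KB (xg g δ) (mg g δ) p q - F1 p‖ ≤ η + D * Real.sqrt A * Real.sqrt H ∧
      ‖LB (xg g δ) (mg g δ) p q - ((p - q)⁻¹ + F2 p)‖ ≤ η + D * Real.sqrt A * Real.sqrt H := by
  have hA0 : 0 < A := lt_of_le_of_lt (integral_nonneg hg0) hA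
  set G2 := ∫ z, g z * h z ^ 2 with hG2
  set e := Real.sqrt ((H - 4 * G2) / (16 * A)) with he
  have hep : 0 < e := Real.sqrt_pos.2 (div_pos (by linarith) (by positivity))
  have he2 : e ^ 2 = (H - 4 * G2) / (16 * A) := Real.sq_sqrt (div_pos (by linarith) (by positivity)).le
  have c1 : ∀ᶠ δ : ℝ in 𝓝[>] 0, ∑ i : Tg g δ, mg g δ i ≤ A :=
    ((sum_mg_one hg hgc).eventually (gt_mem_nhds hA)).mono fun δ h => h.le
  have c2 : ∀ᶠ δ : ℝ in 𝓝[>] 0, ∑ i : Tg g δ, mg g δ i * h (xg g δ i) ^ 2 < G2 + (H - 4 * G2) / 16 :=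
    (sum_mg hg hgc (h := fun z => h z ^ 2) (hh.pow 2)).eventually (gt_mem_nhds (by linarith))
  have c3 := sum_site hgc hf1 z1 hep
  have c4 := sum_site hgc hf2 z2 hep
  have c5 : ∀ᶠ δ : ℝ in 𝓝[>] 0,
      ‖∑ i : Tg g δ, (δ : ℂ) ^ 2 * f1 (xg g δ i) * (p - xg g δ i)⁻¹ - F1 p‖ < η := by
    have := sum_eval hgc hf1 z1 hp
    rw [hF1] at this
    have h2 := (tendsto_iff_norm_sub_tendsto_zero.1 this).eventually (gt_mem_nhds hη)
    exact h2
  have c6 : ∀ᶠ δ : ℝ in 𝓝[>] 0,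
      ‖∑ i : Tg g δ, (δ : ℂ) ^ 2 * f2 (xg g δ i) * (p - xg g δ i)⁻¹ - F2 p‖ < η := by
    have := sum_eval hgc hf2 z2 hp
    rw [hF2] at this
    have h2 := (tendsto_iff_norm_sub_tendsto_zero.1 this).eventually (gt_mem_nhds hη)
    exact h2
  filter_upwards [c1, c2, c3, c4, c5, c6, self_mem_nhdsWithin] with δ d1 d2 d3 d4 d5 d6 hδ
  have hδ' : 0 < δ := hδ
  have hm := mg_pos hg0 hgc hδ'
  have hgi : ∀ i : Tg g δ, g (xg g δ i) ≠ 0 := fun i => (mem_Tg hgc hδ' i).1 i.2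
  simp only [hF1] at d3
  simp only [hF2] at d4
  set x := xg g δ with hx
  set m := mg g δ with hmm
  set v : Tg g δ ⊕ Tg g δ → ℂ := Sum.elim (fun i => - conj ((δ : ℂ) ^ 2 * f2 (x i)))
    (fun i => - ((δ : ℂ) ^ 2 * f1 (x i))) with hv
  have hmi : ∀ i, (((m i)⁻¹ : ℝ) : ℂ) * (δ : ℂ) ^ 2 = ((g (x i) : ℝ) : ℂ)⁻¹ := by
    intro i
    have h1 : m i = δ ^ 2 * g (x i) := rfl
    have h2 : (δ : ℂ) ≠ 0 := by exact_mod_cast hδ'.ne'
    rw [h1, mul_inv]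
    push_cast
    field_simp
  -- residuals
  have r1 : ∀ i, ‖(Gm x m).mulVec v (Sum.inl i) - ent (lab x x (Sum.inl i)) (true, q)‖ ≤ h (x i) + e := by
    intro i
    have e1 : (Gm x m).mulVec v (Sum.inl i) - ent (lab x x (Sum.inl i)) (true, q) =
        -(conj (f2 (x i)) / (g (x i) : ℂ) + F1 (x i)) -
          (∑ j : Tg g δ, (δ : ℂ) ^ 2 * f1 (x j) * (x i - x j)⁻¹ - F1 (x i)) := by
      rw [Gm_mulVec_inl]
      simp only [hv, Sum.elim_inl, Sum.elim_inr, lab, ent_AA, map_mul, map_pow, Complex.conj_ofReal]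
      have e2 : ∑ j : Tg g δ, (x i - x j)⁻¹ * -((δ : ℂ) ^ 2 * f1 (x j)) =
          - ∑ j : Tg g δ, (δ : ℂ) ^ 2 * f1 (x j) * (x i - x j)⁻¹ := by
        rw [← Finset.sum_neg_distrib]
        exact Finset.sum_congr rfl fun j _ => by ring
      rw [e2]
      have e3 := hmi i
      linear_combination (-conj (f2 (x i))) * e3
    rw [e1]
    calc _ ≤ ‖-(conj (f2 (x i)) / (g (x i) : ℂ) + F1 (x i))‖ + _ := norm_sub_le _ _
      _ ≤ _ := by rw [norm_neg]; exact add_le_add (b1 _ (hgi i)) (d3 i)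
  have r2 : ∀ i, ‖(Gm x m).mulVec v (Sum.inr i) - ent (lab x x (Sum.inr i)) (true, q)‖ ≤ h (x i) + e := by
    intro i
    have e1 : (Gm x m).mulVec v (Sum.inr i) - ent (lab x x (Sum.inr i)) (true, q) =
        -(f1 (x i) / (g (x i) : ℂ) + conj (F2 (x i)) + conj ((x i - q)⁻¹)) -
          conj (∑ j : Tg g δ, (δ : ℂ) ^ 2 * f2 (x j) * (x i - x j)⁻¹ - F2 (x i)) := by
      rw [Gm_mulVec_inr]
      simp only [hv, Sum.elim_inl, Sum.elim_inr, lab, ent_BA]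
      have e2 : ∑ j : Tg g δ, -conj ((x j - x i)⁻¹) * -conj ((δ : ℂ) ^ 2 * f2 (x j)) =
          - conj (∑ j : Tg g δ, (δ : ℂ) ^ 2 * f2 (x j) * (x i - x j)⁻¹) := by
        rw [map_sum, ← Finset.sum_neg_distrib]
        refine Finset.sum_congr rfl fun j _ => ?_
        have e5 : conj ((x j - x i)⁻¹) = - conj ((x i - x j)⁻¹) := by
          rw [← neg_sub (x i) (x j), inv_neg, map_neg]
        rw [e5]
        simp only [map_mul]
        ring
      have e4 : conj ((q - x i)⁻¹) = - conj ((x i - q)⁻¹) := by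
        rw [← neg_sub (x i) q, inv_neg, map_neg]
      rw [e2, e4, map_sub]
      have e3 := hmi i
      linear_combination (-(f1 (x i))) * e3
    rw [e1]
    calc _ ≤ ‖-(f1 (x i) / (g (x i) : ℂ) + conj (F2 (x i)) + conj ((x i - q)⁻¹))‖ + _ := norm_sub_le _ _
      _ ≤ _ := by rw [norm_neg, Complex.norm_conj]; exact add_le_add (b2 _ (hgi i)) (d4 i)
  have hres : ∑ i, (dd m i)⁻¹ * ‖(Gm x m).mulVec v i - ent (lab x x i) (true, q)‖ ^ 2 ≤ H := by
    rw [Fintype.sum_sum_type]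
    have hb : ∀ i, m i * (h (x i) + e) ^ 2 ≤ 2 * (m i * h (x i) ^ 2) + 2 * e ^ 2 * m i := by
      intro i
      have h1 := (hm i).le
      nlinarith [mul_nonneg h1 (sq_nonneg (h (x i) - e))]
    have s1 : ∑ i : Tg g δ, (dd m (Sum.inl i))⁻¹ *
        ‖(Gm x m).mulVec v (Sum.inl i) - ent (lab x x (Sum.inl i)) (true, q)‖ ^ 2 ≤
        ∑ i, m i * (h (x i) + e) ^ 2 := by
      refine Finset.sum_le_sum fun i _ => ?_
      have : (dd m (Sum.inl i))⁻¹ = m i := by simp [dd]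
      rw [this]
      exact mul_le_mul_of_nonneg_left (pow_le_pow_left₀ (norm_nonneg _) (r1 i) 2) (hm i).le
    have s2 : ∑ i : Tg g δ, (dd m (Sum.inr i))⁻¹ *
        ‖(Gm x m).mulVec v (Sum.inr i) - ent (lab x x (Sum.inr i)) (true, q)‖ ^ 2 ≤
        ∑ i, m i * (h (x i) + e) ^ 2 := by
      refine Finset.sum_le_sum fun i _ => ?_
      have : (dd m (Sum.inr i))⁻¹ = m i := by simp [dd]
      rw [this]
      exact mul_le_mul_of_nonneg_left (pow_le_pow_left₀ (norm_nonneg _) (r2 i) 2) (hm i).le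
    have s3 : ∑ i, m i * (h (x i) + e) ^ 2 ≤ 2 * (∑ i, m i * h (x i) ^ 2) + 2 * e ^ 2 * ∑ i, m i := by
      rw [Finset.mul_sum, Finset.mul_sum, ← Finset.sum_add_distrib]
      exact Finset.sum_le_sum fun i _ => hb i
    have s4 : e ^ 2 * ∑ i, m i ≤ (H - 4 * G2) / 16 := by
      calc e ^ 2 * ∑ i, m i ≤ e ^ 2 * A := mul_le_mul_of_nonneg_left d1 (sq_nonneg e)
        _ = (H - 4 * G2) / 16 := by rw [he2]; field_simp
    linarith
  -- evaluation rows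
  have hrow : ∀ r : Bool × ℂ, r.2 = p → 
      Real.sqrt (∑ i, (dd m i)⁻¹ * ‖ent r (lab x x i)‖ ^ 2) ≤ D * Real.sqrt A := by
    rintro ⟨t, p'⟩ hr
    simp only at hr
    subst hr
    have s1 : ∑ i, (dd m i)⁻¹ * ‖ent (t, p') (lab x x i)‖ ^ 2 = ∑ i, m i * ‖(p' - x i)⁻¹‖ ^ 2 := by
      rw [Fintype.sum_sum_type]
      cases t
      · have : ∀ i : Tg g δ, (dd m (Sum.inr i))⁻¹ * ‖ent (false, p') (lab x x (Sum.inr i))‖ ^ 2 = 0 := by
          intro i; simp [lab]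
        rw [Finset.sum_congr rfl (fun i _ => this i), Finset.sum_const_zero, add_zero]
        refine Finset.sum_congr rfl fun i _ => ?_
        have e1 : (dd m (Sum.inl i))⁻¹ = m i := by simp [dd]
        have e2 : ent (false, p') (lab x x (Sum.inl i)) = -conj ((x i - p')⁻¹) := ent_BA _ _
        rw [e1, e2, norm_neg, Complex.norm_conj, norm_inv, norm_sub_rev, ← norm_inv]
      · have : ∀ i : Tg g δ, (dd m (Sum.inl i))⁻¹ * ‖ent (true, p') (lab x x (Sum.inl i))‖ ^ 2 = 0 := by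
          intro i; simp [lab]
        rw [Finset.sum_congr rfl (fun i _ => this i), Finset.sum_const_zero, zero_add]
        refine Finset.sum_congr rfl fun i _ => ?_
        have e1 : (dd m (Sum.inr i))⁻¹ = m i := by simp [dd]
        have e2 : ent (true, p') (lab x x (Sum.inr i)) = (p' - x i)⁻¹ := ent_AB _ _
        rw [e1, e2]
    rw [s1]
    exact sqrt_sum_le m hm _ D A hD0 (fun i => norm_nonneg _) (fun i => hD _ (hgi i)) d1
  have hcoer : ∀ r : Bool × ℂ, r.2 = p →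
      ‖dress x m r (true, q) - (ent r (true, q) - ∑ i, ent r (lab x x i) * v i)‖ ≤
        D * Real.sqrt A * Real.sqrt H := by
    intro r hr
    refine (coer x hm r (true, q) v).trans ?_
    exact mul_le_mul (hrow r hr) (Real.sqrt_le_sqrt hres) (Real.sqrt_nonneg _) (by positivity)
  constructor
  · have h1 := hcoer (true, p) rfl
    have h2 : ent (true, p) (true, q) - ∑ i, ent (true, p) (lab x x i) * v i =
        ∑ i : Tg g δ, (δ : ℂ) ^ 2 * f1 (x i) * (p - x i)⁻¹ := by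
      rw [Fintype.sum_sum_type]
      have e1 : ∑ i : Tg g δ, ent (true, p) (lab x x (Sum.inl i)) * v (Sum.inl i) = 0 :=
        Finset.sum_eq_zero fun i _ => by simp [lab]
      have e2 : ∑ i : Tg g δ, ent (true, p) (lab x x (Sum.inr i)) * v (Sum.inr i) =
          - ∑ i : Tg g δ, (δ : ℂ) ^ 2 * f1 (x i) * (p - x i)⁻¹ := by
        rw [← Finset.sum_neg_distrib]
        refine Finset.sum_congr rfl fun i _ => ?_
        simp only [lab, Sum.elim_inr, ent_AB, hv]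
        ring
      rw [e1, e2, ent_AA]
      ring
    rw [h2] at h1
    calc ‖KB x m p q - F1 p‖ = ‖(dress x m (true, p) (true, q) -
          ∑ i : Tg g δ, (δ : ℂ) ^ 2 * f1 (x i) * (p - x i)⁻¹) +
          (∑ i : Tg g δ, (δ : ℂ) ^ 2 * f1 (x i) * (p - x i)⁻¹ - F1 p)‖ := by
          rw [KB]; congr 1; ring
      _ ≤ _ := (norm_add_le _ _).trans (by linarith [d5.le])
  · have h1 := hcoer (false, p) rfl
    have h2 : ent (false, p) (true, q) - ∑ i, ent (false, p) (lab x x i) * v i =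
        conj ((p - q)⁻¹ + ∑ i : Tg g δ, (δ : ℂ) ^ 2 * f2 (x i) * (p - x i)⁻¹) := by
      rw [Fintype.sum_sum_type]
      have e1 : ∑ i : Tg g δ, ent (false, p) (lab x x (Sum.inr i)) * v (Sum.inr i) = 0 :=
        Finset.sum_eq_zero fun i _ => by simp [lab]
      have e2 : ∑ i : Tg g δ, ent (false, p) (lab x x (Sum.inl i)) * v (Sum.inl i) =
          - conj (∑ i : Tg g δ, (δ : ℂ) ^ 2 * f2 (x i) * (p - x i)⁻¹) := by
        rw [map_sum, ← Finset.sum_neg_distrib]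
        refine Finset.sum_congr rfl fun i _ => ?_
        simp only [lab, Sum.elim_inl, ent_BA, hv]
        have e5 : conj ((x i - p)⁻¹) = - conj ((p - x i)⁻¹) := by
          rw [← neg_sub p (x i), inv_neg, map_neg]
        rw [e5]
        simp only [map_mul]
        ring
      have e4 : conj ((q - p)⁻¹) = - conj ((p - q)⁻¹) := by
        rw [← neg_sub p q, inv_neg, map_neg]
      rw [e1, e2, ent_BA, e4, map_add]
      ring
    rw [h2] at h1
    have h3 : dress x m (false, p) (true, q) = conj (LB x m p q) := dress_swap x hm (true, p) (false, q)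
    rw [h3, ← map_sub, Complex.norm_conj] at h1
    calc ‖LB x m p q - ((p - q)⁻¹ + F2 p)‖ = ‖(LB x m p q - ((p - q)⁻¹ +
          ∑ i : Tg g δ, (δ : ℂ) ^ 2 * f2 (x i) * (p - x i)⁻¹)) +
          (∑ i : Tg g δ, (δ : ℂ) ^ 2 * f2 (x i) * (p - x i)⁻¹ - F2 p)‖ := by
          congr 1; ring
      _ ≤ _ := (norm_add_le _ _).trans (by linarith [d6.le])

end Pool.Agent.H761R2.SV
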