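import Pool.Agent.H761R2.SV.Defs

/-! Module QUAD: Riemann sums and Cauchy sums over a square grid (helper906). -/

set_option autoImplicit false
open Complex MeasureTheory Filter Topology Metric Set
open scoped ENNReal

namespace Pool.Agent.H761R2.SV

namespace Quad

/-! ### The singular integral `∫ ‖w‖⁻¹` over a ball -/

theorem lint_inv {r : ℝ} (hr : 0 ≤ r) :
    ∫⁻ w in ball (0:ℂ) r, ENNReal.ofReal ‖w‖⁻¹ = ENNReal.ofReal (2 * Real.pi * r) := by
  rw [← lintegral_indicator measurableSet_ball, ← Complex.lintegral_comp_polarCoord_symm]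
  have h1 : ∀ p ∈ polarCoord.target, ENNReal.ofReal p.1 •
      (ball (0:ℂ) r).indicator (fun w => ENNReal.ofReal ‖w‖⁻¹) (Complex.polarCoord.symm p)
      = (Set.Ioo (0:ℝ) r ×ˢ Set.univ).indicator (fun _ => (1 : ℝ≥0∞)) p := by
    intro p hp
    have hp1 : 0 < p.1 := by
      rw [polarCoord_target] at hp
      exact hp.1
    by_cases hlt : p.1 < r
    · rw [Set.indicator_of_mem, Set.indicator_of_mem]
      · rw [Complex.norm_polarCoord_symm, abs_of_pos hp1, smul_eq_mul, ← ENNReal.ofReal_mul hp1.le,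
          mul_inv_cancel₀ hp1.ne', ENNReal.ofReal_one]
      · exact ⟨⟨hp1, hlt⟩, Set.mem_univ _⟩
      · rw [mem_ball_zero_iff, Complex.norm_polarCoord_symm, abs_of_pos hp1]
        exact hlt
    · rw [Set.indicator_of_notMem, Set.indicator_of_notMem, smul_zero]
      · intro h; exact hlt h.1.2
      · rw [mem_ball_zero_iff, Complex.norm_polarCoord_symm, abs_of_pos hp1]
        exact hlt
  rw [setLIntegral_congr_fun polarCoord.open_target.measurableSet h1,
    lintegral_indicator (measurableSet_Ioo.prod MeasurableSet.univ), setLIntegral_one,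
    Measure.restrict_apply (measurableSet_Ioo.prod MeasurableSet.univ), polarCoord_target,
    Set.prod_inter_prod, Measure.volume_eq_prod, Measure.prod_prod]
  have h2 : Set.Ioo (0:ℝ) r ∩ Set.Ioi 0 = Set.Ioo 0 r := by
    ext x; simp only [Set.mem_inter_iff, Set.mem_Ioo, Set.mem_Ioi]; tauto
  rw [h2, Set.univ_inter, Real.volume_Ioo, Real.volume_Ioo, ← ENNReal.ofReal_mul (by linarith)]
  congr 1
  ring

theorem integrableOn_inv (r : ℝ) : IntegrableOn (fun w : ℂ => ‖w‖⁻¹) (ball (0:ℂ) r) := by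
  rcases le_or_gt 0 r with hr | hr
  · refine ⟨by fun_prop, ?_⟩
    rw [hasFiniteIntegral_iff_ofReal (ae_of_all _ fun w => by positivity), lint_inv hr]
    exact ENNReal.ofReal_lt_top
  · rw [Metric.ball_eq_empty.2 hr.le]; exact integrableOn_empty

theorem integral_inv {r : ℝ} (hr : 0 ≤ r) :
    ∫ w in ball (0:ℂ) r, ‖w‖⁻¹ = 2 * Real.pi * r := by
  rw [integral_eq_lintegral_of_nonneg_ae (ae_of_all _ fun w => by positivity)
    (by fun_prop), lint_inv hr, ENNReal.toReal_ofReal (by positivity)]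

/-- the function `z ↦ 1_{‖y-z‖<r} ‖y-z‖⁻¹` -/
noncomputable def sing (r : ℝ) (y z : ℂ) : ℝ := (ball (0:ℂ) r).indicator (fun w => ‖w‖⁻¹) (y - z)

theorem sing_nonneg (r : ℝ) (y z : ℂ) : 0 ≤ sing r y z :=
  Set.indicator_nonneg (fun _ _ => by positivity) _

theorem integrable_sing (r : ℝ) (y : ℂ) : Integrable (sing r y) := by
  have := (integrableOn_inv r).integrable_indicator measurableSet_ball
  exact this.comp_sub_left y

theorem integral_sing {r : ℝ} (hr : 0 ≤ r) (y : ℂ) : ∫ z, sing r y z = 2 * Real.pi * r := by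
  have h := integral_sub_left_eq_self (fun w : ℂ => (ball (0:ℂ) r).indicator (fun w => ‖w‖⁻¹) w)
    (volume : Measure ℂ) y
  unfold sing
  rw [h, integral_indicator measurableSet_ball, integral_inv hr]

/-! ### Cells -/

/-- index of the cell containing `z` -/
noncomputable def cell (δ : ℝ) (z : ℂ) : ℤ × ℤ := (⌊z.re / δ⌋, ⌊z.im / δ⌋)

theorem measurable_cell (δ : ℝ) : Measurable (cell δ) := by
  unfold cell
  exact (Int.measurable_floor.comp (by fun_prop)).prodMk (Int.measurable_floor.comp (by fun_prop))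

theorem norm_grid_cell {δ : ℝ} (hδ : 0 < δ) (z : ℂ) : ‖grid δ (cell δ z) - z‖ ≤ 2 * δ := by
  have h1 := Int.floor_le (z.re / δ)
  have h2 := Int.lt_floor_add_one (z.re / δ)
  have h3 := Int.floor_le (z.im / δ)
  have h4 := Int.lt_floor_add_one (z.im / δ)
  rw [le_div_iff₀ hδ] at h1 h3
  rw [div_lt_iff₀ hδ] at h2 h4
  have hre : (grid δ (cell δ z) - z).re = δ * (⌊z.re / δ⌋ : ℝ) - z.re := by
    simp [grid, cell]
  have him : (grid δ (cell δ z) - z).im = δ * (⌊z.im / δ⌋ : ℝ) - z.im := by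
    simp [grid, cell]
  refine (Complex.norm_le_abs_re_add_abs_im _).trans ?_
  rw [hre, him]
  have a1 : |δ * (⌊z.re / δ⌋ : ℝ) - z.re| ≤ δ := by
    rw [abs_le]; constructor <;> nlinarith
  have a2 : |δ * (⌊z.im / δ⌋ : ℝ) - z.im| ≤ δ := by
    rw [abs_le]; constructor <;> nlinarith
  linarith

theorem volume_cell {δ : ℝ} (hδ : 0 < δ) (q : ℤ × ℤ) :
    volume (cell δ ⁻¹' {q}) = ENNReal.ofReal (δ ^ 2) := by
  have h : cell δ ⁻¹' {q} = Complex.measurableEquivRealProd ⁻¹'
      (Set.Ico (q.1 * δ) ((q.1 + 1) * δ) ×ˢ Set.Ico (q.2 * δ) ((q.2 + 1) * δ)) := by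
    ext z
    simp only [cell, Set.mem_preimage, Set.mem_singleton_iff, Prod.ext_iff, Int.floor_eq_iff,
      Complex.measurableEquivRealProd_apply, Set.mem_prod, Set.mem_Ico, le_div_iff₀ hδ,
      div_lt_iff₀ hδ]
  rw [h, Complex.volume_preserving_equiv_real_prod.measure_preimage
    (measurableSet_Ico.prod measurableSet_Ico).nullMeasurableSet, Measure.volume_eq_prod,
    Measure.prod_prod, Real.volume_Ico, Real.volume_Ico, ← ENNReal.ofReal_mul (by nlinarith)]
  congr 1
  ring

theorem tsum_eq_integral {E : Type*} [NormedAddCommGroup E] [NormedSpace ℝ E] [CompleteSpace E]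
    {δ : ℝ} (hδ : 0 < δ) {h : ℤ × ℤ → E} (hh : h.support.Finite) :
    Integrable (fun z => h (cell δ z)) ∧ ∑' q, δ ^ 2 • h q = ∫ z, h (cell δ z) := by
  have key : (fun z => h (cell δ z)) = fun z => ∑ q ∈ hh.toFinset,
      (cell δ ⁻¹' {q}).indicator (fun _ => h q) z := by
    funext z
    by_cases hz : h (cell δ z) = 0
    · rw [hz, Finset.sum_eq_zero]
      intro q hq
      by_cases hzq : z ∈ cell δ ⁻¹' {q}
      · rw [Set.indicator_of_mem hzq]
        simp only [Set.mem_preimage, Set.mem_singleton_iff] at hzq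
        rw [← hzq, hz]
      · rw [Set.indicator_of_notMem hzq]
    · rw [Finset.sum_eq_single (cell δ z)]
      · rw [Set.indicator_of_mem]; rfl
      · intro q _ hq
        rw [Set.indicator_of_notMem]
        intro hzq
        exact hq hzq.symm
      · intro hn
        exact absurd ((Set.Finite.mem_toFinset hh).2 hz) hn
  have hi : ∀ q ∈ hh.toFinset, Integrable ((cell δ ⁻¹' {q}).indicator (fun _ => h q)) := by
    intro q _
    apply (integrable_indicator_iff (measurable_cell δ (measurableSet_singleton q))).2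
    exact integrableOn_const (by rw [volume_cell hδ]; exact ENNReal.ofReal_ne_top)
  constructor
  · rw [key]
    exact integrable_finsetSum _ hi
  · rw [key, integral_finsetSum _ hi, tsum_eq_sum (s := hh.toFinset)]
    · apply Finset.sum_congr rfl
      intro q _
      rw [integral_indicator_const _ (measurable_cell δ (measurableSet_singleton q)),
        measureReal_def, volume_cell hδ, ENNReal.toReal_ofReal (by positivity)]
    · intro q hq
      have : h q = 0 := by
        by_contra hne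
        exact hq ((Set.Finite.mem_toFinset hh).2 hne)
      rw [this, smul_zero]

theorem grid_sub (δ : ℝ) (p q : ℤ × ℤ) : grid δ p - grid δ q = grid δ (p - q) := by
  simp only [grid, Prod.fst_sub, Prod.snd_sub]
  push_cast
  ring

theorem le_norm_grid {δ : ℝ} (hδ : 0 < δ) {p : ℤ × ℤ} (hp : p ≠ 0) : δ ≤ ‖grid δ p‖ := by
  have hre : (grid δ p).re = δ * (p.1 : ℝ) := by simp [grid]
  have him : (grid δ p).im = δ * (p.2 : ℝ) := by simp [grid]
  by_cases h1 : p.1 = 0
  · have h2 : p.2 ≠ 0 := fun h => hp (Prod.ext h1 h)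
    refine le_trans ?_ (Complex.abs_im_le_norm _)
    rw [him, abs_mul, abs_of_pos hδ]
    have : (1:ℝ) ≤ |(p.2 : ℝ)| := by exact_mod_cast Int.one_le_abs h2
    nlinarith
  · refine le_trans ?_ (Complex.abs_re_le_norm _)
    rw [hre, abs_mul, abs_of_pos hδ]
    have : (1:ℝ) ≤ |(p.1 : ℝ)| := by exact_mod_cast Int.one_le_abs h1
    nlinarith

theorem finite_grid {δ : ℝ} (hδ : 0 < δ) (R : ℝ) : {q : ℤ × ℤ | ‖grid δ q‖ ≤ R}.Finite := by
  obtain ⟨N, hN⟩ := exists_int_gt (R / δ)
  refine ((Set.finite_Icc (-N) N).prod (Set.finite_Icc (-N) N)).subset ?_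
  rintro q hq
  simp only [Set.mem_ofPred_eq] at hq
  have hre : (grid δ q).re = δ * (q.1 : ℝ) := by simp [grid]
  have him : (grid δ q).im = δ * (q.2 : ℝ) := by simp [grid]
  have h1 := (Complex.abs_re_le_norm (grid δ q)).trans hq
  have h2 := (Complex.abs_im_le_norm (grid δ q)).trans hq
  rw [hre, abs_mul, abs_of_pos hδ] at h1
  rw [him, abs_mul, abs_of_pos hδ] at h2
  have hR : R < N * δ := by rwa [div_lt_iff₀ hδ] at hN
  have k1 : |(q.1 : ℝ)| < N := by
    by_contra hcon; push Not at hcon; nlinarith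
  have k2 : |(q.2 : ℝ)| < N := by
    by_contra hcon; push Not at hcon; nlinarith
  rw [abs_lt] at k1 k2
  refine ⟨⟨?_, ?_⟩, ⟨?_, ?_⟩⟩
  · exact_mod_cast k1.1.le
  · exact_mod_cast k1.2.le
  · exact_mod_cast k2.1.le
  · exact_mod_cast k2.2.le

theorem cell_grid {δ : ℝ} (hδ : 0 < δ) (p : ℤ × ℤ) : cell δ (grid δ p) = p := by
  have hre : (grid δ p).re = δ * (p.1 : ℝ) := by simp [grid]
  have him : (grid δ p).im = δ * (p.2 : ℝ) := by simp [grid]
  unfold cell
  rw [hre, him, mul_div_cancel_left₀ _ hδ.ne', mul_div_cancel_left₀ _ hδ.ne', Int.floor_intCast,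
    Int.floor_intCast]

/-! ### Supports and bounds -/

theorem exists_supp {E : Type*} [NormedAddCommGroup E] {f : ℂ → E} (hc : HasCompactSupport f) :
    ∃ R : ℝ, 0 < R ∧ ∀ z, R < ‖z‖ → f z = 0 := by
  obtain ⟨R', hR'⟩ := (hc.isCompact.isBounded).subset_closedBall (0 : ℂ)
  refine ⟨max 1 R', by positivity, fun z hz => ?_⟩
  apply image_eq_zero_of_notMem_tsupport
  intro hmem
  have := hR' hmem
  rw [mem_closedBall_zero_iff] at this
  exact absurd (this.trans (le_max_right 1 R')) (not_le.2 hz)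

theorem exists_bound {E : Type*} [NormedAddCommGroup E] {f : ℂ → E} (hf : Continuous f)
    (hc : HasCompactSupport f) : ∃ M : ℝ, 0 < M ∧ ∀ z, ‖f z‖ ≤ M := by
  obtain ⟨C, hC⟩ := hf.bounded_above_of_compact_support hc
  exact ⟨max 1 C, by positivity, fun z => (hC z).trans (le_max_right _ _)⟩

theorem supp_grid {E : Type*} [NormedAddCommGroup E] {f : ℂ → E} {R δ : ℝ} (hδ : 0 < δ)
    (hR : ∀ z, R < ‖z‖ → f z = 0) {h : ℤ × ℤ → E} (hh : ∀ q, f (grid δ q) = 0 → h q = 0) :
    h.support.Finite := by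
  apply (finite_grid hδ R).subset
  intro q hq
  simp only [Set.mem_ofPred_eq]
  by_contra hcon
  push Not at hcon
  exact hq (hh q (hR _ hcon))

theorem cell_zero {E : Type*} [NormedAddCommGroup E] {f : ℂ → E} {R δ : ℝ} (hδ : 0 < δ)
    (hδ1 : δ ≤ 1) (hR : ∀ z, R < ‖z‖ → f z = 0) {z : ℂ} (hz : R + 2 < ‖z‖) :
    f (grid δ (cell δ z)) = 0 := by
  apply hR
  have h1 := norm_grid_cell hδ z
  have h2 : ‖z‖ ≤ ‖grid δ (cell δ z) - z‖ + ‖grid δ (cell δ z)‖ := by
    have : z = grid δ (cell δ z) - (grid δ (cell δ z) - z) := by ring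
    calc ‖z‖ = ‖grid δ (cell δ z) - (grid δ (cell δ z) - z)‖ := by rw [← this]
      _ ≤ _ := norm_sub_le _ _
      _ = _ := by ring
  linarith

/-- volume of the big ball -/
noncomputable def V (R : ℝ) : ℝ := (volume : Measure ℂ).real (closedBall (0:ℂ) (R + 2))

theorem V_nonneg (R : ℝ) : 0 ≤ V R := measureReal_nonneg

/-- constant times indicator of the big ball -/
noncomputable def ind (R c : ℝ) (z : ℂ) : ℝ :=
  (closedBall (0:ℂ) (R + 2)).indicator (fun _ => c) z

theorem integrable_ind (R c : ℝ) : Integrable (ind R c) :=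
  (integrableOn_const (isCompact_closedBall (0:ℂ) (R + 2)).measure_lt_top.ne).integrable_indicator
    measurableSet_closedBall

theorem integral_ind (R c : ℝ) : ∫ z, ind R c z = V R * c := by
  unfold ind V
  rw [integral_indicator_const _ measurableSet_closedBall, smul_eq_mul]

theorem le_ind {R c x : ℝ} {z : ℂ} (h1 : ‖z‖ ≤ R + 2 → x ≤ c) (h2 : R + 2 < ‖z‖ → x ≤ 0) :
    x ≤ ind R c z := by
  unfold ind
  rcases le_or_gt ‖z‖ (R + 2) with h | h
  · rw [Set.indicator_of_mem (mem_closedBall_zero_iff.2 h)]; exact h1 h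
  · rw [Set.indicator_of_notMem (fun hh => absurd (mem_closedBall_zero_iff.1 hh) (not_le.2 h))]
    exact h2 h

theorem ind_nonneg {R c : ℝ} (hc : 0 ≤ c) (z : ℂ) : 0 ≤ ind R c z :=
  Set.indicator_nonneg (fun _ _ => hc) _

/-- comparison of `(y - z')⁻¹` with `(y - z)⁻¹` near the singularity -/
theorem inv_near {δ : ℝ} (hδ : 0 < δ) (p : ℤ × ℤ) (z : ℂ) :
    ‖(grid δ p - grid δ (cell δ z))⁻¹‖ ≤ 3 * ‖(grid δ p - z)⁻¹‖ ∧
      ‖(grid δ p - grid δ (cell δ z))⁻¹‖ ≤ δ⁻¹ := by
  by_cases hq : p - cell δ z = 0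
  · rw [grid_sub, hq]
    have : grid δ 0 = 0 := by simp [grid]
    rw [this, inv_zero, norm_zero]
    exact ⟨by positivity, by positivity⟩
  · have h1 : δ ≤ ‖grid δ p - grid δ (cell δ z)‖ := by
      rw [grid_sub]; exact le_norm_grid hδ hq
    have hz : grid δ p ≠ z := by
      intro h
      apply hq
      rw [← h, cell_grid hδ, sub_self]
    have hz' : 0 < ‖grid δ p - z‖ := norm_pos_iff.2 (sub_ne_zero.2 hz)
    have h2 : ‖grid δ p - z‖ ≤ 3 * ‖grid δ p - grid δ (cell δ z)‖ := by
      have e : grid δ p - z = (grid δ p - grid δ (cell δ z)) + (grid δ (cell δ z) - z) := by ring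
      have := norm_add_le (grid δ p - grid δ (cell δ z)) (grid δ (cell δ z) - z)
      rw [← e] at this
      have h3 := norm_grid_cell hδ z
      linarith
    have hpos : 0 < ‖grid δ p - grid δ (cell δ z)‖ := hδ.trans_le h1
    rw [norm_inv, norm_inv]
    constructor
    · rw [inv_le_iff_one_le_mul₀ hpos]
      calc (1:ℝ) = ‖grid δ p - z‖⁻¹ * ‖grid δ p - z‖ := (inv_mul_cancel₀ hz'.ne').symm
        _ ≤ ‖grid δ p - z‖⁻¹ * (3 * ‖grid δ p - grid δ (cell δ z)‖) := by gcongr
        _ = _ := by ring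
    · gcongr

theorem inv_far {δ r : ℝ} (hδ : 0 < δ) (hr : 4 * δ ≤ r) {p : ℤ × ℤ} {z : ℂ}
    (hz : r ≤ ‖grid δ p - z‖) :
    ‖(grid δ p - grid δ (cell δ z))⁻¹‖ ≤ 2 / r ∧
      ‖(grid δ p - grid δ (cell δ z))⁻¹ - (grid δ p - z)⁻¹‖ ≤ 4 * δ / r ^ 2 := by
  have hr0 : 0 < r := by linarith
  have h3 := norm_grid_cell hδ z
  have h1 : r / 2 ≤ ‖grid δ p - grid δ (cell δ z)‖ := by
    have e : grid δ p - z = (grid δ p - grid δ (cell δ z)) + (grid δ (cell δ z) - z) := by ring
    have := norm_add_le (grid δ p - grid δ (cell δ z)) (grid δ (cell δ z) - z)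
    rw [← e] at this
    linarith
  have n1 : grid δ p - grid δ (cell δ z) ≠ 0 := norm_pos_iff.1 (by linarith)
  have n2 : grid δ p - z ≠ 0 := norm_pos_iff.1 (by linarith)
  constructor
  · rw [norm_inv, show 2 / r = (r / 2)⁻¹ by rw [inv_div]]
    gcongr
  · rw [inv_sub_inv n1 n2, norm_div, norm_mul]
    have e : grid δ p - z - (grid δ p - grid δ (cell δ z)) = grid δ (cell δ z) - z := by ring
    rw [e, div_le_div_iff₀ (by positivity) (by positivity)]
    have hm : r / 2 * r ≤ ‖grid δ p - grid δ (cell δ z)‖ * ‖grid δ p - z‖ := by gcongr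
    calc ‖grid δ (cell δ z) - z‖ * r ^ 2 ≤ 2 * δ * r ^ 2 := by gcongr
      _ = 4 * δ * (r / 2 * r) := by ring
      _ ≤ _ := by gcongr

theorem sing_eq {r : ℝ} {y z : ℂ} (h : ‖y - z‖ < r) : sing r y z = ‖(y - z)⁻¹‖ := by
  unfold sing
  rw [Set.indicator_of_mem (mem_ball_zero_iff.2 h), norm_inv]

end Quad

open Quad

/-- Module QUAD, 1: Riemann sums. -/
theorem quad_riemann {E : Type} [NormedAddCommGroup E] [NormedSpace ℝ E] [CompleteSpace E]
    {f : ℂ → E} (hf : Continuous f) (hc : HasCompactSupport f) :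
    Tendsto (fun δ : ℝ => ∑' q : ℤ × ℤ, δ ^ 2 • f (grid δ q)) (𝓝[>] 0) (𝓝 (∫ z, f z)) := by
  obtain ⟨R, hR0, hR⟩ := exists_supp hc
  have huc : UniformContinuous f :=
    hf.uniformContinuous_of_tendsto_cocompact hc.is_zero_at_infty
  rw [Metric.tendsto_nhds]
  intro ε hε
  have hV := V_nonneg R
  obtain ⟨d, hd, hdf⟩ := Metric.uniformContinuous_iff.1 huc (ε / (2 * (V R + 1))) (by positivity)
  have hmem : Set.Ioo (0:ℝ) (min 1 (d / 2)) ∈ 𝓝[>] (0:ℝ) := Ioo_mem_nhdsGT (by positivity)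
  filter_upwards [hmem] with δ hδ
  obtain ⟨hδ0, hδ'⟩ := hδ
  have hδ1 : δ ≤ 1 := (hδ'.trans_le (min_le_left _ _)).le
  have hδ2 : 2 * δ < d := by
    have := hδ'.trans_le (min_le_right _ _)
    linarith
  obtain ⟨hi, he⟩ := tsum_eq_integral hδ0 (h := fun q => f (grid δ q))
    (supp_grid hδ0 hR (fun q hq => hq))
  rw [he, dist_eq_norm, ← integral_sub hi (hf.integrable_of_hasCompactSupport hc)]
  calc ‖∫ z, (f (grid δ (cell δ z)) - f z)‖ ≤ ∫ z, ind R (ε / (2 * (V R + 1))) z := by
        apply norm_integral_le_of_norm_le (integrable_ind _ _) (ae_of_all _ fun z => ?_)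
        apply le_ind
        · intro _
          rw [← dist_eq_norm]
          apply (hdf _).le
          rw [dist_eq_norm]
          exact (norm_grid_cell hδ0 z).trans_lt hδ2
        · intro hz
          rw [cell_zero hδ0 hδ1 hR hz, hR z (by linarith), sub_zero, norm_zero]
    _ = V R * (ε / (2 * (V R + 1))) := integral_ind _ _
    _ < ε := by
        rw [← mul_div_assoc, div_lt_iff₀ (by positivity)]
        nlinarith

/-- Module QUAD, 2: Cauchy integrals by Riemann sums (the term `q = p` is `0` since `0⁻¹ = 0`). -/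
theorem quad_cauchy {f : ℂ → ℂ} (hf : Continuous f) (hc : HasCompactSupport f) :
    ∀ ε : ℝ, 0 < ε → ∀ᶠ δ : ℝ in 𝓝[>] 0, ∀ p : ℤ × ℤ,
      ‖∑' q : ℤ × ℤ, (δ : ℂ) ^ 2 * f (grid δ q) * (grid δ p - grid δ q)⁻¹
        - ∫ z, f z * (grid δ p - z)⁻¹‖ ≤ ε := by
  intro ε hε
  obtain ⟨R, hR0, hR⟩ := exists_supp hc
  obtain ⟨M, hM0, hM⟩ := exists_bound hf hc
  have huc : UniformContinuous f :=
    hf.uniformContinuous_of_tendsto_cocompact hc.is_zero_at_infty
  have hV := V_nonneg R
  have hpi := Real.pi_pos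
  set r : ℝ := ε / (3 * (8 * Real.pi * M)) with hr
  have hr0 : 0 < r := by positivity
  set ε1 : ℝ := ε * r / (6 * (V R + 1)) with hε1
  have hε10 : 0 < ε1 := by positivity
  obtain ⟨d, hd, hdf⟩ := Metric.uniformContinuous_iff.1 huc ε1 hε10
  set δ0 : ℝ := ε * r ^ 2 / (12 * M * (V R + 1)) with hδ0'
  have hδ00 : 0 < δ0 := by positivity
  have hmem : Set.Ioo (0:ℝ) (min (min 1 (d / 2)) (min (r / 4) δ0)) ∈ 𝓝[>] (0:ℝ) :=
    Ioo_mem_nhdsGT (by positivity)
  filter_upwards [hmem] with δ hδ p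
  obtain ⟨hδ0, hδ'⟩ := hδ
  have hδ1 : δ ≤ 1 := (hδ'.trans_le ((min_le_left _ _).trans (min_le_left _ _))).le
  have hδ2 : 2 * δ < d := by
    have := hδ'.trans_le ((min_le_left _ _).trans (min_le_right _ _))
    linarith
  have hδ3 : 4 * δ ≤ r := by
    have := hδ'.trans_le ((min_le_right _ _).trans (min_le_left _ _))
    linarith
  have hδ4 : δ < δ0 := hδ'.trans_le ((min_le_right _ _).trans (min_le_right _ _))
  obtain ⟨hi, he⟩ := tsum_eq_integral hδ0
    (h := fun q => f (grid δ q) * (grid δ p - grid δ q)⁻¹)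
    (supp_grid hδ0 hR (fun q hq => by rw [hq, zero_mul]))
  have he' : ∑' q : ℤ × ℤ, (δ : ℂ) ^ 2 * f (grid δ q) * (grid δ p - grid δ q)⁻¹
      = ∫ z, f (grid δ (cell δ z)) * (grid δ p - grid δ (cell δ z))⁻¹ := by
    rw [← he]
    apply tsum_congr
    intro q
    rw [Complex.real_smul]
    push_cast
    ring
  have hi2 : Integrable (fun z => f z * (grid δ p - z)⁻¹) := by
    refine Integrable.mono' (((integrable_ind R M)).add ((integrable_sing 1 (grid δ p)).const_mul M))
      ?_ (ae_of_all _ fun z => ?_)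
    · exact (hf.measurable.mul (by fun_prop)).aestronglyMeasurable
    · simp only [Pi.add_apply]
      rcases lt_or_ge ‖grid δ p - z‖ 1 with h | h
      · rw [sing_eq h, norm_mul]
        have := ind_nonneg (R := R) hM0.le z
        have : ‖f z‖ * ‖(grid δ p - z)⁻¹‖ ≤ M * ‖(grid δ p - z)⁻¹‖ := by
          gcongr; exact hM z
        linarith
      · have h0 := mul_nonneg hM0.le (sing_nonneg 1 (grid δ p) z)
        have h1 : ‖f z * (grid δ p - z)⁻¹‖ ≤ ind R M z := by
          apply le_ind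
          · intro _
            rw [norm_mul, norm_inv]
            calc ‖f z‖ * ‖grid δ p - z‖⁻¹ ≤ M * 1 := by
                  gcongr
                  · exact hM z
                  · exact inv_le_one_of_one_le₀ h
              _ = M := mul_one _
          · intro hz
            rw [hR z (by linarith), zero_mul, norm_zero]
        linarith
  rw [he', ← integral_sub hi hi2]
  calc ‖∫ z, (f (grid δ (cell δ z)) * (grid δ p - grid δ (cell δ z))⁻¹ -
          f z * (grid δ p - z)⁻¹)‖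
      ≤ ∫ z, (ind R (ε1 * (2 / r) + M * (4 * δ / r ^ 2)) z + (4 * M) * sing r (grid δ p) z) := by
        apply norm_integral_le_of_norm_le
          ((integrable_ind _ _).add ((integrable_sing _ _).const_mul _)) (ae_of_all _ fun z => ?_)
        simp only [Pi.add_apply]
        rcases lt_or_ge ‖grid δ p - z‖ r with h | h
        · rw [sing_eq h]
          have h0 := ind_nonneg (R := R) (c := ε1 * (2 / r) + M * (4 * δ / r ^ 2))
            (by positivity) z
          have h1 := (inv_near hδ0 p z).1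
          have h2 : ‖f (grid δ (cell δ z)) * (grid δ p - grid δ (cell δ z))⁻¹ -
              f z * (grid δ p - z)⁻¹‖ ≤ M * (3 * ‖(grid δ p - z)⁻¹‖) + M * ‖(grid δ p - z)⁻¹‖ := by
            refine (norm_sub_le _ _).trans ?_
            rw [norm_mul, norm_mul]
            gcongr
            · exact hM _
            · exact hM _
          linarith
        · have h0 := mul_nonneg (by positivity : (0:ℝ) ≤ 4 * M) (sing_nonneg r (grid δ p) z)
          have h1 : ‖f (grid δ (cell δ z)) * (grid δ p - grid δ (cell δ z))⁻¹ -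
              f z * (grid δ p - z)⁻¹‖ ≤ ind R (ε1 * (2 / r) + M * (4 * δ / r ^ 2)) z := by
            apply le_ind
            · intro _
              obtain ⟨b1, b2⟩ := inv_far hδ0 hδ3 h
              have e : f (grid δ (cell δ z)) * (grid δ p - grid δ (cell δ z))⁻¹ -
                  f z * (grid δ p - z)⁻¹ = (f (grid δ (cell δ z)) - f z) *
                    (grid δ p - grid δ (cell δ z))⁻¹ + f z *
                    ((grid δ p - grid δ (cell δ z))⁻¹ - (grid δ p - z)⁻¹) := by ring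
              rw [e]
              refine (norm_add_le _ _).trans ?_
              rw [norm_mul, norm_mul]
              have b3 : ‖f (grid δ (cell δ z)) - f z‖ ≤ ε1 := by
                rw [← dist_eq_norm]
                apply (hdf _).le
                rw [dist_eq_norm]
                exact (norm_grid_cell hδ0 z).trans_lt hδ2
              gcongr
              exact hM z
            · intro hz
              rw [cell_zero hδ0 hδ1 hR hz, hR z (by linarith), zero_mul, zero_mul, sub_zero,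
                norm_zero]
          linarith
    _ = V R * (ε1 * (2 / r) + M * (4 * δ / r ^ 2)) + (4 * M) * (2 * Real.pi * r) := by
        rw [integral_add (integrable_ind _ _) ((integrable_sing _ _).const_mul _), integral_ind,
          integral_const_mul, integral_sing hr0.le]
    _ ≤ ε := by
        have e1 : (4 * M) * (2 * Real.pi * r) = ε / 3 := by
          rw [hr]; field_simp; ring
        have e2 : V R * (ε1 * (2 / r)) ≤ ε / 3 := by
          have : V R * (ε1 * (2 / r)) = (ε / 3) * (V R / (V R + 1)) := by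
            rw [hε1]; field_simp; ring
          rw [this]
          have : V R / (V R + 1) ≤ 1 := by rw [div_le_one (by positivity)]; linarith
          nlinarith
        have e3 : V R * (M * (4 * δ / r ^ 2)) ≤ ε / 3 := by
          calc V R * (M * (4 * δ / r ^ 2)) ≤ V R * (M * (4 * δ0 / r ^ 2)) := by gcongr
            _ = (ε / 3) * (V R / (V R + 1)) := by rw [hδ0']; field_simp; ring
            _ ≤ ε / 3 := by
              have : V R / (V R + 1) ≤ 1 := by rw [div_le_one (by positivity)]; linarith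
              nlinarith
        linarith

/-- Module QUAD, 3: the `ρ`-sum tends to `0`. -/
theorem quad_rho {f : ℂ → ℝ} (hf : Continuous f) (hf0 : ∀ z, 0 ≤ f z) (hc : HasCompactSupport f)
    (B : ℝ) :
    Tendsto (fun δ : ℝ => ∑' p : ℤ × ℤ, (δ ^ 2 * f (grid δ p) *
        (∑' q : ℤ × ℤ, δ ^ 2 * f (grid δ q) * ‖(grid δ p - grid δ q)⁻¹‖ ^ 2 + B)) ^ 2)
      (𝓝[>] 0) (𝓝 0) := by
  obtain ⟨R, hR0, hR⟩ := exists_supp hc
  obtain ⟨M, hM0, hM'⟩ := exists_bound hf hc
  have hM : ∀ z, f z ≤ M := fun z => (le_abs_self _).trans (hM' z)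
  have hV := V_nonneg R
  have hpi := Real.pi_pos
  rw [Metric.tendsto_nhds]
  intro ε hε
  -- `η` with `V M² η² < ε`
  obtain ⟨η, hη0, hη⟩ : ∃ η : ℝ, 0 < η ∧ V R * (M * η) ^ 2 < ε := by
    refine ⟨min 1 (ε / (2 * (V R * M ^ 2 + 1))), by positivity, ?_⟩
    set t := min 1 (ε / (2 * (V R * M ^ 2 + 1)))
    have ht0 : 0 < t := by positivity
    have ht1 : t ≤ 1 := min_le_left _ _
    have ht2 : t ≤ ε / (2 * (V R * M ^ 2 + 1)) := min_le_right _ _
    have hW : 0 ≤ V R * M ^ 2 := by positivity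
    calc V R * (M * t) ^ 2 = (V R * M ^ 2) * (t * t) := by ring
      _ ≤ (V R * M ^ 2) * (1 * (ε / (2 * (V R * M ^ 2 + 1)))) := by gcongr
      _ < ε := by
        rw [one_mul, ← mul_div_assoc, div_lt_iff₀ (by positivity)]
        nlinarith
  set r : ℝ := η / (3 * (6 * Real.pi * M)) with hr
  have hr0 : 0 < r := by positivity
  have hmem : Set.Ioo (0:ℝ) (min (min 1 (r / 4)) (min (η * r ^ 2 / (12 * M * (V R + 1)))
      (η / (3 * (|B| + 1))))) ∈ 𝓝[>] (0:ℝ) := Ioo_mem_nhdsGT (by positivity)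
  filter_upwards [hmem] with δ hδ
  obtain ⟨hδ0, hδ'⟩ := hδ
  have hδ1 : δ ≤ 1 := (hδ'.trans_le ((min_le_left _ _).trans (min_le_left _ _))).le
  have hδ3 : 4 * δ ≤ r := by
    have := hδ'.trans_le ((min_le_left _ _).trans (min_le_right _ _))
    linarith
  have hδ4 : δ < η * r ^ 2 / (12 * M * (V R + 1)) :=
    hδ'.trans_le ((min_le_right _ _).trans (min_le_left _ _))
  have hδ5 : δ < η / (3 * (|B| + 1)) :=
    hδ'.trans_le ((min_le_right _ _).trans (min_le_right _ _))
  -- the inner sum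
  have hinner : ∀ p : ℤ × ℤ,
      0 ≤ ∑' q : ℤ × ℤ, δ ^ 2 * f (grid δ q) * ‖(grid δ p - grid δ q)⁻¹‖ ^ 2 ∧
      δ * ∑' q : ℤ × ℤ, δ ^ 2 * f (grid δ q) * ‖(grid δ p - grid δ q)⁻¹‖ ^ 2 ≤ 2 * η / 3 := by
    intro p
    refine ⟨tsum_nonneg fun q => by have := hf0 (grid δ q); positivity, ?_⟩
    obtain ⟨hi, he⟩ := tsum_eq_integral hδ0
      (h := fun q => f (grid δ q) * ‖(grid δ p - grid δ q)⁻¹‖ ^ 2)
      (supp_grid hδ0 hR (fun q hq => by rw [hq, zero_mul]))
    have he' : ∑' q : ℤ × ℤ, δ ^ 2 * f (grid δ q) * ‖(grid δ p - grid δ q)⁻¹‖ ^ 2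
        = ∫ z, f (grid δ (cell δ z)) * ‖(grid δ p - grid δ (cell δ z))⁻¹‖ ^ 2 := by
      rw [← he]
      apply tsum_congr
      intro q
      rw [smul_eq_mul]
      ring
    rw [he']
    have hbd : ∫ z, f (grid δ (cell δ z)) * ‖(grid δ p - grid δ (cell δ z))⁻¹‖ ^ 2 ≤
        ∫ z, (ind R (M * (2 / r) ^ 2) z + (3 * M * δ⁻¹) * sing r (grid δ p) z) := by
      apply integral_mono hi ((integrable_ind _ _).add ((integrable_sing _ _).const_mul _))
      intro z
      simp only [Pi.add_apply]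
      rcases lt_or_ge ‖grid δ p - z‖ r with h | h
      · rw [sing_eq h]
        have h0 := ind_nonneg (R := R) (c := M * (2 / r) ^ 2) (by positivity) z
        obtain ⟨h1, h2⟩ := inv_near hδ0 p z
        have h3 : f (grid δ (cell δ z)) * ‖(grid δ p - grid δ (cell δ z))⁻¹‖ ^ 2 ≤
            M * (3 * ‖(grid δ p - z)⁻¹‖ * δ⁻¹) := by
          rw [pow_two]
          gcongr
          exact hM _
        have h4 : M * (3 * ‖(grid δ p - z)⁻¹‖ * δ⁻¹) = 3 * M * δ⁻¹ * ‖(grid δ p - z)⁻¹‖ := by ring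
        linarith
      · have h0 := mul_nonneg (by positivity : (0:ℝ) ≤ 3 * M * δ⁻¹) (sing_nonneg r (grid δ p) z)
        have h1 : f (grid δ (cell δ z)) * ‖(grid δ p - grid δ (cell δ z))⁻¹‖ ^ 2 ≤
            ind R (M * (2 / r) ^ 2) z := by
          apply le_ind
          · intro _
            obtain ⟨b1, _⟩ := inv_far hδ0 hδ3 h
            gcongr
            exact hM _
          · intro hz
            rw [cell_zero hδ0 hδ1 hR hz, zero_mul]
        linarith
    have hval : ∫ z, (ind R (M * (2 / r) ^ 2) z + (3 * M * δ⁻¹) * sing r (grid δ p) z) =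
        V R * (M * (2 / r) ^ 2) + (3 * M * δ⁻¹) * (2 * Real.pi * r) := by
      rw [integral_add (integrable_ind _ _) ((integrable_sing _ _).const_mul _), integral_ind,
        integral_const_mul, integral_sing hr0.le]
    rw [hval] at hbd
    calc δ * ∫ z, f (grid δ (cell δ z)) * ‖(grid δ p - grid δ (cell δ z))⁻¹‖ ^ 2
        ≤ δ * (V R * (M * (2 / r) ^ 2) + (3 * M * δ⁻¹) * (2 * Real.pi * r)) := by gcongr
      _ = δ * (4 * M * V R / r ^ 2) + 6 * Real.pi * M * r := by field_simp; ring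
      _ ≤ (η * r ^ 2 / (12 * M * (V R + 1))) * (4 * M * V R / r ^ 2) + 6 * Real.pi * M * r := by
        gcongr
      _ = (η / 3) * (V R / (V R + 1)) + η / 3 := by rw [hr]; field_simp; ring
      _ ≤ 2 * η / 3 := by
        have : V R / (V R + 1) ≤ 1 := by rw [div_le_one (by positivity)]; linarith
        nlinarith
  -- the outer sum
  set S : ℤ × ℤ → ℝ := fun p =>
    ∑' q : ℤ × ℤ, δ ^ 2 * f (grid δ q) * ‖(grid δ p - grid δ q)⁻¹‖ ^ 2 with hS
  obtain ⟨hi, he⟩ := tsum_eq_integral hδ0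
      (h := fun p => (f (grid δ p) * (δ * (S p + B))) ^ 2)
      (supp_grid hδ0 hR (fun q hq => by rw [hq]; ring))
  have he' : ∑' p : ℤ × ℤ, (δ ^ 2 * f (grid δ p) * (S p + B)) ^ 2 =
      ∫ z, (f (grid δ (cell δ z)) * (δ * (S (cell δ z) + B))) ^ 2 := by
    rw [← he]
    apply tsum_congr
    intro p
    rw [smul_eq_mul]
    ring
  rw [dist_zero_right, Real.norm_of_nonneg (tsum_nonneg fun p => by positivity)]
  change ∑' p : ℤ × ℤ, (δ ^ 2 * f (grid δ p) * (S p + B)) ^ 2 < ε
  rw [he']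
  refine lt_of_le_of_lt ?_ hη
  rw [← integral_ind]
  apply integral_mono hi (integrable_ind _ _)
  intro z
  apply le_ind
  · intro _
    obtain ⟨h1, h2⟩ := hinner (cell δ z)
    have h3 : |δ * (S (cell δ z) + B)| ≤ η := by
      rw [mul_add]
      refine (abs_add_le _ _).trans ?_
      rw [abs_of_nonneg (mul_nonneg hδ0.le h1), abs_mul, abs_of_pos hδ0]
      have h4 : δ * |B| ≤ η / 3 := by
        calc δ * |B| ≤ (η / (3 * (|B| + 1))) * |B| := by gcongr
          _ = (η / 3) * (|B| / (|B| + 1)) := by field_simp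
          _ ≤ η / 3 := by
            have : |B| / (|B| + 1) ≤ 1 := by
              rw [div_le_one (by positivity)]; linarith
            nlinarith
      have : δ * S (cell δ z) ≤ 2 * η / 3 := h2
      linarith
    change (f (grid δ (cell δ z)) * (δ * (S (cell δ z) + B))) ^ 2 ≤ (M * η) ^ 2
    rw [← sq_abs (f (grid δ (cell δ z)) * _), abs_mul, abs_of_nonneg (hf0 _)]
    have h5 : f (grid δ (cell δ z)) * |δ * (S (cell δ z) + B)| ≤ M * η := by
      gcongr
      exact hM _
    have h6 : 0 ≤ f (grid δ (cell δ z)) * |δ * (S (cell δ z) + B)| :=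
      mul_nonneg (hf0 _) (abs_nonneg _)
    gcongr
  · intro hz
    change (f (grid δ (cell δ z)) * (δ * (S (cell δ z) + B))) ^ 2 ≤ 0
    rw [cell_zero hδ0 hδ1 hR hz]
    simp

end Pool.Agent.H761R2.SV
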