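import Mathlib

/-!
Definitions for the proof that the second variation of analytic capacity is `≤ 0` (MP_476a06_an).
-/

set_option autoImplicit false
open Complex MeasureTheory Filter Topology

namespace Pool.Agent.H761R2.SV

/-- `∂̄ f (z) = (∂_x f + i ∂_y f)/2` for `f : ℂ → ℂ` (real differentiable). -/
noncomputable def dbar (f : ℂ → ℂ) (z : ℂ) : ℂ := (fderiv ℝ f z 1 + I * fderiv ℝ f z I) / 2

/-- `∂̄ s (z) = (∂_x s + i ∂_y s)/2` for real valued `s`; it points in the direction of `∇ s`. -/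
noncomputable def dbarR (s : ℂ → ℝ) (z : ℂ) : ℂ :=
  (((fderiv ℝ s z 1 : ℝ) : ℂ) + I * ((fderiv ℝ s z I : ℝ) : ℂ)) / 2

/-- The hypotheses of the frozen statement `S03137` on the domain and the boundary curves. -/
structure Curves (Ω : Set ℂ) (n : ℕ) (γ : Fin n → ℝ → ℂ) : Prop where
  isOpen : IsOpen Ω
  isConnected : IsConnected Ω
  bdd : Bornology.IsBounded Ωᶜ
  analytic : ∀ k : Fin n, AnalyticOnNhd ℝ (γ k) Set.univ
  per : ∀ k : Fin n, Function.Periodic (γ k) (1 : ℝ)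
  inj : ∀ k : Fin n, Set.InjOn (γ k) (Set.Ico (0:ℝ) 1)
  der : ∀ k : Fin n, ∀ t : ℝ, deriv (γ k) t ≠ 0
  disj : ∀ k j : Fin n, k ≠ j → Disjoint (Set.range (γ k)) (Set.range (γ j))
  fr : frontier Ω = ⋃ k : Fin n, Set.range (γ k)
  side : ∀ k : Fin n, ∀ t : ℝ, ∀ᶠ ε : ℝ in 𝓝[>] (0:ℝ),
        γ k t + ((ε : ℝ) : ℂ) * Complex.I * deriv (γ k) t ∈ Ω

/-- grid points `δ (i + j I)` -/
noncomputable def grid (δ : ℝ) (p : ℤ × ℤ) : ℂ := (δ : ℂ) * ((p.1 : ℂ) + (p.2 : ℂ) * I)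

end Pool.Agent.H761R2.SV
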