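import Pool.Agent.H761R2.SV.Defs

/-! Module BDRY: the boundary relation extends approximately to a collar of the boundary. -/

set_option autoImplicit false
open Complex MeasureTheory Filter Topology
open scoped ContDiff ComplexConjugate

namespace Pool.Agent.H761R2.SV

theorem isCompact_fr {Ω : Set ℂ} {n : ℕ} {γ : Fin n → ℝ → ℂ} (h : Curves Ω n γ) :
    IsCompact (frontier Ω) := by
  rw [h.fr]
  apply isCompact_iUnion
  intro k
  have hc : Continuous (γ k) := by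
    have := (h.analytic k).continuousOn
    rwa [continuousOn_univ] at this
  have e : Set.range (γ k) = γ k '' Set.Icc 0 1 := by
    have := (h.per k).image_Icc (by norm_num : (0:ℝ) < 1) 0
    rw [zero_add] at this
    rw [this]
  rw [e]
  exact isCompact_Icc.image hc

theorem rel_alg {f g d : ℂ} (hd : d ≠ 0) (h : I⁻¹ * g * d = conj f * ((‖d‖ : ℝ) : ℂ)) :
    g + conj (f * (I * d / ((‖d‖ : ℝ) : ℂ))) = 0 := by
  have hn : ((‖d‖ : ℝ) : ℂ) ≠ 0 := by
    simpa using hd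
  have h2 : d * conj d = ((‖d‖ : ℝ) : ℂ) ^ 2 := by
    rw [Complex.mul_conj, Complex.normSq_eq_norm_sq]
    push_cast
    rfl
  have hI : (I : ℂ) ≠ 0 := I_ne_zero
  have h3 : g * d = I * (conj f * ((‖d‖ : ℝ) : ℂ)) := by
    rw [← h]
    field_simp
  have h4 : (g + conj (f * (I * d / ((‖d‖ : ℝ) : ℂ)))) * (d * ((‖d‖ : ℝ) : ℂ)) = 0 := by
    simp only [map_mul, map_div₀, conj_I, conj_ofReal]
    have : (g + conj f * (-I * conj d / ((‖d‖ : ℝ) : ℂ))) * (d * ((‖d‖ : ℝ) : ℂ))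
        = (g * d) * ((‖d‖ : ℝ) : ℂ) - conj f * I * (d * conj d) := by
      field_simp
      ring
    rw [this, h2, h3]
    ring
  rcases mul_eq_zero.1 h4 with h5 | h5
  · exact h5
  · exact absurd h5 (mul_ne_zero hd hn)

/-- Module BDRY -/
theorem bdry {Ω : Set ℂ} {n : ℕ} {γ : Fin n → ℝ → ℂ} (h : Curves Ω n γ) {q : ℂ} (hq : q ∈ Ω)
    {f g : ℂ → ℂ} (hf : ContinuousOn f (closure Ω))
    (hg : ContinuousOn (fun z => g z - (z - q)⁻¹) (closure Ω))
    (hrel : ∀ (k : Fin n) (t : ℝ), I⁻¹ * g (γ k t) * deriv (γ k) t =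
      conj (f (γ k t)) * (((‖deriv (γ k) t‖ : ℝ)) : ℂ)) :
    ∃ M : ℝ, 0 ≤ M ∧ ∀ τ : ℝ, 0 < τ → ∃ ε0 : ℝ, 0 < ε0 ∧ ∀ z ∈ Ω, ∀ (k : Fin n) (t : ℝ),
      dist z (γ k t) < ε0 → ∀ ν : ℂ, ‖ν‖ = 1 →
      ‖ν - I * deriv (γ k) t / ((‖deriv (γ k) t‖ : ℝ) : ℂ)‖ ≤ ε0 →
      ‖f z‖ ≤ M ∧ ‖g z‖ ≤ M ∧ ‖g z + conj (f z * ν)‖ ≤ τ := by
  obtain ⟨r, hr, hball⟩ := Metric.isOpen_iff.1 h.isOpen q hq
  have hΓ := isCompact_fr h
  have hmemΓ : ∀ (k : Fin n) (t : ℝ), γ k t ∈ frontier Ω := by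
    intro k t
    rw [h.fr]
    exact Set.mem_iUnion.2 ⟨k, Set.mem_range_self t⟩
  have hdisj : ∀ y ∈ frontier Ω, y ∉ Ω := by
    intro y hy hyΩ
    rw [frontier, h.isOpen.interior_eq] at hy
    exact hy.2 hyΩ
  set X : Set ℂ := closure Ω ∩ Metric.cthickening (r / 2) (frontier Ω) with hX
  have hXc : IsCompact X := hΓ.cthickening.inter_left isClosed_closure
  have hXq : ∀ z ∈ X, z - q ≠ 0 := by
    intro z hz hzq
    have hz2 := hz.2
    rw [hΓ.cthickening_eq_biUnion_closedBall (by positivity)] at hz2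
    simp only [Set.mem_iUnion] at hz2
    obtain ⟨y, hy, hzy⟩ := hz2
    rw [sub_eq_zero] at hzq
    subst hzq
    apply hdisj y hy
    apply hball
    rw [Metric.mem_ball, dist_comm]
    have := Metric.mem_closedBall.1 hzy
    linarith
  have hfX : ContinuousOn f X := hf.mono Set.inter_subset_left
  have hgX : ContinuousOn g X := by
    have h1 : ContinuousOn (fun z => (g z - (z - q)⁻¹) + (z - q)⁻¹) X := by
      apply (hg.mono Set.inter_subset_left).add
      apply ContinuousOn.inv₀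
      · fun_prop
      · exact hXq
    refine h1.congr ?_
    intro z _
    simp
  obtain ⟨M1, hM1⟩ := hXc.exists_bound_of_continuousOn hfX
  obtain ⟨M2, hM2⟩ := hXc.exists_bound_of_continuousOn hgX
  have uf := hXc.uniformContinuousOn_of_continuous hfX
  have ug := hXc.uniformContinuousOn_of_continuous hgX
  rw [Metric.uniformContinuousOn_iff] at uf ug
  set M := max (max M1 M2) 0 with hM
  have hM0 : 0 ≤ M := le_max_right _ _
  have hMf : ∀ z ∈ X, ‖f z‖ ≤ M := fun z hz =>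
    (hM1 z hz).trans ((le_max_left _ _).trans (le_max_left _ _))
  have hMg : ∀ z ∈ X, ‖g z‖ ≤ M := fun z hz =>
    (hM2 z hz).trans ((le_max_right _ _).trans (le_max_left _ _))
  refine ⟨M, hM0, ?_⟩
  intro τ hτ
  obtain ⟨d1, hd1, H1⟩ := uf (τ / 3) (by positivity)
  obtain ⟨d2, hd2, H2⟩ := ug (τ / 3) (by positivity)
  refine ⟨min (min d1 d2) (min (r / 2) (τ / (3 * (M + 1)))), by positivity, ?_⟩
  intro z hz k t hzy ν hν hνd
  have e1 : dist z (γ k t) < d1 := hzy.trans_le ((min_le_left _ _).trans (min_le_left _ _))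
  have e2 : dist z (γ k t) < d2 := hzy.trans_le ((min_le_left _ _).trans (min_le_right _ _))
  have e3 : dist z (γ k t) < r / 2 := hzy.trans_le ((min_le_right _ _).trans (min_le_left _ _))
  have e4 : ‖ν - I * deriv (γ k) t / ((‖deriv (γ k) t‖ : ℝ) : ℂ)‖ ≤ τ / (3 * (M + 1)) :=
    hνd.trans ((min_le_right _ _).trans (min_le_right _ _))
  have hzX : z ∈ X :=
    ⟨subset_closure hz, Metric.mem_cthickening_of_dist_le _ _ _ _ (hmemΓ k t) e3.le⟩
  have hyX : γ k t ∈ X :=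
    ⟨frontier_subset_closure (hmemΓ k t),
      Metric.self_subset_cthickening _ (hmemΓ k t)⟩
  refine ⟨hMf z hzX, hMg z hzX, ?_⟩
  set ν0 : ℂ := I * deriv (γ k) t / ((‖deriv (γ k) t‖ : ℝ) : ℂ) with hν0
  have hz0 : g (γ k t) + conj (f (γ k t) * ν0) = 0 := rel_alg (h.der k t) (hrel k t)
  have key : g z + conj (f z * ν) = (g z - g (γ k t)) + conj ((f z - f (γ k t)) * ν)
      + conj (f (γ k t) * (ν - ν0)) := by
    have : g z + conj (f z * ν) = (g z - g (γ k t)) + conj ((f z - f (γ k t)) * ν)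
      + conj (f (γ k t) * (ν - ν0)) + (g (γ k t) + conj (f (γ k t) * ν0)) := by
      simp only [map_mul, map_sub]
      ring
    rw [this, hz0, add_zero]
  rw [key]
  have b1 : ‖g z - g (γ k t)‖ ≤ τ / 3 := by
    rw [← dist_eq_norm]
    exact (H2 z hzX _ hyX e2).le
  have b2 : ‖conj ((f z - f (γ k t)) * ν)‖ ≤ τ / 3 := by
    rw [RCLike.norm_conj, norm_mul, hν, mul_one, ← dist_eq_norm]
    exact (H1 z hzX _ hyX e1).le
  have b3 : ‖conj (f (γ k t) * (ν - ν0))‖ ≤ τ / 3 := by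
    rw [RCLike.norm_conj, norm_mul]
    calc ‖f (γ k t)‖ * ‖ν - ν0‖ ≤ (M + 1) * (τ / (3 * (M + 1))) := by
          apply mul_le_mul _ e4 (norm_nonneg _) (by positivity)
          exact (hMf _ hyX).trans (by linarith)
      _ = τ / 3 := by
          field_simp
  calc _ ≤ ‖(g z - g (γ k t)) + conj ((f z - f (γ k t)) * ν)‖ + ‖conj (f (γ k t) * (ν - ν0))‖ :=
        norm_add_le _ _
    _ ≤ ‖g z - g (γ k t)‖ + ‖conj ((f z - f (γ k t)) * ν)‖ + ‖conj (f (γ k t) * (ν - ν0))‖ := by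
        gcongr
        exact norm_add_le _ _
    _ ≤ τ / 3 + τ / 3 + τ / 3 := by gcongr
    _ = τ := by ring

end Pool.Agent.H761R2.SV
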