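import Pool.Agent.H761R2.SV.Defs

/-! Module CALC -/

set_option autoImplicit false
open Complex MeasureTheory Filter Topology

namespace Pool.Agent.H761R2.SV

/-- Module CALC -/
theorem calc_int (n : ℕ) (τ M : ℝ) (hτ : 0 ≤ τ) (hM : 0 ≤ M) :
    ((n : ℝ) + 1) * ∫ u in (0:ℝ)..1, (u ^ n * (τ + M * (1 - u))) ^ 2 ≤
      2 * τ ^ 2 + M ^ 2 / ((n : ℝ) + 1) ^ 2 := by
  have hn : (0:ℝ) ≤ n := Nat.cast_nonneg n
  have h1 : ∫ u in (0:ℝ)..1, (u ^ n * (τ + M * (1 - u))) ^ 2 ≤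
      ∫ u in (0:ℝ)..1, (2 * τ ^ 2 * u ^ (2 * n) + 2 * M ^ 2 * u ^ (2 * n) -
        4 * M ^ 2 * u ^ (2 * n + 1) + 2 * M ^ 2 * u ^ (2 * n + 2)) := by
    apply intervalIntegral.integral_mono_on (by norm_num)
    · exact (by fun_prop : Continuous _).intervalIntegrable _ _
    · exact (by fun_prop : Continuous _).intervalIntegrable _ _
    · intro u _
      have e1 : (u ^ n * (τ + M * (1 - u))) ^ 2 = u ^ (2 * n) * (τ + M * (1 - u)) ^ 2 := by ring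
      have e2 : 2 * τ ^ 2 * u ^ (2 * n) + 2 * M ^ 2 * u ^ (2 * n) -
        4 * M ^ 2 * u ^ (2 * n + 1) + 2 * M ^ 2 * u ^ (2 * n + 2) =
        u ^ (2 * n) * (2 * τ ^ 2 + 2 * (M * (1 - u)) ^ 2) := by ring
      rw [e1, e2]
      have h0 : 0 ≤ u ^ (2 * n) := by rw [pow_mul]; positivity
      apply mul_le_mul_of_nonneg_left _ h0
      nlinarith [sq_nonneg (τ - M * (1 - u))]
  have hi : ∀ (c : ℝ) (k : ℕ), IntervalIntegrable (fun u : ℝ => c * u ^ k) volume 0 1 := fun c k =>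
    (by fun_prop : Continuous _).intervalIntegrable _ _
  have h2 : ∫ u in (0:ℝ)..1, (2 * τ ^ 2 * u ^ (2 * n) + 2 * M ^ 2 * u ^ (2 * n) -
        4 * M ^ 2 * u ^ (2 * n + 1) + 2 * M ^ 2 * u ^ (2 * n + 2)) =
      2 * τ ^ 2 * (1 / (2 * n + 1)) + 2 * M ^ 2 * (1 / (2 * n + 1)) - 4 * M ^ 2 * (1 / (2 * n + 2)) +
        2 * M ^ 2 * (1 / (2 * n + 3)) := by
    rw [intervalIntegral.integral_add (((hi _ _).add (hi _ _)).sub (hi _ _)) (hi _ _),
      intervalIntegral.integral_sub ((hi _ _).add (hi _ _)) (hi _ _),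
      intervalIntegral.integral_add (hi _ _) (hi _ _)]
    simp only [intervalIntegral.integral_const_mul, integral_pow]
    push_cast
    simp only [one_pow, ne_eq, Nat.add_eq_zero_iff, one_ne_zero, and_false, not_false_eq_true, zero_pow,
      sub_zero]
    ring_nf
  rw [h2] at h1
  have h3 : 2 * τ ^ 2 * (1 / (2 * (n:ℝ) + 1)) + 2 * M ^ 2 * (1 / (2 * n + 1)) -
      4 * M ^ 2 * (1 / (2 * n + 2)) + 2 * M ^ 2 * (1 / (2 * n + 3)) =
      2 * τ ^ 2 / (2 * n + 1) + 2 * M ^ 2 / ((n + 1) * ((2 * n + 1) * (2 * n + 3))) := by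
    field_simp
    ring
  rw [h3] at h1
  calc ((n : ℝ) + 1) * ∫ u in (0:ℝ)..1, (u ^ n * (τ + M * (1 - u))) ^ 2 ≤
      ((n : ℝ) + 1) * (2 * τ ^ 2 / (2 * n + 1) +
        2 * M ^ 2 / ((n + 1) * ((2 * n + 1) * (2 * n + 3)))) := by gcongr
    _ = 2 * τ ^ 2 * ((n + 1) / (2 * n + 1)) + M ^ 2 * (2 / ((2 * n + 1) * (2 * n + 3))) := by
        field_simp
    _ ≤ 2 * τ ^ 2 * 1 + M ^ 2 * (1 / ((n : ℝ) + 1) ^ 2) := by
        have g1 : ((n:ℝ) + 1) / (2 * n + 1) ≤ 1 := by rw [div_le_one (by positivity)]; linarith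
        have g2 : (2:ℝ) / ((2 * n + 1) * (2 * n + 3)) ≤ 1 / ((n : ℝ) + 1) ^ 2 := by
          rw [div_le_div_iff₀ (by positivity) (by positivity)]
          nlinarith
        exact add_le_add (mul_le_mul_of_nonneg_left g1 (by positivity))
          (mul_le_mul_of_nonneg_left g2 (by positivity))
    _ = _ := by ring

end Pool.Agent.H761R2.SV
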