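import Pool.Agent.H761R2.SV.Geo3

/-! Module GEO: smooth cut-offs adapted to the boundary curves. -/

set_option autoImplicit false
set_option linter.unusedSectionVars false
open Complex MeasureTheory Filter Topology
open scoped ContDiff

namespace Pool.Agent.H761R2.SV.GeoT

open Pool.Agent.H761R2.SV

variable {Ω : Set ℂ} {n : ℕ} {γ : Fin n → ℝ → ℂ}

/-- the parameter rectangle -/
def Rc (e : ℝ) : Set ℂ := Set.Ico (0 : ℝ) 1 ×ℂ Set.Ioo (0 : ℝ) e

lemma Rc_eq (e : ℝ) : Rc e = measurableEquivRealProd ⁻¹' (Set.Ico (0 : ℝ) 1 ×ˢ Set.Ioo (0 : ℝ) e) := by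
  ext w
  simp [Rc, mem_reProdIm, measurableEquivRealProd]

lemma Rc_meas (e : ℝ) : MeasurableSet (Rc e) := by
  rw [Rc_eq]
  exact measurableEquivRealProd.measurable (measurableSet_Ico.prod measurableSet_Ioo)

lemma Rc_sub (e : ℝ) : Rc e ⊆ Set.Icc (0 : ℝ) 1 ×ℂ Set.Icc 0 e := by
  intro w hw
  exact ⟨⟨hw.1.1, hw.1.2.le⟩, ⟨hw.2.1.le, hw.2.2.le⟩⟩

lemma intOn_Rc {e : ℝ} {f : ℂ → ℝ} (hf : ContinuousOn f (Set.Icc (0 : ℝ) 1 ×ℂ Set.Icc 0 e)) :
    IntegrableOn f (Rc e) :=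
  (hf.integrableOn_compact (isCompact_Icc.reProdIm isCompact_Icc)).mono_set (Rc_sub e)

lemma integral_Rc {e : ℝ} (he : 0 < e) (φ : ℝ → ℝ) (hφ : Continuous φ) :
    ∫ w in Rc e, φ (hh (w.im / e)) * (deriv hh (w.im / e) / e) = ∫ u in (0 : ℝ)..1, φ u := by
  have h1 := volume_preserving_equiv_real_prod.setIntegral_preimage_emb
    measurableEquivRealProd.measurableEmbedding
    (fun p : ℝ × ℝ => (fun _ : ℝ => (1 : ℝ)) p.1 *
      (fun x : ℝ => φ (hh (x / e)) * (deriv hh (x / e) / e)) p.2)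
    (Set.Ico (0 : ℝ) 1 ×ˢ Set.Ioo (0 : ℝ) e)
  rw [← Rc_eq] at h1
  have h2 : ∫ w in Rc e, φ (hh (w.im / e)) * (deriv hh (w.im / e) / e) =
      ∫ w in Rc e, (fun _ : ℝ => (1 : ℝ)) (measurableEquivRealProd w).1 *
      (fun x : ℝ => φ (hh (x / e)) * (deriv hh (x / e) / e)) (measurableEquivRealProd w).2 := by
    refine setIntegral_congr_fun (Rc_meas e) fun w _ => ?_
    simp [measurableEquivRealProd]
  rw [h2, h1, Measure.volume_eq_prod]
  refine (setIntegral_prod_mul (μ := (volume : Measure ℝ)) (ν := (volume : Measure ℝ))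
    (fun _ : ℝ => (1 : ℝ)) (fun x : ℝ => φ (hh (x / e)) * (deriv hh (x / e) / e))
    (Set.Ico (0 : ℝ) 1) (Set.Ioo (0 : ℝ) e)).trans ?_
  have h3 : ∫ _ in Set.Ico (0 : ℝ) 1, (1 : ℝ) = 1 := by simp
  rw [h3, one_mul, ← integral_Ioc_eq_integral_Ioo, ← intervalIntegral.integral_of_le he.le]
  have h4 : ∀ x ∈ Set.uIcc 0 e, HasDerivAt (fun x => hh (x / e)) (deriv hh (x / e) / e) x := by
    intro x _
    have a1 : HasDerivAt (fun x : ℝ => x / e) (1 / e) x := (hasDerivAt_id x).div_const e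
    have a2 := (hh_hasDerivAt (x / e)).comp x a1
    refine a2.congr_deriv ?_
    ring
  have h5 : ContinuousOn (fun x => deriv hh (x / e) / e) (Set.uIcc 0 e) :=
    ((hh_deriv_cont.comp (continuous_id.div_const e)).div_const e).continuousOn
  have h6 := intervalIntegral.integral_comp_mul_deriv h4 h5 hφ
  have h7 : hh (0 / e) = 0 := by rw [zero_div]; exact hh_zero (by norm_num)
  have h8 : hh (e / e) = 1 := by rw [div_self he.ne']; exact hh_one (by norm_num)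
  rw [h7, h8] at h6
  exact h6

/-- bound for the Jacobian times the gradient -/
lemma exists_jac {r : ℝ} (T : Tube γ r) (h : Curves Ω n γ) (k : Fin n) :
    ∃ C : ℝ, 0 ≤ C ∧ ∀ w ∈ Set.Icc (0 : ℝ) 1 ×ℂ Set.Icc 0 (r / 2),
      |(fderiv ℝ (Ph (γ k)) w).det| * ‖dbarR (sg γ r) (Ph (γ k) w)‖ ≤ C := by
  have hr := T.rpos
  have hc : ContinuousOn (fun w => |(fderiv ℝ (Ph (γ k)) w).det| *
      ‖dbarR (sg γ r) (Ph (γ k) w)‖) (Set.Icc (0 : ℝ) 1 ×ℂ Set.Icc 0 (r / 2)) := by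
    intro w hw
    have hwr : |w.im| < r := by
      rw [abs_of_nonneg hw.2.1]; linarith [hw.2.2]
    have hA : ContinuousAt (fun w => dbarR (sg γ r) (Ph (γ k) w)) w :=
      ContinuousAt.comp (dbarR_sg_cont T h ⟨k, w, hwr, rfl⟩)
        (contDiff_Ph (h.analytic k)).continuous.continuousAt
    exact (((continuous_det (h.analytic k)).continuousAt.abs).mul hA.norm).continuousWithinAt
  obtain ⟨C, hC⟩ := (isCompact_Icc.reProdIm isCompact_Icc).exists_bound_of_continuousOn hc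
  refine ⟨C, ?_, fun w hw => le_trans (le_abs_self _) (hC w hw)⟩
  refine le_trans (norm_nonneg _) (hC 0 ?_)
  exact ⟨⟨le_rfl, zero_le_one⟩, ⟨le_rfl, by positivity⟩⟩

section tube
variable {r : ℝ} (T : Tube γ r) (h : Curves Ω n γ) {e : ℝ} (he : 0 < e) (her : e ≤ r / 2)
include T h he her

lemma her' : e < r := by linarith [T.rpos]

lemma Rc_im {w : ℂ} (hw : w ∈ Rc e) : |w.im| < r := by
  rw [abs_of_pos hw.2.1]
  linarith [hw.2.2, T.rpos]

lemma injOn_Rc (k : Fin n) : Set.InjOn (Ph (γ k)) (Rc e) := by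
  intro w hw w' hw' e'
  obtain ⟨_, m, hm⟩ := T.inj k k w w' (Rc_im T h he her hw) (Rc_im T h he her hw') e'
  have h1 : w'.re = w.re + m := by rw [hm]; simp
  have h2 := hw.1
  have h3 := hw'.1
  have h4 : (m : ℝ) < 1 := by linarith [h2.1, h3.2]
  have h5 : (-1 : ℝ) < m := by linarith [h2.2, h3.1]
  have h6 : m = 0 := by
    have a1 : m < 1 := by exact_mod_cast h4
    have a2 : -1 < m := by exact_mod_cast h5
    omega
  rw [hm, h6]; simp

lemma integral_est (C : Fin n → ℝ) (hC0 : ∀ k, 0 ≤ C k)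
    (hC : ∀ k, ∀ w ∈ Set.Icc (0 : ℝ) 1 ×ℂ Set.Icc 0 (r / 2),
      |(fderiv ℝ (Ph (γ k)) w).det| * ‖dbarR (sg γ r) (Ph (γ k) w)‖ ≤ C k)
    (φ : ℝ → ℝ) (hφ : Continuous φ) (hφ0 : ∀ u, 0 ≤ φ u) :
    ∫ z, φ (cut Ω γ r e z) * ‖dbarR (cut Ω γ r e) z‖ ≤ (∑ k, C k) * ∫ u in (0 : ℝ)..1, φ u := by
  have her1 : e < r := her' T h he her
  set G : ℂ → ℝ := fun z => φ (cut Ω γ r e z) * ‖dbarR (cut Ω γ r e) z‖ with hG
  have hcd := cut_contDiff T h he her1
  have hdc : Continuous (dbarR (cut Ω γ r e)) := by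
    have h1 : Continuous (fderiv ℝ (cut Ω γ r e)) := hcd.continuous_fderiv (by simp)
    unfold dbarR
    exact ((continuous_ofReal.comp (h1.clm_apply continuous_const)).add
      (continuous_const.mul (continuous_ofReal.comp (h1.clm_apply continuous_const)))).div_const 2
  have hGc : Continuous G := (hφ.comp hcd.continuous).mul hdc.norm
  have hGs : HasCompactSupport G := by
    refine HasCompactSupport.intro (isCompact_CT T h he her1) fun z hz => ?_
    simp only [hG, dbarR_cut_zero T h he her1 hz, norm_zero, mul_zero]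
  have hGi : Integrable G := hGc.integrable_of_hasCompactSupport hGs
  set S : Fin n → Set ℂ := fun k => Ph (γ k) '' Rc e with hS
  have hder : ∀ k, ∀ w ∈ Rc e, HasFDerivWithinAt (Ph (γ k)) (fderiv ℝ (Ph (γ k)) w) (Rc e) w :=
    fun k w _ => (hasStrict_Ph (h.analytic k) w).hasFDerivAt.hasFDerivWithinAt
  have hSm : ∀ k, MeasurableSet (S k) := fun k =>
    measurable_image_of_fderivWithin (Rc_meas e) (hder k) (injOn_Rc T h he her k)
  have hSd : Pairwise (Function.onFun Disjoint S) := by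
    intro k l hkl
    rw [Function.onFun, Set.disjoint_left]
    rintro _ ⟨w, hw, rfl⟩ ⟨w', hw', e'⟩
    exact hkl (T.inj k l w w' (Rc_im T h he her hw) (Rc_im T h he her hw') e'.symm).1
  have hzero : ∀ z ∉ ⋃ k, S k, G z = 0 := by
    intro z hz
    by_contra hne
    have hd : dbarR (cut Ω γ r e) z ≠ 0 := by
      intro h0
      apply hne
      simp only [hG, h0, norm_zero, mul_zero]
    obtain ⟨k, w, h1, h2, h3, h4, h5⟩ := dbarR_ne T h he her1 hd
    exact hz (Set.mem_iUnion.2 ⟨k, w, ⟨⟨h3, h4⟩, ⟨h1, h2⟩⟩, h5⟩)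
  rw [← setIntegral_eq_integral_of_forall_compl_eq_zero hzero,
    integral_iUnion_fintype hSm hSd (fun k => hGi.integrableOn), Finset.sum_mul]
  refine Finset.sum_le_sum fun k _ => ?_
  rw [integral_image_eq_integral_abs_det_fderiv_smul volume (Rc_meas e) (hder k)
    (injOn_Rc T h he her k)]
  have hval : ∀ w ∈ Rc e, |(fderiv ℝ (Ph (γ k)) w).det| • G (Ph (γ k) w) ≤
      C k * (φ (hh (w.im / e)) * (deriv hh (w.im / e) / e)) := by
    intro w hw
    have hwr := Rc_im T h he her hw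
    have hU : Ph (γ k) w ∈ U γ r := ⟨k, w, hwr, rfl⟩
    have h1 : G (Ph (γ k) w) = φ (hh (w.im / e)) * ((deriv hh (w.im / e) / e) *
        ‖dbarR (sg γ r) (Ph (γ k) w)‖) := by
      simp only [hG]
      rw [cut_Ph T h he her1 k hwr, dbarR_cut T h he her1 hU, norm_mul, norm_real,
        Real.norm_of_nonneg, sg_Ph T k hwr]
      exact div_nonneg (hh_deriv_nonneg _) he.le
    have h2 := hC k w ⟨⟨hw.1.1, hw.1.2.le⟩, ⟨hw.2.1.le, by linarith [hw.2.2]⟩⟩
    have h3 : 0 ≤ φ (hh (w.im / e)) * (deriv hh (w.im / e) / e) :=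
      mul_nonneg (hφ0 _) (div_nonneg (hh_deriv_nonneg _) he.le)
    rw [h1, smul_eq_mul]
    calc _ = (|(fderiv ℝ (Ph (γ k)) w).det| * ‖dbarR (sg γ r) (Ph (γ k) w)‖) *
        (φ (hh (w.im / e)) * (deriv hh (w.im / e) / e)) := by ring
      _ ≤ _ := mul_le_mul_of_nonneg_right h2 h3
  have hi1 : IntegrableOn (fun w => |(fderiv ℝ (Ph (γ k)) w).det| • G (Ph (γ k) w)) (Rc e) := by
    apply intOn_Rc
    exact ((continuous_det (h.analytic k)).abs.smul
      (hGc.comp (contDiff_Ph (h.analytic k)).continuous)).continuousOn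
  have hi2 : IntegrableOn (fun w : ℂ => C k * (φ (hh (w.im / e)) * (deriv hh (w.im / e) / e)))
      (Rc e) := by
    apply intOn_Rc
    have c1 : Continuous (fun w : ℂ => w.im / e) := continuous_im.div_const e
    have c2 : Continuous hh := (hh_contDiff (m := 1)).continuous
    exact (continuous_const.mul ((hφ.comp (c2.comp c1)).mul
      ((hh_deriv_cont.comp c1).div_const e))).continuousOn
  refine (setIntegral_mono_on hi1 hi2 (Rc_meas e) hval).trans (le_of_eq ?_)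
  rw [integral_const_mul, integral_Rc he φ hφ]

end tube

end Pool.Agent.H761R2.SV.GeoT

namespace Pool.Agent.H761R2.SV

open GeoT

/-- Module GEO (file `Geo.lean`): smooth cut-offs adapted to the boundary curves. -/
theorem geo {Ω : Set ℂ} {n : ℕ} {γ : Fin n → ℝ → ℂ} (h : Curves Ω n γ) :
    ∃ C0 : ℝ, 0 ≤ C0 ∧ ∀ ε : ℝ, 0 < ε → ∃ s : ℂ → ℝ,
      ContDiff ℝ ∞ s ∧ (∀ z, 0 ≤ s z ∧ s z ≤ 1) ∧ tsupport s ⊆ Ω ∧
      (∀ z ∈ Ω, (∀ y ∈ frontier Ω, ε ≤ dist z y) → s z = 1) ∧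
      (∀ φ : ℝ → ℝ, Continuous φ → (∀ u, 0 ≤ φ u) →
        ∫ z, φ (s z) * ‖dbarR s z‖ ≤ C0 * ∫ u in (0:ℝ)..1, φ u) ∧
      (∀ z, dbarR s z ≠ 0 → ∃ (k : Fin n) (t : ℝ), dist z (γ k t) < ε ∧
        ‖dbarR s z - (‖dbarR s z‖ : ℂ) * (I * deriv (γ k) t / (‖deriv (γ k) t‖ : ℂ))‖
          ≤ ε * ‖dbarR s z‖) := by
  obtain ⟨r, T⟩ := (exists_tube h).exists
  have hr := T.rpos
  choose C hC0 hC using exists_jac T h
  obtain ⟨M, hM0, hM⟩ := exists_speed h
  refine ⟨∑ k, C k, Finset.sum_nonneg fun k _ => hC0 k, fun ε hε => ?_⟩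
  have h1 : ∀ᶠ e in 𝓝[>] (0 : ℝ), e < r / 2 := nhdsWithin_le_nhds (gt_mem_nhds (by positivity))
  have h2 : ∀ᶠ e in 𝓝[>] (0 : ℝ), e < ε / (M + 1) :=
    nhdsWithin_le_nhds (gt_mem_nhds (by positivity))
  obtain ⟨e, ⟨⟨h3, h4⟩, h5⟩, h6⟩ :=
    (((dir_est T h hε).and h1).and h2 |>.and self_mem_nhdsWithin).exists
  have he : 0 < e := h6
  have her : e < r := by linarith
  have heM : e * M < ε := by
    rw [lt_div_iff₀ (by positivity)] at h5
    nlinarith
  refine ⟨cut Ω γ r e, cut_contDiff T h he her, fun z => ⟨cut_nonneg r e z, cut_le_one r e z⟩,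
    cut_tsupport T h he her, fun z hz hd => cut_eq_one T h he her hM heM hz hd,
    fun φ hφ hφ0 => integral_est T h he h4.le C hC0 hC φ hφ hφ0, fun z hz => ?_⟩
  obtain ⟨k, w, w1, w2, w3, w4, rfl⟩ := dbarR_ne T h he her hz
  have hwe : |w.im| < e := by rw [abs_of_pos w1]; exact w2
  have hwr : |w.im| < r := by linarith
  refine ⟨k, w.re, ?_, ?_⟩
  · rw [dist_eq, Ph, add_sub_cancel_left, norm_mul, norm_mul, norm_I, one_mul, norm_real,
      Real.norm_eq_abs, abs_of_pos w1]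
    have := mul_le_mul w2.le (hM k w.re) (norm_nonneg _) he.le
    linarith
  · have h7 := h3 k w hwe
    rw [dbarR_cut T h he her ⟨k, w, hwr, rfl⟩]
    set c : ℝ := deriv hh (sg γ r (Ph (γ k) w) / e) / e with hc
    have hc0 : 0 ≤ c := div_nonneg (hh_deriv_nonneg _) he.le
    have h8 : ‖(c : ℂ) * dbarR (sg γ r) (Ph (γ k) w)‖ = c * ‖dbarR (sg γ r) (Ph (γ k) w)‖ := by
      rw [norm_mul, norm_real, Real.norm_of_nonneg hc0]
    rw [h8]
    have h9 : (c : ℂ) * dbarR (sg γ r) (Ph (γ k) w) -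
        ((c * ‖dbarR (sg γ r) (Ph (γ k) w)‖ : ℝ) : ℂ) *
          (I * deriv (γ k) w.re / (‖deriv (γ k) w.re‖ : ℂ)) =
        (c : ℂ) * (dbarR (sg γ r) (Ph (γ k) w) - (‖dbarR (sg γ r) (Ph (γ k) w)‖ : ℂ) *
          (I * deriv (γ k) w.re / (‖deriv (γ k) w.re‖ : ℂ))) := by
      push_cast; ring
    rw [h9, norm_mul, norm_real, Real.norm_of_nonneg hc0]
    calc _ ≤ c * (ε * ‖dbarR (sg γ r) (Ph (γ k) w)‖) := mul_le_mul_of_nonneg_left h7 hc0
      _ = _ := by ring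

end Pool.Agent.H761R2.SV
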