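import Pool.Agent.H761R2.SV.Disc
import Pool.Agent.H761R2.SV.Geo
import Pool.Agent.H761R2.SV.Hol
import Pool.Agent.H761R2.SV.Bdry
import Pool.Agent.H761R2.SV.Calc

set_option autoImplicit false
open Complex MeasureTheory Filter Topology
open scoped ContDiff ComplexConjugate

namespace Pool.Agent.H761R2.SV



lemma dbarR_cont {s : ℂ → ℝ} (hs : ContDiff ℝ ∞ s) : Continuous (dbarR s) := by
  have h1 : Continuous (fderiv ℝ s) := hs.continuous_fderiv (by simp)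
  unfold dbarR
  have h2 : Continuous (fun z => fderiv ℝ s z 1) := h1.clm_apply continuous_const
  have h3 : Continuous (fun z => fderiv ℝ s z I) := h1.clm_apply continuous_const
  fun_prop

lemma dbarR_zero_of_const {s : ℂ → ℝ} {z : ℂ} {c : ℝ} (h : ∀ᶠ w in 𝓝 z, s w = c) : dbarR s z = 0 := by
  have h1 : s =ᶠ[𝓝 z] fun _ => c := h
  have h2 : fderiv ℝ s z = 0 := by
    rw [h1.fderiv_eq]; simp
  simp [dbarR, h2]

lemma dbarR_supp {s : ℂ → ℝ} {z : ℂ} (h : dbarR s z ≠ 0) : z ∈ tsupport s := by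
  by_contra hz
  apply h
  apply dbarR_zero_of_const (c := 0)
  have := (isClosed_tsupport s).isOpen_compl.mem_nhds hz
  filter_upwards [this] with w hw
  exact image_eq_zero_of_notMem_tsupport hw

/-- density of the masses -/
noncomputable def gd (n : ℕ) (s : ℂ → ℝ) (z : ℂ) : ℝ := ((n : ℝ) + 1) / Real.pi * ‖dbarR s z‖

lemma gd_cont (n : ℕ) {s : ℂ → ℝ} (hs : ContDiff ℝ ∞ s) : Continuous (gd n s) :=
  continuous_const.mul (dbarR_cont hs).norm

lemma gd_nonneg (n : ℕ) (s : ℂ → ℝ) (z : ℂ) : 0 ≤ gd n s z :=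
  mul_nonneg (div_nonneg (by positivity) Real.pi_pos.le) (norm_nonneg _)

lemma gd_zero (n : ℕ) (s : ℂ → ℝ) (z : ℂ) : gd n s z = 0 ↔ dbarR s z = 0 := by
  have h1 : ((n : ℝ) + 1) / Real.pi ≠ 0 := (div_pos (by positivity) Real.pi_pos).ne'
  rw [gd, mul_eq_zero, norm_eq_zero]
  constructor
  · rintro (h | h)
    · exact absurd h h1
    · exact h
  · exact Or.inr

/-- the pointwise estimate, first form -/
lemma pt1 {n : ℕ} {s : ℂ → ℝ} {z K L : ℂ} (h01 : 0 ≤ s z ∧ s z ≤ 1) (hd : dbarR s z ≠ 0) {M τ : ℝ}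
    (hK : ‖K‖ ≤ M)
    (hKL : ‖L + conj (K * (dbarR s z / (‖dbarR s z‖ : ℂ)))‖ ≤ τ) :
    ‖conj ((Real.pi : ℂ)⁻¹ * (L * (((n : ℂ) + 1) * ((s z : ℝ) : ℂ) ^ n * dbarR s z))) / (gd n s z : ℂ)
      + K * ((s z : ℝ) : ℂ) ^ (n + 1)‖ ≤ s z ^ n * (τ + M * (1 - s z)) := by
  have hn : (‖dbarR s z‖ : ℂ) ≠ 0 := by exact_mod_cast norm_ne_zero_iff.2 hd
  have hpi : (Real.pi : ℂ) ≠ 0 := by exact_mod_cast Real.pi_ne_zero
  have hn1 : ((n : ℂ) + 1) ≠ 0 := by exact_mod_cast Nat.succ_ne_zero n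
  set ν : ℂ := dbarR s z / (‖dbarR s z‖ : ℂ) with hν
  have hν1 : ν * conj ν = 1 := unim hd
  have hν2 : ‖ν‖ = 1 := by
    rw [hν, norm_div, Complex.norm_real, norm_norm, div_self (norm_ne_zero_iff.2 hd)]
  have e1 : conj ((Real.pi : ℂ)⁻¹ * (L * (((n : ℂ) + 1) * ((s z : ℝ) : ℂ) ^ n * dbarR s z))) / (gd n s z : ℂ) =
      ((s z : ℝ) : ℂ) ^ n * conj (L * ν) := by
    rw [gd, hν]
    push_cast
    simp only [map_mul, map_inv₀, map_div₀, map_pow, map_add, map_natCast, map_one, Complex.conj_ofReal]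
    field_simp
  have e2 : ((s z : ℝ) : ℂ) ^ n * conj (L * ν) + K * ((s z : ℝ) : ℂ) ^ (n + 1) =
      ((s z : ℝ) : ℂ) ^ n * (conj ν * conj (L + conj (K * ν)) - K * ((1 - s z : ℝ) : ℂ)) := by
    simp only [map_mul, map_add, Complex.conj_conj]
    push_cast
    linear_combination (-((s z : ℝ) : ℂ) ^ n * K) * hν1
  rw [e1, e2, norm_mul, norm_pow, Complex.norm_real, Real.norm_of_nonneg h01.1]
  refine mul_le_mul_of_nonneg_left ?_ (pow_nonneg h01.1 n)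
  refine (norm_sub_le _ _).trans (add_le_add ?_ ?_)
  · rw [norm_mul, Complex.norm_conj, Complex.norm_conj, hν2, one_mul]
    exact hKL
  · rw [norm_mul, Complex.norm_real, Real.norm_of_nonneg (by linarith [h01.2])]
    exact mul_le_mul_of_nonneg_right hK (by linarith [h01.2])

/-- the pointwise estimate, second form -/
lemma pt2 {n : ℕ} {s : ℂ → ℝ} {z K L P : ℂ} (h01 : 0 ≤ s z ∧ s z ≤ 1) (hd : dbarR s z ≠ 0) {M τ : ℝ}
    (hL : ‖L‖ ≤ M)
    (hKL : ‖L + conj (K * (dbarR s z / (‖dbarR s z‖ : ℂ)))‖ ≤ τ) :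
    ‖(Real.pi : ℂ)⁻¹ * (K * (((n : ℂ) + 1) * ((s z : ℝ) : ℂ) ^ n * dbarR s z)) / (gd n s z : ℂ)
      + conj (L * ((s z : ℝ) : ℂ) ^ (n + 1) - P) + conj P‖ ≤ s z ^ n * (τ + M * (1 - s z)) := by
  have hn : (‖dbarR s z‖ : ℂ) ≠ 0 := by exact_mod_cast norm_ne_zero_iff.2 hd
  have hpi : (Real.pi : ℂ) ≠ 0 := by exact_mod_cast Real.pi_ne_zero
  have hn1 : ((n : ℂ) + 1) ≠ 0 := by exact_mod_cast Nat.succ_ne_zero n
  set ν : ℂ := dbarR s z / (‖dbarR s z‖ : ℂ) with hν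
  have e1 : (Real.pi : ℂ)⁻¹ * (K * (((n : ℂ) + 1) * ((s z : ℝ) : ℂ) ^ n * dbarR s z)) / (gd n s z : ℂ) =
      ((s z : ℝ) : ℂ) ^ n * (K * ν) := by
    rw [gd, hν]
    push_cast
    field_simp
  have e2 : ((s z : ℝ) : ℂ) ^ n * (K * ν) + conj (L * ((s z : ℝ) : ℂ) ^ (n + 1) - P) + conj P =
      ((s z : ℝ) : ℂ) ^ n * (conj (L + conj (K * ν)) - conj L * ((1 - s z : ℝ) : ℂ)) := by
    simp only [map_mul, map_add, map_sub, map_pow, Complex.conj_conj, Complex.conj_ofReal]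
    push_cast
    ring
  rw [e1, e2, norm_mul, norm_pow, Complex.norm_real, Real.norm_of_nonneg h01.1]
  refine mul_le_mul_of_nonneg_left ?_ (pow_nonneg h01.1 n)
  refine (norm_sub_le _ _).trans (add_le_add ?_ ?_)
  · rw [Complex.norm_conj]
    exact hKL
  · rw [norm_mul, Complex.norm_conj, Complex.norm_real, Real.norm_of_nonneg (by linarith [h01.2])]
    exact mul_le_mul_of_nonneg_right hL (by linarith [h01.2])

end Pool.Agent.H761R2.SV
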