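import Pool.Agent.H761R2.SV.Asm1

set_option autoImplicit false
open Complex MeasureTheory Filter Topology
open scoped ContDiff ComplexConjugate

namespace Pool.Agent.H761R2.SV



lemma pair {Ω : Set ℂ} (hΩ : IsOpen Ω) {s : ℂ → ℝ} (hs : ContDiff ℝ ∞ s)
    (h01 : ∀ z, 0 ≤ s z ∧ s z ≤ 1) (hts : tsupport s ⊆ Ω) (hcs : HasCompactSupport (dbarR s))
    {p q : ℂ} (hq : ∀ᶠ z in 𝓝 q, s z = 1) (hp : ∀ᶠ z in 𝓝 p, s z = 1)
    {K L : ℂ → ℂ} (hK : DifferentiableOn ℂ K Ω) (hK0 : Tendsto K (cocompact ℂ) (𝓝 0))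
    (hL : DifferentiableOn ℂ (fun z => L z - (z - q)⁻¹) Ω) (hL0 : Tendsto L (cocompact ℂ) (𝓝 0))
    {M τ : ℝ} (n : ℕ)
    (hb : ∀ z, dbarR s z ≠ 0 → ‖K z‖ ≤ M ∧ ‖L z‖ ≤ M ∧
      ‖L z + conj (K z * (dbarR s z / (‖dbarR s z‖ : ℂ)))‖ ≤ τ)
    {C0 : ℝ} (hco : ∀ φ : ℝ → ℝ, Continuous φ → (∀ u, 0 ≤ φ u) →
        ∫ z, φ (s z) * ‖dbarR s z‖ ≤ C0 * ∫ u in (0:ℝ)..1, φ u)
    {D : ℝ} (hD0 : 0 ≤ D) (hD : ∀ z, dbarR s z ≠ 0 → ‖(p - z)⁻¹‖ ≤ D)
    {A H : ℝ} (hA : ((n : ℝ) + 1) / Real.pi * C0 < A)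
    (hH : 4 * (((n : ℝ) + 1) / Real.pi * (C0 * ∫ u in (0:ℝ)..1, (u ^ n * (τ + M * (1 - u))) ^ 2)) < H)
    {η : ℝ} (hη : 0 < η) :
    ∀ᶠ δ : ℝ in 𝓝[>] 0,
      ‖KB (xg (gd n s) δ) (mg (gd n s) δ) p q - K p‖ ≤ η + D * Real.sqrt A * Real.sqrt H ∧
      ‖LB (xg (gd n s) δ) (mg (gd n s) δ) p q - L p‖ ≤ η + D * Real.sqrt A * Real.sqrt H := by
  have hpi : (Real.pi : ℂ) ≠ 0 := by exact_mod_cast Real.pi_ne_zero
  have hsp : s p = 1 := hp.self_of_nhds
  have hgs : ∀ z, gd n s z ≠ 0 → dbarR s z ≠ 0 := fun z hz h => hz ((gd_zero n s z).2 h)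
  have hp' : p ∉ tsupport (gd n s) := by
    rw [notMem_tsupport_iff_eventuallyEq]
    have := hp.eventually_nhds
    filter_upwards [this] with z hz
    exact (gd_zero n s z).2 (dbarR_zero_of_const hz)
  have hgc : HasCompactSupport (gd n s) := by
    refine hcs.mono' (subset_trans ?_ (subset_tsupport _))
    intro z hz hz'
    exact hz ((gd_zero n s z).2 hz')
  have c2 : Continuous (fun w => L w * (((n : ℂ) + 1) * ((s w : ℝ) : ℂ) ^ n * dbarR s w)) :=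
    hol_cont hΩ hs hts q hq hL n
  have c1 : Continuous (fun w => K w * (((n : ℂ) + 1) * ((s w : ℝ) : ℂ) ^ n * dbarR s w)) := by
    have a1 := hol_cont hΩ hs hts q hq (f := fun z => K z + (z - q)⁻¹)
      (by simpa using hK) n
    have a2 := hol_cont hΩ hs hts q hq (f := fun z => (z - q)⁻¹)
      (by simp only [sub_self]; exact differentiableOn_const _) n
    have := a1.sub a2
    refine this.congr fun w => ?_
    simp only [Pi.sub_apply]
    ring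
  have i1 : ∫ z, ‖dbarR s z‖ ≤ C0 := by
    have := hco (fun _ => 1) continuous_const (fun _ => zero_le_one)
    simpa using this
  have hpos : 0 < ((n : ℝ) + 1) / Real.pi := div_pos (by positivity) Real.pi_pos
  have key := disc (gd_cont n hs) (gd_nonneg n s) hgc p q hp'
    (f1 := fun w => (Real.pi : ℂ)⁻¹ * (K w * (((n : ℂ) + 1) * ((s w : ℝ) : ℂ) ^ n * dbarR s w)))
    (f2 := fun w => (Real.pi : ℂ)⁻¹ * (L w * (((n : ℂ) + 1) * ((s w : ℝ) : ℂ) ^ n * dbarR s w)))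
    (F1 := fun z => K z * ((s z : ℝ) : ℂ) ^ (n + 1))
    (F2 := fun z => L z * ((s z : ℝ) : ℂ) ^ (n + 1) - (z - q)⁻¹)
    (continuous_const.mul c1) (continuous_const.mul c2)
    (fun z hz => by rw [gd_zero] at hz; simp [hz])
    (fun z hz => by rw [gd_zero] at hz; simp [hz])
    (fun z => by
      have := hol_rep hΩ hs h01 hts hcs hK hK0 n z
      have e1 : ∀ w, (Real.pi : ℂ)⁻¹ * (K w * (((n : ℂ) + 1) * ((s w : ℝ) : ℂ) ^ n * dbarR s w)) *
          (z - w)⁻¹ = (Real.pi : ℂ)⁻¹ *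
          (K w * (((n : ℂ) + 1) * ((s w : ℝ) : ℂ) ^ n * dbarR s w) * (z - w)⁻¹) := fun w => by ring
      simp only [e1]
      rw [integral_const_mul, this, ← mul_assoc, inv_mul_cancel₀ hpi, one_mul])
    (fun z => by
      have := pole_rep hΩ hs h01 hts hcs q hq hL hL0 n z
      have e1 : ∀ w, (Real.pi : ℂ)⁻¹ * (L w * (((n : ℂ) + 1) * ((s w : ℝ) : ℂ) ^ n * dbarR s w)) *
          (z - w)⁻¹ = (Real.pi : ℂ)⁻¹ *
          (L w * (((n : ℂ) + 1) * ((s w : ℝ) : ℂ) ^ n * dbarR s w) * (z - w)⁻¹) := fun w => by ring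
      simp only [e1]
      rw [integral_const_mul, this, ← mul_assoc, inv_mul_cancel₀ hpi, one_mul])
    (h := fun z => s z ^ n * (τ + M * (1 - s z)))
    (by have := hs.continuous; fun_prop)
    (fun z hz => by
      obtain ⟨b1, _, b3⟩ := hb z (hgs z hz)
      exact pt1 (h01 z) (hgs z hz) b1 b3)
    (fun z hz => by
      obtain ⟨_, b2, b3⟩ := hb z (hgs z hz)
      exact pt2 (h01 z) (hgs z hz) b2 b3)
    (A := A) (H := H) (D := D)
    (by
      have : ∫ z, gd n s z = ((n : ℝ) + 1) / Real.pi * ∫ z, ‖dbarR s z‖ := by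
        simp only [gd]
        rw [integral_const_mul]
      rw [this]
      exact lt_of_le_of_lt (mul_le_mul_of_nonneg_left i1 hpos.le) hA)
    (by
      have e2 : ∫ z, gd n s z * (s z ^ n * (τ + M * (1 - s z))) ^ 2 = ((n : ℝ) + 1) / Real.pi *
          ∫ z, (s z ^ n * (τ + M * (1 - s z))) ^ 2 * ‖dbarR s z‖ := by
        rw [← integral_const_mul]
        congr 1
        funext z
        rw [gd]
        ring
      have i2 := hco (fun u => (u ^ n * (τ + M * (1 - u))) ^ 2) (by fun_prop) (fun u => sq_nonneg _)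
      rw [e2]
      refine lt_of_le_of_lt ?_ hH
      exact mul_le_mul_of_nonneg_left (mul_le_mul_of_nonneg_left i2 hpos.le) (by norm_num))
    hD0 (fun z hz => hD z (hgs z hz)) hη
  filter_upwards [key] with δ hδ
  simp only [hsp, Complex.ofReal_one, one_pow, mul_one] at hδ
  refine ⟨hδ.1, ?_⟩
  have : (p - q)⁻¹ + (L p - (p - q)⁻¹) = L p := by ring
  rw [this] at hδ
  exact hδ.2

end Pool.Agent.H761R2.SV
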