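import Pool.Agent.H761R2.SV.Asm2

set_option autoImplicit false
open Complex MeasureTheory Filter Topology
open scoped ContDiff ComplexConjugate

namespace Pool.Agent.H761R2.SV



/-- conditions on the kernels with pole `ζ` -/
def Ker (Ω : Set ℂ) {n : ℕ} (γ : Fin n → ℝ → ℂ) (K L : ℂ → ℂ) (ζ : ℂ) : Prop :=
  DifferentiableOn ℂ K Ω ∧ ContinuousOn K (closure Ω) ∧ Tendsto K (cocompact ℂ) (𝓝 (0:ℂ)) ∧
  DifferentiableOn ℂ (fun z : ℂ => L z - (z - ζ)⁻¹) Ω ∧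
  ContinuousOn (fun z : ℂ => L z - (z - ζ)⁻¹) (closure Ω) ∧
  Tendsto L (cocompact ℂ) (𝓝 (0:ℂ)) ∧
  ∀ k : Fin n, ∀ t : ℝ, (Complex.I)⁻¹ * L (γ k t) * deriv (γ k) t
          = starRingEnd ℂ (K (γ k t)) * (((‖deriv (γ k) t‖ : ℝ)) : ℂ)

lemma dbarR_compact {Ω : Set ℂ} {n : ℕ} {γ : Fin n → ℝ → ℂ} (h : Curves Ω n γ) {s : ℂ → ℝ} {ε : ℝ}
    (hg : ∀ z, dbarR s z ≠ 0 → ∃ (k : Fin n) (t : ℝ), dist z (γ k t) < ε) :
    HasCompactSupport (dbarR s) := by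
  have h1 : Bornology.IsBounded (frontier Ω) := by
    rw [← frontier_compl]
    exact h.bdd.closure.subset frontier_subset_closure
  obtain ⟨R, hR⟩ := h1.exists_norm_le
  refine HasCompactSupport.intro (isCompact_closedBall (0:ℂ) (R + ε)) fun z hz => ?_
  by_contra hne
  obtain ⟨k, t, hkt⟩ := hg z hne
  apply hz
  rw [mem_closedBall_zero_iff]
  have h2 : γ k t ∈ frontier Ω := by
    rw [h.fr]; exact Set.mem_iUnion.2 ⟨k, ⟨t, rfl⟩⟩
  have h3 := hR _ h2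
  calc ‖z‖ = ‖(z - γ k t) + γ k t‖ := by rw [sub_add_cancel]
    _ ≤ ‖z - γ k t‖ + ‖γ k t‖ := norm_add_le _ _
    _ ≤ R + ε := by rw [← dist_eq_norm]; linarith

lemma approx {Ω : Set ℂ} {n' : ℕ} {γ : Fin n' → ℝ → ℂ} (h : Curves Ω n' γ) {K L : ℂ → ℂ → ℂ}
    (hKL : ∀ ζ ∈ Ω, Ker Ω γ (fun z => K z ζ) (fun z => L z ζ) ζ)
    {a b c : ℂ} (ha : a ∈ Ω) (hb : b ∈ Ω) (hc : c ∈ Ω) (hab : a ≠ b) (hac : a ≠ c) (hbc : b ≠ c)
    {η : ℝ} (hη : 0 < η) :
    ∃ K' L' : ℂ → ℂ → ℂ, D2 K' L' a b c ≤ η ∧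
      (‖K' a b - K a b‖ ≤ η ∧ ‖L' a b - L a b‖ ≤ η) ∧
      (‖K' a c - K a c‖ ≤ η ∧ ‖L' a c - L a c‖ ≤ η) ∧
      (‖K' b c - K b c‖ ≤ η ∧ ‖L' b c - L b c‖ ≤ η) := by
  obtain ⟨C0, hC0, hgeo⟩ := geo h
  obtain ⟨ra, hra, hba⟩ := Metric.isOpen_iff.1 h.isOpen a ha
  obtain ⟨rb', hrb, hbb⟩ := Metric.isOpen_iff.1 h.isOpen b hb
  obtain ⟨rc, hrc, hbc'⟩ := Metric.isOpen_iff.1 h.isOpen c hc
  set r0 := min ra (min rb' rc) / 2 with hr0
  have hr0p : 0 < r0 := by rw [hr0]; positivity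
  have hball : ∀ e, (e = a ∨ e = b ∨ e = c) → Metric.ball e (2 * r0) ⊆ Ω := by
    intro e he
    have h2 : 2 * r0 = min ra (min rb' rc) := by rw [hr0]; ring
    rw [h2]
    rcases he with rfl | rfl | rfl
    · exact (Metric.ball_subset_ball (min_le_left _ _)).trans hba
    · exact (Metric.ball_subset_ball ((min_le_right _ _).trans (min_le_left _ _))).trans hbb
    · exact (Metric.ball_subset_ball ((min_le_right _ _).trans (min_le_right _ _))).trans hbc'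
  obtain ⟨k1, k2, k3, k4, k5, k6, k7⟩ := hKL b hb
  obtain ⟨l1, l2, l3, l4, l5, l6, l7⟩ := hKL c hc
  obtain ⟨Mb, hMb0, hMb⟩ := bdry h hb k2 k5 k7
  obtain ⟨Mc, hMc0, hMc⟩ := bdry h hc l2 l5 l7
  set M := Mb + Mc with hM
  have hM0 : 0 ≤ M := by positivity
  have hpi := Real.pi_pos
  set D := r0⁻¹ with hD
  have hD0 : 0 ≤ D := by positivity
  set Q1 := C0 / Real.pi + 1 with hQ1
  set Q2 := 4 * C0 / Real.pi * (2 + M ^ 2) + 1 with hQ2
  have hQ1p : 0 < Q1 := by positivity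
  have hQ2p : 0 < Q2 := by positivity
  obtain ⟨n, hn⟩ := exists_nat_gt (4 * D ^ 2 * (Q1 * Q2) / η ^ 2)
  set N : ℝ := (n : ℝ) + 1 with hN
  have hNp : 0 < N := by positivity
  set τ : ℝ := 1 / N with hτ
  have hτp : 0 < τ := by positivity
  obtain ⟨εb, hεb, hB⟩ := hMb τ hτp
  obtain ⟨εc, hεc, hC⟩ := hMc τ hτp
  set ε := min r0 (min εb εc) with hε
  have hεp : 0 < ε := lt_min hr0p (lt_min hεb hεc)
  have hε1 : ε ≤ r0 := min_le_left _ _
  have hε2 : ε ≤ εb := (min_le_right _ _).trans (min_le_left _ _)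
  have hε3 : ε ≤ εc := (min_le_right _ _).trans (min_le_right _ _)
  obtain ⟨s, hs, h01, hts, hs1, hco, hnb⟩ := hgeo ε hεp
  have hcs : HasCompactSupport (dbarR s) := dbarR_compact h (ε := ε) fun z hz => by
    obtain ⟨k, t, hkt, _⟩ := hnb z hz
    exact ⟨k, t, hkt⟩
  -- s = 1 on the balls
  have hone : ∀ e, (e = a ∨ e = b ∨ e = c) → ∀ z ∈ Metric.ball e r0, s z = 1 := by
    intro e he z hz
    have hz2 : z ∈ Ω := hball e he (Metric.ball_subset_ball (by linarith) hz)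
    refine hs1 z hz2 fun y hy => ?_
    by_contra hlt
    push Not at hlt
    have h3 : y ∈ Metric.ball e (2 * r0) := by
      rw [Metric.mem_ball] at hz ⊢
      calc dist y e ≤ dist y z + dist z e := dist_triangle _ _ _
        _ < 2 * r0 := by rw [dist_comm y z]; linarith
    have h4 := hball e he h3
    have h5 : y ∈ Ω ∩ frontier Ω := ⟨h4, hy⟩
    rw [h.isOpen.inter_frontier_eq] at h5
    exact h5
  have hnear : ∀ e, (e = a ∨ e = b ∨ e = c) → ∀ᶠ z in 𝓝 e, s z = 1 := by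
    intro e he
    filter_upwards [Metric.ball_mem_nhds e hr0p] with z hz
    exact hone e he z hz
  have hDe : ∀ e, (e = a ∨ e = b ∨ e = c) → ∀ z, dbarR s z ≠ 0 → ‖(e - z)⁻¹‖ ≤ D := by
    intro e he z hz
    have h3 : ¬ z ∈ Metric.ball e r0 := by
      intro hzb
      apply hz
      apply dbarR_zero_of_const (c := 1)
      filter_upwards [Metric.isOpen_ball.mem_nhds hzb] with w hw
      exact hone e he w hw
    rw [Metric.mem_ball, not_lt, dist_comm, dist_eq_norm] at h3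
    rw [norm_inv]
    exact inv_anti₀ hr0p h3
  have hnu : ∀ z, dbarR s z ≠ 0 → z ∈ Ω ∧ ∃ (k : Fin n') (t : ℝ), dist z (γ k t) < ε ∧
      ‖dbarR s z / (‖dbarR s z‖ : ℂ)‖ = 1 ∧
      ‖dbarR s z / (‖dbarR s z‖ : ℂ) - I * deriv (γ k) t / ((‖deriv (γ k) t‖ : ℝ) : ℂ)‖ ≤ ε := by
    intro z hz
    obtain ⟨k, t, hkt, hk2⟩ := hnb z hz
    have hnz : ‖dbarR s z‖ ≠ 0 := norm_ne_zero_iff.2 hz
    have hnc : (‖dbarR s z‖ : ℂ) ≠ 0 := by exact_mod_cast hnz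
    refine ⟨hts (dbarR_supp hz), k, t, hkt, ?_, ?_⟩
    · rw [norm_div, Complex.norm_real, norm_norm, div_self hnz]
    · have e1 : dbarR s z / (‖dbarR s z‖ : ℂ) - I * deriv (γ k) t / ((‖deriv (γ k) t‖ : ℝ) : ℂ) =
          (dbarR s z - (‖dbarR s z‖ : ℂ) * (I * deriv (γ k) t / (‖deriv (γ k) t‖ : ℂ))) /
            (‖dbarR s z‖ : ℂ) := by
        field_simp
      rw [e1, norm_div, Complex.norm_real, norm_norm, div_le_iff₀ (by positivity)]
      exact hk2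
  -- numerical bounds
  have hA : ((n : ℝ) + 1) / Real.pi * C0 < Q1 * N := by
    rw [hQ1, ← hN]
    have : N / Real.pi * C0 = C0 / Real.pi * N := by ring
    rw [this, add_mul, one_mul]
    linarith
  have hH : 4 * (((n : ℝ) + 1) / Real.pi * (C0 * ∫ u in (0:ℝ)..1, (u ^ n * (τ + M * (1 - u))) ^ 2)) <
      Q2 / N ^ 2 := by
    have h3 := calc_int n τ M hτp.le hM0
    rw [← hN] at h3 ⊢
    set J := ∫ u in (0:ℝ)..1, (u ^ n * (τ + M * (1 - u))) ^ 2 with hJ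
    have e1 : 4 * (N / Real.pi * (C0 * J)) = 4 * C0 / Real.pi * (N * J) := by ring
    rw [e1]
    have h4 : 4 * C0 / Real.pi * (N * J) ≤ 4 * C0 / Real.pi * (2 * τ ^ 2 + M ^ 2 / N ^ 2) :=
      mul_le_mul_of_nonneg_left h3 (by positivity)
    refine lt_of_le_of_lt h4 ?_
    have e2 : 4 * C0 / Real.pi * (2 * τ ^ 2 + M ^ 2 / N ^ 2) =
        (4 * C0 / Real.pi * (2 + M ^ 2)) / N ^ 2 := by
      rw [hτ]; field_simp
    rw [e2, hQ2]
    exact div_lt_div_of_pos_right (by linarith) (by positivity)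
  have hfin : D * Real.sqrt (Q1 * N) * Real.sqrt (Q2 / N ^ 2) ≤ η / 2 := by
    rw [mul_assoc, ← Real.sqrt_mul (by positivity)]
    have e1 : Q1 * N * (Q2 / N ^ 2) = Q1 * Q2 / N := by field_simp
    rw [e1]
    have h3 : D * Real.sqrt (Q1 * Q2 / N) = Real.sqrt (D ^ 2 * (Q1 * Q2 / N)) := by
      rw [Real.sqrt_mul (by positivity), Real.sqrt_sq hD0]
    rw [h3, Real.sqrt_le_left (by positivity)]
    rw [div_lt_iff₀ (by positivity)] at hn
    have h4 : 4 * D ^ 2 * (Q1 * Q2) ≤ N * η ^ 2 := by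
      have : (n : ℝ) * η ^ 2 ≤ N * η ^ 2 := mul_le_mul_of_nonneg_right (by rw [hN]; linarith) (sq_nonneg _)
      linarith
    rw [mul_div_assoc', div_le_iff₀ hNp]
    nlinarith
  have hη2 : 0 < η / 2 := by positivity
  -- the three pairs
  have P1 := pair h.isOpen hs h01 hts hcs (p := a) (q := b) (hnear b (by simp)) (hnear a (by simp))
    k1 k3 k4 k6 n (M := M) (τ := τ) (fun z hz => by
      obtain ⟨hzΩ, k, t, q1, q2, q3⟩ := hnu z hz
      obtain ⟨w1, w2, w3⟩ := hB z hzΩ k t (lt_of_lt_of_le q1 hε2) _ q2 (q3.trans hε2)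
      exact ⟨w1.trans (by rw [hM]; linarith), w2.trans (by rw [hM]; linarith), w3⟩)
    hco hD0 (hDe a (by simp)) hA hH hη2
  have P2 := pair h.isOpen hs h01 hts hcs (p := a) (q := c) (hnear c (by simp)) (hnear a (by simp))
    l1 l3 l4 l6 n (M := M) (τ := τ) (fun z hz => by
      obtain ⟨hzΩ, k, t, q1, q2, q3⟩ := hnu z hz
      obtain ⟨w1, w2, w3⟩ := hC z hzΩ k t (lt_of_lt_of_le q1 hε3) _ q2 (q3.trans hε3)
      exact ⟨w1.trans (by rw [hM]; linarith), w2.trans (by rw [hM]; linarith), w3⟩)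
    hco hD0 (hDe a (by simp)) hA hH hη2
  have P3 := pair h.isOpen hs h01 hts hcs (p := b) (q := c) (hnear c (by simp)) (hnear b (by simp))
    l1 l3 l4 l6 n (M := M) (τ := τ) (fun z hz => by
      obtain ⟨hzΩ, k, t, q1, q2, q3⟩ := hnu z hz
      obtain ⟨w1, w2, w3⟩ := hC z hzΩ k t (lt_of_lt_of_le q1 hε3) _ q2 (q3.trans hε3)
      exact ⟨w1.trans (by rw [hM]; linarith), w2.trans (by rw [hM]; linarith), w3⟩)
    hco hD0 (hDe b (by simp)) hA hH hη2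
  have hns : ∀ e, (e = a ∨ e = b ∨ e = c) → e ∉ tsupport (gd n s) := by
    intro e he
    rw [notMem_tsupport_iff_eventuallyEq]
    filter_upwards [(hnear e he).eventually_nhds] with z hz
    exact (gd_zero n s z).2 (dbarR_zero_of_const hz)
  have hgc : HasCompactSupport (gd n s) := by
    refine hcs.mono' (subset_trans ?_ (subset_tsupport _))
    intro z hz hz'
    exact hz ((gd_zero n s z).2 hz')
  have P4 := D2_small (gd_cont n hs) (gd_nonneg n s) hgc a b c hab hac hbc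
    (hns a (by simp)) (hns b (by simp)) (hns c (by simp)) hη
  obtain ⟨δ, q1, q2, q3, q4⟩ := (P1.and (P2.and (P3.and P4))).exists
  refine ⟨KB (xg (gd n s) δ) (mg (gd n s) δ), LB (xg (gd n s) δ) (mg (gd n s) δ), q4, ?_, ?_, ?_⟩
  · exact ⟨q1.1.trans (by linarith), q1.2.trans (by linarith)⟩
  · exact ⟨q2.1.trans (by linarith), q2.2.trans (by linarith)⟩
  · exact ⟨q3.1.trans (by linarith), q3.2.trans (by linarith)⟩

/-- **Main theorem**: `D²c ≤ 0`. -/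
theorem D2_nonpos {Ω : Set ℂ} {n' : ℕ} {γ : Fin n' → ℝ → ℂ} (h : Curves Ω n' γ) {K L : ℂ → ℂ → ℂ}
    (hKL : ∀ ζ ∈ Ω, Ker Ω γ (fun z => K z ζ) (fun z => L z ζ) ζ)
    {a b c : ℂ} (ha : a ∈ Ω) (hb : b ∈ Ω) (hc : c ∈ Ω) (hab : a ≠ b) (hac : a ≠ c) (hbc : b ≠ c) :
    D2 K L a b c ≤ 0 := by
  have h1 : ∀ k : ℕ, ∃ K' L' : ℂ → ℂ → ℂ, D2 K' L' a b c ≤ 1 / ((k : ℝ) + 1) ∧
      (‖K' a b - K a b‖ ≤ 1 / ((k : ℝ) + 1) ∧ ‖L' a b - L a b‖ ≤ 1 / ((k : ℝ) + 1)) ∧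
      (‖K' a c - K a c‖ ≤ 1 / ((k : ℝ) + 1) ∧ ‖L' a c - L a c‖ ≤ 1 / ((k : ℝ) + 1)) ∧
      (‖K' b c - K b c‖ ≤ 1 / ((k : ℝ) + 1) ∧ ‖L' b c - L b c‖ ≤ 1 / ((k : ℝ) + 1)) := fun k =>
    approx h hKL ha hb hc hab hac hbc (by positivity)
  choose K' L' hD h12 h13 h23 using h1
  have t0 : Tendsto (fun k : ℕ => 1 / ((k : ℝ) + 1)) atTop (𝓝 0) := tendsto_one_div_add_atTop_nhds_zero_nat
  have lim : ∀ (f : ℕ → ℂ) (z : ℂ), (∀ k, ‖f k - z‖ ≤ 1 / ((k : ℝ) + 1)) → Tendsto f atTop (𝓝 z) := by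
    intro f z hf
    rw [tendsto_iff_norm_sub_tendsto_zero]
    exact squeeze_zero (fun k => norm_nonneg _) hf t0
  have lKab := lim _ _ fun k => (h12 k).1
  have lLab := lim _ _ fun k => (h12 k).2
  have lKac := lim _ _ fun k => (h13 k).1
  have lLac := lim _ _ fun k => (h13 k).2
  have lKbc := lim _ _ fun k => (h23 k).1
  have lLbc := lim _ _ fun k => (h23 k).2
  have cc : ∀ {f : ℕ → ℂ} {z : ℂ}, Tendsto f atTop (𝓝 z) →
      Tendsto (fun k => conj (f k)) atTop (𝓝 (conj z)) := fun {f z} hf =>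
    (Complex.continuous_conj.tendsto z).comp hf
  have lim2 : Tendsto (fun k => D2 (K' k) (L' k) a b c) atTop (𝓝 (D2 K L a b c)) := by
    unfold D2
    refine Tendsto.const_mul _ ((Complex.continuous_re.tendsto _).comp ?_)
    exact (((lLab.mul (cc lKac)).sub ((cc lKab).mul lLac)).mul (cc lLbc)).sub
      (((lLab.mul (cc lLac)).sub ((cc lKab).mul lKac)).mul (cc lKbc))
  exact le_of_tendsto_of_tendsto' lim2 t0 hD

end Pool.Agent.H761R2.SV
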