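import Pool.Agent.H761R2.SV.Gen3

set_option autoImplicit false
open Matrix Finset Complex
open scoped ComplexConjugate

namespace Pool.Agent.H761R2.SV

section
variable {α β : Type*} [Fintype α] [DecidableEq α] [Fintype β] [DecidableEq β]

/-- if the cardinalities differ, the block anti-diagonal determinant vanishes -/
lemma det_anti_ne (P Q : Matrix α β ℂ) (h : Fintype.card α ≠ Fintype.card β) :
    det (fromBlocks 0 Q (-Pᴴ) 0 : Matrix (α ⊕ β) (α ⊕ β) ℂ) = 0 := by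
  -- scaling argument: rows `α` by 2, columns `β` by 1/2
  set M : Matrix (α ⊕ β) (α ⊕ β) ℂ := fromBlocks 0 Q (-Pᴴ) 0 with hM
  set D1 : Matrix (α ⊕ β) (α ⊕ β) ℂ := diagonal (Sum.elim (fun _ => 2) (fun _ => 1)) with hD1
  set D2 : Matrix (α ⊕ β) (α ⊕ β) ℂ := diagonal (Sum.elim (fun _ => 1) (fun _ => 2)) with hD2
  have h1 : D1 * M = M * D2 := by
    ext i j
    rw [hD1, hD2, diagonal_mul, mul_diagonal]
    rcases i with i | i <;> rcases j with j | j <;> simp [hM, mul_comm]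
  have h2 := congrArg det h1
  rw [det_mul, det_mul, hD1, hD2, det_diagonal, det_diagonal, Fintype.prod_sum_type,
    Fintype.prod_sum_type] at h2
  simp only [Sum.elim_inl, Sum.elim_inr, Finset.prod_const, Finset.card_univ, one_pow, one_mul,
    mul_one] at h2
  by_contra h0
  rw [mul_comm (det M)] at h2
  have h3 := mul_right_cancel₀ h0 h2
  have h4 : (2:ℕ) ^ Fintype.card α = 2 ^ Fintype.card β := by exact_mod_cast h3
  exact h (Nat.pow_right_injective (le_refl 2) h4)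

/-- if the cardinalities agree: product of determinants -/
lemma det_anti_eq (P Q : Matrix α β ℂ) (e : α ≃ β) :
    det (fromBlocks 0 Q (-Pᴴ) 0 : Matrix (α ⊕ β) (α ⊕ β) ℂ) =
      conj (det (P.submatrix id e)) * det (Q.submatrix id e) := by
  set Q' : Matrix α α ℂ := Q.submatrix id e with hQ'
  set P' : Matrix α α ℂ := P.submatrix id e with hP'
  have h1 : det (fromBlocks 0 Q (-Pᴴ) 0 : Matrix (α ⊕ β) (α ⊕ β) ℂ) =
      det (fromBlocks 0 Q' (-P'ᴴ) 0 : Matrix (α ⊕ α) (α ⊕ α) ℂ) := by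
    rw [← det_submatrix_equiv_self ((Equiv.refl α).sumCongr e)]
    congr 1
    ext i j
    rcases i with i | i <;> rcases j with j | j <;> simp [hQ', hP']
  rw [h1]
  have h2 : (fromBlocks 0 Q' (-P'ᴴ) 0 : Matrix (α ⊕ α) (α ⊕ α) ℂ) =
      fromBlocks Q' 0 0 (P'ᴴ) * fromBlocks 0 1 (-1) 0 := by
    rw [fromBlocks_multiply]
    simp
  have h3 : det (fromBlocks 0 1 (-1) 0 : Matrix (α ⊕ α) (α ⊕ α) ℂ) = 1 := by
    have h4 : (fromBlocks 0 1 (-1) 0 : Matrix (α ⊕ α) (α ⊕ α) ℂ) =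
        fromBlocks 1 1 0 1 * fromBlocks 1 0 (-1) 1 * fromBlocks 1 1 0 1 := by
      rw [fromBlocks_multiply, fromBlocks_multiply]
      simp
    rw [h4, det_mul, det_mul, det_fromBlocks_zero₂₁, det_fromBlocks_zero₁₂]
    simp
  rw [h2, det_mul, h3, det_fromBlocks_zero₂₁, det_conjTranspose]
  simp [mul_comm]

/-- the block determinant with `P = Q` is a nonnegative real -/
lemma det_anti_nonneg (Q : Matrix α β ℂ) :
    0 ≤ (det (fromBlocks 0 Q (-Qᴴ) 0 : Matrix (α ⊕ β) (α ⊕ β) ℂ)).re ∧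
    (det (fromBlocks 0 Q (-Qᴴ) 0 : Matrix (α ⊕ β) (α ⊕ β) ℂ)).im = 0 := by
  by_cases h : Fintype.card α = Fintype.card β
  · rw [det_anti_eq Q Q (Fintype.equivOfCardEq h), ← Complex.normSq_eq_conj_mul_self]
    exact ⟨by rw [Complex.ofReal_re]; exact Complex.normSq_nonneg _, Complex.ofReal_im _⟩
  · rw [det_anti_ne Q Q h]; simp

lemma det_anti_le (P Q : Matrix α β ℂ) :
    ‖det (fromBlocks 0 Q (-Pᴴ) 0 : Matrix (α ⊕ β) (α ⊕ β) ℂ)‖ ≤
      ((det (fromBlocks 0 Q (-Qᴴ) 0 : Matrix (α ⊕ β) (α ⊕ β) ℂ)).re +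
        (det (fromBlocks 0 P (-Pᴴ) 0 : Matrix (α ⊕ β) (α ⊕ β) ℂ)).re) / 2 := by
  by_cases h : Fintype.card α = Fintype.card β
  · rw [det_anti_eq P Q (Fintype.equivOfCardEq h), det_anti_eq Q Q (Fintype.equivOfCardEq h),
      det_anti_eq P P (Fintype.equivOfCardEq h), ← Complex.normSq_eq_conj_mul_self,
      ← Complex.normSq_eq_conj_mul_self, Complex.ofReal_re, Complex.ofReal_re, norm_mul,
      Complex.norm_conj, Complex.normSq_eq_norm_sq, Complex.normSq_eq_norm_sq]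
    nlinarith [sq_nonneg (‖det (P.submatrix id (Fintype.equivOfCardEq h))‖ -
      ‖det (Q.submatrix id (Fintype.equivOfCardEq h))‖)]
  · rw [det_anti_ne P Q h, det_anti_ne P P h, det_anti_ne Q Q h]; simp

end

end Pool.Agent.H761R2.SV
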