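import Pool.Agent.H761R2.SV.Twist

set_option autoImplicit false
open Matrix Finset Complex
open scoped ComplexConjugate

namespace Pool.Agent.H761R2.SV

section
variable {n E : Type*} [Fintype n] [DecidableEq n] [Fintype E] [DecidableEq E]

/-- expansion of a bordered determinant -/
lemma det_bord (M : Matrix (n ⊕ E) (n ⊕ E) ℂ) (d : n → ℂ) :
    det (diagonal (Sum.elim d (fun _ => 0)) + M) =
      ∑ S : Finset n, (∏ i ∈ Sᶜ, d i) *
        det (M.submatrix (Sum.map (Subtype.val : S → n) id) (Sum.map (Subtype.val : S → n) id) :
          Matrix (S ⊕ E) (S ⊕ E) ℂ) := by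
  rw [det_diag_add]
  have h1 : ∀ s : Finset (n ⊕ E), s ∉ (univ : Finset (Finset n)).image (fun S => S.disjSum univ) →
      (∏ i ∈ sᶜ, (Sum.elim d (fun _ => 0) : n ⊕ E → ℂ) i) *
        (M.submatrix (↑) (↑) : Matrix s s ℂ).det = 0 := by
    intro s hs
    have h2 : ∃ e : E, Sum.inr e ∉ s := by
      by_contra h
      push Not at h
      apply hs
      rw [Finset.mem_image]
      refine ⟨s.toLeft, Finset.mem_univ _, ?_⟩
      ext x
      rcases x with x | x
      · simp
      · simp [h x]
    obtain ⟨e, he⟩ := h2
    rw [Finset.prod_eq_zero (Finset.mem_compl.2 he) (by simp), zero_mul]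
  rw [← Finset.sum_subset (Finset.subset_univ ((univ : Finset (Finset n)).image (fun S => S.disjSum univ)))
    (fun s _ hs => h1 s hs), Finset.sum_image]
  · refine Finset.sum_congr rfl fun S _ => ?_
    congr 1
    · have : (S.disjSum (univ : Finset E))ᶜ = Sᶜ.disjSum ∅ := by
        ext x
        rcases x with x | x <;> simp
      rw [this, Finset.prod_disjSum]
      simp
    · let f : (S ⊕ E : Type _) ↪ n ⊕ E :=
        ⟨Sum.map Subtype.val id, Sum.map_injective.2 ⟨Subtype.val_injective, Function.injective_id⟩⟩
      have h3 : S.disjSum (univ : Finset E) = univ.map f := by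
        ext x
        rcases x with x | x <;> simp [f]
      have h4 := pm_map M f
      rw [pm] at h4
      rw [h3]
      exact h4
  · intro S _ T _ hST
    have := congrArg Finset.toLeft hST
    simpa using this

end

end Pool.Agent.H761R2.SV
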