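import Pool.Agent.H761R2.SV.Ent

set_option autoImplicit false
open Matrix Finset Complex
open scoped ComplexConjugate

namespace Pool.Agent.H761R2.SV

/-- exponent of the Cauchy determinant -/
noncomputable def Tq {α : Type*} [Fintype α] (p q : α → ℂ) : ℝ :=
  (∑ i, ∑ j, Real.log ‖p i - p j‖) / 2 + (∑ i, ∑ j, Real.log ‖q i - q j‖) / 2
    - ∑ i, ∑ j, Real.log ‖p i - q j‖

lemma phi_id {p q b c : ℂ} (h1 : p ≠ q) (h2 : p ≠ c) (h3 : b ≠ q) (h4 : q ≠ c) :
    (p - q)⁻¹ - (p - c)⁻¹ * (b - c) * (b - q)⁻¹ =
      (p - b) / (p - c) * (p - q)⁻¹ * ((q - b) / (q - c))⁻¹ := by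
  have e1 : p - q ≠ 0 := sub_ne_zero.2 h1
  have e2 : p - c ≠ 0 := sub_ne_zero.2 h2
  have e3 : b - q ≠ 0 := sub_ne_zero.2 h3
  have e4 : q - c ≠ 0 := sub_ne_zero.2 h4
  have e5 : q - b ≠ 0 := sub_ne_zero.2 h3.symm
  field_simp
  ring

lemma cauchy_step {α : Type*} [Fintype α] [DecidableEq α] (p q : Option α → ℂ)
    (hpq : ∀ i j, p i ≠ q j) (hq : ∀ j, q (some j) ≠ q none) :
    det (Xm p q) = (p none - q none)⁻¹ *
      ((∏ i : α, (p (some i) - p none) / (p (some i) - q none)) *
        det (Xm (fun i : α => p (some i)) (fun i : α => q (some i))) *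
        ∏ j : α, ((q (some j) - p none) / (q (some j) - q none))⁻¹) := by
  have hbc : p none - q none ≠ 0 := sub_ne_zero.2 (hpq _ _)
  set D : Matrix Unit Unit ℂ := Matrix.of fun _ _ => (p none - q none)⁻¹ with hD
  set D' : Matrix Unit Unit ℂ := Matrix.of fun _ _ => (p none - q none) with hD'
  have hDD' : D * D' = 1 := by
    ext i j
    rw [mul_apply]
    simp [hD, hD', inv_mul_cancel₀ hbc]
  have hD'D : D' * D = 1 := by
    ext i j
    rw [mul_apply]
    simp [hD, hD', mul_inv_cancel₀ hbc]
  letI : Invertible D := ⟨D', hD'D, hDD'⟩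
  have h1 : det (Xm p q) = det (fromBlocks
      (Xm (fun i : α => p (some i)) (fun i : α => q (some i)))
      (Matrix.of fun (i : α) (_ : Unit) => (p (some i) - q none)⁻¹)
      (Matrix.of fun (_ : Unit) (j : α) => (p none - q (some j))⁻¹) D) := by
    rw [← det_submatrix_equiv_self (Equiv.optionEquivSumPUnit α).symm]
    congr 1
    ext i j
    rcases i with i | i <;> rcases j with j | j <;> simp [Xm, hD]
  rw [h1, det_fromBlocks₂₂]
  have h2 : ⅟D = D' := rfl
  rw [h2]
  have h3 : det D = (p none - q none)⁻¹ := by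
    rw [det_unique]; rfl
  have h4 : Xm (fun i : α => p (some i)) (fun i : α => q (some i)) -
      (Matrix.of fun (i : α) (_ : Unit) => (p (some i) - q none)⁻¹) * D' *
      (Matrix.of fun (_ : Unit) (j : α) => (p none - q (some j))⁻¹) =
      diagonal (fun i : α => (p (some i) - p none) / (p (some i) - q none)) *
      Xm (fun i : α => p (some i)) (fun i : α => q (some i)) *
      diagonal (fun j : α => ((q (some j) - p none) / (q (some j) - q none))⁻¹) := by
    ext i j
    rw [mul_diagonal, diagonal_mul, Matrix.sub_apply, mul_apply]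
    simp only [Finset.univ_unique, Finset.sum_singleton, mul_apply, Matrix.of_apply, hD', Xm]
    exact phi_id (hpq _ _) (hpq _ _) (hpq _ _) (hq _)
  rw [h3, h4, det_mul, det_mul, det_diagonal, det_diagonal]

lemma Tq_option {α : Type*} [Fintype α] (p q : Option α → ℂ) :
    Tq p q = Tq (fun i : α => p (some i)) (fun i : α => q (some i))
      + (∑ i : α, (Real.log ‖p (some i) - p none‖ - Real.log ‖p (some i) - q none‖))
      - (∑ j : α, (Real.log ‖q (some j) - p none‖ - Real.log ‖q (some j) - q none‖))
      - Real.log ‖p none - q none‖ := by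
  have e1 : ∀ i : α, Real.log ‖p none - p (some i)‖ = Real.log ‖p (some i) - p none‖ :=
    fun i => by rw [norm_sub_rev]
  have e2 : ∀ i : α, Real.log ‖q none - q (some i)‖ = Real.log ‖q (some i) - q none‖ :=
    fun i => by rw [norm_sub_rev]
  have e3 : ∀ i : α, Real.log ‖p none - q (some i)‖ = Real.log ‖q (some i) - p none‖ :=
    fun i => by rw [norm_sub_rev]
  simp only [Tq, Fintype.sum_option, sub_self, norm_zero, Real.log_zero, Finset.sum_add_distrib,
    Finset.sum_sub_distrib, e1, e2, e3]
  ring

/-- absolute value of the Cauchy determinant -/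
lemma cauchy_norm : ∀ (α : Type) [Fintype α], ∀ [DecidableEq α], ∀ (p q : α → ℂ),
    Function.Injective p → Function.Injective q → (∀ i j, p i ≠ q j) →
      ‖det (Xm p q)‖ = Real.exp (Tq p q) := by
  intro α _
  refine Fintype.induction_empty_option
    (P := fun (α : Type) [Fintype α] => ∀ [DecidableEq α], ∀ (p q : α → ℂ),
    Function.Injective p → Function.Injective q → (∀ i j, p i ≠ q j) →
      ‖det (Xm p q)‖ = Real.exp (Tq p q)) ?_ ?_ ?_ α
  · intro α β _ e h _ p q hp hq hpq
    letI : Fintype α := Fintype.ofEquiv β e.symm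
    letI : DecidableEq α := e.decidableEq
    have h1 := h (p ∘ e) (q ∘ e) (hp.comp e.injective) (hq.comp e.injective) (fun i j => hpq _ _)
    have h2 : Xm (p ∘ e) (q ∘ e) = (Xm p q).submatrix e e := rfl
    rw [h2, det_submatrix_equiv_self] at h1
    rw [h1]
    congr 1
    simp only [Tq, Function.comp_apply]
    rw [← Equiv.sum_comp e (fun i => ∑ j, Real.log ‖p i - p j‖),
      ← Equiv.sum_comp e (fun i => ∑ j, Real.log ‖q i - q j‖),
      ← Equiv.sum_comp e (fun i => ∑ j, Real.log ‖p i - q j‖)]
    congr 1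
    · congr 1
      · congr 1
        exact Finset.sum_congr rfl fun i _ => Equiv.sum_comp e (fun j => Real.log ‖p (e i) - p j‖)
      · congr 1
        exact Finset.sum_congr rfl fun i _ => Equiv.sum_comp e (fun j => Real.log ‖q (e i) - q j‖)
    · exact Finset.sum_congr rfl fun i _ => Equiv.sum_comp e (fun j => Real.log ‖p (e i) - q j‖)
  · intro _ p q _ _ _
    simp [Tq]
  · intro α _ h _ p q hp hq hpq
    letI : DecidableEq α := fun a b => decidable_of_iff (some a = some b) (by simp)
    have h1 := h (fun i : α => p (some i)) (fun i : α => q (some i))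
      (fun i j hij => by simpa using hp hij) (fun i j hij => by simpa using hq hij)
      (fun i j => hpq _ _)
    have h2 := cauchy_step p q hpq (fun j hj => by simpa using hq hj)
    have h3 : ‖det (Xm p q)‖ = ‖(p none - q none)⁻¹ *
      ((∏ i : α, (p (some i) - p none) / (p (some i) - q none)) *
        det (Xm (fun i : α => p (some i)) (fun i : α => q (some i))) *
        ∏ j : α, ((q (some j) - p none) / (q (some j) - q none))⁻¹)‖ := by
      rw [← h2]
      exact congrArg norm (congrArg (fun i : DecidableEq (Option α) =>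
        @det (Option α) i _ ℂ _ (Xm p q)) (Subsingleton.elim _ _))
    rw [h3, norm_mul, norm_mul, norm_mul, h1, Tq_option p q, Real.exp_sub, Real.exp_sub,
      Real.exp_add, Real.exp_sum, Real.exp_sum, Real.exp_log (norm_pos_iff.2 (sub_ne_zero.2 (hpq _ _))),
      norm_inv, norm_prod, norm_prod]
    have h4 : ∏ i : α, ‖(p (some i) - p none) / (p (some i) - q none)‖ =
        ∏ i : α, Real.exp (Real.log ‖p (some i) - p none‖ - Real.log ‖p (some i) - q none‖) := by
      refine Finset.prod_congr rfl fun i _ => ?_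
      rw [norm_div, Real.exp_sub, Real.exp_log (norm_pos_iff.2 (sub_ne_zero.2 (hpq _ _))),
        Real.exp_log (norm_pos_iff.2 (sub_ne_zero.2 (fun h => by simpa using hp h)))]
    have h5 : ∏ j : α, ‖((q (some j) - p none) / (q (some j) - q none))⁻¹‖ =
        (∏ i : α, Real.exp (Real.log ‖q (some i) - p none‖ - Real.log ‖q (some i) - q none‖))⁻¹ := by
      rw [← Finset.prod_inv_distrib]
      refine Finset.prod_congr rfl fun i _ => ?_
      rw [norm_inv, norm_div, Real.exp_sub, Real.exp_log (norm_pos_iff.2 (sub_ne_zero.2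
        (hpq _ _).symm)),
        Real.exp_log (norm_pos_iff.2 (sub_ne_zero.2 (fun h => by simpa using hq h)))]
    rw [h4, h5]
    field_simp

end Pool.Agent.H761R2.SV
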