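import Pool.Agent.H761R2.SV.Fin5

set_option autoImplicit false
open Matrix Finset Complex
open scoped ComplexConjugate

namespace Pool.Agent.H761R2.SV

section
variable {ι : Type} [Fintype ι] [DecidableEq ι]

/-- energy estimate -/
lemma energy (x : ι → ℂ) {m : ι → ℝ} (hm : ∀ i, 0 < m i) (z : ι ⊕ ι → ℂ) :
    ∑ i, dd m i * ‖z i‖ ^ 2 ≤ ∑ i, (dd m i)⁻¹ * ‖(Gm x m).mulVec z i‖ ^ 2 := by
  have hd := fun i => dd_pos hm i
  -- identity
  have h1 : ∑ i, dd m i * ‖z i‖ ^ 2 = (∑ i, conj (z i) * (Gm x m).mulVec z i).re := by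
    have h2 : ∑ i, conj (z i) * (Gm x m).mulVec z i =
        ∑ i, ((dd m i * ‖z i‖ ^ 2 : ℝ) : ℂ) + ∑ i, ∑ k, conj (z i) * Lam x x i k * z k := by
      rw [← Finset.sum_add_distrib]
      refine Finset.sum_congr rfl fun i _ => ?_
      have : (Gm x m).mulVec z i = (dd m i : ℂ) * z i + ∑ k, Lam x x i k * z k := by
        simp only [Gm, Matrix.mulVec, dotProduct, Matrix.add_apply, add_mul, Finset.sum_add_distrib]
        congr 1
        rw [Finset.sum_eq_single i]
        · simp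
        · intro b _ hb; simp [diagonal_apply_ne _ (Ne.symm hb)]
        · simp
      rw [this, mul_add, Finset.mul_sum]
      congr 1
      · push_cast
        rw [← Complex.mul_conj' (z i)]
        ring
      · exact Finset.sum_congr rfl fun k _ => by ring
    have h3 : (∑ i, ∑ k, conj (z i) * Lam x x i k * z k).re = 0 := by
      have hskew : conj (∑ i, ∑ k, conj (z i) * Lam x x i k * z k) =
          - ∑ i, ∑ k, conj (z i) * Lam x x i k * z k := by
        rw [map_sum]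
        simp only [map_sum, map_mul, Complex.conj_conj]
        rw [Finset.sum_comm, ← Finset.sum_neg_distrib]
        refine Finset.sum_congr rfl fun i _ => ?_
        rw [← Finset.sum_neg_distrib]
        refine Finset.sum_congr rfl fun k _ => ?_
        have h4 : conj (Lam x x k i) = - Lam x x i k := ent_skew _ _
        rw [h4]
        ring
      have := congrArg Complex.re hskew
      rw [Complex.conj_re, Complex.neg_re] at this
      linarith
    rw [h2, Complex.add_re, h3, add_zero, ← Complex.ofReal_sum, Complex.ofReal_re]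
  set A := ∑ i, dd m i * ‖z i‖ ^ 2 with hA
  set B := ∑ i, (dd m i)⁻¹ * ‖(Gm x m).mulVec z i‖ ^ 2 with hB
  have hA0 : 0 ≤ A := Finset.sum_nonneg fun i _ => mul_nonneg (hd i).le (sq_nonneg _)
  have hB0 : 0 ≤ B := Finset.sum_nonneg fun i _ => mul_nonneg (inv_nonneg.2 (hd i).le) (sq_nonneg _)
  have h2 : A ≤ ∑ i, ‖z i‖ * ‖(Gm x m).mulVec z i‖ := by
    rw [h1]
    refine (Complex.re_le_norm _).trans ((norm_sum_le _ _).trans (le_of_eq ?_))
    exact Finset.sum_congr rfl fun i _ => by rw [norm_mul, Complex.norm_conj]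
  have h3 : (∑ i, ‖z i‖ * ‖(Gm x m).mulVec z i‖) ^ 2 ≤ A * B := by
    have h4 : ∀ i ∈ (univ : Finset (ι ⊕ ι)), ‖z i‖ * ‖(Gm x m).mulVec z i‖ =
        (Real.sqrt (dd m i) * ‖z i‖) * (Real.sqrt (dd m i)⁻¹ * ‖(Gm x m).mulVec z i‖) := by
      intro i _
      have : Real.sqrt (dd m i) * Real.sqrt (dd m i)⁻¹ = 1 := by
        rw [← Real.sqrt_mul (hd i).le, mul_inv_cancel₀ (hd i).ne', Real.sqrt_one]
      linear_combination (-(‖z i‖ * ‖(Gm x m).mulVec z i‖)) * this
    rw [Finset.sum_congr rfl h4]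
    refine (Finset.sum_mul_sq_le_sq_mul_sq _ _ _).trans (le_of_eq ?_)
    congr 1
    · refine Finset.sum_congr rfl fun i _ => ?_
      rw [mul_pow, Real.sq_sqrt (hd i).le]
    · refine Finset.sum_congr rfl fun i _ => ?_
      rw [mul_pow, Real.sq_sqrt (inv_nonneg.2 (hd i).le)]
  rcases hA0.eq_or_lt with h0 | h0
  · rw [← h0]; exact hB0
  · have h5 : A ^ 2 ≤ A * B := (pow_le_pow_left₀ hA0 h2 2).trans h3
    rw [sq] at h5
    exact le_of_mul_le_mul_left h5 h0

/-- coercivity: an approximate solution gives approximate dressed entries -/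
lemma coer (x : ι → ℂ) {m : ι → ℝ} (hm : ∀ i, 0 < m i) (r c : Bool × ℂ) (v : ι ⊕ ι → ℂ) :
    ‖dress x m r c - (ent r c - ∑ i, ent r (lab x x i) * v i)‖ ≤
      Real.sqrt (∑ i, (dd m i)⁻¹ * ‖ent r (lab x x i)‖ ^ 2) *
      Real.sqrt (∑ i, (dd m i)⁻¹ * ‖(Gm x m).mulVec v i - ent (lab x x i) c‖ ^ 2) := by
  have hd := fun i => dd_pos hm i
  have hu : IsUnit (det (Gm x m)) := Ne.isUnit (det_Gm_ne x hm)
  set h : ι ⊕ ι → ℂ := fun i => ent (lab x x i) c with hh
  set n : ι ⊕ ι → ℂ := (Gm x m)⁻¹.mulVec h with hn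
  have h1 : dress x m r c = ent r c - ∑ i, ent r (lab x x i) * n i := by
    rw [dress]
    congr 1
    refine Finset.sum_congr rfl fun i _ => ?_
    rw [hn, Matrix.mulVec, dotProduct, Finset.mul_sum]
    exact Finset.sum_congr rfl fun j _ => by rw [hh]; ring
  have h2 : (Gm x m).mulVec n = h := by
    rw [hn, Matrix.mulVec_mulVec, Matrix.mul_nonsing_inv _ hu, Matrix.one_mulVec]
  have h3 : dress x m r c - (ent r c - ∑ i, ent r (lab x x i) * v i) =
      ∑ i, ent r (lab x x i) * (v i - n i) := by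
    rw [h1]
    simp only [mul_sub, Finset.sum_sub_distrib]
    ring
  have h4 := energy x hm (fun i => v i - n i)
  have h5 : ∀ i, (Gm x m).mulVec (fun i => v i - n i) i = (Gm x m).mulVec v i - ent (lab x x i) c := by
    intro i
    have : (fun i => v i - n i) = v - n := rfl
    rw [this, Matrix.mulVec_sub, Pi.sub_apply, h2]
  simp only [h5] at h4
  rw [h3]
  have h6 : ‖∑ i, ent r (lab x x i) * (v i - n i)‖ ≤ ∑ i, ‖ent r (lab x x i)‖ * ‖v i - n i‖ :=
    (norm_sum_le _ _).trans (le_of_eq (Finset.sum_congr rfl fun i _ => norm_mul _ _))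
  have h7 : (∑ i, ‖ent r (lab x x i)‖ * ‖v i - n i‖) ^ 2 ≤
      (∑ i, (dd m i)⁻¹ * ‖ent r (lab x x i)‖ ^ 2) * ∑ i, dd m i * ‖v i - n i‖ ^ 2 := by
    have h8 : ∀ i ∈ (univ : Finset (ι ⊕ ι)), ‖ent r (lab x x i)‖ * ‖v i - n i‖ =
        (Real.sqrt (dd m i)⁻¹ * ‖ent r (lab x x i)‖) * (Real.sqrt (dd m i) * ‖v i - n i‖) := by
      intro i _
      have : Real.sqrt (dd m i) * Real.sqrt (dd m i)⁻¹ = 1 := by
        rw [← Real.sqrt_mul (hd i).le, mul_inv_cancel₀ (hd i).ne', Real.sqrt_one]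
      linear_combination (-(‖ent r (lab x x i)‖ * ‖v i - n i‖)) * this
    rw [Finset.sum_congr rfl h8]
    refine (Finset.sum_mul_sq_le_sq_mul_sq _ _ _).trans (le_of_eq ?_)
    congr 1
    · refine Finset.sum_congr rfl fun i _ => ?_
      rw [mul_pow, Real.sq_sqrt (inv_nonneg.2 (hd i).le)]
    · refine Finset.sum_congr rfl fun i _ => ?_
      rw [mul_pow, Real.sq_sqrt (hd i).le]
  have hE0 : 0 ≤ ∑ i, (dd m i)⁻¹ * ‖ent r (lab x x i)‖ ^ 2 :=
    Finset.sum_nonneg fun i _ => mul_nonneg (inv_nonneg.2 (hd i).le) (sq_nonneg _)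
  refine h6.trans ?_
  rw [← Real.sqrt_mul hE0]
  refine Real.le_sqrt_of_sq_le (h7.trans ?_)
  exact mul_le_mul_of_nonneg_left h4 hE0

end

end Pool.Agent.H761R2.SV
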