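import Pool.Agent.H761R2.SV.Bord

set_option autoImplicit false
open Matrix Finset Complex
open scoped ComplexConjugate

namespace Pool.Agent.H761R2.SV

section
variable {ι : Type} [Fintype ι] [DecidableEq ι]

/-- `d = 1/m` on both copies -/
noncomputable def dd (m : ι → ℝ) : ι ⊕ ι → ℝ := fun i => (Sum.elim m m i)⁻¹

omit [Fintype ι] [DecidableEq ι] in
lemma dd_pos {m : ι → ℝ} (hm : ∀ i, 0 < m i) (i : ι ⊕ ι) : 0 < dd m i := by
  rcases i with i | i <;> simp [dd, hm i]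

/-- the Gram-type matrix `1/m + Λ` -/
noncomputable def Gm (x : ι → ℂ) (m : ι → ℝ) : Matrix (ι ⊕ ι) (ι ⊕ ι) ℂ :=
  diagonal (fun i => ((dd m i : ℝ) : ℂ)) + Lam x x

/-- dressed entries -/
noncomputable def dress (x : ι → ℂ) (m : ι → ℝ) (r c : Bool × ℂ) : ℂ :=
  ent r c - ∑ i, ∑ j, ent r (lab x x i) * (Gm x m)⁻¹ i j * ent (lab x x j) c

lemma det_Gm (x : ι → ℂ) (m : ι → ℝ) : det (Gm x m) = ((Zf (Lam x x) (dd m) : ℝ) : ℂ) :=
  det_eq_Zf (PM_Lam x x) (dd m)

lemma pm_empty {n : Type*} [DecidableEq n] (M : Matrix n n ℂ) : pm M ∅ = 1 := by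
  rw [pm, det_isEmpty]

lemma Zmu_pos {n : Type*} [Fintype n] [DecidableEq n] {M : Matrix n n ℂ} (h : PM M) {d : n → ℝ}
    (hd : ∀ i, 0 < d i) : 1 ≤ ∑ s, mu M d s := by
  have h1 : mu M d ∅ = 1 := by simp [mu, pm_empty]
  rw [← h1]
  exact Finset.single_le_sum (fun s _ => mu_nonneg h hd s) (Finset.mem_univ _)

lemma Zf_pos {n : Type*} [Fintype n] [DecidableEq n] {M : Matrix n n ℂ} (h : PM M) {d : n → ℝ}
    (hd : ∀ i, 0 < d i) : 0 < Zf M d := by
  rw [Zf_eq_mu M hd]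
  exact mul_pos (Finset.prod_pos fun i _ => hd i) (lt_of_lt_of_le one_pos (Zmu_pos h hd))

lemma det_Gm_ne (x : ι → ℂ) {m : ι → ℝ} (hm : ∀ i, 0 < m i) : det (Gm x m) ≠ 0 := by
  rw [det_Gm]
  exact_mod_cast (Zf_pos (PM_Lam x x) (dd_pos hm)).ne'

/-- `det` of a bordered matrix is `det G` times the determinant of dressed entries -/
lemma det_dress (x : ι → ℂ) {m : ι → ℝ} (hm : ∀ i, 0 < m i) {E : Type*} [Fintype E] [DecidableEq E]
    (r c : E → Bool × ℂ) :
    det (diagonal (Sum.elim (fun i => ((dd m i : ℝ) : ℂ)) (fun _ => 0)) +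
      entM (Sum.elim (lab x x) r) (Sum.elim (lab x x) c)) =
      det (Gm x m) * det (Matrix.of fun e e' => dress x m (r e) (c e')) := by
  let _ : Invertible (Gm x m) := invertibleOfIsUnitDet _ (Ne.isUnit (det_Gm_ne x hm))
  have h1 : diagonal (Sum.elim (fun i => ((dd m i : ℝ) : ℂ)) (fun _ => 0)) +
      entM (Sum.elim (lab x x) r) (Sum.elim (lab x x) c) = fromBlocks (Gm x m)
      (Matrix.of fun (i : ι ⊕ ι) (e : E) => ent (lab x x i) (c e))
      (Matrix.of fun (e : E) (j : ι ⊕ ι) => ent (r e) (lab x x j))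
      (Matrix.of fun (e e' : E) => ent (r e) (c e')) := by
    ext i j
    rcases i with i | i <;> rcases j with j | j
    · simp [Gm, entM, Lam, diagonal_apply]
    · simp [entM]
    · simp [entM]
    · simp [entM, diagonal_apply]
  rw [h1, det_fromBlocks₁₁]
  congr 2
  ext e e'
  rw [Matrix.sub_apply, mul_apply]
  simp only [Matrix.of_apply, dress, mul_apply, Finset.sum_mul, invOf_eq_nonsing_inv]
  rw [Finset.sum_comm]

/-- swap of the two types on sites -/
lemma Gm_swap (x : ι → ℂ) (m : ι → ℝ) :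
    (Gm x m).map conj = (Gm x m).submatrix Sum.swap Sum.swap := by
  ext i j
  simp only [Gm, Matrix.map_apply, Matrix.submatrix_apply, Matrix.add_apply, map_add, Lam, entM,
    Matrix.of_apply]
  congr 1
  · rcases i with i | i <;> rcases j with j | j <;> by_cases h : i = j <;>
      simp [diagonal_apply, dd, h]
  · rw [← ent_swap]
    rcases i with i | i <;> rcases j with j | j <;> rfl

lemma Gm_inv_swap (x : ι → ℂ) {m : ι → ℝ} (hm : ∀ i, 0 < m i) (i j : ι ⊕ ι) :
    conj ((Gm x m)⁻¹ i j) = (Gm x m)⁻¹ i.swap j.swap := by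
  have hu : IsUnit (det (Gm x m)) := Ne.isUnit (det_Gm_ne x hm)
  have h1 : ((Gm x m)⁻¹).map conj = ((Gm x m).map conj)⁻¹ := by
    symm
    apply Matrix.inv_eq_left_inv
    rw [← Matrix.map_mul, Matrix.nonsing_inv_mul _ hu]
    simp
  have h2 : ((Gm x m)⁻¹).map conj = ((Gm x m)⁻¹).submatrix Sum.swap Sum.swap := by
    rw [h1, Gm_swap]
    have : (Gm x m).submatrix Sum.swap Sum.swap =
      (Gm x m).submatrix (Equiv.sumComm ι ι) (Equiv.sumComm ι ι) := rfl
    rw [this, Matrix.inv_submatrix_equiv]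
    rfl
  exact congrFun (congrFun h2 i) j

lemma dress_swap (x : ι → ℂ) {m : ι → ℝ} (hm : ∀ i, 0 < m i) (r c : Bool × ℂ) :
    dress x m (!r.1, r.2) (!c.1, c.2) = conj (dress x m r c) := by
  rw [dress, dress, map_sub, ent_swap, map_sum]
  congr 1
  rw [← Equiv.sum_comp (Equiv.sumComm ι ι)]
  refine Finset.sum_congr rfl fun i _ => ?_
  rw [map_sum, ← Equiv.sum_comp (Equiv.sumComm ι ι)]
  refine Finset.sum_congr rfl fun j _ => ?_
  rw [map_mul, map_mul, Gm_inv_swap x hm, ← ent_swap, ← ent_swap]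
  rcases i with i | i <;> rcases j with j | j <;> rfl

/-- sign of a type -/
def sgn (r : Bool) : ℂ := if r then 1 else -1

lemma Gm_star (x : ι → ℂ) (m : ι → ℝ) :
    (Gm x m)ᴴ = diagonal (fun i => sgn (lab x x i).1) * Gm x m * diagonal (fun i => sgn (lab x x i).1) := by
  ext i j
  rw [mul_diagonal, diagonal_mul, conjTranspose_apply]
  simp only [Gm, Matrix.add_apply, star_add]
  have h1 : star (Lam x x j i) = - Lam x x i j := ent_skew _ _
  rw [h1]
  rcases i with i | i <;> rcases j with j | j <;> by_cases h : i = j <;>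
    simp [diagonal_apply, dd, h, sgn, lab, Lam, entM, eq_comm]

lemma Gm_inv_star (x : ι → ℂ) {m : ι → ℝ} (hm : ∀ i, 0 < m i) (i j : ι ⊕ ι) :
    conj ((Gm x m)⁻¹ j i) = sgn (lab x x i).1 * (Gm x m)⁻¹ i j * sgn (lab x x j).1 := by
  have hu : IsUnit (det (Gm x m)) := Ne.isUnit (det_Gm_ne x hm)
  set ε : Matrix (ι ⊕ ι) (ι ⊕ ι) ℂ := diagonal (fun i => sgn (lab x x i).1) with hε
  have he : ε * ε = 1 := by
    rw [hε, diagonal_mul_diagonal, ← diagonal_one]
    congr 1
    funext i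
    rcases i with i | i <;> simp [sgn, lab]
  have h1 : ((Gm x m)⁻¹)ᴴ = ε * (Gm x m)⁻¹ * ε := by
    rw [conjTranspose_nonsing_inv, Gm_star]
    apply Matrix.inv_eq_left_inv
    calc ε * (Gm x m)⁻¹ * ε * (ε * Gm x m * ε) = ε * (Gm x m)⁻¹ * (ε * ε) * Gm x m * ε := by
          simp only [Matrix.mul_assoc]
      _ = ε * ((Gm x m)⁻¹ * Gm x m) * ε := by rw [he]; simp only [Matrix.mul_assoc, Matrix.mul_one, Matrix.one_mul]
      _ = 1 := by rw [Matrix.nonsing_inv_mul _ hu, Matrix.mul_one, he]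
  have h2 := congrFun (congrFun h1 i) j
  rw [conjTranspose_apply, hε, mul_diagonal, diagonal_mul] at h2
  exact h2

lemma dress_star (x : ι → ℂ) {m : ι → ℝ} (hm : ∀ i, 0 < m i) (r c : Bool × ℂ) :
    conj (dress x m r c) = (sgn r.1 * sgn c.1) * dress x m c r := by
  rw [dress, dress, map_sub]
  have h1 : conj (ent r c) = (sgn r.1 * sgn c.1) * ent c r := by
    obtain ⟨a, p⟩ := r
    obtain ⟨b, q⟩ := c
    cases a <;> cases b <;> simp [sgn]
  have h2 : conj (∑ i, ∑ j, ent r (lab x x i) * (Gm x m)⁻¹ i j * ent (lab x x j) c) =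
      (sgn r.1 * sgn c.1) * ∑ i, ∑ j, ent c (lab x x i) * (Gm x m)⁻¹ i j * ent (lab x x j) r := by
    rw [map_sum, Finset.mul_sum]
    simp only [map_sum, Finset.mul_sum]
    rw [Finset.sum_comm]
    refine Finset.sum_congr rfl fun i _ => Finset.sum_congr rfl fun j _ => ?_
    rw [map_mul, map_mul, Gm_inv_star x hm, ent_skew, ent_skew]
    obtain ⟨a, p⟩ := r
    obtain ⟨b, q⟩ := c
    cases a <;> cases b <;> rcases i with i | i <;> rcases j with j | j <;> simp [sgn, lab] <;> ring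
  rw [h1, h2]
  ring

end

end Pool.Agent.H761R2.SV
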