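import Pool.Agent.H761R2.SV.Blk

set_option autoImplicit false
open Matrix Finset Complex
open scoped ComplexConjugate

namespace Pool.Agent.H761R2.SV

/-- A label is a type (`true` = A, `false` = B) and a point. Entry of the interaction matrix. -/
noncomputable def ent (r c : Bool × ℂ) : ℂ :=
  if r.1 then (if c.1 then 0 else (r.2 - c.2)⁻¹)
  else (if c.1 then - conj ((c.2 - r.2)⁻¹) else 0)

@[simp] lemma ent_AB (p q : ℂ) : ent (true, p) (false, q) = (p - q)⁻¹ := by simp [ent]
@[simp] lemma ent_BA (p q : ℂ) : ent (false, p) (true, q) = - conj ((q - p)⁻¹) := by simp [ent]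
@[simp] lemma ent_AA (p q : ℂ) : ent (true, p) (true, q) = 0 := by simp [ent]
@[simp] lemma ent_BB (p q : ℂ) : ent (false, p) (false, q) = 0 := by simp [ent]

lemma ent_skew (r c : Bool × ℂ) : conj (ent c r) = - ent r c := by
  obtain ⟨a, p⟩ := r
  obtain ⟨b, q⟩ := c
  cases a <;> cases b <;> simp

lemma ent_swap (r c : Bool × ℂ) : ent (!r.1, r.2) (!c.1, c.2) = conj (ent r c) := by
  obtain ⟨a, p⟩ := r
  obtain ⟨b, q⟩ := c
  cases a <;> cases b <;> simp
  · rw [← inv_neg, neg_sub]
  · rw [← inv_neg]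
    congr 1
    simp

/-- interaction matrix for row labels `r` and column labels `c` -/
noncomputable def entM {κ : Type*} (r c : κ → Bool × ℂ) : Matrix κ κ ℂ := Matrix.of fun i j => ent (r i) (c j)

/-- labels of the index set `V ⊕ V` for a family of points -/
def lab {α β : Type*} (p : α → ℂ) (q : β → ℂ) : α ⊕ β → Bool × ℂ :=
  Sum.elim (fun v => (true, p v)) (fun w => (false, q w))

/-- `X_{ij} = (p_i - q_j)⁻¹` -/
noncomputable def Xm {α β : Type*} (p : α → ℂ) (q : β → ℂ) : Matrix α β ℂ := Matrix.of fun i j => (p i - q j)⁻¹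

/-- `ℒ` -/
noncomputable def Lam {α β : Type*} (p : α → ℂ) (q : β → ℂ) : Matrix (α ⊕ β) (α ⊕ β) ℂ :=
  entM (lab p q) (lab p q)

lemma entM_lab {α β : Type*} (p p' : α → ℂ) (q q' : β → ℂ) :
    entM (lab p q) (lab p' q') = fromBlocks 0 (Xm p q') (-(Xm p' q)ᴴ) 0 := by
  ext i j
  rcases i with i | i <;> rcases j with j | j <;> simp [entM, lab, Xm, conjTranspose_apply]

lemma Lam_eq {α β : Type*} (p : α → ℂ) (q : β → ℂ) :
    Lam p q = fromBlocks 0 (Xm p q) (-(Xm p q)ᴴ) 0 := entM_lab p p q q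

lemma entM_skew {κ : Type*} (r : κ → Bool × ℂ) : (entM r r)ᴴ = - entM r r := by
  ext i j
  rw [conjTranspose_apply, Matrix.neg_apply]
  exact ent_skew (r i) (r j)

lemma Lam_skew {α β : Type*} (p : α → ℂ) (q : β → ℂ) : (Lam p q)ᴴ = - Lam p q := entM_skew _

section
variable {α β : Type*} [Fintype α] [DecidableEq α] [Fintype β] [DecidableEq β]

/-- the nonnegative number `det ℒ` -/
noncomputable def E2 (p : α → ℂ) (q : β → ℂ) : ℝ := (det (Lam p q)).re

lemma E2_nonneg (p : α → ℂ) (q : β → ℂ) : 0 ≤ E2 p q := by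
  rw [E2, Lam_eq]; exact (det_anti_nonneg _).1

lemma det_Lam (p : α → ℂ) (q : β → ℂ) : det (Lam p q) = ((E2 p q : ℝ) : ℂ) := by
  refine Complex.ext (by simp [E2]) ?_
  rw [Complex.ofReal_im, Lam_eq]
  exact (det_anti_nonneg _).2

/-- bound for mixed labels -/
lemma det_entM_le (p p' : α → ℂ) (q q' : β → ℂ) :
    ‖det (entM (lab p q) (lab p' q'))‖ ≤ (E2 p q' + E2 p' q) / 2 := by
  rw [entM_lab, E2, E2, Lam_eq, Lam_eq]
  exact det_anti_le _ _

end

section
variable {n : Type*} [DecidableEq n]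

lemma pm_map {κ : Type*} [Fintype κ] [DecidableEq κ] (M : Matrix n n ℂ) (f : κ ↪ n) :
    pm M (univ.map f) = det (M.submatrix f f) := by
  let e : κ ≃ (univ.map f : Finset n) :=
    (Equiv.ofInjective f f.injective).trans (Equiv.subtypeEquivRight (fun x => by simp))
  rw [pm, ← det_submatrix_equiv_self e]
  rfl

end

lemma entM_submatrix {κ κ' : Type*} (r c : κ → Bool × ℂ) (f : κ' → κ) :
    (entM r c).submatrix f f = entM (r ∘ f) (c ∘ f) := rfl

section
variable {α β : Type*} [Fintype α] [DecidableEq α] [Fintype β] [DecidableEq β]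

lemma det_entM_equiv {κ κ' : Type*} [Fintype κ] [DecidableEq κ] [Fintype κ'] [DecidableEq κ']
    (r c : κ → Bool × ℂ) (e : κ' ≃ κ) : det (entM (r ∘ e) (c ∘ e)) = det (entM r c) := by
  rw [← entM_submatrix, det_submatrix_equiv_self]

/-- embedding of the pair `(A, B)` -/
def embS (A : Finset α) (B : Finset β) : (A ⊕ B : Type _) ↪ α ⊕ β :=
  ⟨Sum.map Subtype.val Subtype.val, Sum.map_injective.2 ⟨Subtype.val_injective, Subtype.val_injective⟩⟩

lemma map_embS (A : Finset α) (B : Finset β) : univ.map (embS A B) = A.disjSum B := by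
  ext x
  rcases x with x | x <;> simp [embS]

/-- principal minors of `ℒ` -/
lemma pm_Lam (p : α → ℂ) (q : β → ℂ) (A : Finset α) (B : Finset β) :
    pm (Lam p q) (A.disjSum B) = ((E2 (fun i : A => p i) (fun j : B => q j) : ℝ) : ℂ) := by
  rw [← map_embS, pm_map, ← det_Lam, Lam, Lam, entM_submatrix]
  have : lab p q ∘ (embS A B) = lab (fun i : A => p i) (fun j : B => q j) := by
    funext x
    rcases x with x | x <;> rfl
  rw [this]

lemma PM_Lam (p : α → ℂ) (q : β → ℂ) : PM (Lam p q) := by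
  intro s
  rw [← Finset.toLeft_disjSum_toRight (u := s), pm_Lam]
  exact ⟨by rw [Complex.ofReal_re]; exact E2_nonneg _ _, Complex.ofReal_im _⟩

end

end Pool.Agent.H761R2.SV
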