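import Pool.Agent.H761R2.SV.Mix

set_option autoImplicit false
open Matrix Finset Complex
open scoped ComplexConjugate

namespace Pool.Agent.H761R2.SV

section
variable {ι : Type} [Fintype ι] [DecidableEq ι]

/-- sites and the three extra points -/
noncomputable def yV (x : ι → ℂ) (a b c : ℂ) : ι ⊕ Fin 3 → ℂ := Sum.elim x ![a, b, c]

/-- masses, `1` on the extra points -/
def mV (m : ι → ℝ) : ι ⊕ Fin 3 → ℝ := Sum.elim m (fun _ => 1)

omit [Fintype ι] [DecidableEq ι] in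
lemma mV_pos {m : ι → ℝ} (hm : ∀ i, 0 < m i) (v : ι ⊕ Fin 3) : 0 < mV m v := by
  rcases v with v | v
  · simp [mV, hm v]
  · simp [mV]

/-- embedding of the site labels -/
def s0 : (ι ⊕ ι) ↪ ((ι ⊕ Fin 3) ⊕ (ι ⊕ Fin 3)) :=
  ⟨Sum.map Sum.inl Sum.inl, Sum.map_injective.2 ⟨Sum.inl_injective, Sum.inl_injective⟩⟩

variable {E : Type} [Fintype E] [DecidableEq E]

/-- extension of a configuration by the extra labels -/
def ext (g : E ↪ ((ι ⊕ Fin 3) ⊕ (ι ⊕ Fin 3))) (S : Finset (ι ⊕ ι)) :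
    Finset ((ι ⊕ Fin 3) ⊕ (ι ⊕ Fin 3)) := S.map s0 ∪ univ.map g

/-- the label is an extra label -/
def Extra (g : E ↪ ((ι ⊕ Fin 3) ⊕ (ι ⊕ Fin 3))) : Prop :=
  ∀ e, ∃ k : Fin 3, g e = Sum.inl (Sum.inr k) ∨ g e = Sum.inr (Sum.inr k)

omit [Fintype ι] [DecidableEq ι] [Fintype E] [DecidableEq E] in
lemma Extra.ne {g : E ↪ ((ι ⊕ Fin 3) ⊕ (ι ⊕ Fin 3))} (hg : Extra g) (e : E) (j : ι ⊕ ι) :
    s0 j ≠ g e := by
  obtain ⟨k, h | h⟩ := hg e <;> rw [h] <;> rcases j with j | j <;> simp [s0]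

omit [Fintype ι] [DecidableEq E] in
lemma mem_ext {g : E ↪ ((ι ⊕ Fin 3) ⊕ (ι ⊕ Fin 3))} (hg : Extra g) (S : Finset (ι ⊕ ι)) (j : ι ⊕ ι) :
    s0 j ∈ ext g S ↔ j ∈ S := by
  rw [ext, Finset.mem_union, Finset.mem_map']
  constructor
  · rintro (h | h)
    · exact h
    · obtain ⟨e, _, he⟩ := Finset.mem_map.1 h
      exact absurd he.symm (hg.ne e j)
  · exact Or.inl

omit [Fintype ι] [DecidableEq E] in
lemma ext_injective {g : E ↪ ((ι ⊕ Fin 3) ⊕ (ι ⊕ Fin 3))} (hg : Extra g) :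
    Function.Injective (ext g) := by
  intro S T h
  ext j
  rw [← mem_ext hg S j, ← mem_ext hg T j, h]

/-- embedding of the index type -/
def fS {g : E ↪ ((ι ⊕ Fin 3) ⊕ (ι ⊕ Fin 3))} (hg : Extra g) (S : Finset (ι ⊕ ι)) :
    (S ⊕ E : Type) ↪ ((ι ⊕ Fin 3) ⊕ (ι ⊕ Fin 3)) where
  toFun := Sum.elim (fun j => s0 j) g
  inj' := by
    intro u v h
    rcases u with u | u <;> rcases v with v | v
    · simp only [Sum.elim_inl] at h
      exact congrArg Sum.inl (Subtype.val_injective (s0.injective h))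
    · simp only [Sum.elim_inl, Sum.elim_inr] at h
      exact absurd h (hg.ne v u)
    · simp only [Sum.elim_inl, Sum.elim_inr] at h
      exact absurd h.symm (hg.ne u v)
    · simp only [Sum.elim_inr] at h
      exact congrArg Sum.inr (g.injective h)

omit [Fintype ι] [DecidableEq E] in
lemma map_fS {g : E ↪ ((ι ⊕ Fin 3) ⊕ (ι ⊕ Fin 3))} (hg : Extra g) (S : Finset (ι ⊕ ι)) :
    univ.map (fS hg S) = ext g S := by
  ext u
  simp only [Finset.mem_map, Finset.mem_univ, true_and, ext, Finset.mem_union]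
  constructor
  · rintro ⟨v | v, rfl⟩
    · exact Or.inl ⟨v, v.2, rfl⟩
    · exact Or.inr ⟨v, rfl⟩
  · rintro (⟨j, hj, rfl⟩ | ⟨e, rfl⟩)
    · exact ⟨Sum.inl ⟨j, hj⟩, rfl⟩
    · exact ⟨Sum.inr e, rfl⟩

lemma pm_ext (x : ι → ℂ) (a b c : ℂ) {g : E ↪ ((ι ⊕ Fin 3) ⊕ (ι ⊕ Fin 3))} (hg : Extra g)
    (S : Finset (ι ⊕ ι)) :
    pm (Lam (yV x a b c) (yV x a b c)) (ext g S) =
      det (entM (Sum.elim (fun j : S => lab x x j) (fun e => lab (yV x a b c) (yV x a b c) (g e)))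
        (Sum.elim (fun j : S => lab x x j) (fun e => lab (yV x a b c) (yV x a b c) (g e)))) := by
  rw [← map_fS hg, pm_map, Lam, entM_submatrix]
  have : lab (yV x a b c) (yV x a b c) ∘ (fS hg S) =
      Sum.elim (fun j : S => lab x x j) (fun e => lab (yV x a b c) (yV x a b c) (g e)) := by
    funext u
    rcases u with ⟨u | u, hu⟩ | u <;> rfl
  rw [this]

/-- product weights -/
noncomputable def wt (m : ι → ℝ) (S : Finset (ι ⊕ ι)) : ℝ := ∏ i ∈ S, (dd m i)⁻¹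

omit [Fintype ι] in
lemma wt_nonneg {m : ι → ℝ} (hm : ∀ i, 0 < m i) (S : Finset (ι ⊕ ι)) : 0 ≤ wt m S :=
  Finset.prod_nonneg fun i _ => inv_nonneg.2 (dd_pos hm i).le

/-- masses of extended configurations -/
noncomputable def ms (x : ι → ℂ) (m : ι → ℝ) (a b c : ℂ) (g : E ↪ ((ι ⊕ Fin 3) ⊕ (ι ⊕ Fin 3)))
    (S : Finset (ι ⊕ ι)) : ℝ :=
  mu (Lam (yV x a b c) (yV x a b c)) (dd (mV m)) (ext g S)

lemma ms_eq (x : ι → ℂ) (m : ι → ℝ) (a b c : ℂ) {g : E ↪ ((ι ⊕ Fin 3) ⊕ (ι ⊕ Fin 3))} (hg : Extra g)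
    (S : Finset (ι ⊕ ι)) :
    ms x m a b c g S = wt m S * (pm (Lam (yV x a b c) (yV x a b c)) (ext g S)).re := by
  rw [ms, mu, wt]
  congr 1
  rw [ext, Finset.prod_union, Finset.prod_map, Finset.prod_map]
  · have h1 : ∏ e : E, (dd (mV m) (g e))⁻¹ = 1 := by
      refine Finset.prod_eq_one fun e _ => ?_
      obtain ⟨k, h | h⟩ := hg e <;> rw [h] <;> simp [dd, mV]
    rw [h1, mul_one]
    refine Finset.prod_congr rfl fun j _ => ?_
    rcases j with j | j <;> simp [dd, mV, s0]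
  · rw [Finset.disjoint_left]
    intro u hu hu'
    obtain ⟨j, _, rfl⟩ := Finset.mem_map.1 hu
    obtain ⟨e, _, he⟩ := Finset.mem_map.1 hu'
    exact hg.ne e j he.symm

/-- local strength -/
noncomputable def rr {V : Type} [Fintype V] (y : V → ℂ) (m : V → ℝ) (v : V) : ℝ :=
  m v * ∑ w, m w * ‖(y v - y w)⁻¹‖ ^ 2

lemma rho_inl {V : Type} [Fintype V] [DecidableEq V] (y : V → ℂ) (m : V → ℝ) (v : V) :
    rho (Lam y y) (dd m) (Sum.inl v) = rr y m v := by
  simp only [rho, rr, Fintype.sum_sum_type, Lam_eq, fromBlocks_apply₁₁, fromBlocks_apply₁₂, dd,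
    Sum.elim_inl, Sum.elim_inr, Matrix.zero_apply, norm_zero, Xm, Matrix.of_apply]
  simp only [div_inv_eq_mul]
  rw [mul_comm]
  congr 1
  simp [mul_comm]

lemma rho_inr {V : Type} [Fintype V] [DecidableEq V] (y : V → ℂ) (m : V → ℝ) (v : V) :
    rho (Lam y y) (dd m) (Sum.inr v) = rr y m v := by
  simp only [rho, rr, Fintype.sum_sum_type, Lam_eq, fromBlocks_apply₂₁, fromBlocks_apply₂₂, dd,
    Sum.elim_inl, Sum.elim_inr, Matrix.zero_apply, norm_zero, Xm, Matrix.of_apply,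
    Matrix.neg_apply, conjTranspose_apply, norm_neg]
  simp only [div_inv_eq_mul]
  rw [mul_comm]
  congr 1
  simp only [norm_star, norm_sub_rev (y v), norm_inv]
  simp [mul_comm]

omit [Fintype ι] [DecidableEq ι] in
lemma Lam_diag {V : Type} (y : V → ℂ) (j : V ⊕ V) : Lam y y j j = 0 := by
  rcases j with j | j <;> simp [Lam, entM, lab]

lemma ms_mass (x : ι → ℂ) {m : ι → ℝ} (hm : ∀ i, 0 < m i) (a b c : ℂ)
    {g : E ↪ ((ι ⊕ Fin 3) ⊕ (ι ⊕ Fin 3))} (hg : Extra g) :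
    Mass (ms x m a b c g) (∑ T, mu (Lam (yV x a b c) (yV x a b c)) (dd (mV m)) T)
      (fun i => rr (yV x a b c) (mV m) (Sum.inl i)) := by
  have hPM := PM_Lam (yV x a b c) (yV x a b c)
  have hsk := Lam_skew (yV x a b c) (yV x a b c)
  have hd : ∀ j, 0 < dd (mV m) j := dd_pos (mV_pos hm)
  have hnn : ∀ T, 0 ≤ mu (Lam (yV x a b c) (yV x a b c)) (dd (mV m)) T := fun T =>
    mu_nonneg hPM hd T
  have gen : ∀ (p : Finset (ι ⊕ ι) → Prop) [DecidablePred p]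
      (q : Finset ((ι ⊕ Fin 3) ⊕ (ι ⊕ Fin 3)) → Prop) [DecidablePred q],
      (∀ S, p S → q (ext g S)) →
      ∑ S with p S, ms x m a b c g S ≤
        ∑ T with q T, mu (Lam (yV x a b c) (yV x a b c)) (dd (mV m)) T := by
    intro p _ q _ hpq
    have h1 : ∑ S with p S, ms x m a b c g S =
        ∑ T ∈ (univ.filter p).map ⟨ext g, ext_injective hg⟩,
          mu (Lam (yV x a b c) (yV x a b c)) (dd (mV m)) T := by
      rw [Finset.sum_map]; rfl
    rw [h1]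
    refine Finset.sum_le_sum_of_subset_of_nonneg ?_ (fun T _ _ => hnn T)
    intro T hT
    obtain ⟨S, hS, rfl⟩ := Finset.mem_map.1 hT
    exact Finset.mem_filter.2 ⟨Finset.mem_univ _, hpq S (Finset.mem_filter.1 hS).2⟩
  constructor
  · intro S; exact hnn _
  · have := gen (fun _ => True) (fun _ => True) (fun _ _ => trivial)
    simpa using this
  · intro i
    have h1 := gen (fun S => Sum.inl i ∈ S) (fun T => s0 (Sum.inl i) ∈ T)
      (fun S hS => (mem_ext hg S _).2 hS)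
    refine h1.trans ?_
    have h2 := mu_one hPM hsk hd (s0 (Sum.inl i)) (Lam_diag _ _)
    rw [← rho_inl]
    exact h2
  · intro i
    have h1 := gen (fun S => Sum.inr i ∈ S) (fun T => s0 (Sum.inr i) ∈ T)
      (fun S hS => (mem_ext hg S _).2 hS)
    refine h1.trans ?_
    have h2 := mu_one hPM hsk hd (s0 (Sum.inr i)) (Lam_diag _ _)
    rw [← rho_inr]
    exact h2
  · intro i
    have h1 := gen (fun S => Sum.inl i ∈ S ∧ Sum.inr i ∈ S)
      (fun T => s0 (Sum.inl i) ∈ T ∧ s0 (Sum.inr i) ∈ T)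
      (fun S hS => ⟨(mem_ext hg S _).2 hS.1, (mem_ext hg S _).2 hS.2⟩)
    refine h1.trans ?_
    have h2 := mu_two hPM hsk hd (s0 (Sum.inl i)) (s0 (Sum.inr i)) (by simp [s0])
      (Lam_diag _ _) (Lam_diag _ _) (by simp [Lam, entM, lab, s0])
    have h3 : rho (Lam (yV x a b c) (yV x a b c)) (dd (mV m)) (s0 (Sum.inl i)) =
      rr (yV x a b c) (mV m) (Sum.inl i) := rho_inl _ _ _
    have h4 : rho (Lam (yV x a b c) (yV x a b c)) (dd (mV m)) (s0 (Sum.inr i)) =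
      rr (yV x a b c) (mV m) (Sum.inl i) := rho_inr _ _ _
    rw [h3, h4] at h2
    exact h2

end

end Pool.Agent.H761R2.SV
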