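import Pool.Agent.H761R2.SV.Ext

set_option autoImplicit false
open Matrix Finset Complex
open scoped ComplexConjugate

namespace Pool.Agent.H761R2.SV

section
variable {ι : Type} [Fintype ι] [DecidableEq ι]

/-- partition function -/
noncomputable def Zs (x : ι → ℂ) (m : ι → ℝ) : ℝ := ∑ S, mu (Lam x x) (dd m) S

/-- weighted bordered minors -/
noncomputable def TT (x : ι → ℂ) (m : ι → ℝ) {E : Type} [Fintype E] [DecidableEq E]
    (r c : E → Bool × ℂ) (S : Finset (ι ⊕ ι)) : ℂ :=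
  (wt m S : ℂ) * det (entM (Sum.elim (fun j : S => lab x x j) r) (Sum.elim (fun j : S => lab x x j) c))

lemma Zs_pos (x : ι → ℂ) {m : ι → ℝ} (hm : ∀ i, 0 < m i) : 1 ≤ Zs x m :=
  Zmu_pos (PM_Lam x x) (dd_pos hm)

lemma dress_sum (x : ι → ℂ) {m : ι → ℝ} (hm : ∀ i, 0 < m i) {E : Type} [Fintype E] [DecidableEq E]
    (r c : E → Bool × ℂ) :
    (Zs x m : ℂ) * det (Matrix.of fun e e' => dress x m (r e) (c e')) = ∑ S, TT x m r c S := by
  have h1 := det_dress x hm r c
  rw [det_bord, det_Gm, Zf_eq_mu _ (dd_pos hm)] at h1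
  have hP : ((∏ i, dd m i : ℝ) : ℂ) ≠ 0 := by
    exact_mod_cast (Finset.prod_pos fun i _ => dd_pos hm i).ne'
  apply mul_left_cancel₀ hP
  rw [← mul_assoc, ← Complex.ofReal_mul]
  refine Eq.trans h1.symm ?_
  rw [Finset.mul_sum]
  refine Finset.sum_congr rfl fun S _ => ?_
  rw [TT, ← mul_assoc]
  congr 1
  · rw [wt, ← Complex.ofReal_mul, ← Finset.prod_mul_prod_compl S (dd m)]
    have h2 : (∏ i ∈ S, dd m i) * (∏ i ∈ Sᶜ, dd m i) * ∏ i ∈ S, (dd m i)⁻¹ = ∏ i ∈ Sᶜ, dd m i := by
      rw [mul_right_comm, ← Finset.prod_mul_distrib,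
        Finset.prod_congr rfl (fun i _ => mul_inv_cancel₀ (dd_pos hm i).ne'), Finset.prod_const_one,
        one_mul]
    rw [h2, Complex.ofReal_prod]
  · congr 1
    ext i j
    rcases i with i | i <;> rcases j with j | j <;> rfl

/-- the quadratic-in-`Z` combination -/
noncomputable def D2 (K L : ℂ → ℂ → ℂ) (w z ζ : ℂ) : ℝ :=
  (2:ℝ) * (((L w z * conj (K w ζ) - conj (K w z) * L w ζ) * conj (L z ζ)
            - (L w z * conj (L w ζ) - conj (K w z) * K w ζ) * conj (K z ζ)) : ℂ).re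

noncomputable def KB (x : ι → ℂ) (m : ι → ℝ) (p q : ℂ) : ℂ := dress x m (true, p) (true, q)
noncomputable def LB (x : ι → ℂ) (m : ι → ℝ) (p q : ℂ) : ℂ := dress x m (true, p) (false, q)

/-- row labels for the 3×3 minor -/
def r3 (a b : ℂ) : Fin 1 ⊕ Fin 2 → Bool × ℂ := Sum.elim (fun _ => (true, a)) (rb b)
def c3 (a c : ℂ) : Fin 1 ⊕ Fin 2 → Bool × ℂ := Sum.elim (fun _ => (true, a)) (cb c)

lemma det_three (f : Fin 1 ⊕ Fin 2 → Fin 1 ⊕ Fin 2 → ℂ) :
    det (Matrix.of f) = 
      f (.inl 0) (.inl 0) * (f (.inr 0) (.inr 0) * f (.inr 1) (.inr 1) - f (.inr 0) (.inr 1) * f (.inr 1) (.inr 0))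
      - f (.inl 0) (.inr 0) * (f (.inr 0) (.inl 0) * f (.inr 1) (.inr 1) - f (.inr 0) (.inr 1) * f (.inr 1) (.inl 0))
      + f (.inl 0) (.inr 1) * (f (.inr 0) (.inl 0) * f (.inr 1) (.inr 0) - f (.inr 0) (.inr 0) * f (.inr 1) (.inl 0)) := by
  have h1 : (finSumFinEquiv.symm : Fin (1 + 2) ≃ Fin 1 ⊕ Fin 2) 0 = .inl 0 := by decide
  have h2 : (finSumFinEquiv.symm : Fin (1 + 2) ≃ Fin 1 ⊕ Fin 2) 1 = .inr 0 := by decide
  have h3 : (finSumFinEquiv.symm : Fin (1 + 2) ≃ Fin 1 ⊕ Fin 2) 2 = .inr 1 := by decide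
  rw [← det_submatrix_equiv_self (finSumFinEquiv.symm : Fin (1 + 2) ≃ Fin 1 ⊕ Fin 2)]
  have h4 := Matrix.det_fin_three (Matrix.submatrix (Matrix.of f)
    (finSumFinEquiv.symm : Fin (1 + 2) ≃ Fin 1 ⊕ Fin 2) (finSumFinEquiv.symm : Fin (1 + 2) ≃ Fin 1 ⊕ Fin 2))
  refine Eq.trans h4 ?_
  simp only [Matrix.submatrix_apply, Matrix.of_apply]
  rw [h1, h2, h3]
  ring

lemma D2_id (x : ι → ℂ) {m : ι → ℝ} (hm : ∀ i, 0 < m i) (a b c : ℂ) :
    D2 (KB x m) (LB x m) a b c =
      2 * (det (Matrix.of fun e e' => dress x m (r3 a b e) (c3 a c e')) -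
        dress x m (true, a) (true, a) *
          det (Matrix.of fun e e' => dress x m (rb b e) (cb c e'))).re := by
  have s1 : dress x m (false, b) (true, a) = conj (LB x m b a) := dress_swap x hm (true, b) (false, a)
  have s2 : dress x m (false, b) (false, c) = conj (KB x m b c) := dress_swap x hm (true, b) (true, c)
  have s3 : dress x m (false, b) (true, c) = conj (LB x m b c) := dress_swap x hm (true, b) (false, c)
  have s4 : KB x m b a = conj (KB x m a b) := by
    have := dress_star x hm (true, a) (true, b)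
    simp only [sgn, if_true, mul_one, one_mul] at this
    exact this.symm
  have s5 : LB x m b a = - LB x m a b := by
    have h1 := dress_star x hm (true, a) (false, b)
    have h2 : dress x m (false, b) (true, a) = conj (dress x m (true, b) (false, a)) :=
      dress_swap x hm (true, b) (false, a)
    rw [h2] at h1
    simp only [sgn, if_true, Bool.false_eq_true, if_false] at h1
    have h3 := congrArg conj h1
    simp only [map_mul, Complex.conj_conj, map_neg, map_one, one_mul, neg_mul] at h3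
    rw [LB, LB, h3, neg_neg]
  rw [det_three, det_fin_two, D2]
  simp only [r3, c3, rb, cb, Sum.elim_inl, Sum.elim_inr, Matrix.cons_val_zero, Matrix.cons_val_one,
    Matrix.of_apply]
  rw [s1, s2, s3]
  have e1 : dress x m (true, a) (false, c) = LB x m a c := rfl
  have e2 : dress x m (true, a) (true, c) = KB x m a c := rfl
  have e3 : dress x m (true, b) (true, a) = KB x m b a := rfl
  have e4 : dress x m (true, b) (false, c) = LB x m b c := rfl
  have e5 : dress x m (true, b) (true, c) = KB x m b c := rfl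
  rw [e1, e2, e3, e4, e5, s4, s5]
  simp only [Complex.sub_re, Complex.add_re, Complex.mul_re, Complex.mul_im, Complex.sub_im,
    Complex.conj_re, Complex.conj_im, Complex.neg_re, Complex.neg_im, map_neg]
  ring

end

end Pool.Agent.H761R2.SV
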