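import Pool.Agent.H761R2.SV.Fin1

set_option autoImplicit false
open Matrix Finset Complex
open scoped ComplexConjugate

namespace Pool.Agent.H761R2.SV

section
variable {ι : Type} [Fintype ι] [DecidableEq ι]

/-- one A-label -/
def rA (a : ℂ) : Fin 1 → Bool × ℂ := fun _ => (true, a)
/-- no label -/
def r0 : Fin 0 → Bool × ℂ := fun i => i.elim0

/-- embeddings of extra labels -/
def gE : Fin 0 ↪ ((ι ⊕ Fin 3) ⊕ (ι ⊕ Fin 3)) := ⟨fun i => i.elim0, fun i => i.elim0⟩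
def gA : Fin 1 ↪ ((ι ⊕ Fin 3) ⊕ (ι ⊕ Fin 3)) := ⟨fun _ => Sum.inl (Sum.inr 0), fun _ _ _ => Subsingleton.elim _ _⟩
def gB : Fin 2 ↪ ((ι ⊕ Fin 3) ⊕ (ι ⊕ Fin 3)) :=
  ⟨![Sum.inl (Sum.inr 1), Sum.inr (Sum.inr 2)], by
    intro i j h; fin_cases i <;> fin_cases j <;> simp_all⟩
def gC : Fin 2 ↪ ((ι ⊕ Fin 3) ⊕ (ι ⊕ Fin 3)) :=
  ⟨![Sum.inl (Sum.inr 2), Sum.inr (Sum.inr 1)], by
    intro i j h; fin_cases i <;> fin_cases j <;> simp_all⟩
def gAB : (Fin 1 ⊕ Fin 2) ↪ ((ι ⊕ Fin 3) ⊕ (ι ⊕ Fin 3)) :=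
  ⟨Sum.elim gA gB, Function.Injective.sumElim gA.injective gB.injective (by
    intro i j
    fin_cases j
    · show (Sum.inl (Sum.inr 0) : (ι ⊕ Fin 3) ⊕ (ι ⊕ Fin 3)) ≠ Sum.inl (Sum.inr 1)
      simp
    · show (Sum.inl (Sum.inr 0) : (ι ⊕ Fin 3) ⊕ (ι ⊕ Fin 3)) ≠ Sum.inr (Sum.inr 2)
      simp)⟩
def gAC : (Fin 1 ⊕ Fin 2) ↪ ((ι ⊕ Fin 3) ⊕ (ι ⊕ Fin 3)) :=
  ⟨Sum.elim gA gC, Function.Injective.sumElim gA.injective gC.injective (by
    intro i j
    fin_cases j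
    · show (Sum.inl (Sum.inr 0) : (ι ⊕ Fin 3) ⊕ (ι ⊕ Fin 3)) ≠ Sum.inl (Sum.inr 2)
      simp
    · show (Sum.inl (Sum.inr 0) : (ι ⊕ Fin 3) ⊕ (ι ⊕ Fin 3)) ≠ Sum.inr (Sum.inr 1)
      simp)⟩

omit [Fintype ι] [DecidableEq ι] in
lemma exE : Extra (gE (ι := ι)) := fun e => e.elim0
omit [Fintype ι] [DecidableEq ι] in
lemma exA : Extra (gA (ι := ι)) := fun _ => ⟨0, Or.inl rfl⟩
omit [Fintype ι] [DecidableEq ι] in
lemma exB : Extra (gB (ι := ι)) := by
  intro e; fin_cases e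
  · exact ⟨1, Or.inl rfl⟩
  · exact ⟨2, Or.inr rfl⟩
omit [Fintype ι] [DecidableEq ι] in
lemma exC : Extra (gC (ι := ι)) := by
  intro e; fin_cases e
  · exact ⟨2, Or.inl rfl⟩
  · exact ⟨1, Or.inr rfl⟩
omit [Fintype ι] [DecidableEq ι] in
lemma exAB : Extra (gAB (ι := ι)) := by
  intro e; rcases e with e | e
  · exact exA e
  · exact exB e
omit [Fintype ι] [DecidableEq ι] in
lemma exAC : Extra (gAC (ι := ι)) := by
  intro e; rcases e with e | e
  · exact exA e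
  · exact exC e

/-- general bound for bordered minors -/
lemma TT_le (x : ι → ℂ) {m : ι → ℝ} (hm : ∀ i, 0 < m i) (a b c : ℂ) {E : Type} [Fintype E]
    [DecidableEq E] (r c' : E → Bool × ℂ) (σ : Equiv.Perm E) (h : ∀ e, (r e).1 = (c' e).1)
    {g1 g2 : E ↪ ((ι ⊕ Fin 3) ⊕ (ι ⊕ Fin 3))} (hg1 : Extra g1) (hg2 : Extra g2)
    (h1 : ∀ e, lab (yV x a b c) (yV x a b c) (g1 e) = if (r e).1 then r e else c' e)
    (h2 : ∀ e, lab (yV x a b c) (yV x a b c) (g2 e) = if (r e).1 then c' e else r e)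
    (S : Finset (ι ⊕ ι)) :
    ‖TT x m r (c' ∘ σ) S‖ ≤ (ms x m a b c g1 S + ms x m a b c g2 S) / 2 := by
  rw [TT, norm_mul, Complex.norm_real, Real.norm_of_nonneg (wt_nonneg hm S), ms_eq x m a b c hg1,
    ms_eq x m a b c hg2, pm_ext x a b c hg1, pm_ext x a b c hg2, ← mul_add, mul_div_assoc]
  refine mul_le_mul_of_nonneg_left ?_ (wt_nonneg hm S)
  have e1 : (Sum.elim (fun j : S => lab x x j) (c' ∘ σ)) =
      (Sum.elim (fun j : S => lab x x j) c') ∘ (Equiv.sumCongr (Equiv.refl S) σ) := by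
    funext u; rcases u with u | u <;> rfl
  rw [e1, norm_det_perm]
  have e2 := mix_le (Sum.elim (fun j : S => lab x x j) r) (Sum.elim (fun j : S => lab x x j) c')
    (by intro k; rcases k with k | k
        · rfl
        · exact h k)
  have e3 : (fun k => if (Sum.elim (fun j : S => lab x x j) r k).1 then
      (Sum.elim (fun j : S => lab x x j) r k) else (Sum.elim (fun j : S => lab x x j) c' k)) =
      Sum.elim (fun j : S => lab x x j) (fun e => lab (yV x a b c) (yV x a b c) (g1 e)) := by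
    funext k
    rcases k with k | k
    · exact ite_self _
    · exact (h1 k).symm
  have e4 : (fun k => if (Sum.elim (fun j : S => lab x x j) r k).1 then
      (Sum.elim (fun j : S => lab x x j) c' k) else (Sum.elim (fun j : S => lab x x j) r k)) =
      Sum.elim (fun j : S => lab x x j) (fun e => lab (yV x a b c) (yV x a b c) (g2 e)) := by
    funext k
    rcases k with k | k
    · exact ite_self _
    · exact (h2 k).symm
  rw [e3, e4] at e2
  exact e2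

lemma TT0_le (x : ι → ℂ) {m : ι → ℝ} (hm : ∀ i, 0 < m i) (a b c : ℂ) (S : Finset (ι ⊕ ι)) :
    ‖TT x m r0 r0 S‖ ≤ (ms x m a b c gE S + ms x m a b c gE S) / 2 :=
  TT_le x hm a b c r0 r0 1 (fun e => e.elim0) exE exE (fun e => e.elim0) (fun e => e.elim0) S

lemma TTA_le (x : ι → ℂ) {m : ι → ℝ} (hm : ∀ i, 0 < m i) (a b c : ℂ) (S : Finset (ι ⊕ ι)) :
    ‖TT x m (rA a) (rA a) S‖ ≤ (ms x m a b c gA S + ms x m a b c gA S) / 2 :=
  TT_le x hm a b c (rA a) (rA a) 1 (fun e => rfl) exA exA (fun e => rfl) (fun e => rfl) S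

/-- swapped column labels -/
def cs (c : ℂ) : Fin 2 → Bool × ℂ := ![(true, c), (false, c)]

lemma TTB_le (x : ι → ℂ) {m : ι → ℝ} (hm : ∀ i, 0 < m i) (a b c : ℂ) (S : Finset (ι ⊕ ι)) :
    ‖TT x m (rb b) (cb c) S‖ ≤ (ms x m a b c gB S + ms x m a b c gC S) / 2 := by
  have h : cb c = cs c ∘ (Equiv.swap 0 1 : Equiv.Perm (Fin 2)) := by
    funext e; fin_cases e <;> simp [cb, cs]
  rw [h]
  refine TT_le x hm a b c (rb b) (cs c) (Equiv.swap 0 1) ?_ exB exC ?_ ?_ S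
  · intro e; fin_cases e <;> rfl
  · intro e; fin_cases e <;> rfl
  · intro e; fin_cases e <;> rfl

lemma TTAB_le (x : ι → ℂ) {m : ι → ℝ} (hm : ∀ i, 0 < m i) (a b c : ℂ) (S : Finset (ι ⊕ ι)) :
    ‖TT x m (r3 a b) (c3 a c) S‖ ≤ (ms x m a b c gAB S + ms x m a b c gAC S) / 2 := by
  have h : c3 a c = (Sum.elim (rA a) (cs c)) ∘
      (Equiv.sumCongr (Equiv.refl (Fin 1)) (Equiv.swap 0 1 : Equiv.Perm (Fin 2))) := by
    funext e
    rcases e with e | e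
    · rfl
    · fin_cases e <;> simp [c3, cb, cs]
  rw [h]
  refine TT_le x hm a b c (r3 a b) (Sum.elim (rA a) (cs c))
    (Equiv.sumCongr (Equiv.refl (Fin 1)) (Equiv.swap 0 1)) ?_ exAB exAC ?_ ?_ S
  · intro e
    rcases e with e | e
    · rfl
    · fin_cases e <;> rfl
  · intro e
    rcases e with e | e
    · rfl
    · fin_cases e <;> rfl
  · intro e
    rcases e with e | e
    · rfl
    · fin_cases e <;> rfl

end

end Pool.Agent.H761R2.SV
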