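import Pool.Agent.H761R2.SV.Fin2

set_option autoImplicit false
open Matrix Finset Complex
open scoped ComplexConjugate

namespace Pool.Agent.H761R2.SV

section
variable {ι : Type} [Fintype ι] [DecidableEq ι]

omit [Fintype ι] [DecidableEq ι] in
lemma s0_map (S : Finset (ι ⊕ ι)) :
    S.map s0 = (S.toLeft.map (.inl : ι ↪ ι ⊕ Fin 3)).disjSum (S.toRight.map .inl) := by
  ext u
  rcases u with (u | u) | (u | u) <;> simp [s0]

lemma ext_gE (S : Finset (ι ⊕ ι)) :
    ext gE S = (S.toLeft.map (.inl : ι ↪ ι ⊕ Fin 3)).disjSum (S.toRight.map .inl) := by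
  rw [ext, s0_map]; simp

lemma ext_gA (S : Finset (ι ⊕ ι)) :
    ext gA S = (insert (Sum.inr 0) (S.toLeft.map (.inl : ι ↪ ι ⊕ Fin 3))).disjSum (S.toRight.map .inl) := by
  have h1 : (univ : Finset (Fin 1)).map (gA (ι := ι)) = {Sum.inl (Sum.inr 0)} := by
    rw [Finset.univ_unique, Finset.map_singleton]; rfl
  rw [ext, s0_map, h1]
  ext u
  rcases u with (u | u) | (u | u) <;> simp [or_comm]

lemma TTE_eq (x : ι → ℂ) (m : ι → ℝ) (a b c : ℂ) (S : Finset (ι ⊕ ι)) :
    TT x m r0 r0 S = ((wt m S * W (yV x a b c) (S.toLeft.map .inl) (S.toRight.map .inl) : ℝ) : ℂ) := by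
  have h1 := pm_ext x a b c exE S
  rw [ext_gE, pm_Lam] at h1
  rw [TT, Complex.ofReal_mul]
  congr 1
  refine Eq.trans ?_ h1.symm
  congr! 2 <;>
  · funext u
    rcases u with u | u
    · rfl
    · exact u.elim0

lemma TTA_eq (x : ι → ℂ) (m : ι → ℝ) (a b c : ℂ) (S : Finset (ι ⊕ ι)) :
    TT x m (rA a) (rA a) S = ((wt m S * W (yV x a b c) (insert (Sum.inr 0) (S.toLeft.map .inl))
      (S.toRight.map .inl) : ℝ) : ℂ) := by
  have h1 := pm_ext x a b c exA S
  rw [ext_gA, pm_Lam] at h1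
  rw [TT, Complex.ofReal_mul]
  congr 1
  exact h1.symm

/-- unimodular factors -/
noncomputable def uu (x : ι → ℂ) (a b c : ℂ) : ι ⊕ Fin 3 → ℂ :=
  Sum.elim (fun i => phi b c (x i) / (‖phi b c (x i)‖ : ℂ))
    ![phi b c a / (‖phi b c a‖ : ℂ), 1, 1]

lemma unim {z : ℂ} (hz : z ≠ 0) : z / (‖z‖ : ℂ) * conj (z / (‖z‖ : ℂ)) = 1 := by
  have h : (‖z‖ : ℂ) ≠ 0 := by exact_mod_cast norm_ne_zero_iff.2 hz
  rw [map_div₀, Complex.conj_ofReal, div_mul_div_comm, Complex.mul_conj', sq]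
  field_simp

lemma unim_sq {z : ℂ} (hz : z ≠ 0) : z * (conj z)⁻¹ = (z / (‖z‖ : ℂ)) ^ 2 := by
  have h : (‖z‖ : ℂ) ≠ 0 := by exact_mod_cast norm_ne_zero_iff.2 hz
  have h2 : conj z ≠ 0 := (map_ne_zero _).2 hz
  rw [div_pow, ← Complex.mul_conj' z]
  field_simp

omit [Fintype ι] [DecidableEq ι] in
lemma uu_unim (x : ι → ℂ) (a b c : ℂ) (hb : ∀ i, x i ≠ b) (hc : ∀ i, x i ≠ c) (hab : a ≠ b)
    (hac : a ≠ c) (v : ι ⊕ Fin 3) : uu x a b c v * conj (uu x a b c v) = 1 := by
  rcases v with v | v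
  · exact unim (phi_ne (hb v) (hc v))
  · fin_cases v
    · exact unim (phi_ne hab hac)
    · simp [uu]
    · simp [uu]

lemma prod_rc (x : ι → ℂ) (a b c : ℂ) (hb : ∀ i, x i ≠ b) (hc : ∀ i, x i ≠ c)
    (S : Finset (ι ⊕ ι)) :
    ∏ j : S, (rsc b c (lab x x j) * csc b c (lab x x j)) =
      Uf (fun v => uu x a b c v ^ 2) (S.toLeft.map .inl) (S.toRight.map .inl) := by
  rw [Finset.prod_coe_sort S (fun j => rsc b c (lab x x j) * csc b c (lab x x j)), Uf]
  conv_lhs => rw [← Finset.toLeft_disjSum_toRight (u := S), Finset.prod_disjSum]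
  rw [Finset.prod_map, Finset.prod_map]
  congr 1
  · refine Finset.prod_congr rfl fun i _ => ?_
    simp only [lab, Sum.elim_inl, rsc, csc, if_true]
    exact unim_sq (phi_ne (hb i) (hc i))
  · refine Finset.prod_congr rfl fun i _ => ?_
    simp only [lab, Sum.elim_inr, rsc, csc, Bool.false_eq_true, if_false]
    have h1 := unim_sq (phi_ne (hb i) (hc i))
    have h2 := congrArg conj h1
    rw [map_mul, map_inv₀, Complex.conj_conj] at h2
    exact h2

omit [Fintype ι] in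
lemma lab_ne (x : ι → ℂ) (hx : Function.Injective x) (S : Finset (ι ⊕ ι))
    (hS : Disjoint S.toLeft S.toRight) (i j : S) (hij : (lab x x i).1 ≠ (lab x x j).1) :
    (lab x x i).2 ≠ (lab x x j).2 := by
  rw [Finset.disjoint_left] at hS
  obtain ⟨i, hi⟩ := i
  obtain ⟨j, hj⟩ := j
  rcases i with i | i <;> rcases j with j | j
  · simp [lab] at hij
  · simp only [lab, Sum.elim_inl, Sum.elim_inr]
    intro h
    have := hx h
    subst this
    exact hS (Finset.mem_toLeft.2 hi) (Finset.mem_toRight.2 hj)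
  · simp only [lab, Sum.elim_inl, Sum.elim_inr]
    intro h
    have := hx h
    subst this
    exact hS (Finset.mem_toLeft.2 hj) (Finset.mem_toRight.2 hi)
  · simp [lab] at hij

lemma TTB_eq (x : ι → ℂ) (hx : Function.Injective x) (m : ι → ℝ) (a b c : ℂ) (hbc : b ≠ c)
    (hb : ∀ i, x i ≠ b) (hc : ∀ i, x i ≠ c) (S : Finset (ι ⊕ ι)) (hS : Disjoint S.toLeft S.toRight) :
    TT x m (rb b) (cb c) S = ((‖b - c‖ ^ 2)⁻¹ : ℝ) *
      (Uf (fun v => uu x a b c v ^ 2) (S.toLeft.map .inl) (S.toRight.map .inl) *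
        ((wt m S * W (yV x a b c) (S.toLeft.map .inl) (S.toRight.map .inl) : ℝ) : ℂ)) := by
  have h1 := twist (fun j : S => lab x x j) b c hbc (by
    intro j
    obtain ⟨j, hj⟩ := j
    rcases j with j | j
    · exact ⟨hb j, hc j⟩
    · exact ⟨hb j, hc j⟩) (lab_ne x hx S hS)
  rw [TT, h1, prod_rc x a b c hb hc, ← TTE_eq x m a b c S, TT]
  have h2 : det (entM (Sum.elim (fun j : S => lab x x j) r0) (Sum.elim (fun j : S => lab x x j) r0)) =
      det (entM (fun j : S => lab x x j) (fun j : S => lab x x j)) := by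
    rw [← det_entM_equiv _ _ (Equiv.sumEmpty S (Fin 0)).symm]
    rfl
  rw [h2]
  ring

lemma TTAB_eq (x : ι → ℂ) (hx : Function.Injective x) (m : ι → ℝ) (a b c : ℂ) (hbc : b ≠ c)
    (hab : a ≠ b) (hac : a ≠ c)
    (ha : ∀ i, x i ≠ a) (hb : ∀ i, x i ≠ b) (hc : ∀ i, x i ≠ c) (S : Finset (ι ⊕ ι))
    (hS : Disjoint S.toLeft S.toRight) :
    TT x m (r3 a b) (c3 a c) S = ((‖b - c‖ ^ 2)⁻¹ : ℝ) *
      (Uf (fun v => uu x a b c v ^ 2) (insert (Sum.inr 0) (S.toLeft.map .inl)) (S.toRight.map .inl) *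
        ((wt m S * W (yV x a b c) (insert (Sum.inr 0) (S.toLeft.map .inl))
          (S.toRight.map .inl) : ℝ) : ℂ)) := by
  have h1 := twist (Sum.elim (fun j : S => lab x x j) (rA a)) b c hbc (by
    intro j
    rcases j with ⟨j | j, hj⟩ | j
    · exact ⟨hb j, hc j⟩
    · exact ⟨hb j, hc j⟩
    · exact ⟨hab, hac⟩) (by
    intro i j hij
    rcases i with i | i <;> rcases j with j | j
    · exact lab_ne x hx S hS i j hij
    · obtain ⟨i | i, hi⟩ := i
      · exact ha i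
      · exact ha i
    · obtain ⟨j | j, hj⟩ := j
      · exact (ha j).symm
      · exact (ha j).symm
    · exact absurd rfl hij)
  have h2 : det (entM (Sum.elim (fun j : S => lab x x j) (r3 a b))
      (Sum.elim (fun j : S => lab x x j) (c3 a c))) =
      det (entM (Sum.elim (Sum.elim (fun j : S => lab x x j) (rA a)) (rb b))
        (Sum.elim (Sum.elim (fun j : S => lab x x j) (rA a)) (cb c))) := by
    rw [← det_entM_equiv _ _ (Equiv.sumAssoc S (Fin 1) (Fin 2))]
    congr! 2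
    · funext u; rcases u with (u | u) | u <;> rfl
    · funext u; rcases u with (u | u) | u <;> rfl
  rw [TT, h2, h1, Fintype.prod_sum_type, ← TTA_eq x m a b c S, TT]
  have h3 : ∏ j : S, (rsc b c (Sum.elim (fun j : S => lab x x j) (rA a) (Sum.inl j)) *
      csc b c (Sum.elim (fun j : S => lab x x j) (rA a) (Sum.inl j))) =
      Uf (fun v => uu x a b c v ^ 2) (S.toLeft.map .inl) (S.toRight.map .inl) :=
    prod_rc x a b c hb hc S
  have h4 : Uf (fun v => uu x a b c v ^ 2) (insert (Sum.inr 0) (S.toLeft.map .inl)) (S.toRight.map .inl) =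
      (uu x a b c (Sum.inr 0)) ^ 2 *
        Uf (fun v => uu x a b c v ^ 2) (S.toLeft.map .inl) (S.toRight.map .inl) := by
    rw [Uf, Uf, Finset.prod_insert, mul_assoc]
    intro h
    obtain ⟨i, _, hi⟩ := Finset.mem_map.1 h
    simp at hi
  have h5 : ∏ j : Fin 1, (rsc b c (Sum.elim (fun j : S => lab x x j) (rA a) (Sum.inr j)) *
      csc b c (Sum.elim (fun j : S => lab x x j) (rA a) (Sum.inr j))) =
      (uu x a b c (Sum.inr 0)) ^ 2 := by
    rw [Fin.prod_univ_one]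
    simp only [Sum.elim_inr, rA, rsc, csc, if_true]
    exact unim_sq (phi_ne hab hac)
  rw [h3, h4, h5]
  ring

end

end Pool.Agent.H761R2.SV
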