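import Pool.Agent.H761R2.SV.Fin3

set_option autoImplicit false
open Matrix Finset Complex
open scoped ComplexConjugate

namespace Pool.Agent.H761R2.SV

section
variable {ι : Type} [Fintype ι] [DecidableEq ι]

/-- partition function of the extended system -/
noncomputable def ZV (x : ι → ℂ) (m : ι → ℝ) (a b c : ℂ) : ℝ :=
  ∑ T, mu (Lam (yV x a b c) (yV x a b c)) (dd (mV m)) T

lemma D2_sum (x : ι → ℂ) {m : ι → ℝ} (hm : ∀ i, 0 < m i) (a b c : ℂ) :
    D2 (KB x m) (LB x m) a b c * Zs x m ^ 2 =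
      2 * ∑ P : Finset (ι ⊕ ι) × Finset (ι ⊕ ι),
        (TT x m (r3 a b) (c3 a c) P.1 * TT x m r0 r0 P.2 -
          TT x m (rA a) (rA a) P.1 * TT x m (rb b) (cb c) P.2).re := by
  have h3 := dress_sum x hm (r3 a b) (c3 a c)
  have h2 := dress_sum x hm (rb b) (cb c)
  have h1 := dress_sum x hm (rA a) (rA a)
  have h0 := dress_sum x hm (r0) (r0)
  rw [det_isEmpty, mul_one] at h0
  have h1' : det (Matrix.of fun e e' => dress x m (rA a e) (rA a e')) = dress x m (true, a) (true, a) := by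
    rw [det_unique]; rfl
  rw [h1'] at h1
  rw [D2_id x hm, mul_assoc]
  congr 1
  rw [← Complex.re_sum, Finset.sum_sub_distrib, ← Finset.univ_product_univ, Finset.sum_product,
    Finset.sum_product]
  simp only
  rw [← Finset.sum_mul_sum, ← Finset.sum_mul_sum, ← h0, ← h1, ← h2, ← h3, mul_comm _ (Zs x m ^ 2),
    ← Complex.re_ofReal_mul]
  congr 1
  push_cast
  ring

/-- the good part is nonpositive -/
lemma good_part (x : ι → ℂ) (hx : Function.Injective x) {m : ι → ℝ} (hm : ∀ i, 0 < m i) (a b c : ℂ)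
    (hab : a ≠ b) (hac : a ≠ c) (hbc : b ≠ c)
    (ha : ∀ i, x i ≠ a) (hb : ∀ i, x i ≠ b) (hc : ∀ i, x i ≠ c) :
    ∑ P : Finset (ι ⊕ ι) × Finset (ι ⊕ ι) with GoodP P,
        (TT x m (r3 a b) (c3 a c) P.1 * TT x m r0 r0 P.2 -
          TT x m (rA a) (rA a) P.1 * TT x m (rb b) (cb c) P.2).re ≤ 0 := by
  have hy : Function.Injective (yV x a b c) := by
    refine Function.Injective.sumElim hx ?_ ?_
    · intro i j h
      fin_cases i <;> fin_cases j <;> simp_all [eq_comm]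
    · intro i j
      fin_cases j
      · exact ha i
      · exact hb i
      · exact hc i
  have h1 := good_neg (yV x a b c) hy (uu x a b c) (uu_unim x a b c hb hc hab hac)
    (fun S => ∏ i ∈ S, m i) (fun S => Finset.prod_nonneg fun i _ => (hm i).le) (Sum.inr 0)
    (fun i => by simp)
  have h2 : ∀ P : Finset (ι ⊕ ι) × Finset (ι ⊕ ι), GoodP P →
      (TT x m (r3 a b) (c3 a c) P.1 * TT x m r0 r0 P.2 -
          TT x m (rA a) (rA a) P.1 * TT x m (rb b) (cb c) P.2).re =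
      (‖b - c‖ ^ 2)⁻¹ * ((∏ i ∈ (P.1.toLeft ∪ P.1.toRight ∪ P.2.toLeft ∪ P.2.toRight), m i) *
      (W (yV x a b c) (insert (Sum.inr 0) (P.1.toLeft.map .inl)) (P.1.toRight.map .inl) *
        W (yV x a b c) (P.2.toLeft.map .inl) (P.2.toRight.map .inl) *
        (Uf (fun v => uu x a b c v ^ 2) (insert (Sum.inr 0) (P.1.toLeft.map .inl)) (P.1.toRight.map .inl)
          - Uf (fun v => uu x a b c v ^ 2) (P.2.toLeft.map .inl) (P.2.toRight.map .inl)).re)) := by
    intro P hP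
    obtain ⟨g1, g2, g3, g4, g5, g6⟩ := hP
    rw [TTAB_eq x hx m a b c hbc hab hac ha hb hc P.1 g1, TTB_eq x hx m a b c hbc hb hc P.2 g2,
      TTE_eq x m a b c, TTA_eq x m a b c]
    have hw : ∏ i ∈ (P.1.toLeft ∪ P.1.toRight ∪ P.2.toLeft ∪ P.2.toRight), m i =
        wt m P.1 * wt m P.2 := by
      have hwt : ∀ S : Finset (ι ⊕ ι), wt m S = (∏ i ∈ S.toLeft, m i) * ∏ i ∈ S.toRight, m i := by
        intro S
        rw [wt]
        conv_lhs => rw [← Finset.toLeft_disjSum_toRight (u := S), Finset.prod_disjSum]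
        simp [dd]
      rw [hwt, hwt, Finset.prod_union, Finset.prod_union, Finset.prod_union g1, mul_assoc]
      · exact Finset.disjoint_union_left.2 ⟨g3, g5⟩
      · exact Finset.disjoint_union_left.2 ⟨Finset.disjoint_union_left.2 ⟨g4, g6⟩, g2⟩
    rw [hw, ← Complex.re_ofReal_mul, ← Complex.re_ofReal_mul, ← Complex.re_ofReal_mul]
    congr 1
    push_cast
    ring
  rw [Finset.sum_congr rfl (fun P hP => h2 P (Finset.mem_filter.1 hP).2), ← Finset.mul_sum]
  exact mul_nonpos_of_nonneg_of_nonpos (by positivity) h1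

lemma rr_nonneg {V : Type} [Fintype V] (y : V → ℂ) {m : V → ℝ} (hm : ∀ v, 0 < m v) (v : V) :
    0 ≤ rr y m v :=
  mul_nonneg (hm v).le (Finset.sum_nonneg fun w _ => mul_nonneg (hm w).le (sq_nonneg _))

lemma ZV_pos (x : ι → ℂ) {m : ι → ℝ} (hm : ∀ i, 0 < m i) (a b c : ℂ) : 1 ≤ ZV x m a b c :=
  Zmu_pos (PM_Lam _ _) (dd_pos (mV_pos hm))

/-- the bad part -/
lemma bad_part (x : ι → ℂ) {m : ι → ℝ} (hm : ∀ i, 0 < m i) (a b c : ℂ) :
    ∑ P : Finset (ι ⊕ ι) × Finset (ι ⊕ ι) with ¬ GoodP P,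
        (TT x m (r3 a b) (c3 a c) P.1 * TT x m r0 r0 P.2 -
          TT x m (rA a) (rA a) P.1 * TT x m (rb b) (cb c) P.2).re ≤
      12 * (∑ i : ι, rr (yV x a b c) (mV m) (Sum.inl i) ^ 2) * ZV x m a b c ^ 2 := by
  have hZ : 0 ≤ ZV x m a b c := by linarith [ZV_pos x hm a b c]
  have hρ : ∀ i : ι, 0 ≤ rr (yV x a b c) (mV m) (Sum.inl i) := fun i => rr_nonneg _ (mV_pos hm) _
  have M3 := (ms_mass x hm a b c exAB).avg (ms_mass x hm a b c exAC)
  have M2 := (ms_mass x hm a b c exB).avg (ms_mass x hm a b c exC)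
  have M1 := (ms_mass x hm a b c exA).avg (ms_mass x hm a b c exA)
  have M0 := (ms_mass x hm a b c exE).avg (ms_mass x hm a b c exE)
  have b1 := bad_le M3 M0 hZ hρ
  have b2 := bad_le M1 M2 hZ hρ
  have h1 : ∀ P : Finset (ι ⊕ ι) × Finset (ι ⊕ ι),
      (TT x m (r3 a b) (c3 a c) P.1 * TT x m r0 r0 P.2 -
          TT x m (rA a) (rA a) P.1 * TT x m (rb b) (cb c) P.2).re ≤
      (ms x m a b c gAB P.1 + ms x m a b c gAC P.1) / 2 * ((ms x m a b c gE P.2 + ms x m a b c gE P.2) / 2) +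
      (ms x m a b c gA P.1 + ms x m a b c gA P.1) / 2 * ((ms x m a b c gB P.2 + ms x m a b c gC P.2) / 2) := by
    intro P
    refine (Complex.re_le_norm _).trans ((norm_sub_le _ _).trans ?_)
    rw [norm_mul, norm_mul]
    exact add_le_add
      (mul_le_mul (TTAB_le x hm a b c P.1) (TT0_le x hm a b c P.2) (norm_nonneg _) (M3.nn P.1))
      (mul_le_mul (TTA_le x hm a b c P.1) (TTB_le x hm a b c P.2) (norm_nonneg _) (M1.nn P.1))
  refine (Finset.sum_le_sum fun P _ => h1 P).trans ?_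
  rw [Finset.sum_add_distrib]
  rw [ZV]
  linarith

end

end Pool.Agent.H761R2.SV
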