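import Pool.Agent.H761R2.SV.Fin4

set_option autoImplicit false
open Matrix Finset Complex
open scoped ComplexConjugate

namespace Pool.Agent.H761R2.SV

lemma pm_map' {n n' : Type} [DecidableEq n] [DecidableEq n'] (M : Matrix n' n' ℂ) (f : n ↪ n')
    (S : Finset n) : pm M (S.map f) = pm (M.submatrix f f) S := by
  have h1 : S.map f = univ.map ((⟨Subtype.val, Subtype.val_injective⟩ : S ↪ n).trans f) := by
    ext u
    simp
  rw [h1, pm_map]
  rfl

section
variable {ι : Type} [Fintype ι] [DecidableEq ι]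

lemma mu_s0 (x : ι → ℂ) (m : ι → ℝ) (a b c : ℂ) (S : Finset (ι ⊕ ι)) :
    mu (Lam (yV x a b c) (yV x a b c)) (dd (mV m)) (S.map s0) = mu (Lam x x) (dd m) S := by
  rw [mu, mu, pm_map', Finset.prod_map]
  congr 1
  · refine Finset.prod_congr rfl fun j _ => ?_
    rcases j with j | j <;> simp [dd, mV, s0]
  · congr 2
    ext i j
    rcases i with i | i <;> rcases j with j | j <;> rfl

/-- the extra labels -/
def E6 : Finset ((ι ⊕ Fin 3) ⊕ (ι ⊕ Fin 3)) :=
  ((univ : Finset (Fin 3)).map .inr).disjSum ((univ : Finset (Fin 3)).map .inr)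

lemma ZV_le (x : ι → ℂ) {m : ι → ℝ} (hm : ∀ i, 0 < m i) (a b c : ℂ) :
    ZV x m a b c ≤ (∏ k : Fin 3, (1 + rr (yV x a b c) (mV m) (Sum.inr k))) ^ 2 * Zs x m := by
  have h1 := mu_union (PM_Lam (yV x a b c) (yV x a b c)) (Lam_skew _ _) (dd_pos (mV_pos hm))
    (Lam_diag (yV x a b c)) (univ.map (s0 (ι := ι))) E6
  have h2 : (E6 ∪ univ.map s0 : Finset ((ι ⊕ Fin 3) ⊕ (ι ⊕ Fin 3))) = univ := by
    ext u
    rcases u with (u | u) | (u | u) <;> simp [E6, s0]
  rw [h2, Finset.filter_true_of_mem (fun s _ => Finset.subset_univ s)] at h1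
  have h3 : ∏ e ∈ (E6 : Finset ((ι ⊕ Fin 3) ⊕ (ι ⊕ Fin 3))),
      (1 + rho (Lam (yV x a b c) (yV x a b c)) (dd (mV m)) e) =
      (∏ k : Fin 3, (1 + rr (yV x a b c) (mV m) (Sum.inr k))) ^ 2 := by
    rw [E6, Finset.prod_disjSum, Finset.prod_map, Finset.prod_map, sq]
    congr 1
    · exact Finset.prod_congr rfl fun k _ => by rw [rho_inl]; rfl
    · exact Finset.prod_congr rfl fun k _ => by rw [rho_inr]; rfl
  have h4 : ∑ s with s ⊆ univ.map (s0 (ι := ι)), mu (Lam (yV x a b c) (yV x a b c)) (dd (mV m)) s =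
      Zs x m := by
    rw [Zs]
    have h5 : (univ.filter (fun s : Finset ((ι ⊕ Fin 3) ⊕ (ι ⊕ Fin 3)) => s ⊆ univ.map (s0 (ι := ι)))) =
        univ.map ⟨fun S : Finset (ι ⊕ ι) => S.map s0, Finset.map_injective _⟩ := by
      ext T
      simp only [Finset.mem_filter, Finset.mem_univ, true_and, Finset.mem_map,
        Function.Embedding.coeFn_mk]
      constructor
      · intro hT
        obtain ⟨S, _, hS⟩ := Finset.subset_map_iff.1 hT
        exact ⟨S, hS.symm⟩
      · rintro ⟨S, rfl⟩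
        exact Finset.map_subset_map.2 (Finset.subset_univ S)
    rw [h5, Finset.sum_map]
    exact Finset.sum_congr rfl fun S _ => mu_s0 x m a b c S
  rw [h3, h4] at h1
  exact h1

/-- **Main finite inequality.** -/
theorem fin_main (x : ι → ℂ) (hx : Function.Injective x) {m : ι → ℝ} (hm : ∀ i, 0 < m i) (a b c : ℂ)
    (hab : a ≠ b) (hac : a ≠ c) (hbc : b ≠ c)
    (ha : ∀ i, x i ≠ a) (hb : ∀ i, x i ≠ b) (hc : ∀ i, x i ≠ c) :
    D2 (KB x m) (LB x m) a b c ≤
      24 * (∏ k : Fin 3, (1 + rr (yV x a b c) (mV m) (Sum.inr k))) ^ 4 *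
        ∑ i : ι, rr (yV x a b c) (mV m) (Sum.inl i) ^ 2 := by
  have hZ := Zs_pos x hm
  have hZV := ZV_pos x hm a b c
  have h1 := D2_sum x hm a b c
  rw [← Finset.sum_filter_add_sum_filter_not univ (fun P => GoodP P)] at h1
  have h2 := good_part x hx hm a b c hab hac hbc ha hb hc
  have h3 := bad_part x hm a b c
  have h4 := ZV_le x hm a b c
  set C := ∏ k : Fin 3, (1 + rr (yV x a b c) (mV m) (Sum.inr k)) with hC
  set R := ∑ i : ι, rr (yV x a b c) (mV m) (Sum.inl i) ^ 2 with hR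
  have hR0 : 0 ≤ R := Finset.sum_nonneg fun i _ => sq_nonneg _
  have h5 : ZV x m a b c ^ 2 ≤ (C ^ 2 * Zs x m) ^ 2 :=
    pow_le_pow_left₀ (by linarith) h4 2
  have h6 : D2 (KB x m) (LB x m) a b c * Zs x m ^ 2 ≤ (24 * C ^ 4 * R) * Zs x m ^ 2 := by
    rw [h1]
    have h7 : 12 * R * ZV x m a b c ^ 2 ≤ 12 * R * (C ^ 2 * Zs x m) ^ 2 :=
      mul_le_mul_of_nonneg_left h5 (by positivity)
    nlinarith
  exact le_of_mul_le_mul_right h6 (by positivity)

end

end Pool.Agent.H761R2.SV
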