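import Pool.Agent.H761R2.SV.Lin

set_option autoImplicit false
open Matrix Finset Complex
open scoped ComplexConjugate

namespace Pool.Agent.H761R2.SV

section
variable {n : Type*} [Fintype n] [DecidableEq n]

/-- principal minor -/
noncomputable def pm (M : Matrix n n ℂ) (s : Finset n) : ℂ := (M.submatrix (↑) (↑) : Matrix s s ℂ).det

/-- `∑_S (∏_{i ∉ S} d_i) det M_S` -/
noncomputable def Zf (M : Matrix n n ℂ) (d : n → ℝ) : ℝ :=
  ∑ s : Finset n, (∏ i ∈ sᶜ, d i) * (pm M s).re

/-- all principal minors are nonnegative reals -/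
def PM (M : Matrix n n ℂ) : Prop := ∀ s, 0 ≤ (pm M s).re ∧ (pm M s).im = 0

lemma PM.eq {M : Matrix n n ℂ} (h : PM M) (s : Finset n) : pm M s = (((pm M s).re : ℝ) : ℂ) :=
  Complex.ext (by simp) (by simp [(h s).2])

lemma det_eq_Zf {M : Matrix n n ℂ} (h : PM M) (d : n → ℝ) :
    det (diagonal (fun i => (d i : ℂ)) + M) = ((Zf M d : ℝ) : ℂ) := by
  rw [det_diag_add, Zf]
  push_cast
  refine Finset.sum_congr rfl fun s _ => ?_
  congr 1
  exact h.eq s

/-- derivative with respect to `d_j` -/
noncomputable def Zd (M : Matrix n n ℂ) (d : n → ℝ) (j : n) : ℝ :=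
  ∑ s : Finset n with j ∉ s, (∏ i ∈ sᶜ.erase j, d i) * (pm M s).re

lemma Zf_split (M : Matrix n n ℂ) (d : n → ℝ) (j : n) :
    Zf M d = d j * Zd M d j + Zf M (Function.update d j 0) := by
  rw [Zf, Zf, Zd, ← Finset.sum_filter_add_sum_filter_not univ (fun s : Finset n => j ∉ s),
    ← Finset.sum_filter_add_sum_filter_not (s := univ) (p := fun s : Finset n => j ∉ s)
      (f := fun s => (∏ i ∈ sᶜ, Function.update d j 0 i) * (pm M s).re)]
  have h1 : ∑ s : Finset n with j ∉ s, (∏ i ∈ sᶜ, Function.update d j 0 i) * (pm M s).re = 0 := by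
    refine Finset.sum_eq_zero fun s hs => ?_
    have hj : j ∈ sᶜ := by simpa using hs
    rw [Finset.prod_eq_zero hj (by simp), zero_mul]
  rw [h1, zero_add, Finset.mul_sum]
  congr 1
  · refine Finset.sum_congr rfl fun s hs => ?_
    have hj : j ∈ sᶜ := by simpa using hs
    rw [← Finset.mul_prod_erase _ _ hj]
    ring
  · refine Finset.sum_congr rfl fun s hs => ?_
    have hj : j ∈ s := by simpa using hs
    congr 1
    refine Finset.prod_congr rfl fun i hi => ?_
    rw [Function.update_of_ne]
    rintro rfl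
    exact (Finset.mem_compl.1 hi) hj

lemma Zf_nonneg {M : Matrix n n ℂ} (h : PM M) {d : n → ℝ} (hd : ∀ i, 0 ≤ d i) : 0 ≤ Zf M d :=
  Finset.sum_nonneg fun s _ => mul_nonneg (Finset.prod_nonneg fun i _ => hd i) (h s).1

lemma Zd_nonneg {M : Matrix n n ℂ} (h : PM M) {d : n → ℝ} (hd : ∀ i, 0 ≤ d i) (j : n) :
    0 ≤ Zd M d j :=
  Finset.sum_nonneg fun s _ => mul_nonneg (Finset.prod_nonneg fun i _ => hd i) (h s).1

lemma Zd_eq_adj {M : Matrix n n ℂ} (h : PM M) (d : n → ℝ) (j : n) :
    adjugate (diagonal (fun i => (d i : ℂ)) + M) j j = ((Zd M d j : ℝ) : ℂ) := by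
  -- `det` is affine in `d j`
  have key : ∀ t : ℝ, det (diagonal (fun i => ((Function.update d j t i : ℝ) : ℂ)) + M) =
      (t : ℂ) * adjugate (diagonal (fun i => (d i : ℂ)) + M) j j +
      det (diagonal (fun i => ((Function.update d j 0 i : ℝ) : ℂ)) + M) := by
    intro t
    have e1 : (diagonal (fun i => ((Function.update d j t i : ℝ) : ℂ)) + M) =
        updateRow (diagonal (fun i => (d i : ℂ)) + M) j
          ((diagonal (fun i => ((Function.update d j 0 i : ℝ) : ℂ)) + M) j +
            (t : ℂ) • Pi.single j (1 : ℂ)) := by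
      ext a b
      by_cases ha : a = j
      · subst ha
        rw [updateRow_self]
        by_cases hb : a = b
        · subst hb; simp; ring
        · simp [diagonal_apply_ne _ hb, Pi.single_apply, Ne.symm hb]
      · rw [updateRow_ne ha]
        by_cases hb : a = b
        · subst hb; simp [Function.update_of_ne ha]
        · simp [diagonal_apply_ne _ hb]
    have e2 : (diagonal (fun i => ((Function.update d j 0 i : ℝ) : ℂ)) + M) =
        updateRow (diagonal (fun i => (d i : ℂ)) + M) j
          ((diagonal (fun i => ((Function.update d j 0 i : ℝ) : ℂ)) + M) j) := by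
      ext a b
      by_cases ha : a = j
      · subst ha
        rw [updateRow_self]
      · rw [updateRow_ne ha]
        by_cases hb : a = b
        · subst hb; simp [Function.update_of_ne ha]
        · simp [diagonal_apply_ne _ hb]
    rw [e1, det_updateRow_add, det_updateRow_smul, adjugate_apply, ← e2]
    ring
  have h1 := key 1
  rw [det_eq_Zf h, det_eq_Zf h] at h1
  have h2 := Zf_split M (Function.update d j 1) j
  have h3 : Zd M (Function.update d j 1) j = Zd M d j := by
    rw [Zd, Zd]
    refine Finset.sum_congr rfl fun s _ => ?_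
    congr 1
    refine Finset.prod_congr rfl fun i hi => ?_
    rw [Function.update_of_ne (Finset.ne_of_mem_erase hi)]
  rw [h3] at h2
  simp only [Function.update_self, one_mul, Function.update_idem] at h2
  rw [h2] at h1
  push_cast at h1
  rw [one_mul] at h1
  exact (add_right_cancel h1).symm

/-- key estimate: `∑_{S ∋ j} ≤ r ∑_{S ∌ j}` -/
lemma key_est {M : Matrix n n ℂ} (h : PM M) (hM : Mᴴ = -M) {d : n → ℝ} (hd : ∀ i, 0 ≤ d i) (j : n)
    (hpos : ∀ k, M j k ≠ 0 → 0 < d k) (hjj : M j j = 0) :
    Zf M (Function.update d j 0) ≤ (∑ k, ‖M j k‖ ^ 2 / d k) * Zd M d j := by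
  set G : Matrix n n ℂ := diagonal (fun i => (d i : ℂ)) + M with hG
  set y : n → ℂ := fun k => adjugate G k j with hy
  have hyj : y j = ((Zd M d j : ℝ) : ℂ) := Zd_eq_adj h d j
  have hGy : ∀ i, ∑ k, G i k * y k = if i = j then ((Zf M d : ℝ) : ℂ) else 0 := by
    intro i
    have := congrFun (congrFun (mul_adjugate G) i) j
    rw [mul_apply] at this
    rw [this, det_eq_Zf h]
    simp [one_apply]
  -- energy identity
  have hE : ∑ i, d i * ‖y i‖ ^ 2 = Zf M d * Zd M d j := by
    have h1 : ∑ i, conj (y i) * ∑ k, G i k * y k = ((Zf M d * Zd M d j : ℝ) : ℂ) := by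
      simp only [hGy]
      rw [Finset.sum_eq_single j]
      · simp [hyj, mul_comm]
      · intro b _ hb; simp [hb]
      · simp
    have h2 : ∑ i, conj (y i) * ∑ k, G i k * y k =
        ∑ i, ((d i * ‖y i‖ ^ 2 : ℝ) : ℂ) + ∑ i, ∑ k, conj (y i) * M i k * y k := by
      rw [← Finset.sum_add_distrib]
      refine Finset.sum_congr rfl fun i _ => ?_
      have : ∑ k, G i k * y k = (d i : ℂ) * y i + ∑ k, M i k * y k := by
        simp only [hG, Matrix.add_apply, add_mul, Finset.sum_add_distrib]
        congr 1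
        rw [Finset.sum_eq_single i]
        · simp
        · intro b _ hb; simp [diagonal_apply_ne _ (Ne.symm hb)]
        · simp
      rw [this, mul_add, Finset.mul_sum]
      congr 1
      · push_cast
        rw [← Complex.mul_conj' (y i)]
        ring
      · exact Finset.sum_congr rfl fun k _ => by ring
    have h3 : (∑ i, ∑ k, conj (y i) * M i k * y k).re = 0 := by
      have hskew : conj (∑ i, ∑ k, conj (y i) * M i k * y k) =
          - ∑ i, ∑ k, conj (y i) * M i k * y k := by
        rw [map_sum]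
        simp only [map_sum, map_mul, Complex.conj_conj]
        rw [Finset.sum_comm, ← Finset.sum_neg_distrib]
        refine Finset.sum_congr rfl fun i _ => ?_
        rw [← Finset.sum_neg_distrib]
        refine Finset.sum_congr rfl fun k _ => ?_
        have := congrFun (congrFun hM i) k
        rw [conjTranspose_apply, Matrix.neg_apply] at this
        have h4 : conj (M k i) = - M i k := this
        rw [h4]
        ring
      have := congrArg Complex.re hskew
      rw [Complex.conj_re, Complex.neg_re] at this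
      linarith
    have h4 := congrArg Complex.re (h2.symm.trans h1)
    rw [Complex.add_re, h3, add_zero, ← Complex.ofReal_sum, Complex.ofReal_re, Complex.ofReal_re] at h4
    exact h4
  -- row j
  have hrow : ((Zf M d : ℝ) : ℂ) = (d j : ℂ) * ((Zd M d j : ℝ) : ℂ) + ∑ k, M j k * y k := by
    have := hGy j
    rw [if_pos rfl] at this
    rw [← this, ← hyj]
    simp only [hG, Matrix.add_apply, add_mul, Finset.sum_add_distrib]
    congr 1
    rw [Finset.sum_eq_single j]
    · simp
    · intro b _ hb; simp [diagonal_apply_ne _ (Ne.symm hb)]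
    · simp
  set β : ℝ := Zf M (Function.update d j 0) with hβ
  set α : ℝ := Zd M d j with hα
  set r : ℝ := ∑ k, ‖M j k‖ ^ 2 / d k with hr
  have hsplit : Zf M d = d j * α + β := Zf_split M d j
  have hβ0 : 0 ≤ β := Zf_nonneg h (fun i => by
    by_cases hi : i = j
    · subst hi; simp
    · rw [Function.update_of_ne hi]; exact hd i)
  have hα0 : 0 ≤ α := Zd_nonneg h hd j
  have hsum : ∑ k, M j k * y k = (β : ℂ) := by
    have : ((Zf M d : ℝ) : ℂ) = (d j : ℂ) * (α : ℂ) + (β : ℂ) := by
      rw [hsplit]; push_cast; ring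
    rw [this] at hrow
    exact (add_left_cancel hrow).symm
  have hβn : β ≤ ∑ k, ‖M j k‖ * ‖y k‖ := by
    have : ‖∑ k, M j k * y k‖ = β := by rw [hsum]; simp [abs_of_nonneg hβ0]
    rw [← this]
    refine (norm_sum_le _ _).trans (le_of_eq ?_)
    simp
  -- Cauchy–Schwarz
  have hCS : β ^ 2 ≤ r * ∑ k ∈ univ.erase j, d k * ‖y k‖ ^ 2 := by
    have h1 : ∑ k, ‖M j k‖ * ‖y k‖ = ∑ k ∈ univ.erase j, ‖M j k‖ * ‖y k‖ := by
      rw [← Finset.add_sum_erase _ _ (Finset.mem_univ j), hjj]
      simp
    have h2 : (∑ k ∈ univ.erase j, ‖M j k‖ * ‖y k‖) ^ 2 ≤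
        (∑ k ∈ univ.erase j, ‖M j k‖ ^ 2 / d k) * ∑ k ∈ univ.erase j, d k * ‖y k‖ ^ 2 := by
      have h3 : ∀ k ∈ univ.erase j, ‖M j k‖ * ‖y k‖ =
          (‖M j k‖ / Real.sqrt (d k)) * (Real.sqrt (d k) * ‖y k‖) := by
        intro k _
        by_cases hk : M j k = 0
        · simp [hk]
        · have := hpos k hk
          have h5 : Real.sqrt (d k) ≠ 0 := (Real.sqrt_pos.2 this).ne'
          field_simp
      rw [Finset.sum_congr rfl h3]
      refine (Finset.sum_mul_sq_le_sq_mul_sq _ _ _).trans (le_of_eq ?_)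
      congr 1
      · refine Finset.sum_congr rfl fun k _ => ?_
        rw [div_pow, Real.sq_sqrt (hd k)]
      · refine Finset.sum_congr rfl fun k _ => ?_
        rw [mul_pow, Real.sq_sqrt (hd k)]
    have h4 : ∑ k ∈ univ.erase j, ‖M j k‖ ^ 2 / d k = r := by
      rw [hr, ← Finset.add_sum_erase _ _ (Finset.mem_univ j), hjj]
      simp
    rw [h4, ← h1] at h2
    exact (pow_le_pow_left₀ hβ0 hβn 2).trans h2
  have hEn : ∑ k ∈ univ.erase j, d k * ‖y k‖ ^ 2 = α * β := by
    have h1 := hE
    rw [← Finset.add_sum_erase _ _ (Finset.mem_univ j), hyj, hsplit] at h1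
    have h2 : ‖((α : ℝ) : ℂ)‖ ^ 2 = α ^ 2 := by simp
    rw [h2] at h1
    linarith [h1, (by ring : (d j * α + β) * α = d j * α ^ 2 + α * β)]
  rw [hEn] at hCS
  rcases hβ0.eq_or_lt with h0 | h0
  · rw [← h0]
    exact mul_nonneg (Finset.sum_nonneg fun k _ => div_nonneg (sq_nonneg _) (hd k)) hα0
  · have : β * β ≤ (r * α) * β := by nlinarith
    exact le_of_mul_le_mul_right this h0

end

end Pool.Agent.H761R2.SV
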