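import Pool.Agent.H761R2.SV.Gen

set_option autoImplicit false
open Matrix Finset Complex
open scoped ComplexConjugate

namespace Pool.Agent.H761R2.SV

section
variable {n : Type*} [Fintype n] [DecidableEq n]

/-- `ρ_j = m_j ∑_k m_k |M_{jk}|²`, `m = 1/d`. -/
noncomputable def rho (M : Matrix n n ℂ) (d : n → ℝ) (j : n) : ℝ := (∑ k, ‖M j k‖ ^ 2 / d k) / d j

lemma rho_nonneg (M : Matrix n n ℂ) {d : n → ℝ} (hd : ∀ i, 0 < d i) (j : n) : 0 ≤ rho M d j :=
  div_nonneg (Finset.sum_nonneg fun k _ => div_nonneg (sq_nonneg _) (hd k).le) (hd j).le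

lemma one_mass {M : Matrix n n ℂ} (h : PM M) (hM : Mᴴ = -M) {d : n → ℝ} (hd : ∀ i, 0 < d i) (j : n)
    (hjj : M j j = 0) :
    Zf M (Function.update d j 0) ≤ rho M d j * Zf M d := by
  have h1 := key_est h hM (fun i => (hd i).le) j (fun k _ => hd k) hjj
  have h2 := Zf_split M d j
  have h3 : 0 ≤ Zf M (Function.update d j 0) := Zf_nonneg h (fun i => by
    by_cases hi : i = j
    · subst hi; simp
    · rw [Function.update_of_ne hi]; exact (hd i).le)
  have h4 : d j * Zd M d j ≤ Zf M d := by linarith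
  have hr : 0 ≤ ∑ k, ‖M j k‖ ^ 2 / d k :=
    Finset.sum_nonneg fun k _ => div_nonneg (sq_nonneg _) (hd k).le
  refine h1.trans ?_
  rw [rho, div_mul_eq_mul_div, le_div_iff₀ (hd j)]
  calc (∑ k, ‖M j k‖ ^ 2 / d k) * Zd M d j * d j
      = (∑ k, ‖M j k‖ ^ 2 / d k) * (d j * Zd M d j) := by ring
    _ ≤ _ := mul_le_mul_of_nonneg_left h4 hr

lemma two_mass {M : Matrix n n ℂ} (h : PM M) (hM : Mᴴ = -M) {d : n → ℝ} (hd : ∀ i, 0 < d i)
    (j j' : n) (hne : j ≠ j') (hjj : M j j = 0) (hjj' : M j' j' = 0) (hM0 : M j j' = 0) :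
    Zf M (Function.update (Function.update d j' 0) j 0) ≤ rho M d j * rho M d j' * Zf M d := by
  set d' := Function.update d j' 0 with hd'
  have hd'0 : ∀ i, 0 ≤ d' i := fun i => by
    by_cases hi : i = j'
    · subst hi; simp [hd']
    · rw [hd', Function.update_of_ne hi]; exact (hd i).le
  have h1 := key_est h hM hd'0 j (fun k hk => by
    have : k ≠ j' := by rintro rfl; exact hk hM0
    rw [hd', Function.update_of_ne this]; exact hd k) hjj
  have hr : ∑ k, ‖M j k‖ ^ 2 / d' k = ∑ k, ‖M j k‖ ^ 2 / d k := by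
    refine Finset.sum_congr rfl fun k _ => ?_
    by_cases hk : k = j'
    · subst hk; simp [hM0]
    · rw [hd', Function.update_of_ne hk]
  rw [hr] at h1
  have h2 := Zf_split M d' j
  have hdj : d' j = d j := by rw [hd', Function.update_of_ne hne]
  rw [hdj] at h2
  have h3 : 0 ≤ Zf M (Function.update d' j 0) := Zf_nonneg h (fun i => by
    by_cases hi : i = j
    · subst hi; simp
    · rw [Function.update_of_ne hi]; exact hd'0 i)
  have h4 : d j * Zd M d' j ≤ Zf M d' := by linarith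
  have h5 := one_mass h hM hd j' hjj'
  have hr0 : 0 ≤ ∑ k, ‖M j k‖ ^ 2 / d k :=
    Finset.sum_nonneg fun k _ => div_nonneg (sq_nonneg _) (hd k).le
  have h6 : d j * Zd M d' j ≤ rho M d j' * Zf M d := h4.trans h5
  refine h1.trans ?_
  rw [rho, mul_assoc, div_mul_eq_mul_div, le_div_iff₀ (hd j)]
  calc (∑ k, ‖M j k‖ ^ 2 / d k) * Zd M d' j * d j
      = (∑ k, ‖M j k‖ ^ 2 / d k) * (d j * Zd M d' j) := by ring
    _ ≤ (∑ k, ‖M j k‖ ^ 2 / d k) * (rho M d j' * Zf M d) := mul_le_mul_of_nonneg_left h6 hr0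

/-- normalised weights `∏_{i ∈ S} m_i · e(S)` -/
noncomputable def mu (M : Matrix n n ℂ) (d : n → ℝ) (s : Finset n) : ℝ :=
  (∏ i ∈ s, (d i)⁻¹) * (pm M s).re

lemma mu_nonneg {M : Matrix n n ℂ} (h : PM M) {d : n → ℝ} (hd : ∀ i, 0 < d i) (s : Finset n) :
    0 ≤ mu M d s :=
  mul_nonneg (Finset.prod_nonneg fun i _ => inv_nonneg.2 (hd i).le) (h s).1

lemma compl_term (M : Matrix n n ℂ) {d : n → ℝ} (hd : ∀ i, 0 < d i) (s : Finset n) :
    (∏ i ∈ sᶜ, d i) * (pm M s).re = (∏ i, d i) * mu M d s := by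
  rw [mu, ← mul_assoc, ← Finset.prod_mul_prod_compl s d]
  congr 1
  rw [mul_right_comm, ← Finset.prod_mul_distrib,
    Finset.prod_congr rfl (fun i _ => mul_inv_cancel₀ (hd i).ne'), Finset.prod_const_one, one_mul]

lemma Zf_eq_mu (M : Matrix n n ℂ) {d : n → ℝ} (hd : ∀ i, 0 < d i) :
    Zf M d = (∏ i, d i) * ∑ s, mu M d s := by
  rw [Zf, Finset.mul_sum]
  exact Finset.sum_congr rfl fun s _ => compl_term M hd s

lemma Zf_update_eq_mu (M : Matrix n n ℂ) {d : n → ℝ} (hd : ∀ i, 0 < d i) (j : n) :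
    Zf M (Function.update d j 0) = (∏ i, d i) * ∑ s with j ∈ s, mu M d s := by
  rw [Zf, Finset.mul_sum, ← Finset.sum_filter_add_sum_filter_not univ (fun s : Finset n => j ∈ s)]
  have h1 : ∑ s : Finset n with ¬ j ∈ s, (∏ i ∈ sᶜ, Function.update d j 0 i) * (pm M s).re = 0 := by
    refine Finset.sum_eq_zero fun s hs => ?_
    have hj : j ∈ sᶜ := by simpa using hs
    rw [Finset.prod_eq_zero hj (by simp), zero_mul]
  rw [h1, add_zero]
  refine Finset.sum_congr rfl fun s hs => ?_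
  have hj : j ∈ s := by simpa using hs
  rw [← compl_term M hd s]
  congr 1
  refine Finset.prod_congr rfl fun i hi => ?_
  rw [Function.update_of_ne]
  rintro rfl
  exact (Finset.mem_compl.1 hi) hj

lemma Zf_update2_eq_mu (M : Matrix n n ℂ) {d : n → ℝ} (hd : ∀ i, 0 < d i) (j j' : n) :
    Zf M (Function.update (Function.update d j' 0) j 0) =
      (∏ i, d i) * ∑ s with j ∈ s ∧ j' ∈ s, mu M d s := by
  rw [Zf, Finset.mul_sum,
    ← Finset.sum_filter_add_sum_filter_not univ (fun s : Finset n => j ∈ s ∧ j' ∈ s)]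
  have h1 : ∑ s : Finset n with ¬ (j ∈ s ∧ j' ∈ s),
      (∏ i ∈ sᶜ, Function.update (Function.update d j' 0) j 0 i) * (pm M s).re = 0 := by
    refine Finset.sum_eq_zero fun s hs => ?_
    have hj : ¬ (j ∈ s ∧ j' ∈ s) := by simpa using hs
    by_cases h1 : j ∈ s
    · have h2 : j' ∈ sᶜ := by
        rw [Finset.mem_compl]; exact fun h => hj ⟨h1, h⟩
      have h3 : j' ≠ j := by rintro rfl; exact (Finset.mem_compl.1 h2) h1
      rw [Finset.prod_eq_zero h2 (by rw [Function.update_of_ne h3]; simp), zero_mul]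
    · have h2 : j ∈ sᶜ := Finset.mem_compl.2 h1
      rw [Finset.prod_eq_zero h2 (by simp), zero_mul]
  rw [h1, add_zero]
  refine Finset.sum_congr rfl fun s hs => ?_
  have hj : j ∈ s ∧ j' ∈ s := by simpa using hs
  rw [← compl_term M hd s]
  congr 1
  refine Finset.prod_congr rfl fun i hi => ?_
  have hi' := Finset.mem_compl.1 hi
  rw [Function.update_of_ne, Function.update_of_ne]
  · rintro rfl; exact hi' hj.2
  · rintro rfl; exact hi' hj.1

lemma mu_one {M : Matrix n n ℂ} (h : PM M) (hM : Mᴴ = -M) {d : n → ℝ} (hd : ∀ i, 0 < d i) (j : n)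
    (hjj : M j j = 0) :
    ∑ s with j ∈ s, mu M d s ≤ rho M d j * ∑ s, mu M d s := by
  have h1 := one_mass h hM hd j hjj
  rw [Zf_update_eq_mu M hd, Zf_eq_mu M hd, mul_left_comm] at h1
  exact le_of_mul_le_mul_left h1 (Finset.prod_pos fun i _ => hd i)

lemma mu_two {M : Matrix n n ℂ} (h : PM M) (hM : Mᴴ = -M) {d : n → ℝ} (hd : ∀ i, 0 < d i)
    (j j' : n) (hne : j ≠ j') (hjj : M j j = 0) (hjj' : M j' j' = 0) (hM0 : M j j' = 0) :
    ∑ s with j ∈ s ∧ j' ∈ s, mu M d s ≤ rho M d j * rho M d j' * ∑ s, mu M d s := by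
  have h1 := two_mass h hM hd j j' hne hjj hjj' hM0
  rw [Zf_update2_eq_mu M hd, Zf_eq_mu M hd, mul_left_comm] at h1
  exact le_of_mul_le_mul_left h1 (Finset.prod_pos fun i _ => hd i)

end

end Pool.Agent.H761R2.SV
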