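import Pool.Agent.H761R2.SV.Gen2

set_option autoImplicit false
open Matrix Finset Complex
open scoped ComplexConjugate

namespace Pool.Agent.H761R2.SV

section
variable {n : Type*} [Fintype n] [DecidableEq n]

lemma mu_one' {M : Matrix n n ℂ} (h : PM M) (hM : Mᴴ = -M) {d : n → ℝ} (hd : ∀ i, 0 < d i) (j : n)
    (hjj : M j j = 0) :
    ∑ s with j ∈ s, mu M d s ≤ rho M d j * ∑ s with j ∉ s, mu M d s := by
  have h1 := key_est h hM (fun i => (hd i).le) j (fun k _ => hd k) hjj
  have h2 := Zf_split M d j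
  have hP : 0 < ∏ i, d i := Finset.prod_pos fun i _ => hd i
  have h3 : d j * Zd M d j = (∏ i, d i) * ∑ s with j ∉ s, mu M d s := by
    have h4 := Finset.sum_filter_add_sum_filter_not univ (fun s : Finset n => j ∈ s) (fun s => mu M d s)
    rw [Zf_eq_mu M hd, Zf_update_eq_mu M hd, ← h4, mul_add] at h2
    linarith
  rw [Zf_update_eq_mu M hd] at h1
  have h5 : (∏ i, d i) * ∑ s with j ∈ s, mu M d s ≤
      (∏ i, d i) * (rho M d j * ∑ s with j ∉ s, mu M d s) := by
    refine h1.trans (le_of_eq ?_)
    rw [rho, mul_left_comm, ← h3]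
    field_simp [(hd j).ne']
  exact le_of_mul_le_mul_left h5 hP

/-- restriction of a matrix to a set of indices -/
def res (M : Matrix n n ℂ) (U : Finset n) : Matrix n n ℂ :=
  Matrix.of fun i j => if i ∈ U ∧ j ∈ U then M i j else 0

lemma pm_res (M : Matrix n n ℂ) (U s : Finset n) :
    pm (res M U) s = if s ⊆ U then pm M s else 0 := by
  split_ifs with hs
  · rw [pm, pm]
    congr 1
    ext i j
    simp [res, hs i.2, hs j.2]
  · rw [Finset.not_subset] at hs
    obtain ⟨i, hi, hiU⟩ := hs
    rw [pm]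
    refine det_eq_zero_of_row_eq_zero (⟨i, hi⟩ : s) fun j => ?_
    simp [res, hiU]

lemma PM_res {M : Matrix n n ℂ} (h : PM M) (U : Finset n) : PM (res M U) := by
  intro s
  rw [pm_res]
  split_ifs
  · exact h s
  · simp

lemma mu_res (M : Matrix n n ℂ) (d : n → ℝ) (U s : Finset n) :
    mu (res M U) d s = if s ⊆ U then mu M d s else 0 := by
  rw [mu, pm_res, mu]
  split_ifs <;> simp

lemma res_skew {M : Matrix n n ℂ} (hM : Mᴴ = -M) (U : Finset n) : (res M U)ᴴ = - res M U := by
  ext i j
  have := congrFun (congrFun hM i) j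
  rw [conjTranspose_apply, Matrix.neg_apply] at this
  rw [conjTranspose_apply, Matrix.neg_apply]
  simp only [res, Matrix.of_apply]
  by_cases h1 : i ∈ U <;> by_cases h2 : j ∈ U <;> simp [h1, h2, this]

lemma rho_res_le (M : Matrix n n ℂ) {d : n → ℝ} (hd : ∀ i, 0 < d i) (U : Finset n) (j : n) :
    rho (res M U) d j ≤ rho M d j := by
  rw [rho, rho]
  refine div_le_div_of_nonneg_right ?_ (hd j).le
  refine Finset.sum_le_sum fun k _ => ?_
  refine div_le_div_of_nonneg_right ?_ (hd k).le
  simp only [res, Matrix.of_apply]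
  split_ifs
  · exact le_refl _
  · simp

/-- adding one index -/
lemma mu_insert {M : Matrix n n ℂ} (h : PM M) (hM : Mᴴ = -M) {d : n → ℝ} (hd : ∀ i, 0 < d i)
    (hdiag : ∀ j, M j j = 0) (U : Finset n) (e : n) :
    ∑ s with s ⊆ insert e U, mu M d s ≤ (1 + rho M d e) * ∑ s with s ⊆ U, mu M d s := by
  by_cases he : e ∈ U
  · rw [Finset.insert_eq_of_mem he]
    have h1 : 0 ≤ ∑ s with s ⊆ U, mu M d s := Finset.sum_nonneg fun s _ => mu_nonneg h hd s
    have h2 := rho_nonneg M hd e
    nlinarith
  set M' := res M (insert e U) with hM'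
  have h1 := mu_one' (PM_res h (insert e U)) (res_skew hM _) hd e (by
    simp [res, hdiag])
  have h2 : ∑ s with e ∉ s, mu M' d s = ∑ s with s ⊆ U, mu M d s := by
    rw [Finset.sum_filter, Finset.sum_filter]
    refine Finset.sum_congr rfl fun s _ => ?_
    rw [mu_res]
    by_cases hes : e ∈ s
    · have : ¬ s ⊆ U := fun h => he (h hes)
      simp [hes, this]
    · have : s ⊆ insert e U ↔ s ⊆ U := by
        constructor
        · intro hs x hx
          rcases Finset.mem_insert.1 (hs hx) with rfl | h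
          · exact absurd hx hes
          · exact h
        · exact fun hs => hs.trans (Finset.subset_insert _ _)
      simp only [hes, not_false_eq_true, if_true, this]
  have h3 : ∑ s with s ⊆ insert e U, mu M d s = ∑ s, mu M' d s := by
    rw [Finset.sum_filter]
    exact Finset.sum_congr rfl fun s _ => (mu_res M d _ s).symm
  rw [h3, ← Finset.sum_filter_add_sum_filter_not univ (fun s : Finset n => e ∈ s)]
  rw [h2] at h1 ⊢
  have h4 := rho_res_le M hd (insert e U) e
  have h5 : 0 ≤ ∑ s with s ⊆ U, mu M d s := Finset.sum_nonneg fun s _ => mu_nonneg h hd s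
  have h6 := mul_le_mul_of_nonneg_right h4 h5
  linarith

lemma mu_union {M : Matrix n n ℂ} (h : PM M) (hM : Mᴴ = -M) {d : n → ℝ} (hd : ∀ i, 0 < d i)
    (hdiag : ∀ j, M j j = 0) (U E : Finset n) :
    ∑ s with s ⊆ E ∪ U, mu M d s ≤ (∏ e ∈ E, (1 + rho M d e)) * ∑ s with s ⊆ U, mu M d s := by
  induction E using Finset.induction_on with
  | empty => simp
  | insert e E he ih =>
    rw [Finset.prod_insert he, Finset.insert_union]
    refine (mu_insert h hM hd hdiag (E ∪ U) e).trans ?_
    rw [mul_assoc]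
    exact mul_le_mul_of_nonneg_left ih (by have := rho_nonneg M hd e; linarith)

end

end Pool.Agent.H761R2.SV
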