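import Pool.Agent.H761R2.SV.Defs

/-! Tubular neighbourhoods of analytic Jordan curves. -/

set_option autoImplicit false
open Complex MeasureTheory Filter Topology
open scoped ContDiff

namespace Pool.Agent.H761R2.SV.GeoT

open Pool.Agent.H761R2.SV

/-- Fermi coordinates. -/
noncomputable def Ph (g : ℝ → ℂ) (w : ℂ) : ℂ := g w.re + (w.im : ℂ) * (I * deriv g w.re)

lemma Ph_real (g : ℝ → ℂ) (t : ℝ) : Ph g (t : ℂ) = g t := by simp [Ph]

section one
variable {g : ℝ → ℂ}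

lemma per_deriv (hp : Function.Periodic g 1) (t : ℝ) : deriv g (t + 1) = deriv g t := by
  have : (fun x => g (x + 1)) = g := funext hp
  rw [← deriv_comp_add_const, this]

lemma per_int (hp : Function.Periodic g 1) (m : ℤ) (t : ℝ) : g (t + m) = g t := by
  have := hp.int_mul m t
  simpa using this

lemma per_deriv_int (hp : Function.Periodic g 1) (m : ℤ) (t : ℝ) : deriv g (t + m) = deriv g t := by
  have h1 : Function.Periodic (deriv g) 1 := per_deriv hp
  exact per_int h1 m t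

lemma Ph_per (hp : Function.Periodic g 1) (w : ℂ) (m : ℤ) : Ph g (w + m) = Ph g w := by
  simp [Ph, per_int hp, per_deriv_int hp]

lemma contDiff_g (ha : AnalyticOnNhd ℝ g Set.univ) : ContDiff ℝ ∞ g := ha.contDiff

lemma contDiff_Ph (ha : AnalyticOnNhd ℝ g Set.univ) : ContDiff ℝ ∞ (Ph g) := by
  have h1 : ContDiff ℝ ∞ g := ha.contDiff
  have h2 : ContDiff ℝ ∞ (deriv g) := ha.deriv.contDiff
  have hre : ContDiff ℝ ∞ (fun w : ℂ => w.re) := reCLM.contDiff
  have him : ContDiff ℝ ∞ (fun w : ℂ => w.im) := imCLM.contDiff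
  have him' : ContDiff ℝ ∞ (fun w : ℂ => (w.im : ℂ)) := ofRealCLM.contDiff.comp him
  unfold Ph
  exact (h1.comp hre).add (him'.mul (contDiff_const.mul (h2.comp hre)))

lemma hasStrict_Ph (ha : AnalyticOnNhd ℝ g Set.univ) (w : ℂ) :
    HasStrictFDerivAt (Ph g) (fderiv ℝ (Ph g) w) w :=
  (contDiff_Ph ha).contDiffAt.hasStrictFDerivAt (by simp)

lemma fderiv_Ph_real (ha : AnalyticOnNhd ℝ g Set.univ) (t : ℝ) (v : ℂ) :
    fderiv ℝ (Ph g) (t : ℂ) v = v * deriv g t := by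
  have h1 : HasDerivAt g (deriv g t) ((t : ℂ)).re :=
    (ha.contDiff (n := 1)).differentiable (by simp) |>.differentiableAt.hasDerivAt
  have h2 : HasDerivAt (deriv g) (deriv (deriv g) t) ((t : ℂ)).re :=
    (ha.deriv.contDiff (n := 1)).differentiable (by simp) |>.differentiableAt.hasDerivAt
  have hre : HasFDerivAt (fun w : ℂ => w.re) reCLM (t : ℂ) := reCLM.hasFDerivAt
  have him : HasFDerivAt (fun w : ℂ => (w.im : ℂ)) (ofRealCLM.comp imCLM) (t : ℂ) :=
    (ofRealCLM.comp imCLM).hasFDerivAt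
  have h3 := h1.hasFDerivAt.comp (t : ℂ) hre
  have h4 := h2.hasFDerivAt.comp (t : ℂ) hre
  have h5 := h3.add (him.mul' (h4.const_mul I))
  have h6 : fderiv ℝ (Ph g) (t : ℂ) = _ := HasFDerivAt.fderiv h5
  rw [h6]
  simp
  conv_rhs => rw [← re_add_im v]
  ring

lemma det_C (f : ℂ →L[ℝ] ℂ) : f.det = (f 1).re * (f I).im - (f I).re * (f 1).im := by
  have h : f.det = LinearMap.det (f : ℂ →ₗ[ℝ] ℂ) := rfl
  rw [h, ← LinearMap.det_toMatrix basisOneI, Matrix.det_fin_two]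
  simp [LinearMap.toMatrix_apply]

lemma det_real (ha : AnalyticOnNhd ℝ g Set.univ) (hd : ∀ t, deriv g t ≠ 0) (t : ℝ) :
    (fderiv ℝ (Ph g) (t : ℂ)).det ≠ 0 := by
  rw [det_C, fderiv_Ph_real ha, fderiv_Ph_real ha]
  have h1 : (1 * deriv g t).re * (I * deriv g t).im - (I * deriv g t).re * (1 * deriv g t).im =
      normSq (deriv g t) := by
    simp [normSq_apply]
  rw [h1]
  simpa using hd t

lemma continuous_det (ha : AnalyticOnNhd ℝ g Set.univ) :
    Continuous fun w => (fderiv ℝ (Ph g) w).det :=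
  ContinuousLinearMap.continuous_det.comp ((contDiff_Ph ha).continuous_fderiv (by simp))

/-- local injectivity -/
lemma loc_inj (ha : AnalyticOnNhd ℝ g Set.univ) {w : ℂ} (hw : (fderiv ℝ (Ph g) w).det ≠ 0) :
    ∃ v ∈ 𝓝 w, Set.InjOn (Ph g) v := by
  have h1 := hasStrict_Ph ha w
  rw [← ContinuousLinearMap.coe_toContinuousLinearEquivOfDetNeZero _ hw] at h1
  refine ⟨(h1.toOpenPartialHomeomorph (Ph g)).source, ?_, ?_⟩
  · exact (h1.toOpenPartialHomeomorph (Ph g)).open_source.mem_nhds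
      h1.mem_toOpenPartialHomeomorph_source
  · exact (h1.toOpenPartialHomeomorph (Ph g)).injOn

end one

/-- strip lemma in two variables -/
lemma strip2 {P : ℂ → ℂ → Prop}
    (hloc : ∀ t t' : ℝ, ∀ᶠ p : ℂ × ℂ in 𝓝 ((t : ℂ), (t' : ℂ)), P p.1 p.2)
    (hper : ∀ (w w' : ℂ) (m m' : ℤ), P (w + m) (w' + m') → P w w') :
    ∀ᶠ r in 𝓝[>] (0 : ℝ), ∀ w w' : ℂ, |w.im| < r → |w'.im| < r → P w w' := by
  set K : Set ℂ := (fun t : ℝ => (t : ℂ)) '' Set.Icc 0 1 with hK
  have hKc : IsCompact K := isCompact_Icc.image continuous_ofReal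
  have hKK : IsCompact (K ×ˢ K) := hKc.prod hKc
  have hsub : K ×ˢ K ⊆ interior {p : ℂ × ℂ | P p.1 p.2} := by
    rintro ⟨a, b⟩ ⟨⟨t, _, rfl⟩, ⟨t', _, rfl⟩⟩
    exact mem_interior_iff_mem_nhds.2 (hloc t t')
  obtain ⟨δ, hδ, hth⟩ := hKK.exists_thickening_subset_open isOpen_interior hsub
  have hmem : ∀ r, 0 < r → r < δ → ∀ w w' : ℂ, |w.im| < r → |w'.im| < r → P w w' := by
    intro r _ hrδ w w' hw hw'
    apply hper w w' (-⌊w.re⌋) (-⌊w'.re⌋)
    have key : ∀ w : ℂ, |w.im| < r →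
        ∃ a ∈ K, dist (w + ((-⌊w.re⌋ : ℤ) : ℂ)) a < δ := by
      intro w hw
      refine ⟨((Int.fract w.re : ℝ) : ℂ), ⟨Int.fract w.re,
        ⟨Int.fract_nonneg _, (Int.fract_lt_one _).le⟩, rfl⟩, ?_⟩
      have : w + ((-⌊w.re⌋ : ℤ) : ℂ) - ((Int.fract w.re : ℝ) : ℂ) = (w.im : ℂ) * I := by
        have hf := Int.self_sub_floor w.re
        apply Complex.ext
        · simp
          linarith
        · simp
      rw [dist_eq, this, norm_mul, norm_I, mul_one, norm_real, Real.norm_eq_abs]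
      linarith
    obtain ⟨a, ha, hda⟩ := key w hw
    obtain ⟨b, hb, hdb⟩ := key w' hw'
    have h1 : ((w + ((-⌊w.re⌋ : ℤ) : ℂ)), (w' + ((-⌊w'.re⌋ : ℤ) : ℂ))) ∈
        Metric.thickening δ (K ×ˢ K) := by
      rw [Metric.mem_thickening_iff]
      refine ⟨(a, b), ⟨ha, hb⟩, ?_⟩
      rw [Prod.dist_eq]
      exact max_lt hda hdb
    have h2 : ((w + ((-⌊w.re⌋ : ℤ) : ℂ)), (w' + ((-⌊w'.re⌋ : ℤ) : ℂ))) ∈
        {p : ℂ × ℂ | P p.1 p.2} := interior_subset (hth h1)
    exact h2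
  rw [eventually_nhdsWithin_iff]
  filter_upwards [gt_mem_nhds hδ] with r hr hr0
  exact hmem r hr0 hr

lemma strip1 {P : ℂ → Prop} (hloc : ∀ t : ℝ, ∀ᶠ w in 𝓝 (t : ℂ), P w)
    (hper : ∀ (w : ℂ) (m : ℤ), P (w + m) → P w) :
    ∀ᶠ r in 𝓝[>] (0 : ℝ), ∀ w : ℂ, |w.im| < r → P w := by
  have := strip2 (P := fun w _ => P w) (fun t t' => by
    have := (hloc t).prod_inl_nhds (t' : ℂ)
    exact this) (fun w _ m _ h => hper w m h)
  filter_upwards [this] with r hr w hw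
  exact hr w w hw hw

/-- The properties of the tubular neighbourhood of radius `r`. -/
structure Tube {n : ℕ} (γ : Fin n → ℝ → ℂ) (r : ℝ) : Prop where
  rpos : 0 < r
  det : ∀ k w, |w.im| < r → (fderiv ℝ (Ph (γ k)) w).det ≠ 0
  inj : ∀ k l w w', |w.im| < r → |w'.im| < r → Ph (γ k) w = Ph (γ l) w' →
    k = l ∧ ∃ m : ℤ, w' = w + m

variable {Ω : Set ℂ} {n : ℕ} {γ : Fin n → ℝ → ℂ}

lemma inj_mod (h : Curves Ω n γ) (k : Fin n) {t t' : ℝ} (e : γ k t = γ k t') :
    ∃ m : ℤ, t' = t + m := by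
  have h1 : γ k (Int.fract t) = γ k (Int.fract t') := by
    have a1 := per_int (h.per k) (-⌊t⌋) t
    have a2 := per_int (h.per k) (-⌊t'⌋) t'
    have b1 : t + ((-⌊t⌋ : ℤ) : ℝ) = Int.fract t := by
      rw [← Int.self_sub_floor]; push_cast; ring
    have b2 : t' + ((-⌊t'⌋ : ℤ) : ℝ) = Int.fract t' := by
      rw [← Int.self_sub_floor]; push_cast; ring
    rw [b1] at a1
    rw [b2] at a2
    rw [a1, a2, e]
  have h2 := h.inj k ⟨Int.fract_nonneg t, Int.fract_lt_one t⟩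
    ⟨Int.fract_nonneg t', Int.fract_lt_one t'⟩ h1
  refine ⟨⌊t'⌋ - ⌊t⌋, ?_⟩
  have h3 : t - ⌊t⌋ = t' - ⌊t'⌋ := h2
  push_cast
  linarith

lemma fderiv_Ph_per {g : ℝ → ℂ} (hp : Function.Periodic g 1) (w : ℂ) (m : ℤ) :
    fderiv ℝ (Ph g) (w + m) = fderiv ℝ (Ph g) w := by
  have : (fun x => Ph g (x + m)) = Ph g := funext fun x => Ph_per hp x m
  rw [← fderiv_comp_add_right, this]

lemma exists_tube (h : Curves Ω n γ) : ∀ᶠ r in 𝓝[>] (0 : ℝ), Tube γ r := by
  have h1 : ∀ k : Fin n, ∀ᶠ r in 𝓝[>] (0 : ℝ), ∀ w : ℂ, |w.im| < r →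
      (fderiv ℝ (Ph (γ k)) w).det ≠ 0 := by
    intro k
    apply strip1
    · intro t
      exact (continuous_det (h.analytic k)).continuousAt.eventually_ne
        (det_real (h.analytic k) (h.der k) t)
    · intro w m hw
      rwa [fderiv_Ph_per (h.per k)] at hw
  have h2 : ∀ k l : Fin n, ∀ᶠ r in 𝓝[>] (0 : ℝ), ∀ w w' : ℂ, |w.im| < r → |w'.im| < r →
      (Ph (γ k) w = Ph (γ l) w' → k = l ∧ ∃ m : ℤ, w' = w + m) := by
    intro k l
    apply strip2
    · intro t t'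
      have ck : Continuous (Ph (γ k)) := (contDiff_Ph (h.analytic k)).continuous
      have cl : Continuous (Ph (γ l)) := (contDiff_Ph (h.analytic l)).continuous
      by_cases e : γ k t = γ l t'
      · have hkl : k = l := by
          by_contra hne
          exact Set.disjoint_left.1 (h.disj k l hne) ⟨t, rfl⟩ ⟨t', e.symm⟩
        subst hkl
        obtain ⟨m, hm⟩ := inj_mod h k e
        obtain ⟨v, hv, hinj⟩ := loc_inj (h.analytic k) (det_real (h.analytic k) (h.der k) t')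
        have a1 : ∀ᶠ p : ℂ × ℂ in 𝓝 ((t : ℂ), (t' : ℂ)), p.1 + (m : ℂ) ∈ v := by
          have : Tendsto (fun p : ℂ × ℂ => p.1 + (m : ℂ)) (𝓝 ((t : ℂ), (t' : ℂ)))
              (𝓝 (t' : ℂ)) := by
            have c : Continuous (fun p : ℂ × ℂ => p.1 + (m : ℂ)) := by fun_prop
            have h3 := c.tendsto ((t : ℂ), (t' : ℂ))
            have h4 : (t' : ℂ) = (t : ℂ) + m := by rw [hm]; push_cast; rfl
            simp only at h3
            rwa [← h4] at h3
          exact this hv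
        have a2 : ∀ᶠ p : ℂ × ℂ in 𝓝 ((t : ℂ), (t' : ℂ)), p.2 ∈ v :=
          (continuous_snd.tendsto ((t : ℂ), (t' : ℂ))) hv
        filter_upwards [a1, a2] with p h1 h2 he
        refine ⟨rfl, m, ?_⟩
        have : Ph (γ k) (p.1 + m) = Ph (γ k) p.2 := by rw [Ph_per (h.per k)]; exact he
        exact (hinj h1 h2 this).symm
      · have c : Continuous (fun p : ℂ × ℂ => Ph (γ k) p.1 - Ph (γ l) p.2) :=
          (ck.comp continuous_fst).sub (cl.comp continuous_snd)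
        have hne : (fun p : ℂ × ℂ => Ph (γ k) p.1 - Ph (γ l) p.2) ((t : ℂ), (t' : ℂ)) ≠ 0 := by
          simp only [Ph_real]
          exact sub_ne_zero.2 e
        filter_upwards [c.continuousAt.eventually_ne hne] with p hp he
        exact absurd (sub_eq_zero.2 he) hp
    · intro w w' m m' hP he
      rw [Ph_per (h.per k), Ph_per (h.per l)] at hP
      obtain ⟨h1, j, hj⟩ := hP he
      refine ⟨h1, m + j - m', ?_⟩
      push_cast
      linear_combination hj
  have h1' := (eventually_all (ι := Fin n)).2 h1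
  have h2' := (eventually_all (ι := Fin n)).2 fun k => (eventually_all (ι := Fin n)).2 (h2 k)
  filter_upwards [h1', h2', self_mem_nhdsWithin] with r a b c
  exact ⟨c, a, b⟩

/-- the tubular neighbourhood -/
def U (γ : Fin n → ℝ → ℂ) (r : ℝ) : Set ℂ := {z | ∃ k w, |w.im| < r ∧ Ph (γ k) w = z}

open Classical in
/-- signed normal coordinate -/
noncomputable def sg (γ : Fin n → ℝ → ℂ) (r : ℝ) (z : ℂ) : ℝ :=
  if h : z ∈ U γ r then (h.choose_spec.choose).im else 0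

section tube
variable {r : ℝ} (T : Tube γ r) (h : Curves Ω n γ)
include T

lemma sg_Ph (k : Fin n) {w : ℂ} (hw : |w.im| < r) : sg γ r (Ph (γ k) w) = w.im := by
  have hm : Ph (γ k) w ∈ U γ r := ⟨k, w, hw, rfl⟩
  unfold sg
  rw [dif_pos hm]
  have h1 := hm.choose_spec.choose_spec
  obtain ⟨_, m, hm'⟩ := T.inj _ _ _ _ hw h1.1 h1.2.symm
  rw [hm']
  simp

include h

lemma loc_inv (k : Fin n) {w : ℂ} (hw : |w.im| < r) : ∃ g : ℂ → ℂ,
    ContDiffAt ℝ ∞ g (Ph (γ k) w) ∧ g (Ph (γ k) w) = w ∧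
      ∀ᶠ z in 𝓝 (Ph (γ k) w), Ph (γ k) (g z) = z := by
  have h0 := (contDiff_Ph (h.analytic k)).contDiffAt (x := w)
  have h1 := hasStrict_Ph (h.analytic k) w
  rw [← ContinuousLinearMap.coe_toContinuousLinearEquivOfDetNeZero _ (T.det k w hw)] at h1
  have hne : (∞ : WithTop ℕ∞) ≠ 0 := by simp
  refine ⟨h0.localInverse h1.hasFDerivAt hne, h0.to_localInverse h1.hasFDerivAt hne, ?_, ?_⟩
  · exact ContDiffAt.localInverse_apply_image h0 h1.hasFDerivAt hne
  · exact (h0.hasStrictFDerivAt' h1.hasFDerivAt hne).eventually_right_inverse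

lemma nhds_map (k : Fin n) {w : ℂ} (hw : |w.im| < r) :
    map (Ph (γ k)) (𝓝 w) = 𝓝 (Ph (γ k) w) := by
  have h1 := hasStrict_Ph (h.analytic k) w
  rw [← ContinuousLinearMap.coe_toContinuousLinearEquivOfDetNeZero _ (T.det k w hw)] at h1
  exact h1.map_nhds_eq_of_equiv

lemma isOpen_image (k : Fin n) {S : Set ℂ} (hS : IsOpen S) (hS' : ∀ w ∈ S, |w.im| < r) :
    IsOpen (Ph (γ k) '' S) := by
  rw [isOpen_iff_mem_nhds]
  rintro _ ⟨w, hw, rfl⟩
  rw [← nhds_map T h k (hS' w hw)]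
  exact image_mem_map (hS.mem_nhds hw)

lemma isOpen_U : IsOpen (U γ r) := by
  have : U γ r = ⋃ k, Ph (γ k) '' {w | |w.im| < r} := by
    ext z
    simp only [U, Set.mem_ofPred_eq, Set.mem_iUnion, Set.mem_image]
  rw [this]
  exact isOpen_iUnion fun k => isOpen_image T h k
    (isOpen_lt (continuous_im.abs) continuous_const) (fun w hw => hw)

lemma sg_contDiffAt {z : ℂ} (hz : z ∈ U γ r) : ContDiffAt ℝ ∞ (sg γ r) z := by
  obtain ⟨k, w, hw, rfl⟩ := hz
  obtain ⟨g, hg1, hg2, hg3⟩ := loc_inv T h k hw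
  have h1 : ContDiffAt ℝ ∞ (fun z => (g z).im) (Ph (γ k) w) :=
    imCLM.contDiff.contDiffAt.comp _ hg1
  refine h1.congr_of_eventuallyEq ?_
  have h2 : ∀ᶠ z in 𝓝 (Ph (γ k) w), |(g z).im| < r := by
    have c : ContinuousAt (fun z => |(g z).im|) (Ph (γ k) w) :=
      (continuous_im.continuousAt.comp hg1.continuousAt).abs
    apply c.eventually_lt continuousAt_const
    simp only [hg2]; exact hw
  filter_upwards [hg3, h2] with z h3 h4
  rw [← h3, sg_Ph T k h4, h3]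

/-- derivative of the normal coordinate on the curve -/
lemma fderiv_sg (k : Fin n) (t : ℝ) (v : ℂ) :
    fderiv ℝ (sg γ r) (γ k t) v = (v / deriv (γ k) t).im := by
  have h0 : |((t : ℂ)).im| < r := by simpa using T.rpos
  have hU : γ k t ∈ U γ r := ⟨k, t, h0, Ph_real _ _⟩
  have h1 : HasFDerivAt (sg γ r) (fderiv ℝ (sg γ r) (Ph (γ k) t)) (Ph (γ k) t) := by
    rw [Ph_real]
    exact ((sg_contDiffAt T h hU).differentiableAt (by simp)).hasFDerivAt
  have h2 := h1.comp (t : ℂ) (hasStrict_Ph (h.analytic k) t).hasFDerivAt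
  have h3 : HasFDerivAt (sg γ r ∘ Ph (γ k)) imCLM (t : ℂ) := by
    refine imCLM.hasFDerivAt.congr_of_eventuallyEq ?_
    have : ∀ᶠ w : ℂ in 𝓝 (t : ℂ), |w.im| < r :=
      (isOpen_lt (continuous_im.abs) continuous_const).mem_nhds h0
    filter_upwards [this] with w hw
    exact sg_Ph T k hw
  have h4 := h2.unique h3
  have h5 := congrArg (fun L : ℂ →L[ℝ] ℝ => L (v / deriv (γ k) t)) h4
  simp only [ContinuousLinearMap.comp_apply, fderiv_Ph_real (h.analytic k)] at h5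
  rw [div_mul_cancel₀ _ (h.der k t), Ph_real] at h5
  exact h5

end tube

end Pool.Agent.H761R2.SV.GeoT
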