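import Pool.Agent.H761R2.SV.Geo1

/-! The two sides of an analytic Jordan curve. -/

set_option autoImplicit false
set_option linter.unusedSectionVars false
open Complex MeasureTheory Filter Topology
open scoped ContDiff

namespace Pool.Agent.H761R2.SV.GeoT

open Pool.Agent.H761R2.SV

variable {Ω : Set ℂ} {n : ℕ} {γ : Fin n → ℝ → ℂ}

lemma two_le_inf : (2 : WithTop ℕ∞) ≤ ∞ := by
  have : ((2 : ℕ∞) : WithTop ℕ∞) ≤ ((⊤ : ℕ∞) : WithTop ℕ∞) := WithTop.coe_le_coe.2 le_top
  exact this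

lemma one_add_le_inf : (1 : WithTop ℕ∞) + 1 ≤ ∞ := by
  rw [one_add_one_eq_two]; exact two_le_inf

lemma mem_fr (h : Curves Ω n γ) (k : Fin n) (t : ℝ) : γ k t ∈ frontier Ω := by
  rw [h.fr]; exact Set.mem_iUnion.2 ⟨k, t, rfl⟩

lemma fr_exists (h : Curves Ω n γ) {z : ℂ} (hz : z ∈ frontier Ω) : ∃ k t, γ k t = z := by
  rw [h.fr] at hz
  obtain ⟨k, hk⟩ := Set.mem_iUnion.1 hz
  exact ⟨k, hk⟩

lemma pre_sub {S : Set ℂ} (hΩ : IsOpen Ω) (hS : IsPreconnected S)
    (hd : ∀ z ∈ S, z ∉ frontier Ω) (hne : (S ∩ Ω).Nonempty) : S ⊆ Ω := by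
  refine IsPreconnected.subset_left_of_subset_union (v := (closure Ω)ᶜ) hΩ
    isClosed_closure.isOpen_compl ?_ ?_ hne hS
  · exact Set.disjoint_compl_right_iff_subset.2 subset_closure
  · intro z hz
    by_cases hc : z ∈ closure Ω
    · left
      by_contra hz'
      exact hd z hz ⟨hc, by rwa [hΩ.interior_eq]⟩
    · right; exact hc

section tube
variable {r : ℝ} (T : Tube γ r) (h : Curves Ω n γ)
include T h

lemma fr_iff (k : Fin n) {w : ℂ} (hw : |w.im| < r) : Ph (γ k) w ∈ frontier Ω ↔ w.im = 0 := by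
  constructor
  · intro hf
    obtain ⟨l, t, e⟩ := fr_exists h hf
    rw [← Ph_real (γ l) t] at e
    obtain ⟨_, m, hm⟩ := T.inj l k _ _ (by simpa using T.rpos) hw e
    rw [hm]; simp
  · intro h0
    have : w = (w.re : ℂ) := by apply Complex.ext <;> simp [h0]
    rw [this, Ph_real]
    exact mem_fr h k _

lemma strip_side (k : Fin n) {a b : ℝ} (ha : -r ≤ a) (hb : b ≤ r)
    (h0 : ∀ x, a < x → x < b → x ≠ 0)
    {w₁ : ℂ} (hw₁ : a < w₁.im ∧ w₁.im < b) (hΩ₁ : Ph (γ k) w₁ ∈ Ω) {w : ℂ}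
    (hw : a < w.im ∧ w.im < b) : Ph (γ k) w ∈ Ω := by
  set S : Set ℂ := {w | a < w.im ∧ w.im < b} with hS
  have hconv : Convex ℝ S := by
    have : S = imCLM ⁻¹' (Set.Ioo a b) := rfl
    rw [this]
    exact (convex_Ioo a b).linear_preimage (imCLM : ℂ →ₗ[ℝ] ℝ)
  have hpre : IsPreconnected (Ph (γ k) '' S) :=
    hconv.isPreconnected.image _ (contDiff_Ph (h.analytic k)).continuous.continuousOn
  refine pre_sub h.isOpen hpre ?_ ⟨_, ⟨w₁, hw₁, rfl⟩, hΩ₁⟩ ⟨w, hw, rfl⟩
  rintro _ ⟨v, hv, rfl⟩ hf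
  have hvr : |v.im| < r := abs_lt.2 ⟨by linarith [hv.1], by linarith [hv.2]⟩
  rw [fr_iff T h k hvr] at hf
  exact h0 _ hv.1 hv.2 hf

lemma pos_side (k : Fin n) {w : ℂ} (hw0 : 0 < w.im) (hw : w.im < r) : Ph (γ k) w ∈ Ω := by
  have h1 := h.side k 0
  have h2 : ∀ᶠ ε : ℝ in 𝓝[>] (0 : ℝ), ε < r := nhdsWithin_le_nhds (gt_mem_nhds T.rpos)
  obtain ⟨ε, ⟨h3, h4⟩, h5⟩ := ((h1.and h2).and self_mem_nhdsWithin).exists
  have h6 : Ph (γ k) ((ε : ℂ) * I) ∈ Ω := by
    have : Ph (γ k) ((ε : ℂ) * I) = γ k 0 + (ε : ℂ) * I * deriv (γ k) 0 := by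
      simp [Ph]; ring
    rw [this]; exact h3
  refine strip_side T h k (a := 0) (b := r) (by linarith [T.rpos]) le_rfl
    (fun x hx _ => hx.ne') (w₁ := (ε : ℂ) * I) ?_ h6 ⟨hw0, hw⟩
  have h5' : 0 < ε := h5
  simp
  exact ⟨h5', h4⟩

/-- step function -/
noncomputable def chi (δ x : ℝ) : ℝ := Real.smoothTransition (x / (2 * δ) + 1 / 2)

omit T h in
lemma chi_contDiff (δ : ℝ) : ContDiff ℝ ∞ (chi δ) := by
  unfold chi
  exact Real.smoothTransition.contDiff.comp
    ((contDiff_id.div_const _).add contDiff_const)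

omit T h in
lemma chi_one {δ x : ℝ} (hδ : 0 < δ) (hx : δ ≤ x) : chi δ x = 1 := by
  unfold chi
  apply Real.smoothTransition.one_of_one_le
  have : 1 / 2 ≤ x / (2 * δ) := by
    rw [le_div_iff₀ (by positivity)]; linarith
  linarith

omit T h in
lemma chi_zero {δ x : ℝ} (hδ : 0 < δ) (hx : x ≤ -δ) : chi δ x = 0 := by
  unfold chi
  apply Real.smoothTransition.zero_of_nonpos
  have : x / (2 * δ) ≤ -(1 / 2) := by
    rw [div_le_iff₀ (by positivity)]; linarith
  linarith

/-- the closed tube of radius `δ` about the `k`-th curve is compact -/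
lemma isCompact_tube (k : Fin n) (a b : ℝ) :
    IsCompact (Ph (γ k) '' {w | a ≤ w.im ∧ w.im ≤ b}) := by
  have hc : Continuous (Ph (γ k)) := (contDiff_Ph (h.analytic k)).continuous
  have hK : IsCompact (Set.Icc (0 : ℝ) 1 ×ℂ Set.Icc a b) := isCompact_Icc.reProdIm isCompact_Icc
  have : Ph (γ k) '' {w | a ≤ w.im ∧ w.im ≤ b} = Ph (γ k) '' (Set.Icc (0 : ℝ) 1 ×ℂ Set.Icc a b) := by
    apply Set.Subset.antisymm
    · rintro _ ⟨w, hw, rfl⟩
      refine ⟨w + ((-⌊w.re⌋ : ℤ) : ℂ), ?_, Ph_per (h.per k) w _⟩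
      rw [mem_reProdIm]
      have hf := Int.self_sub_floor w.re
      constructor
      · have : (w + ((-⌊w.re⌋ : ℤ) : ℂ)).re = Int.fract w.re := by
          simp; linarith
        rw [this]
        exact ⟨Int.fract_nonneg _, (Int.fract_lt_one _).le⟩
      · simpa using hw
    · rintro _ ⟨w, hw, rfl⟩
      rw [mem_reProdIm] at hw
      exact ⟨w, hw.2, rfl⟩
  rw [this]
  exact hK.image hc

lemma neg_side (k : Fin n) {w : ℂ} (hw0 : w.im < 0) (hw : -r < w.im) : Ph (γ k) w ∉ Ω := by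
  classical
  intro hmem
  have hr := T.rpos
  have hneg : ∀ v : ℂ, v.im < 0 → -r < v.im → Ph (γ k) v ∈ Ω := fun v h1 h2 =>
    strip_side T h k (a := -r) (b := 0) le_rfl hr.le (fun x _ hx => hx.ne) ⟨hw, hw0⟩ hmem ⟨h2, h1⟩
  -- the two points
  set v₁ : ℂ := ((r / 2 : ℝ) : ℂ) * I with hv₁
  set v₂ : ℂ := ((-(r / 2) : ℝ) : ℂ) * I with hv₂
  have iv₁ : v₁.im = r / 2 := by simp [hv₁]
  have iv₂ : v₂.im = -(r / 2) := by simp [hv₂]
  have av₁ : |v₁.im| < r := by rw [iv₁, abs_of_pos (by linarith)]; linarith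
  have av₂ : |v₂.im| < r := by rw [iv₂, abs_neg, abs_of_pos (by linarith)]; linarith
  set z₁ := Ph (γ k) v₁ with hz₁
  set z₂ := Ph (γ k) v₂ with hz₂
  have m₁ : z₁ ∈ Ω := pos_side T h k (by rw [iv₁]; linarith) (by rw [iv₁]; linarith)
  have m₂ : z₂ ∈ Ω := hneg v₂ (by rw [iv₂]; linarith) (by rw [iv₂]; linarith)
  have hpc : IsPathConnected Ω := h.isOpen.isConnected_iff_isPathConnected.1 h.isConnected
  have hj : JoinedIn Ω z₂ z₁ := hpc.joinedIn z₂ m₂ z₁ m₁
  set p := hj.somePath with hp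
  have hpΩ : ∀ t, p t ∈ Ω := hj.somePath_mem
  have hKc : IsCompact (Set.range p) := isCompact_range p.continuous
  -- the path avoids a thin tube
  have h1 : ∀ᶠ r' in 𝓝[>] (0 : ℝ), ∀ w : ℂ, |w.im| < r' → Ph (γ k) w ∉ Set.range p := by
    apply strip1
    · intro t
      have hc : Continuous (Ph (γ k)) := (contDiff_Ph (h.analytic k)).continuous
      refine hc.continuousAt.eventually_mem (hKc.isClosed.isOpen_compl.mem_nhds ?_)
      rw [Ph_real]
      rintro ⟨s, hs⟩
      have a1 := hpΩ s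
      rw [hs] at a1
      have a2 := mem_fr h k t
      rw [h.isOpen.frontier_eq] at a2
      exact a2.2 a1
    · intro w m hw
      rwa [Ph_per (h.per k)] at hw
  have h2 : ∀ᶠ r' in 𝓝[>] (0 : ℝ), r' < r := nhdsWithin_le_nhds (gt_mem_nhds hr)
  obtain ⟨r', ⟨h3, h4⟩, h5⟩ := ((h1.and h2).and self_mem_nhdsWithin).exists
  have h5' : 0 < r' := h5
  set δ := r' / 2 with hδ
  have hδ0 : 0 < δ := by positivity
  have hδr : δ < r / 2 := by linarith
  -- the closed tube
  set C : Set ℂ := Ph (γ k) '' {w | -δ ≤ w.im ∧ w.im ≤ δ} with hC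
  have hCc : IsCompact C := isCompact_tube T h k _ _
  set Uk : Set ℂ := Ph (γ k) '' {w | |w.im| < r} with hUk
  have hUo : IsOpen Uk := isOpen_image T h k
    (isOpen_lt (continuous_im.abs) continuous_const) (fun w hw => hw)
  have hUU : Uk ⊆ U γ r := by
    rintro _ ⟨w, hw, rfl⟩
    exact ⟨k, w, hw, rfl⟩
  have hCU : C ⊆ Uk := by
    rintro _ ⟨w, hw, rfl⟩
    exact ⟨w, lt_of_le_of_lt (abs_le.2 hw) (by linarith), rfl⟩
  set u : ℂ → ℝ := fun z => chi δ (sg γ r z) with hu
  have hus : ∀ z ∈ Uk, ContDiffAt ℝ ∞ u z := fun z hz =>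
    (chi_contDiff δ).contDiffAt.comp z (sg_contDiffAt T h (hUU hz))
  set om : ℂ → ℂ →L[ℝ] ℝ := fun z => if z ∈ Uk then fderiv ℝ u z else 0 with hom
  -- off `C` the form vanishes
  have hom0 : ∀ z, z ∉ C → om z = 0 := by
    intro z hz
    by_cases hzU : z ∈ Uk
    · simp only [hom, if_pos hzU]
      have hev : ∃ c : ℝ, u =ᶠ[𝓝 z] fun _ => c := by
        obtain ⟨w, hw, rfl⟩ := hzU
        have hw' : ¬ (-δ ≤ w.im ∧ w.im ≤ δ) := fun hh => hz ⟨w, hh, rfl⟩
        have hcont : ContinuousAt (sg γ r) (Ph (γ k) w) :=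
          (sg_contDiffAt T h (hUU ⟨w, hw, rfl⟩)).continuousAt
        have hval := sg_Ph T k hw
        by_cases hlt : w.im < -δ
        · refine ⟨0, ?_⟩
          have : ∀ᶠ z in 𝓝 (Ph (γ k) w), sg γ r z < -δ :=
            hcont.eventually_lt continuousAt_const (by rw [hval]; exact hlt)
          filter_upwards [this] with z hz
          exact chi_zero hδ0 hz.le
        · have hgt : δ < w.im := by
            by_contra hcon
            exact hw' ⟨by linarith, by linarith⟩
          refine ⟨1, ?_⟩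
          have : ∀ᶠ z in 𝓝 (Ph (γ k) w), δ < sg γ r z :=
            continuousAt_const.eventually_lt hcont (by rw [hval]; exact hgt)
          filter_upwards [this] with z hz
          exact chi_one hδ0 hz.le
      obtain ⟨c, hc⟩ := hev
      rw [hc.fderiv_eq]
      simp
    · simp only [hom, if_neg hzU]
  have homU : ∀ z ∈ Uk, om =ᶠ[𝓝 z] fderiv ℝ u := by
    intro z hz
    filter_upwards [hUo.mem_nhds hz] with y hy
    simp only [hom, if_pos hy]
  have homC : ∀ z, z ∉ C → om =ᶠ[𝓝 z] fun _ => 0 := by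
    intro z hz
    filter_upwards [hCc.isClosed.isOpen_compl.mem_nhds hz] with y hy
    exact hom0 y hy
  have hcase : ∀ z, z ∈ Uk ∨ z ∉ C := fun z => by
    by_cases hz : z ∈ Uk
    · exact Or.inl hz
    · exact Or.inr fun hz' => hz (hCU hz')
  have hdiff : DifferentiableOn ℝ om Set.univ := by
    intro z _
    refine DifferentiableAt.differentiableWithinAt ?_
    rcases hcase z with hz | hz
    · rw [(homU z hz).differentiableAt_iff]
      exact ((hus z hz).fderiv_right (m := 1) one_add_le_inf).differentiableAt (by simp)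
    · rw [(homC z hz).differentiableAt_iff]
      exact differentiableAt_const _
  have hsymm : ∀ a ∈ (Set.univ : Set ℂ), ∀ x y : ℂ, fderiv ℝ om a x y = fderiv ℝ om a y x := by
    intro z _ x y
    rcases hcase z with hz | hz
    · rw [(homU z hz).fderiv_eq]
      exact ((hus z hz).isSymmSndFDerivAt (by rw [minSmoothness_of_isRCLikeNormedField]; exact two_le_inf)).eq x y
    · rw [(homC z hz).fderiv_eq]
      simp
  obtain ⟨F, hF⟩ := convex_univ.exists_forall_hasFDerivAt_of_fderiv_symmetric isOpen_univ hdiff hsymm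
  -- `F` is constant along the path
  have hFp : F z₂ = F z₁ := by
    have hloc : IsLocallyConstant (fun t => F (p t)) := by
      rw [IsLocallyConstant.iff_eventually_eq]
      intro t
      have hpt : p t ∈ Cᶜ := by
        rintro ⟨w, hw, e⟩
        exact h3 w (lt_of_le_of_lt (abs_le.2 hw) (by linarith)) ⟨t, e.symm⟩
      obtain ⟨ρ, hρ, hball⟩ := Metric.isOpen_iff.1 hCc.isClosed.isOpen_compl _ hpt
      have hconst : ∀ y ∈ Metric.ball (p t) ρ, F y = F (p t) := by
        intro y hy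
        refine Metric.isOpen_ball.is_const_of_fderiv_eq_zero (𝕜 := ℝ)
          (convex_ball _ _).isPreconnected ?_ ?_ hy (Metric.mem_ball_self hρ)
        · intro x _
          exact ((hF x trivial).differentiableAt).differentiableWithinAt
        · intro x hx
          rw [(hF x trivial).fderiv, hom0 x (hball hx)]
          rfl
      have := p.continuous.continuousAt.eventually_mem (Metric.ball_mem_nhds (p t) hρ)
      filter_upwards [this] with s hs
      exact hconst _ hs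
    have := hloc.apply_eq_of_isPreconnected isPreconnected_univ (Set.mem_univ (0 : unitInterval))
      (Set.mem_univ (1 : unitInterval))
    simpa using this
  -- `F - u` is constant on the tube
  have hGu : F z₁ - u z₁ = F z₂ - u z₂ := by
    have hconv : Convex ℝ {w : ℂ | |w.im| < r} := by
      have : {w : ℂ | |w.im| < r} = imCLM ⁻¹' (Set.Ioo (-r) r) := by
        ext w; simp [abs_lt]
      rw [this]
      exact (convex_Ioo _ _).linear_preimage (imCLM : ℂ →ₗ[ℝ] ℝ)
    have hpre : IsPreconnected Uk :=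
      hconv.isPreconnected.image _ (contDiff_Ph (h.analytic k)).continuous.continuousOn
    refine hUo.is_const_of_fderiv_eq_zero (𝕜 := ℝ) (f := fun z => F z - u z) hpre ?_ ?_
      ⟨v₁, av₁, rfl⟩ ⟨v₂, av₂, rfl⟩
    · intro x hx
      exact ((hF x trivial).differentiableAt.sub
        ((hus x hx).differentiableAt (by simp))).differentiableWithinAt
    · intro x hx
      have h6 := (hF x trivial).sub ((hus x hx).differentiableAt (by simp)).hasFDerivAt
      have h7 : fderiv ℝ (fun z => F z - u z) x = _ := h6.fderiv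
      rw [h7]
      simp only [hom, if_pos hx, sub_self]
      rfl
  have hu₁ : u z₁ = 1 := by
    simp only [hu, hz₁]
    rw [sg_Ph T k av₁, iv₁]
    exact chi_one hδ0 hδr.le
  have hu₂ : u z₂ = 0 := by
    simp only [hu, hz₂]
    rw [sg_Ph T k av₂, iv₂]
    exact chi_zero hδ0 (by linarith)
  rw [hFp, hu₁, hu₂] at hGu
  linarith

end tube

end Pool.Agent.H761R2.SV.GeoT
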