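import Pool.Agent.H761R2.SV.Geo2

/-! Cut-off functions. -/

set_option autoImplicit false
set_option linter.unusedSectionVars false
open Complex MeasureTheory Filter Topology
open scoped ContDiff

namespace Pool.Agent.H761R2.SV.GeoT

open Pool.Agent.H761R2.SV

/-- the profile -/
noncomputable def hh (x : ℝ) : ℝ := Real.smoothTransition (2 * x - 1 / 2)

lemma hh_contDiff {m : ℕ∞} : ContDiff ℝ m hh := by
  unfold hh
  exact Real.smoothTransition.contDiff.comp ((contDiff_const.mul contDiff_id).sub contDiff_const)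

lemma hh_zero {x : ℝ} (hx : x ≤ 1 / 4) : hh x = 0 :=
  Real.smoothTransition.zero_of_nonpos (by linarith)

lemma hh_one {x : ℝ} (hx : 3 / 4 ≤ x) : hh x = 1 :=
  Real.smoothTransition.one_of_one_le (by linarith)

lemma hh_nonneg (x : ℝ) : 0 ≤ hh x := Real.smoothTransition.nonneg _
lemma hh_le_one (x : ℝ) : hh x ≤ 1 := Real.smoothTransition.le_one _

lemma hh_mono : Monotone hh := fun x y hxy =>
  Real.smoothTransition.monotone (by linarith)

lemma hh_deriv_nonneg (x : ℝ) : 0 ≤ deriv hh x := hh_mono.deriv_nonneg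

lemma hh_hasDerivAt (x : ℝ) : HasDerivAt hh (deriv hh x) x :=
  ((hh_contDiff (m := 1)).differentiable (by simp)).differentiableAt.hasDerivAt

lemma hh_deriv_cont : Continuous (deriv hh) :=
  (hh_contDiff (m := 1)).continuous_deriv (by simp)

lemma hh_deriv_zero {x : ℝ} (hx : x ≤ 0) : deriv hh x = 0 := by
  have : hh =ᶠ[𝓝 x] fun _ => 0 := by
    filter_upwards [gt_mem_nhds (show x < 1 / 4 by linarith)] with y hy
    exact hh_zero hy.le
  rw [this.deriv_eq]; simp

variable {Ω : Set ℂ} {n : ℕ} {γ : Fin n → ℝ → ℂ}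

open Classical in
/-- the cut-off function -/
noncomputable def cut (Ω : Set ℂ) (γ : Fin n → ℝ → ℂ) (r e : ℝ) (z : ℂ) : ℝ :=
  if z ∈ U γ r then hh (sg γ r z / e) else if z ∈ Ω then 1 else 0

lemma cut_nonneg (r e : ℝ) (z : ℂ) : 0 ≤ cut Ω γ r e z := by
  unfold cut
  split_ifs
  · exact hh_nonneg _
  · norm_num
  · exact le_rfl

lemma cut_le_one (r e : ℝ) (z : ℂ) : cut Ω γ r e z ≤ 1 := by
  unfold cut
  split_ifs
  · exact hh_le_one _
  · exact le_rfl
  · norm_num

/-- closed tube -/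
def CT (γ : Fin n → ℝ → ℂ) (e : ℝ) : Set ℂ := {z | ∃ k w, |w.im| ≤ 3 / 4 * e ∧ Ph (γ k) w = z}

section tube
variable {r : ℝ} (T : Tube γ r) (h : Curves Ω n γ) {e : ℝ} (he : 0 < e) (her : e < r)
include T h he her

lemma cut_Ph (k : Fin n) {w : ℂ} (hw : |w.im| < r) :
    cut Ω γ r e (Ph (γ k) w) = hh (w.im / e) := by
  unfold cut
  rw [if_pos ⟨k, w, hw, rfl⟩, sg_Ph T k hw]

lemma isCompact_CT : IsCompact (CT γ e) := by
  have : CT γ e = ⋃ k, Ph (γ k) '' {w | -(3 / 4 * e) ≤ w.im ∧ w.im ≤ 3 / 4 * e} := by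
    ext z
    simp only [CT, Set.mem_ofPred_eq, Set.mem_iUnion, Set.mem_image, abs_le]
  rw [this]
  exact isCompact_iUnion fun k => isCompact_tube T h k _ _

lemma CT_sub : CT γ e ⊆ U γ r := by
  rintro _ ⟨k, w, hw, rfl⟩
  exact ⟨k, w, by linarith, rfl⟩

lemma fr_CT {z : ℂ} (hz : z ∈ frontier Ω) : z ∈ CT γ e := by
  obtain ⟨k, t, rfl⟩ := fr_exists h hz
  exact ⟨k, t, by simp; linarith, Ph_real _ _⟩

lemma side_of (k : Fin n) {w : ℂ} (hw : |w.im| < r) : Ph (γ k) w ∈ Ω ↔ 0 < w.im := by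
  obtain ⟨h1, h2⟩ := abs_lt.1 hw
  constructor
  · intro hm
    by_contra hcon
    push Not at hcon
    rcases hcon.lt_or_eq with h3 | h3
    · exact neg_side T h k h3 h1 hm
    · have := (fr_iff T h k hw).2 h3
      rw [h.isOpen.frontier_eq] at this
      exact this.2 hm
  · intro h3
    exact pos_side T h k h3 h2

lemma cut_locConst {z : ℂ} (hz : z ∉ CT γ e) : ∃ c : ℝ, cut Ω γ r e =ᶠ[𝓝 z] fun _ => c := by
  have hzf : z ∉ frontier Ω := fun hf => hz (fr_CT T h he her hf)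
  have hCo : (CT γ e)ᶜ ∈ 𝓝 z := (isCompact_CT T h he her).isClosed.isOpen_compl.mem_nhds hz
  by_cases hzΩ : z ∈ Ω
  · refine ⟨1, ?_⟩
    filter_upwards [hCo, h.isOpen.mem_nhds hzΩ] with y hy hyΩ
    by_cases hyU : y ∈ U γ r
    · obtain ⟨k, w, hw, rfl⟩ := hyU
      rw [cut_Ph T h he her k hw]
      have h1 : 0 < w.im := (side_of T h he her k hw).1 hyΩ
      have h2 : 3 / 4 * e < |w.im| := by
        by_contra hcon
        push Not at hcon
        exact hy ⟨k, w, hcon, rfl⟩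
      rw [abs_of_pos h1] at h2
      apply hh_one
      rw [le_div_iff₀ he]; linarith
    · unfold cut
      rw [if_neg hyU, if_pos hyΩ]
  · refine ⟨0, ?_⟩
    have hzc : z ∉ closure Ω := fun hc => hzf ⟨hc, by rwa [h.isOpen.interior_eq]⟩
    filter_upwards [isClosed_closure.isOpen_compl.mem_nhds hzc] with y hyc
    have hyΩ : y ∉ Ω := fun hy => hyc (subset_closure hy)
    by_cases hyU : y ∈ U γ r
    · obtain ⟨k, w, hw, rfl⟩ := hyU
      rw [cut_Ph T h he her k hw]
      have h1 : ¬ 0 < w.im := fun h1 => hyΩ ((side_of T h he her k hw).2 h1)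
      apply hh_zero
      have : w.im / e ≤ 0 := div_nonpos_of_nonpos_of_nonneg (by linarith) he.le
      linarith
    · unfold cut
      rw [if_neg hyU, if_neg hyΩ]

lemma cut_near {z : ℂ} (hz : z ∈ U γ r) :
    cut Ω γ r e =ᶠ[𝓝 z] fun z => hh (sg γ r z / e) := by
  filter_upwards [(isOpen_U T h).mem_nhds hz] with y hy
  unfold cut
  rw [if_pos hy]

lemma case_z (z : ℂ) : z ∈ U γ r ∨ z ∉ CT γ e := by
  by_cases hz : z ∈ U γ r
  · exact Or.inl hz
  · exact Or.inr fun hz' => hz (CT_sub T h he her hz')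

lemma cut_contDiff : ContDiff ℝ ∞ (cut Ω γ r e) := by
  rw [contDiff_iff_contDiffAt]
  intro z
  rcases case_z T h he her z with hz | hz
  · refine ContDiffAt.congr_of_eventuallyEq ?_ (cut_near T h he her hz)
    exact hh_contDiff.contDiffAt.comp z ((sg_contDiffAt T h hz).div_const e)
  · obtain ⟨c, hc⟩ := cut_locConst T h he her hz
    exact contDiffAt_const.congr_of_eventuallyEq hc

lemma cut_tsupport : tsupport (cut Ω γ r e) ⊆ Ω := by
  set D : Set ℂ := ⋃ k, Ph (γ k) '' {w | |w.im| < 1 / 4 * e} with hD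
  have hDo : IsOpen D := isOpen_iUnion fun k => isOpen_image T h k
    (isOpen_lt (continuous_im.abs) continuous_const) (fun w hw => by
      have : |w.im| < 1 / 4 * e := hw
      linarith)
  have hsupp : Function.support (cut Ω γ r e) ⊆ Ω ∩ Dᶜ := by
    intro z hz
    rw [Function.mem_support] at hz
    by_cases hzU : z ∈ U γ r
    · obtain ⟨k, w, hw, rfl⟩ := hzU
      rw [cut_Ph T h he her k hw] at hz
      have h1 : 1 / 4 * e < w.im := by
        by_contra hcon
        push Not at hcon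
        apply hz
        apply hh_zero
        rw [div_le_iff₀ he]; exact hcon
      refine ⟨(side_of T h he her k hw).2 (by linarith), ?_⟩
      intro hmem
      obtain ⟨l, w', hw', e'⟩ := Set.mem_iUnion.1 hmem
      have hw'' : |w'.im| < 1 / 4 * e := hw'
      obtain ⟨_, m, hm⟩ := T.inj l k w' w (by linarith) hw e'
      have h2 : w.im = w'.im := by rw [hm]; simp
      rw [h2] at h1
      have := (abs_lt.1 hw'').2
      linarith
    · have hzΩ : z ∈ Ω := by
        by_contra hcon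
        apply hz
        unfold cut
        rw [if_neg hzU, if_neg hcon]
      refine ⟨hzΩ, fun hmem => hzU ?_⟩
      obtain ⟨l, w', hw', rfl⟩ := Set.mem_iUnion.1 hmem
      have hw'' : |w'.im| < 1 / 4 * e := hw'
      exact ⟨l, w', by linarith, rfl⟩
  intro z hz
  have h1 : z ∈ closure (Ω ∩ Dᶜ) := closure_mono hsupp hz
  have h2 : z ∈ closure Ω := closure_mono Set.inter_subset_left h1
  have h3 : z ∈ Dᶜ := by
    have := closure_mono Set.inter_subset_right h1
    rwa [hDo.isClosed_compl.closure_eq] at this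
  by_contra hzΩ
  have hf : z ∈ frontier Ω := ⟨h2, by rwa [h.isOpen.interior_eq]⟩
  obtain ⟨k, t, rfl⟩ := fr_exists h hf
  apply h3
  refine Set.mem_iUnion.2 ⟨k, t, ?_, Ph_real _ _⟩
  show |((t : ℂ)).im| < 1 / 4 * e
  simp; linarith

lemma cut_eq_one {ε M : ℝ} (hM : ∀ k t, ‖deriv (γ k) t‖ ≤ M) (heM : e * M < ε) {z : ℂ}
    (hz : z ∈ Ω) (hd : ∀ y ∈ frontier Ω, ε ≤ dist z y) : cut Ω γ r e z = 1 := by
  by_cases hzU : z ∈ U γ r
  · obtain ⟨k, w, hw, rfl⟩ := hzU
    rw [cut_Ph T h he her k hw]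
    apply hh_one
    have h1 := (side_of T h he her k hw).1 hz
    by_contra hcon
    push Not at hcon
    rw [div_lt_iff₀ he] at hcon
    have h2 := hd _ (mem_fr h k w.re)
    have h3 : dist (Ph (γ k) w) (γ k w.re) ≤ e * M := by
      rw [dist_eq, Ph, add_sub_cancel_left, norm_mul, norm_mul, norm_I, one_mul, norm_real,
        Real.norm_eq_abs, abs_of_pos h1]
      exact mul_le_mul (by linarith) (hM k _) (norm_nonneg _) he.le
    linarith
  · unfold cut
    rw [if_neg hzU, if_pos hz]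

/-- gradient of the cut-off near the curves -/
lemma dbarR_cut {z : ℂ} (hz : z ∈ U γ r) :
    dbarR (cut Ω γ r e) z = ((deriv hh (sg γ r z / e) / e : ℝ) : ℂ) * dbarR (sg γ r) z := by
  have h1 : HasFDerivAt (sg γ r) (fderiv ℝ (sg γ r) z) z :=
    ((sg_contDiffAt T h hz).differentiableAt (by simp)).hasFDerivAt
  have h2 : HasFDerivAt (fun z => sg γ r z / e) (e⁻¹ • fderiv ℝ (sg γ r) z) z := by
    have := h1.mul_const e⁻¹
    simpa [div_eq_mul_inv] using this
  have h3 := (hh_hasDerivAt (sg γ r z / e)).comp_hasFDerivAt z h2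
  have h4 : fderiv ℝ (cut Ω γ r e) z = deriv hh (sg γ r z / e) • e⁻¹ • fderiv ℝ (sg γ r) z := by
    rw [(cut_near T h he her hz).fderiv_eq]
    exact h3.fderiv
  unfold dbarR
  rw [h4]
  simp only [_root_.smul_apply, smul_eq_mul]
  push_cast
  ring

lemma dbarR_cut_zero {z : ℂ} (hz : z ∉ CT γ e) : dbarR (cut Ω γ r e) z = 0 := by
  obtain ⟨c, hc⟩ := cut_locConst T h he her hz
  unfold dbarR
  rw [hc.fderiv_eq]
  simp

/-- where the gradient does not vanish -/
lemma dbarR_ne {z : ℂ} (hz : dbarR (cut Ω γ r e) z ≠ 0) :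
    ∃ k w, 0 < w.im ∧ w.im < e ∧ 0 ≤ w.re ∧ w.re < 1 ∧ Ph (γ k) w = z := by
  have hC : z ∈ CT γ e := by
    by_contra hcon
    exact hz (dbarR_cut_zero T h he her hcon)
  obtain ⟨k, w, hw, rfl⟩ := hC
  have hwr : |w.im| < r := by linarith
  rw [dbarR_cut T h he her ⟨k, w, hwr, rfl⟩, sg_Ph T k hwr] at hz
  have h1 : 0 < w.im := by
    by_contra hcon
    push Not at hcon
    apply hz
    rw [hh_deriv_zero (div_nonpos_of_nonpos_of_nonneg hcon he.le)]
    simp
  rw [abs_of_pos h1] at hw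
  have hf := Int.self_sub_floor w.re
  have hre : (w + ((-⌊w.re⌋ : ℤ) : ℂ)).re = Int.fract w.re := by
    simp; linarith
  have him : (w + ((-⌊w.re⌋ : ℤ) : ℂ)).im = w.im := by simp
  refine ⟨k, w + ((-⌊w.re⌋ : ℤ) : ℂ), ?_, ?_, ?_, ?_, Ph_per (h.per k) w _⟩
  · rw [him]; exact h1
  · rw [him]; linarith
  · rw [hre]; exact Int.fract_nonneg _
  · rw [hre]; exact Int.fract_lt_one _

end tube

/-- continuity of `dbarR` of the normal coordinate -/
lemma dbarR_sg_cont {r : ℝ} (T : Tube γ r) (h : Curves Ω n γ) {z : ℂ} (hz : z ∈ U γ r) :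
    ContinuousAt (dbarR (sg γ r)) z := by
  have h1 := (sg_contDiffAt T h hz).continuousAt_fderiv (by simp)
  unfold dbarR
  have h2 : ContinuousAt (fun z => fderiv ℝ (sg γ r) z 1) z := h1.clm_apply continuousAt_const
  have h3 : ContinuousAt (fun z => fderiv ℝ (sg γ r) z I) z := h1.clm_apply continuousAt_const
  have h2' : ContinuousAt (fun z => ((fderiv ℝ (sg γ r) z 1 : ℝ) : ℂ)) z :=
    continuous_ofReal.continuousAt.comp h2
  have h3' : ContinuousAt (fun z => ((fderiv ℝ (sg γ r) z I : ℝ) : ℂ)) z :=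
    continuous_ofReal.continuousAt.comp h3
  exact (h2'.add (continuousAt_const.mul h3')).div_const 2

lemma dbarR_sg_curve {r : ℝ} (T : Tube γ r) (h : Curves Ω n γ) (k : Fin n) (t : ℝ) :
    dbarR (sg γ r) (γ k t) = ((1 / (2 * ‖deriv (γ k) t‖) : ℝ) : ℂ) *
      (I * deriv (γ k) t / (‖deriv (γ k) t‖ : ℂ)) := by
  unfold dbarR
  rw [fderiv_sg T h, fderiv_sg T h]
  set d := deriv (γ k) t with hd
  have hd0 : d ≠ 0 := h.der k t
  have hn : (‖d‖ : ℂ) ≠ 0 := by exact_mod_cast norm_ne_zero_iff.2 hd0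
  have h1 : (((1 / d).im : ℝ) : ℂ) + I * (((I / d).im : ℝ) : ℂ) = I * (starRingEnd ℂ) (1 / d) := by
    have : (I / d).im = (1 / d).re := by
      rw [div_eq_mul_one_div]; simp
    rw [this]
    apply Complex.ext <;> simp [neg_div]
  rw [h1, map_div₀, map_one]
  have h2 : (starRingEnd ℂ) d * d = (‖d‖ : ℂ) ^ 2 := by
    rw [mul_comm, mul_conj, normSq_eq_norm_sq]; push_cast; rfl
  have hc0 : (starRingEnd ℂ) d ≠ 0 := by simpa using hd0
  push_cast
  field_simp
  rw [mul_comm, ← h2]; ring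

/-- the direction estimate -/
lemma dir_est {r : ℝ} (T : Tube γ r) (h : Curves Ω n γ) {ε : ℝ} (hε : 0 < ε) :
    ∀ᶠ e in 𝓝[>] (0 : ℝ), ∀ k, ∀ w : ℂ, |w.im| < e →
      ‖dbarR (sg γ r) (Ph (γ k) w) - (‖dbarR (sg γ r) (Ph (γ k) w)‖ : ℂ) *
        (I * deriv (γ k) w.re / (‖deriv (γ k) w.re‖ : ℂ))‖ ≤
        ε * ‖dbarR (sg γ r) (Ph (γ k) w)‖ := by
  rw [eventually_all]
  intro k
  apply strip1
  · intro t
    have hU : Ph (γ k) (t : ℂ) ∈ U γ r := ⟨k, t, by simpa using T.rpos, rfl⟩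
    have hA : ContinuousAt (fun w => dbarR (sg γ r) (Ph (γ k) w)) (t : ℂ) :=
      ContinuousAt.comp (dbarR_sg_cont T h hU)
        (contDiff_Ph (h.analytic k)).continuous.continuousAt
    have hdc : Continuous (deriv (γ k)) := ((h.analytic k).contDiff (n := 1)).continuous_deriv
      (by simp)
    have hD : ContinuousAt (fun w : ℂ => I * deriv (γ k) w.re / (‖deriv (γ k) w.re‖ : ℂ))
        (t : ℂ) := by
      have h1 : Continuous (fun w : ℂ => deriv (γ k) w.re) := hdc.comp continuous_re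
      apply ContinuousAt.div
      · exact (continuous_const.mul h1).continuousAt
      · exact (continuous_ofReal.comp h1.norm).continuousAt
      · simpa using h.der k t
    have hN : ContinuousAt (fun w => ((‖dbarR (sg γ r) (Ph (γ k) w)‖ : ℝ) : ℂ)) (t : ℂ) :=
      continuous_ofReal.continuousAt.comp hA.norm
    have hL : ContinuousAt (fun w : ℂ => ‖dbarR (sg γ r) (Ph (γ k) w) -
        ((‖dbarR (sg γ r) (Ph (γ k) w)‖ : ℝ) : ℂ) *
          (I * deriv (γ k) w.re / (‖deriv (γ k) w.re‖ : ℂ))‖) (t : ℂ) :=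
      (hA.sub (hN.mul hD)).norm
    have hR : ContinuousAt (fun w => ε * ‖dbarR (sg γ r) (Ph (γ k) w)‖) (t : ℂ) :=
      continuousAt_const.mul hA.norm
    have hval := dbarR_sg_curve T h k t
    have hd0 : deriv (γ k) t ≠ 0 := h.der k t
    have hn0 : 0 < ‖deriv (γ k) t‖ := norm_pos_iff.2 hd0
    have hdir : ‖I * deriv (γ k) t / (‖deriv (γ k) t‖ : ℂ)‖ = 1 := by
      rw [norm_div, norm_mul, norm_I, one_mul, norm_real, norm_norm, div_self hn0.ne']
    have hnorm : ‖dbarR (sg γ r) (γ k t)‖ = 1 / (2 * ‖deriv (γ k) t‖) := by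
      rw [hval, norm_mul, hdir, mul_one, norm_real, Real.norm_of_nonneg (by positivity)]
    have hlt := hL.eventually_lt hR (by
      simp only [Ph_real, ofReal_re]
      rw [hnorm, hval, sub_self, norm_zero]
      positivity)
    filter_upwards [hlt] with w hw
    exact hw.le
  · intro w m hw
    rw [Ph_per (h.per k)] at hw
    have : (w + (m : ℂ)).re = w.re + m := by simp
    rw [this, per_deriv_int (h.per k)] at hw
    exact hw

/-- bound for the speed -/
lemma exists_speed (h : Curves Ω n γ) : ∃ M : ℝ, 0 ≤ M ∧ ∀ k t, ‖deriv (γ k) t‖ ≤ M := by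
  have h1 : ∀ k, ∃ C, ∀ t ∈ Set.Icc (0 : ℝ) 1, ‖deriv (γ k) t‖ ≤ C := fun k =>
    isCompact_Icc.exists_bound_of_continuousOn
      (((h.analytic k).contDiff (n := 1)).continuous_deriv (by simp)).continuousOn
  choose C hC using h1
  have hC0 : ∀ k, 0 ≤ C k := fun k =>
    le_trans (norm_nonneg _) (hC k 0 ⟨le_rfl, zero_le_one⟩)
  refine ⟨∑ k, C k, Finset.sum_nonneg fun k _ => hC0 k, fun k t => ?_⟩
  have h2 := hC k (Int.fract t) ⟨Int.fract_nonneg t, (Int.fract_lt_one t).le⟩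
  have h3 : deriv (γ k) (Int.fract t) = deriv (γ k) t := by
    have := per_deriv_int (h.per k) (-⌊t⌋) t
    have b1 : t + ((-⌊t⌋ : ℤ) : ℝ) = Int.fract t := by
      rw [← Int.self_sub_floor]; push_cast; ring
    rwa [b1] at this
  rw [h3] at h2
  exact h2.trans (Finset.single_le_sum (f := C) (fun k _ => hC0 k) (Finset.mem_univ k))

end Pool.Agent.H761R2.SV.GeoT
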