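import Pool.Agent.H761R2.SV.W

set_option autoImplicit false
open Matrix Finset Complex
open scoped ComplexConjugate

namespace Pool.Agent.H761R2.SV

section
variable {ι : Type} [Fintype ι] [DecidableEq ι]

/-- pairwise disjointness of the four sets -/
def GoodP (P : Finset (ι ⊕ ι) × Finset (ι ⊕ ι)) : Prop :=
  Disjoint P.1.toLeft P.1.toRight ∧ Disjoint P.2.toLeft P.2.toRight ∧
  Disjoint P.1.toLeft P.2.toLeft ∧ Disjoint P.1.toLeft P.2.toRight ∧
  Disjoint P.1.toRight P.2.toLeft ∧ Disjoint P.1.toRight P.2.toRight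

noncomputable instance : DecidablePred (GoodP (ι := ι)) := fun _ => Classical.dec _

/-- forward map -/
def fwd (x : (_ : Finset ι) × (Finset ι × Finset ι)) : Finset (ι ⊕ ι) × Finset (ι ⊕ ι) :=
  ((x.2.1 ∩ x.2.2).disjSum (x.1 \ (x.2.1 ∪ x.2.2)), (x.2.1 \ x.2.2).disjSum (x.2.2 \ x.2.1))

/-- backward map -/
def bwd (P : Finset (ι ⊕ ι) × Finset (ι ⊕ ι)) : (_ : Finset ι) × (Finset ι × Finset ι) :=
  ⟨P.1.toLeft ∪ P.1.toRight ∪ P.2.toLeft ∪ P.2.toRight,
    (P.1.toLeft ∪ P.2.toLeft, P.1.toLeft ∪ P.2.toRight)⟩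

omit [Fintype ι] in
lemma fwd_bwd (P : Finset (ι ⊕ ι) × Finset (ι ⊕ ι)) (hP : GoodP P) : fwd (bwd P) = P := by
  obtain ⟨P1, P2⟩ := P
  simp only [GoodP, Finset.disjoint_left, Finset.mem_toLeft, Finset.mem_toRight] at hP
  obtain ⟨h1, h2, h3, h4, h5, h6⟩ := hP
  simp only [bwd, fwd]
  refine Prod.ext ?_ ?_
  · ext x
    rcases x with x | x
    · have := @h2 x; have := @h3 x; have := @h4 x
      simp only [inl_mem_disjSum, mem_inter, mem_union, Finset.mem_toLeft, Finset.mem_toRight]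
      tauto
    · have := @h1 x; have := @h5 x; have := @h6 x
      simp only [inr_mem_disjSum, mem_sdiff, mem_union, Finset.mem_toLeft, Finset.mem_toRight]
      tauto
  · ext x
    rcases x with x | x
    · have := @h2 x; have := @h3 x; have := @h4 x
      simp only [inl_mem_disjSum, mem_sdiff, mem_union, Finset.mem_toLeft, Finset.mem_toRight]
      tauto
    · have := @h2 x; have := @h3 x; have := @h4 x
      simp only [inr_mem_disjSum, mem_sdiff, mem_union, Finset.mem_toLeft, Finset.mem_toRight]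
      tauto

omit [Fintype ι] in
lemma bwd_fwd (S A A' : Finset ι) (hA : A ⊆ S) (hA' : A' ⊆ S) : bwd (fwd ⟨S, (A, A')⟩) = ⟨S, (A, A')⟩ := by
  simp only [bwd, fwd, Finset.toLeft_disjSum, Finset.toRight_disjSum]
  have e1 : A ∩ A' ∪ S \ (A ∪ A') ∪ A \ A' ∪ A' \ A = S := by
    ext x
    have := @hA x; have := @hA' x
    simp only [mem_sdiff, mem_inter, mem_union]
    tauto
  have e2 : A ∩ A' ∪ A \ A' = A := by
    ext x
    simp only [mem_sdiff, mem_inter, mem_union]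
    tauto
  have e3 : A ∩ A' ∪ A' \ A = A' := by
    ext x
    simp only [mem_sdiff, mem_inter, mem_union]
    tauto
  rw [e1, e2, e3]

lemma sum_good {M : Type*} [AddCommMonoid M] (f : Finset (ι ⊕ ι) × Finset (ι ⊕ ι) → M) :
    ∑ P with GoodP P, f P =
      ∑ S : Finset ι, ∑ p ∈ S.powerset ×ˢ S.powerset, f (fwd ⟨S, p⟩) := by
  rw [Finset.sum_sigma' univ (fun S : Finset ι => S.powerset ×ˢ S.powerset)
    (fun S p => f (fwd ⟨S, p⟩))]
  refine Finset.sum_bij' (fun P _ => bwd P) (fun x _ => fwd x) ?_ ?_ ?_ ?_ ?_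
  · intro P _
    simp only [bwd, mem_sigma, mem_univ, mem_product, mem_powerset, true_and]
    constructor
    · intro x; simp only [mem_union]; tauto
    · intro x; simp only [mem_union]; tauto
  · intro x hx
    simp only [mem_sigma, mem_univ, mem_product, mem_powerset, true_and] at hx
    rw [Finset.mem_filter]
    refine ⟨Finset.mem_univ _, ?_⟩
    simp only [GoodP, fwd, Finset.toLeft_disjSum, Finset.toRight_disjSum]
    refine ⟨?_, ?_, ?_, ?_, ?_, ?_⟩ <;> rw [Finset.disjoint_left] <;> intro y <;>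
      simp only [mem_sdiff, mem_inter, mem_union] <;> tauto
  · intro P hP
    exact fwd_bwd P (Finset.mem_filter.1 hP).2
  · rintro ⟨S, A, A'⟩ hx
    simp only [mem_sigma, mem_univ, mem_product, mem_powerset, true_and] at hx
    exact bwd_fwd S A A' hx.1 hx.2
  · intro P hP
    have := fwd_bwd P (Finset.mem_filter.1 hP).2
    show f P = f (fwd (bwd P))
    rw [this]

/-- abstract negativity -/
lemma good_abs (w : Finset ι → ℝ) (hw : ∀ S, 0 ≤ w S)
    (W1 W2 : Finset ι → Finset ι → ℝ) (τ1 τ2 : Finset ι → Finset ι → ℂ)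
    (c : Finset ι → Finset ι → ℝ) (U : Finset ι → Finset ι → ℂ)
    (hc : ∀ S A A' : Finset ι, A ⊆ S → A' ⊆ S → c A (S \ A) * c A' (S \ A') =
      W1 (A ∩ A') (S \ (A ∪ A')) * W2 (A \ A') (A' \ A))
    (h1 : ∀ S A A' : Finset ι, A ⊆ S → A' ⊆ S → U A (S \ A) * U A' (S \ A') =
      τ1 (A ∩ A') (S \ (A ∪ A')))
    (h2 : ∀ S A A' : Finset ι, A ⊆ S → A' ⊆ S → U A (S \ A) * conj (U A' (S \ A')) =
      τ2 (A \ A') (A' \ A)) :
    ∑ P : Finset (ι ⊕ ι) × Finset (ι ⊕ ι) with GoodP P,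
      w (P.1.toLeft ∪ P.1.toRight ∪ P.2.toLeft ∪ P.2.toRight) *
      (W1 P.1.toLeft P.1.toRight * W2 P.2.toLeft P.2.toRight *
        (τ1 P.1.toLeft P.1.toRight - τ2 P.2.toLeft P.2.toRight).re) ≤ 0 := by
  rw [sum_good]
  refine Finset.sum_nonpos fun S _ => ?_
  set H : ℂ := ∑ A ∈ S.powerset, (c A (S \ A) : ℂ) * U A (S \ A) with hH
  have key : ∑ p ∈ S.powerset ×ˢ S.powerset,
      w ((fwd ⟨S, p⟩).1.toLeft ∪ (fwd ⟨S, p⟩).1.toRight ∪ (fwd ⟨S, p⟩).2.toLeft ∪ (fwd ⟨S, p⟩).2.toRight) *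
      (W1 (fwd ⟨S, p⟩).1.toLeft (fwd ⟨S, p⟩).1.toRight * W2 (fwd ⟨S, p⟩).2.toLeft (fwd ⟨S, p⟩).2.toRight *
        (τ1 (fwd ⟨S, p⟩).1.toLeft (fwd ⟨S, p⟩).1.toRight -
          τ2 (fwd ⟨S, p⟩).2.toLeft (fwd ⟨S, p⟩).2.toRight).re) = w S * (H * H - H * conj H).re := by
    have e1 : H * H - H * conj H = ∑ p ∈ S.powerset ×ˢ S.powerset,
        ((c p.1 (S \ p.1) * c p.2 (S \ p.2) : ℝ) : ℂ) *
          (U p.1 (S \ p.1) * U p.2 (S \ p.2) - U p.1 (S \ p.1) * conj (U p.2 (S \ p.2))) := by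
      rw [hH, map_sum, Finset.sum_mul_sum, Finset.sum_mul_sum, ← Finset.sum_product',
        ← Finset.sum_product', ← Finset.sum_sub_distrib]
      refine Finset.sum_congr rfl fun p _ => ?_
      rw [map_mul, Complex.conj_ofReal]
      push_cast
      ring
    rw [e1, Complex.re_sum, Finset.mul_sum]
    refine Finset.sum_congr rfl fun p hp => ?_
    obtain ⟨A, A'⟩ := p
    simp only [mem_product, mem_powerset] at hp
    have e2 := bwd_fwd S A A' hp.1 hp.2
    have e3 : (fwd ⟨S, (A, A')⟩).1.toLeft ∪ (fwd ⟨S, (A, A')⟩).1.toRight ∪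
      (fwd ⟨S, (A, A')⟩).2.toLeft ∪ (fwd ⟨S, (A, A')⟩).2.toRight = S := congrArg Sigma.fst e2
    rw [e3, Complex.re_ofReal_mul, hc S A A' hp.1 hp.2, h1 S A A' hp.1 hp.2, h2 S A A' hp.1 hp.2]
    simp only [fwd, Finset.toLeft_disjSum, Finset.toRight_disjSum]
  rw [key]
  refine mul_nonpos_of_nonneg_of_nonpos (hw S) ?_
  rw [Complex.sub_re, Complex.mul_re, Complex.mul_re, Complex.conj_re, Complex.conj_im]
  nlinarith [sq_nonneg H.im]

end

end Pool.Agent.H761R2.SV
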