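import Pool.Agent.H761R2.SV.Good

set_option autoImplicit false
open Matrix Finset Complex
open scoped ComplexConjugate

namespace Pool.Agent.H761R2.SV

section
variable {V : Type} [Fintype V] [DecidableEq V]

lemma W_eq' (y : V → ℂ) (hy : Function.Injective y) (A B : Finset V) (hAB : Disjoint A B) :
    W y A B = if ∑ v, sg A B v = 0 then Real.exp (Qs y (sg A B)) else 0 := by
  rw [W_eq y hy A B hAB]
  congr 1
  rw [sum_sg, sub_eq_zero, Nat.cast_inj]

omit [DecidableEq V] in
lemma Qs_par (y : V → ℂ) (σ₁ σ₂ : V → ℝ) :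
    Qs y (fun v => σ₁ v + σ₂ v) + Qs y (fun v => σ₁ v - σ₂ v) = 2 * Qs y σ₁ + 2 * Qs y σ₂ := by
  simp only [Qs, Finset.mul_sum, ← Finset.sum_add_distrib]
  refine Finset.sum_congr rfl fun u _ => Finset.sum_congr rfl fun v _ => ?_
  ring

lemma core (y : V → ℂ) (hy : Function.Injective y) (a : V) (S A A' : Finset V) (ha : a ∉ S)
    (hA : A ⊆ S) (hA' : A' ⊆ S) :
    Real.sqrt (W y (insert a A) (S \ A)) * Real.sqrt (W y (insert a A') (S \ A')) =
      W y (insert a (A ∩ A')) (S \ (A ∪ A')) * W y (A \ A') (A' \ A) := by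
  have d1 : ∀ A : Finset V, A ⊆ S → Disjoint (insert a A) (S \ A) := by
    intro A hA
    rw [Finset.disjoint_left]
    intro x hx hx'
    rw [mem_sdiff] at hx'
    rcases Finset.mem_insert.1 hx with rfl | h
    · exact ha hx'.1
    · exact hx'.2 h
  have d2 : Disjoint (insert a (A ∩ A')) (S \ (A ∪ A')) := by
    rw [Finset.disjoint_left]
    intro x hx hx'
    rw [mem_sdiff, mem_union] at hx'
    rcases Finset.mem_insert.1 hx with rfl | h
    · exact ha hx'.1
    · rw [mem_inter] at h; tauto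
  have d3 : Disjoint (A \ A') (A' \ A) := by
    rw [Finset.disjoint_left]
    intro x hx hx'
    rw [mem_sdiff] at hx' hx
    tauto
  rw [W_eq' y hy _ _ (d1 A hA), W_eq' y hy _ _ (d1 A' hA'), W_eq' y hy _ _ d2, W_eq' y hy _ _ d3]
  set σ₁ := sg (insert a (A ∩ A')) (S \ (A ∪ A')) with hσ₁
  set σ₂ := sg (A \ A') (A' \ A) with hσ₂
  have e1 : sg (insert a A) (S \ A) = fun v => σ₁ v + σ₂ v := by
    funext v
    have h1 := @hA v
    have h2 := @hA' v
    simp only [hσ₁, hσ₂, sg, mem_insert, mem_sdiff, mem_inter, mem_union]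
    by_cases hva : v = a
    · subst hva
      have h3 : v ∉ A := fun h => ha (h1 h)
      have h4 : v ∉ A' := fun h => ha (h2 h)
      simp [h3, h4, ha]
    · by_cases h3 : v ∈ A <;> by_cases h4 : v ∈ A' <;> by_cases h5 : v ∈ S <;>
        simp_all
  have e2 : sg (insert a A') (S \ A') = fun v => σ₁ v - σ₂ v := by
    funext v
    have h1 := @hA v
    have h2 := @hA' v
    simp only [hσ₁, hσ₂, sg, mem_insert, mem_sdiff, mem_inter, mem_union]
    by_cases hva : v = a
    · subst hva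
      have h3 : v ∉ A := fun h => ha (h1 h)
      have h4 : v ∉ A' := fun h => ha (h2 h)
      simp [h3, h4, ha]
    · by_cases h3 : v ∈ A <;> by_cases h4 : v ∈ A' <;> by_cases h5 : v ∈ S <;>
        simp_all
  rw [e1, e2, Finset.sum_add_distrib, Finset.sum_sub_distrib]
  have h3 := Qs_par y σ₁ σ₂
  by_cases s1 : ∑ v, σ₁ v = 0
  · by_cases s2 : ∑ v, σ₂ v = 0
    · rw [if_pos (by rw [s1, s2]; ring), if_pos (by rw [s1, s2]; ring), if_pos s1, if_pos s2,
        ← Real.exp_half, ← Real.exp_half, ← Real.exp_add, ← Real.exp_add]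
      congr 1
      linarith
    · rw [if_neg (by rw [s1, zero_add]; exact s2), if_neg s2]
      simp
  · rw [if_neg s1, zero_mul]
    by_cases s3 : ∑ v, σ₁ v + ∑ v, σ₂ v = 0
    · rw [if_neg (c := ∑ v, σ₁ v - ∑ v, σ₂ v = 0) (by intro h; apply s1; linarith)]
      simp
    · rw [if_neg s3]; simp

end

section
variable {ι : Type} [Fintype ι] [DecidableEq ι]

/-- the phase product -/
noncomputable def Uf {V : Type} (u : V → ℂ) (A B : Finset V) : ℂ := (∏ v ∈ A, u v) * ∏ v ∈ B, conj (u v)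

lemma Uf_eq {V : Type} [Fintype V] [DecidableEq V] (u : V → ℂ) (A B : Finset V) :
    Uf u A B = ∏ v, ((if v ∈ A then u v else 1) * (if v ∈ B then conj (u v) else 1)) := by
  rw [Uf, Finset.prod_mul_distrib, Fintype.prod_ite_mem, Fintype.prod_ite_mem]

lemma Uf_mul {V : Type} [Fintype V] [DecidableEq V] (u : V → ℂ) (hu : ∀ v, u v * conj (u v) = 1)
    (a : V) (S A A' : Finset V) (ha : a ∉ S) (hA : A ⊆ S) (hA' : A' ⊆ S) :
    Uf u (insert a A) (S \ A) * Uf u (insert a A') (S \ A') =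
      Uf (fun v => u v ^ 2) (insert a (A ∩ A')) (S \ (A ∪ A')) := by
  rw [Uf_eq, Uf_eq, Uf_eq, ← Finset.prod_mul_distrib]
  refine Finset.prod_congr rfl fun v _ => ?_
  have h1 := @hA v
  have h2 := @hA' v
  have h6 := hu v
  simp only [mem_insert, mem_sdiff, mem_inter, mem_union]
  by_cases hva : v = a
  · subst hva
    have h3 : v ∉ A := fun h => ha (h1 h)
    have h4 : v ∉ A' := fun h => ha (h2 h)
    simp [h3, h4, ha, sq]
  · by_cases h3 : v ∈ A <;> by_cases h4 : v ∈ A' <;> by_cases h5 : v ∈ S <;>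
      simp_all [sq]
    rw [mul_comm]; exact hu v

lemma Uf_mul_conj {V : Type} [Fintype V] [DecidableEq V] (u : V → ℂ) (hu : ∀ v, u v * conj (u v) = 1)
    (a : V) (S A A' : Finset V) (ha : a ∉ S) (hA : A ⊆ S) (hA' : A' ⊆ S) :
    Uf u (insert a A) (S \ A) * conj (Uf u (insert a A') (S \ A')) =
      Uf (fun v => u v ^ 2) (A \ A') (A' \ A) := by
  rw [Uf_eq, Uf_eq, Uf_eq, map_prod, ← Finset.prod_mul_distrib]
  refine Finset.prod_congr rfl fun v _ => ?_
  have h1 := @hA v
  have h2 := @hA' v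
  have h6 := hu v
  have h7 : conj (u v) * u v = 1 := by rw [mul_comm]; exact h6
  simp only [mem_insert, mem_sdiff]
  by_cases hva : v = a
  · subst hva
    have h3 : v ∉ A := fun h => ha (h1 h)
    have h4 : v ∉ A' := fun h => ha (h2 h)
    simp [h3, h4, ha, h6]
  · by_cases h3 : v ∈ A <;> by_cases h4 : v ∈ A' <;> by_cases h5 : v ∈ S <;>
      simp_all [sq]

lemma good_neg (y : ι ⊕ Fin 3 → ℂ) (hy : Function.Injective y) (u : ι ⊕ Fin 3 → ℂ)
    (hu : ∀ v, u v * conj (u v) = 1) (w : Finset ι → ℝ) (hw : ∀ S, 0 ≤ w S) (a : ι ⊕ Fin 3)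
    (ha : ∀ i, a ≠ Sum.inl i) :
    ∑ P : Finset (ι ⊕ ι) × Finset (ι ⊕ ι) with GoodP P,
      w (P.1.toLeft ∪ P.1.toRight ∪ P.2.toLeft ∪ P.2.toRight) *
      (W y (insert a (P.1.toLeft.map .inl)) (P.1.toRight.map .inl) *
        W y (P.2.toLeft.map .inl) (P.2.toRight.map .inl) *
        (Uf (fun v => u v ^ 2) (insert a (P.1.toLeft.map .inl)) (P.1.toRight.map .inl)
          - Uf (fun v => u v ^ 2) (P.2.toLeft.map .inl) (P.2.toRight.map .inl)).re) ≤ 0 := by
  have haS : ∀ S : Finset ι, a ∉ S.map (.inl : ι ↪ ι ⊕ Fin 3) := by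
    intro S h
    obtain ⟨i, _, hi⟩ := Finset.mem_map.1 h
    exact ha i hi.symm
  refine good_abs w hw (fun A B => W y (insert a (A.map .inl)) (B.map .inl))
    (fun A B => W y (A.map .inl) (B.map .inl))
    (fun A B => Uf (fun v => u v ^ 2) (insert a (A.map .inl)) (B.map .inl))
    (fun A B => Uf (fun v => u v ^ 2) (A.map .inl) (B.map .inl))
    (fun A B => Real.sqrt (W y (insert a (A.map .inl)) (B.map .inl)))
    (fun A B => Uf u (insert a (A.map .inl)) (B.map .inl)) ?_ ?_ ?_
  · intro S A A' hA hA'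
    have := core y hy a (S.map .inl) (A.map .inl) (A'.map .inl) (haS S)
      (Finset.map_subset_map.2 hA) (Finset.map_subset_map.2 hA')
    simp only [Finset.map_sdiff, Finset.map_inter, Finset.map_union]
    exact this
  · intro S A A' hA hA'
    have := Uf_mul u hu a (S.map .inl) (A.map .inl) (A'.map .inl) (haS S)
      (Finset.map_subset_map.2 hA) (Finset.map_subset_map.2 hA')
    simp only [Finset.map_sdiff, Finset.map_inter, Finset.map_union]
    exact this
  · intro S A A' hA hA'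
    have := Uf_mul_conj u hu a (S.map .inl) (A.map .inl) (A'.map .inl) (haS S)
      (Finset.map_subset_map.2 hA) (Finset.map_subset_map.2 hA')
    simp only [Finset.map_sdiff]
    exact this

end

end Pool.Agent.H761R2.SV
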