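import Pool.Agent.H761R2.SV.Defs

set_option autoImplicit false
open Matrix Finset

namespace Pool.Agent.H761R2.SV

section
variable {n R : Type*} [Fintype n] [DecidableEq n] [CommRing R]

/-- Expansion of `det (diagonal d + M)` into principal minors of `M`. -/
theorem det_diag_add (d : n → R) (M : Matrix n n R) :
    det (diagonal d + M) =
      ∑ s : Finset n, (∏ i ∈ sᶜ, d i) * (M.submatrix (↑) (↑) : Matrix s s R).det := by
  have h0 : det (diagonal d + M) = (detRowAlternating : (n → R) [⋀^n]→ₗ[R] R)
      ((fun i => M i) + fun i => d i • (fun j => (1 : Matrix n n R) i j)) := by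
    show (detRowAlternating : (n → R) [⋀^n]→ₗ[R] R) _ = _
    congr 1
    ext i j
    simp [diagonal_apply, add_comm, one_apply]
  rw [h0, AlternatingMap.map_add_univ]
  refine Finset.sum_congr rfl fun s _ => ?_
  have h1 : s.piecewise (fun i => M i) (fun i => d i • (fun j => (1 : Matrix n n R) i j)) =
      fun i => (if i ∈ s then (1 : R) else d i) •
        s.piecewise (fun i => M i) (fun i => (fun j => (1 : Matrix n n R) i j)) i := by
    funext i
    by_cases hi : i ∈ s
    · simp [Finset.piecewise, hi]
    · simp [Finset.piecewise, hi]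
  rw [h1, AlternatingMap.map_smul_univ]
  have h2 : (∏ i, if i ∈ s then (1 : R) else d i) = ∏ i ∈ sᶜ, d i := by
    rw [← Finset.prod_mul_prod_compl s]
    rw [Finset.prod_congr rfl (g := fun _ => (1 : R)) (fun i hi => by simp [hi]), Finset.prod_const_one,
      one_mul]
    exact Finset.prod_congr rfl fun i hi => by simp [Finset.mem_compl.1 hi]
  rw [h2, smul_eq_mul]
  congr 1
  exact det_piecewise_one_eq_submatrix_det M s

end

end Pool.Agent.H761R2.SV
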