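import Pool.Agent.H761R2.SV.Good2

set_option autoImplicit false
open Matrix Finset Complex
open scoped ComplexConjugate

namespace Pool.Agent.H761R2.SV

section
variable {ι : Type} [Fintype ι] [DecidableEq ι]

/-- control of a nonnegative set function -/
structure Mass (f : Finset (ι ⊕ ι) → ℝ) (Z : ℝ) (ρ : ι → ℝ) : Prop where
  nn : ∀ S, 0 ≤ f S
  tot : ∑ S, f S ≤ Z
  oneL : ∀ i, ∑ S with Sum.inl i ∈ S, f S ≤ ρ i * Z
  oneR : ∀ i, ∑ S with Sum.inr i ∈ S, f S ≤ ρ i * Z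
  two : ∀ i, ∑ S with Sum.inl i ∈ S ∧ Sum.inr i ∈ S, f S ≤ ρ i * ρ i * Z

lemma Mass.avg {f g : Finset (ι ⊕ ι) → ℝ} {Z : ℝ} {ρ : ι → ℝ} (hf : Mass f Z ρ) (hg : Mass g Z ρ) :
    Mass (fun S => (f S + g S) / 2) Z ρ := by
  constructor
  · intro S; have := hf.nn S; have := hg.nn S; positivity
  · rw [← Finset.sum_div, Finset.sum_add_distrib]; linarith [hf.tot, hg.tot]
  · intro i; rw [← Finset.sum_div, Finset.sum_add_distrib]; linarith [hf.oneL i, hg.oneL i]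
  · intro i; rw [← Finset.sum_div, Finset.sum_add_distrib]; linarith [hf.oneR i, hg.oneR i]
  · intro i; rw [← Finset.sum_div, Finset.sum_add_distrib]; linarith [hf.two i, hg.two i]

lemma Mass.mono {f g : Finset (ι ⊕ ι) → ℝ} {Z : ℝ} {ρ : ι → ℝ} (hf : Mass f Z ρ)
    (hg : ∀ S, 0 ≤ g S) (h : ∀ S, g S ≤ f S) : Mass g Z ρ := by
  constructor
  · exact hg
  · exact (Finset.sum_le_sum fun S _ => h S).trans hf.tot
  · intro i; exact (Finset.sum_le_sum fun S _ => h S).trans (hf.oneL i)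
  · intro i; exact (Finset.sum_le_sum fun S _ => h S).trans (hf.oneR i)
  · intro i; exact (Finset.sum_le_sum fun S _ => h S).trans (hf.two i)

lemma sum_prod_filter (f g : Finset (ι ⊕ ι) → ℝ) (p q : Finset (ι ⊕ ι) → Prop) [DecidablePred p]
    [DecidablePred q] :
    ∑ P : Finset (ι ⊕ ι) × Finset (ι ⊕ ι), (if p P.1 ∧ q P.2 then f P.1 * g P.2 else 0) =
      (∑ S with p S, f S) * ∑ S with q S, g S := by
  rw [Finset.sum_filter, Finset.sum_filter, Finset.sum_mul_sum, ← Finset.univ_product_univ,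
    Finset.sum_product]
  refine Finset.sum_congr rfl fun S _ => Finset.sum_congr rfl fun T _ => ?_
  by_cases h1 : p S <;> by_cases h2 : q T <;> simp [h1, h2]

lemma bad_le {f g : Finset (ι ⊕ ι) → ℝ} {Z : ℝ} {ρ : ι → ℝ} (hf : Mass f Z ρ) (hg : Mass g Z ρ)
    (hZ : 0 ≤ Z) (hρ : ∀ i, 0 ≤ ρ i) :
    ∑ P with ¬ GoodP P, f P.1 * g P.2 ≤ 6 * (∑ i, ρ i ^ 2) * Z ^ 2 := by
  classical
  have hnn : ∀ P : Finset (ι ⊕ ι) × Finset (ι ⊕ ι), 0 ≤ f P.1 * g P.2 := fun P =>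
    mul_nonneg (hf.nn _) (hg.nn _)
  have h1 : ∀ P : Finset (ι ⊕ ι) × Finset (ι ⊕ ι), (if ¬ GoodP P then f P.1 * g P.2 else 0) ≤
      ∑ i : ι, ((if (Sum.inl i ∈ P.1 ∧ Sum.inr i ∈ P.1) ∧ True then f P.1 * g P.2 else 0) +
        (if True ∧ (Sum.inl i ∈ P.2 ∧ Sum.inr i ∈ P.2) then f P.1 * g P.2 else 0) +
        (if Sum.inl i ∈ P.1 ∧ Sum.inl i ∈ P.2 then f P.1 * g P.2 else 0) +
        (if Sum.inl i ∈ P.1 ∧ Sum.inr i ∈ P.2 then f P.1 * g P.2 else 0) +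
        (if Sum.inr i ∈ P.1 ∧ Sum.inl i ∈ P.2 then f P.1 * g P.2 else 0) +
        (if Sum.inr i ∈ P.1 ∧ Sum.inr i ∈ P.2 then f P.1 * g P.2 else 0)) := by
    intro P
    have h0 : ∀ (c : Prop) [Decidable c], 0 ≤ (if c then f P.1 * g P.2 else 0) := by
      intro c _
      split_ifs
      · exact hnn P
      · exact le_refl _
    have hterm : ∀ i : ι, 0 ≤ ((if (Sum.inl i ∈ P.1 ∧ Sum.inr i ∈ P.1) ∧ True then f P.1 * g P.2 else 0) +
        (if True ∧ (Sum.inl i ∈ P.2 ∧ Sum.inr i ∈ P.2) then f P.1 * g P.2 else 0) +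
        (if Sum.inl i ∈ P.1 ∧ Sum.inl i ∈ P.2 then f P.1 * g P.2 else 0) +
        (if Sum.inl i ∈ P.1 ∧ Sum.inr i ∈ P.2 then f P.1 * g P.2 else 0) +
        (if Sum.inr i ∈ P.1 ∧ Sum.inl i ∈ P.2 then f P.1 * g P.2 else 0) +
        (if Sum.inr i ∈ P.1 ∧ Sum.inr i ∈ P.2 then f P.1 * g P.2 else 0)) := by
      intro i
      have := h0 ((Sum.inl i ∈ P.1 ∧ Sum.inr i ∈ P.1) ∧ True)
      have := h0 (True ∧ (Sum.inl i ∈ P.2 ∧ Sum.inr i ∈ P.2))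
      have := h0 (Sum.inl i ∈ P.1 ∧ Sum.inl i ∈ P.2)
      have := h0 (Sum.inl i ∈ P.1 ∧ Sum.inr i ∈ P.2)
      have := h0 (Sum.inr i ∈ P.1 ∧ Sum.inl i ∈ P.2)
      have := h0 (Sum.inr i ∈ P.1 ∧ Sum.inr i ∈ P.2)
      linarith
    by_cases hP : GoodP P
    · rw [if_neg (not_not.2 hP)]
      exact Finset.sum_nonneg fun i _ => hterm i
    · rw [if_pos hP]
      have h2 : ∃ i : ι, (Sum.inl i ∈ P.1 ∧ Sum.inr i ∈ P.1) ∨ (Sum.inl i ∈ P.2 ∧ Sum.inr i ∈ P.2) ∨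
          (Sum.inl i ∈ P.1 ∧ Sum.inl i ∈ P.2) ∨ (Sum.inl i ∈ P.1 ∧ Sum.inr i ∈ P.2) ∨
          (Sum.inr i ∈ P.1 ∧ Sum.inl i ∈ P.2) ∨ (Sum.inr i ∈ P.1 ∧ Sum.inr i ∈ P.2) := by
        by_contra hcon
        push Not at hcon
        apply hP
        simp only [GoodP, Finset.disjoint_left, Finset.mem_toLeft, Finset.mem_toRight]
        exact ⟨fun i h h' => (hcon i).1 h h', fun i h h' => (hcon i).2.1 h h',
          fun i h h' => (hcon i).2.2.1 h h', fun i h h' => (hcon i).2.2.2.1 h h',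
          fun i h h' => (hcon i).2.2.2.2.1 h h', fun i h h' => (hcon i).2.2.2.2.2 h h'⟩
      obtain ⟨i, hi⟩ := h2
      refine le_trans ?_ (Finset.single_le_sum (fun i _ => hterm i) (Finset.mem_univ i))
      have a1 := h0 ((Sum.inl i ∈ P.1 ∧ Sum.inr i ∈ P.1) ∧ True)
      have a2 := h0 (True ∧ (Sum.inl i ∈ P.2 ∧ Sum.inr i ∈ P.2))
      have a3 := h0 (Sum.inl i ∈ P.1 ∧ Sum.inl i ∈ P.2)
      have a4 := h0 (Sum.inl i ∈ P.1 ∧ Sum.inr i ∈ P.2)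
      have a5 := h0 (Sum.inr i ∈ P.1 ∧ Sum.inl i ∈ P.2)
      have a6 := h0 (Sum.inr i ∈ P.1 ∧ Sum.inr i ∈ P.2)
      rcases hi with h | h | h | h | h | h
      · have : (if (Sum.inl i ∈ P.1 ∧ Sum.inr i ∈ P.1) ∧ True then f P.1 * g P.2 else 0) =
          f P.1 * g P.2 := if_pos ⟨h, trivial⟩
        linarith
      · have : (if True ∧ (Sum.inl i ∈ P.2 ∧ Sum.inr i ∈ P.2) then f P.1 * g P.2 else 0) =
          f P.1 * g P.2 := if_pos ⟨trivial, h⟩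
        linarith
      · have : (if Sum.inl i ∈ P.1 ∧ Sum.inl i ∈ P.2 then f P.1 * g P.2 else 0) =
          f P.1 * g P.2 := if_pos h
        linarith
      · have : (if Sum.inl i ∈ P.1 ∧ Sum.inr i ∈ P.2 then f P.1 * g P.2 else 0) =
          f P.1 * g P.2 := if_pos h
        linarith
      · have : (if Sum.inr i ∈ P.1 ∧ Sum.inl i ∈ P.2 then f P.1 * g P.2 else 0) =
          f P.1 * g P.2 := if_pos h
        linarith
      · have : (if Sum.inr i ∈ P.1 ∧ Sum.inr i ∈ P.2 then f P.1 * g P.2 else 0) =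
          f P.1 * g P.2 := if_pos h
        linarith
  rw [Finset.sum_filter]
  refine (Finset.sum_le_sum fun P _ => h1 P).trans ?_
  rw [Finset.sum_comm, Finset.mul_sum, Finset.sum_mul]
  refine Finset.sum_le_sum fun i _ => ?_
  simp only [Finset.sum_add_distrib]
  have hF0 : 0 ≤ ∑ S, f S := Finset.sum_nonneg fun S _ => hf.nn S
  have hG0 : 0 ≤ ∑ S, g S := Finset.sum_nonneg fun S _ => hg.nn S
  have hfl : 0 ≤ ∑ S with Sum.inl i ∈ S, f S := Finset.sum_nonneg fun S _ => hf.nn S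
  have hfr : 0 ≤ ∑ S with Sum.inr i ∈ S, f S := Finset.sum_nonneg fun S _ => hf.nn S
  have hgl : 0 ≤ ∑ S with Sum.inl i ∈ S, g S := Finset.sum_nonneg fun S _ => hg.nn S
  have hgr : 0 ≤ ∑ S with Sum.inr i ∈ S, g S := Finset.sum_nonneg fun S _ => hg.nn S
  have hf2 : 0 ≤ ∑ S with Sum.inl i ∈ S ∧ Sum.inr i ∈ S, f S := Finset.sum_nonneg fun S _ => hf.nn S
  have hg2 : 0 ≤ ∑ S with Sum.inl i ∈ S ∧ Sum.inr i ∈ S, g S := Finset.sum_nonneg fun S _ => hg.nn S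
  have e1 : ∑ P : Finset (ι ⊕ ι) × Finset (ι ⊕ ι),
      (if (Sum.inl i ∈ P.1 ∧ Sum.inr i ∈ P.1) ∧ True then f P.1 * g P.2 else 0) ≤ ρ i ^ 2 * Z ^ 2 := by
    rw [sum_prod_filter f g (fun S => Sum.inl i ∈ S ∧ Sum.inr i ∈ S) (fun _ => True)]
    rw [Finset.filter_true_of_mem (s := (univ : Finset (Finset (ι ⊕ ι)))) (p := fun _ => True)
      (fun _ _ => trivial)]
    calc _ ≤ (ρ i * ρ i * Z) * Z := mul_le_mul (hf.two i) hg.tot hG0 (by have := hρ i; positivity)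
      _ = _ := by ring
  have e2 : ∑ P : Finset (ι ⊕ ι) × Finset (ι ⊕ ι),
      (if True ∧ (Sum.inl i ∈ P.2 ∧ Sum.inr i ∈ P.2) then f P.1 * g P.2 else 0) ≤ ρ i ^ 2 * Z ^ 2 := by
    rw [sum_prod_filter f g (fun _ => True) (fun S => Sum.inl i ∈ S ∧ Sum.inr i ∈ S)]
    rw [Finset.filter_true_of_mem (s := (univ : Finset (Finset (ι ⊕ ι)))) (p := fun _ => True)
      (fun _ _ => trivial)]
    calc _ ≤ Z * (ρ i * ρ i * Z) := mul_le_mul hf.tot (hg.two i) hg2 hZ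
      _ = _ := by ring
  have e3 : ∑ P : Finset (ι ⊕ ι) × Finset (ι ⊕ ι),
      (if Sum.inl i ∈ P.1 ∧ Sum.inl i ∈ P.2 then f P.1 * g P.2 else 0) ≤ ρ i ^ 2 * Z ^ 2 := by
    rw [sum_prod_filter f g (fun S => Sum.inl i ∈ S) (fun S => Sum.inl i ∈ S)]
    calc _ ≤ (ρ i * Z) * (ρ i * Z) := mul_le_mul (hf.oneL i) (hg.oneL i) hgl
          (by have := hρ i; positivity)
      _ = _ := by ring
  have e4 : ∑ P : Finset (ι ⊕ ι) × Finset (ι ⊕ ι),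
      (if Sum.inl i ∈ P.1 ∧ Sum.inr i ∈ P.2 then f P.1 * g P.2 else 0) ≤ ρ i ^ 2 * Z ^ 2 := by
    rw [sum_prod_filter f g (fun S => Sum.inl i ∈ S) (fun S => Sum.inr i ∈ S)]
    calc _ ≤ (ρ i * Z) * (ρ i * Z) := mul_le_mul (hf.oneL i) (hg.oneR i) hgr
          (by have := hρ i; positivity)
      _ = _ := by ring
  have e5 : ∑ P : Finset (ι ⊕ ι) × Finset (ι ⊕ ι),
      (if Sum.inr i ∈ P.1 ∧ Sum.inl i ∈ P.2 then f P.1 * g P.2 else 0) ≤ ρ i ^ 2 * Z ^ 2 := by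
    rw [sum_prod_filter f g (fun S => Sum.inr i ∈ S) (fun S => Sum.inl i ∈ S)]
    calc _ ≤ (ρ i * Z) * (ρ i * Z) := mul_le_mul (hf.oneR i) (hg.oneL i) hgl
          (by have := hρ i; positivity)
      _ = _ := by ring
  have e6 : ∑ P : Finset (ι ⊕ ι) × Finset (ι ⊕ ι),
      (if Sum.inr i ∈ P.1 ∧ Sum.inr i ∈ P.2 then f P.1 * g P.2 else 0) ≤ ρ i ^ 2 * Z ^ 2 := by
    rw [sum_prod_filter f g (fun S => Sum.inr i ∈ S) (fun S => Sum.inr i ∈ S)]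
    calc _ ≤ (ρ i * Z) * (ρ i * Z) := mul_le_mul (hf.oneR i) (hg.oneR i) hgr
          (by have := hρ i; positivity)
      _ = _ := by ring
  linarith

end

end Pool.Agent.H761R2.SV
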