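import Pool.Agent.H761R2.SV.Mass
import Pool.Agent.H761R2.SV.Dress

set_option autoImplicit false
open Matrix Finset Complex
open scoped ComplexConjugate

namespace Pool.Agent.H761R2.SV

section
variable {κ : Type} [Fintype κ] [DecidableEq κ]

lemma mix_le (r c : κ → Bool × ℂ) (h : ∀ k, (r k).1 = (c k).1) :
    ‖det (entM r c)‖ ≤ ((det (entM (fun k => if (r k).1 then r k else c k)
        (fun k => if (r k).1 then r k else c k))).re +
      (det (entM (fun k => if (r k).1 then c k else r k)
        (fun k => if (r k).1 then c k else r k))).re) / 2 := by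
  classical
  let e : {k // (r k).1 = true} ⊕ {k // ¬ (r k).1 = true} ≃ κ := Equiv.sumCompl _
  have h1 := det_entM_le (fun k : {k // (r k).1 = true} => (r k).2) (fun k : {k // (r k).1 = true} => (c k).2)
    (fun k : {k // ¬ (r k).1 = true} => (r k).2) (fun k : {k // ¬ (r k).1 = true} => (c k).2)
  have e1 : lab (fun k : {k // (r k).1 = true} => (r k).2) (fun k : {k // ¬ (r k).1 = true} => (r k).2) =
      r ∘ e := by
    funext k
    rcases k with ⟨k, hk⟩ | ⟨k, hk⟩
    · refine Prod.ext ?_ ?_ <;> simp [lab, e, hk]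
    · refine Prod.ext ?_ ?_ <;> simp [lab, e, hk]
  have e2 : lab (fun k : {k // (r k).1 = true} => (c k).2) (fun k : {k // ¬ (r k).1 = true} => (c k).2) =
      c ∘ e := by
    funext k
    rcases k with ⟨k, hk⟩ | ⟨k, hk⟩
    · refine Prod.ext ?_ ?_ <;> simp [lab, e, ← h, hk]
    · refine Prod.ext ?_ ?_ <;> simp [lab, e, ← h, hk]
  have e3 : lab (fun k : {k // (r k).1 = true} => (r k).2) (fun k : {k // ¬ (r k).1 = true} => (c k).2) =
      (fun k => if (r k).1 then r k else c k) ∘ e := by
    funext k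
    rcases k with ⟨k, hk⟩ | ⟨k, hk⟩
    · refine Prod.ext ?_ ?_ <;> simp [lab, e, hk]
    · refine Prod.ext ?_ ?_ <;> simp [lab, e, ← h, hk]
  have e4 : lab (fun k : {k // (r k).1 = true} => (c k).2) (fun k : {k // ¬ (r k).1 = true} => (r k).2) =
      (fun k => if (r k).1 then c k else r k) ∘ e := by
    funext k
    rcases k with ⟨k, hk⟩ | ⟨k, hk⟩
    · refine Prod.ext ?_ ?_ <;> simp [lab, e, ← h, hk]
    · refine Prod.ext ?_ ?_ <;> simp [lab, e, hk]
  rw [e1, e2, E2, E2, Lam, Lam, e3, e4, det_entM_equiv, det_entM_equiv, det_entM_equiv] at h1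
  exact h1

lemma norm_det_perm (r c : κ → Bool × ℂ) (σ : Equiv.Perm κ) :
    ‖det (entM r (c ∘ σ))‖ = ‖det (entM r c)‖ := by
  have h1 : entM r (c ∘ σ) = (entM r c).submatrix id σ := rfl
  rw [h1, Matrix.det_permute', norm_mul]
  rcases Int.units_eq_one_or (Equiv.Perm.sign σ) with h | h <;> simp [h]

end

end Pool.Agent.H761R2.SV
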