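import Pool.Agent.H761R2.SV.Sys

set_option autoImplicit false
open Matrix Finset Complex MeasureTheory Filter Topology
open scoped ComplexConjugate

namespace Pool.Agent.H761R2.SV

lemma exists_D {g : ℂ → ℝ} {e : ℂ} (he : e ∉ tsupport g) :
    ∃ D : ℝ, 0 ≤ D ∧ ∀ z, g z ≠ 0 → ‖(e - z)⁻¹‖ ≤ D := by
  obtain ⟨r, hr, hb⟩ := Metric.isOpen_iff.1 (isClosed_tsupport g).isOpen_compl e he
  refine ⟨r⁻¹, by positivity, fun z hz => ?_⟩
  have h1 : ¬ dist z e < r := fun h => (hb h) (subset_tsupport g hz)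
  rw [not_lt, dist_comm, dist_eq_norm] at h1
  rw [norm_inv]
  exact inv_anti₀ hr h1

lemma D2_small {g : ℂ → ℝ} (hg : Continuous g) (hg0 : ∀ z, 0 ≤ g z) (hgc : HasCompactSupport g)
    (a b c : ℂ) (hab : a ≠ b) (hac : a ≠ c) (hbc : b ≠ c) (ha : a ∉ tsupport g)
    (hb : b ∉ tsupport g) (hc : c ∉ tsupport g) {η : ℝ} (hη : 0 < η) :
    ∀ᶠ δ : ℝ in 𝓝[>] 0, D2 (KB (xg g δ) (mg g δ)) (LB (xg g δ) (mg g δ)) a b c ≤ η := by
  obtain ⟨Da, hDa0, hDa⟩ := exists_D ha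
  obtain ⟨Db, hDb0, hDb⟩ := exists_D hb
  obtain ⟨Dc, hDc0, hDc⟩ := exists_D hc
  set D := Da + Db + Dc with hD
  have hD0 : 0 ≤ D := by positivity
  set e : Fin 3 → ℂ := ![a, b, c] with he
  have hDe : ∀ (k : Fin 3) (z : ℂ), g z ≠ 0 → ‖(e k - z)⁻¹‖ ≤ D := by
    intro k z hz
    fin_cases k
    · exact (hDa z hz).trans (by linarith)
    · exact (hDb z hz).trans (by linarith)
    · exact (hDc z hz).trans (by linarith)
  have hne : ∀ (k : Fin 3) (z : ℂ), g z ≠ 0 → z ≠ e k := by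
    intro k z hz
    fin_cases k
    · rintro rfl; exact ha (subset_tsupport g hz)
    · rintro rfl; exact hb (subset_tsupport g hz)
    · rintro rfl; exact hc (subset_tsupport g hz)
  set A := ∫ z, g z with hA
  have hA0 : 0 ≤ A := integral_nonneg hg0
  set B2 := ∑ k : Fin 3, ∑ l : Fin 3, ‖(e k - e l)⁻¹‖ ^ 2 with hB2
  have hB20 : 0 ≤ B2 := Finset.sum_nonneg fun k _ => Finset.sum_nonneg fun l _ => sq_nonneg _
  obtain ⟨C1, hC1⟩ : ∃ C1, C1 = 1 + (D ^ 2 * (A + 1) + B2) := ⟨_, rfl⟩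
  have hC10 : 0 ≤ C1 := by rw [hC1]; positivity
  have hrho := quad_rho hg hg0 hgc (3 * D ^ 2)
  have hsum := sum_mg_one hg hgc
  have e1 : ∀ᶠ δ : ℝ in 𝓝[>] 0, ∑ i : Tg g δ, mg g δ i ≤ A + 1 :=
    (hsum.eventually (gt_mem_nhds (by linarith : A < A + 1))).mono fun δ h => h.le
  have e2 : ∀ᶠ δ : ℝ in 𝓝[>] 0, ∑' p : ℤ × ℤ, (δ ^ 2 * g (grid δ p) *
        (∑' q : ℤ × ℤ, δ ^ 2 * g (grid δ q) * ‖(grid δ p - grid δ q)⁻¹‖ ^ 2 + 3 * D ^ 2)) ^ 2 <
        η / (24 * C1 ^ 12 + 1) :=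
    hrho.eventually (gt_mem_nhds (by positivity))
  filter_upwards [e1, e2, self_mem_nhdsWithin] with δ h1 h2 hδ
  have hδ' : 0 < δ := hδ
  have hm := mg_pos hg0 hgc hδ'
  have hx := xg_inj g hδ'
  have hgi : ∀ i : Tg g δ, g (xg g δ i) ≠ 0 := fun i => (mem_Tg hgc hδ' i).1 i.2
  have h3 := fin_main (xg g δ) hx hm a b c hab hac hbc
    (fun i => hne 0 _ (hgi i)) (fun i => hne 1 _ (hgi i)) (fun i => hne 2 _ (hgi i))
  -- the extra points
  have h4 : ∀ k : Fin 3, rr (yV (xg g δ) a b c) (mV (mg g δ)) (Sum.inr k) ≤ D ^ 2 * (A + 1) + B2 := by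
    intro k
    rw [rr, Fintype.sum_sum_type]
    have e3 : ∀ j : Tg g δ, mV (mg g δ) (Sum.inl j) *
        ‖(yV (xg g δ) a b c (Sum.inr k) - yV (xg g δ) a b c (Sum.inl j))⁻¹‖ ^ 2 ≤
        mg g δ j * D ^ 2 := by
      intro j
      exact mul_le_mul_of_nonneg_left (pow_le_pow_left₀ (norm_nonneg _) (hDe k _ (hgi j)) 2) (hm j).le
    have e4 : ∑ l : Fin 3, mV (mg g δ) (Sum.inr l) *
        ‖(yV (xg g δ) a b c (Sum.inr k) - yV (xg g δ) a b c (Sum.inr l))⁻¹‖ ^ 2 ≤ B2 := by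
      have : ∀ l : Fin 3, mV (mg g δ) (Sum.inr l) *
        ‖(yV (xg g δ) a b c (Sum.inr k) - yV (xg g δ) a b c (Sum.inr l))⁻¹‖ ^ 2 =
          ‖(e k - e l)⁻¹‖ ^ 2 := by
        intro l
        simp only [mV, Sum.elim_inr, one_mul, yV]
        rfl
      rw [Finset.sum_congr rfl (fun l _ => this l), hB2]
      exact Finset.single_le_sum (f := fun k => ∑ l : Fin 3, ‖(e k - e l)⁻¹‖ ^ 2)
        (fun k _ => Finset.sum_nonneg fun l _ => sq_nonneg _) (Finset.mem_univ k)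
    have e5 : mV (mg g δ) (Sum.inr k : Tg g δ ⊕ Fin 3) = 1 := rfl
    rw [e5, one_mul]
    refine add_le_add ((Finset.sum_le_sum fun j _ => e3 j).trans ?_) e4
    rw [← Finset.sum_mul, mul_comm]
    exact mul_le_mul_of_nonneg_left h1 (sq_nonneg D)
  have h5 : (∏ k : Fin 3, (1 + rr (yV (xg g δ) a b c) (mV (mg g δ)) (Sum.inr k))) ^ 4 ≤ C1 ^ 12 := by
    have e6 : ∏ k : Fin 3, (1 + rr (yV (xg g δ) a b c) (mV (mg g δ)) (Sum.inr k)) ≤ C1 ^ 3 := by
      have : ∏ k : Fin 3, (1 + rr (yV (xg g δ) a b c) (mV (mg g δ)) (Sum.inr k)) ≤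
          ∏ _k : Fin 3, C1 := by
        refine Finset.prod_le_prod (fun k _ => ?_) (fun k _ => ?_)
        · have := rr_nonneg (yV (xg g δ) a b c) (mV_pos hm) (Sum.inr k)
          linarith
        · have := h4 k
          rw [hC1]
          linarith
      simpa using this
    have e7 : 0 ≤ ∏ k : Fin 3, (1 + rr (yV (xg g δ) a b c) (mV (mg g δ)) (Sum.inr k)) :=
      Finset.prod_nonneg fun k _ => by
        have := rr_nonneg (yV (xg g δ) a b c) (mV_pos hm) (Sum.inr k)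
        linarith
    calc _ ≤ (C1 ^ 3) ^ 4 := pow_le_pow_left₀ e7 e6 4
      _ = C1 ^ 12 := by rw [← pow_mul]
  -- the sites
  have h6 : ∑ i : Tg g δ, rr (yV (xg g δ) a b c) (mV (mg g δ)) (Sum.inl i) ^ 2 ≤
      η / (24 * C1 ^ 12 + 1) := by
    rw [tsum_Tg hgc hδ'] at h2
    · refine le_trans (Finset.sum_le_sum fun i _ => ?_) h2.le
      refine pow_le_pow_left₀ (rr_nonneg _ (mV_pos hm) _) ?_ 2
      rw [tsum_Tg hgc hδ']
      · rw [rr, Fintype.sum_sum_type]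
        refine mul_le_mul_of_nonneg_left ?_ (hm i).le
        refine add_le_add (le_refl _) ?_
        have e8 : ∀ l : Fin 3, mV (mg g δ) (Sum.inr l) *
            ‖(yV (xg g δ) a b c (Sum.inl i) - yV (xg g δ) a b c (Sum.inr l))⁻¹‖ ^ 2 ≤ D ^ 2 := by
          intro l
          have e9 : mV (mg g δ) (Sum.inr l : Tg g δ ⊕ Fin 3) = 1 := rfl
          rw [e9, one_mul, norm_inv, norm_sub_rev, ← norm_inv]
          exact pow_le_pow_left₀ (norm_nonneg _) (hDe l _ (hgi i)) 2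
        refine (Finset.sum_le_sum fun l _ => e8 l).trans (le_of_eq ?_)
        simp
      · intro q hq
        simp [hq]
    · intro q hq
      simp [hq]
  have h7 : 0 ≤ ∑ i : Tg g δ, rr (yV (xg g δ) a b c) (mV (mg g δ)) (Sum.inl i) ^ 2 :=
    Finset.sum_nonneg fun i _ => sq_nonneg _
  refine h3.trans ?_
  calc _ ≤ 24 * C1 ^ 12 * (η / (24 * C1 ^ 12 + 1)) :=
        mul_le_mul (mul_le_mul_of_nonneg_left h5 (by norm_num)) h6 h7 (by positivity)
    _ ≤ η := by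
        rw [mul_div_assoc', div_le_iff₀ (by positivity), mul_add, mul_one,
          mul_comm (24 * C1 ^ 12) η]
        linarith

end Pool.Agent.H761R2.SV
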