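import Pool.Agent.H761R2.SV.Defs

/-! Stubs (statements only) of the independent modules. -/

set_option autoImplicit false
open Complex MeasureTheory Filter Topology
open scoped ContDiff

namespace Pool.Agent.H761R2.SV.Stubs

open Pool.Agent.H761R2.SV

/-- Module GEO (file `Geo.lean`): smooth cut-offs adapted to the boundary curves. -/
theorem geo {Ω : Set ℂ} {n : ℕ} {γ : Fin n → ℝ → ℂ} (h : Curves Ω n γ) :
    ∃ C0 : ℝ, 0 ≤ C0 ∧ ∀ ε : ℝ, 0 < ε → ∃ s : ℂ → ℝ,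
      ContDiff ℝ ∞ s ∧ (∀ z, 0 ≤ s z ∧ s z ≤ 1) ∧ tsupport s ⊆ Ω ∧
      (∀ z ∈ Ω, (∀ y ∈ frontier Ω, ε ≤ dist z y) → s z = 1) ∧
      (∀ φ : ℝ → ℝ, Continuous φ → (∀ u, 0 ≤ φ u) →
        ∫ z, φ (s z) * ‖dbarR s z‖ ≤ C0 * ∫ u in (0:ℝ)..1, φ u) ∧
      (∀ z, dbarR s z ≠ 0 → ∃ (k : Fin n) (t : ℝ), dist z (γ k t) < ε ∧
        ‖dbarR s z - (‖dbarR s z‖ : ℂ) * (I * deriv (γ k) t / (‖deriv (γ k) t‖ : ℂ))‖
          ≤ ε * ‖dbarR s z‖) := by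
  sorry

/-- Module POMP (file `Pomp.lean`): Cauchy–Pompeiu for functions vanishing at infinity. -/
theorem pompeiu {F : ℂ → ℂ} (hF : ContDiff ℝ 1 F) (hs : HasCompactSupport (dbar F))
    (h0 : Tendsto F (cocompact ℂ) (𝓝 0)) (z : ℂ) :
    ∫ w, dbar F w * (z - w)⁻¹ = Real.pi * F z := by
  sorry

/-- Module QUAD (file `Quad.lean`), 1: Riemann sums. -/
theorem quad_riemann {E : Type} [NormedAddCommGroup E] [NormedSpace ℝ E] [CompleteSpace E]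
    {f : ℂ → E} (hf : Continuous f) (hc : HasCompactSupport f) :
    Tendsto (fun δ : ℝ => ∑' q : ℤ × ℤ, δ ^ 2 • f (grid δ q)) (𝓝[>] 0) (𝓝 (∫ z, f z)) := by
  sorry

/-- Module QUAD, 2: Cauchy integrals by Riemann sums (the term `q = p` is `0` since `0⁻¹ = 0`). -/
theorem quad_cauchy {f : ℂ → ℂ} (hf : Continuous f) (hc : HasCompactSupport f) :
    ∀ ε : ℝ, 0 < ε → ∀ᶠ δ : ℝ in 𝓝[>] 0, ∀ p : ℤ × ℤ,
      ‖∑' q : ℤ × ℤ, (δ : ℂ) ^ 2 * f (grid δ q) * (grid δ p - grid δ q)⁻¹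
        - ∫ z, f z * (grid δ p - z)⁻¹‖ ≤ ε := by
  sorry

/-- Module QUAD, 3: the `ρ`-sum tends to `0`. -/
theorem quad_rho {f : ℂ → ℝ} (hf : Continuous f) (hf0 : ∀ z, 0 ≤ f z) (hc : HasCompactSupport f)
    (B : ℝ) :
    Tendsto (fun δ : ℝ => ∑' p : ℤ × ℤ, (δ ^ 2 * f (grid δ p) *
        (∑' q : ℤ × ℤ, δ ^ 2 * f (grid δ q) * ‖(grid δ p - grid δ q)⁻¹‖ ^ 2 + B)) ^ 2)
      (𝓝[>] 0) (𝓝 0) := by
  sorry

end Pool.Agent.H761R2.SV.Stubs
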