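import Pool.Agent.H761R2.SV.Defs

/-! Stubs (statements only) of the second group of independent modules. -/

set_option autoImplicit false
open Complex MeasureTheory Filter Topology
open scoped ContDiff ComplexConjugate

namespace Pool.Agent.H761R2.SV.Stubs2

open Pool.Agent.H761R2.SV

/-- Module HOL (file `Hol.lean`), continuity -/
theorem hol_cont {Ω : Set ℂ} (hΩ : IsOpen Ω) {s : ℂ → ℝ} (hs : ContDiff ℝ ∞ s)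
    (hts : tsupport s ⊆ Ω) (q : ℂ) (hq : ∀ᶠ z in 𝓝 q, s z = 1) {f : ℂ → ℂ}
    (hf : DifferentiableOn ℂ (fun z => f z - (z - q)⁻¹) Ω) (n : ℕ) :
    Continuous (fun w => f w * (((n : ℂ) + 1) * ((s w : ℝ) : ℂ) ^ n * dbarR s w)) := by
  sorry

/-- Module HOL, representation without pole -/
theorem hol_rep {Ω : Set ℂ} (hΩ : IsOpen Ω) {s : ℂ → ℝ} (hs : ContDiff ℝ ∞ s)
    (h01 : ∀ z, 0 ≤ s z ∧ s z ≤ 1) (hts : tsupport s ⊆ Ω) (hcs : HasCompactSupport (dbarR s))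
    {f : ℂ → ℂ} (hf : DifferentiableOn ℂ f Ω) (h0 : Tendsto f (cocompact ℂ) (𝓝 0)) (n : ℕ) (z : ℂ) :
    ∫ w, f w * (((n : ℂ) + 1) * ((s w : ℝ) : ℂ) ^ n * dbarR s w) * (z - w)⁻¹ =
      Real.pi * (f z * ((s z : ℝ) : ℂ) ^ (n + 1)) := by
  sorry

/-- Module HOL, representation with a pole at `q` -/
theorem pole_rep {Ω : Set ℂ} (hΩ : IsOpen Ω) {s : ℂ → ℝ} (hs : ContDiff ℝ ∞ s)
    (h01 : ∀ z, 0 ≤ s z ∧ s z ≤ 1) (hts : tsupport s ⊆ Ω) (hcs : HasCompactSupport (dbarR s))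
    (q : ℂ) (hq : ∀ᶠ z in 𝓝 q, s z = 1)
    {f : ℂ → ℂ} (hf : DifferentiableOn ℂ (fun z => f z - (z - q)⁻¹) Ω)
    (h0 : Tendsto f (cocompact ℂ) (𝓝 0)) (n : ℕ) (z : ℂ) :
    ∫ w, f w * (((n : ℂ) + 1) * ((s w : ℝ) : ℂ) ^ n * dbarR s w) * (z - w)⁻¹ =
      Real.pi * (f z * ((s z : ℝ) : ℂ) ^ (n + 1) - (z - q)⁻¹) := by
  sorry

/-- Module BDRY (file `Bdry.lean`) -/
theorem bdry {Ω : Set ℂ} {n : ℕ} {γ : Fin n → ℝ → ℂ} (h : Curves Ω n γ) {q : ℂ} (hq : q ∈ Ω)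
    {f g : ℂ → ℂ} (hf : ContinuousOn f (closure Ω))
    (hg : ContinuousOn (fun z => g z - (z - q)⁻¹) (closure Ω))
    (hrel : ∀ (k : Fin n) (t : ℝ), I⁻¹ * g (γ k t) * deriv (γ k) t =
      conj (f (γ k t)) * (((‖deriv (γ k) t‖ : ℝ)) : ℂ)) :
    ∃ M : ℝ, 0 ≤ M ∧ ∀ τ : ℝ, 0 < τ → ∃ ε0 : ℝ, 0 < ε0 ∧ ∀ z ∈ Ω, ∀ (k : Fin n) (t : ℝ),
      dist z (γ k t) < ε0 → ∀ ν : ℂ, ‖ν‖ = 1 →
      ‖ν - I * deriv (γ k) t / ((‖deriv (γ k) t‖ : ℝ) : ℂ)‖ ≤ ε0 →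
      ‖f z‖ ≤ M ∧ ‖g z‖ ≤ M ∧ ‖g z + conj (f z * ν)‖ ≤ τ := by
  sorry

/-- Module CALC (file `Calc.lean`) -/
theorem calc_int (n : ℕ) (τ M : ℝ) (hτ : 0 ≤ τ) (hM : 0 ≤ M) :
    ((n : ℝ) + 1) * ∫ u in (0:ℝ)..1, (u ^ n * (τ + M * (1 - u))) ^ 2 ≤
      2 * τ ^ 2 + M ^ 2 / ((n : ℝ) + 1) ^ 2 := by
  sorry

end Pool.Agent.H761R2.SV.Stubs2
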