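import Pool.Agent.H761R2.SV.Coer
import Pool.Agent.H761R2.SV.Quad

set_option autoImplicit false
open Matrix Finset Complex MeasureTheory Filter Topology
open scoped ComplexConjugate

namespace Pool.Agent.H761R2.SV

lemma grid_inj {δ : ℝ} (hδ : 0 < δ) : Function.Injective (grid δ) := by
  intro p q h
  have hd : (δ : ℂ) ≠ 0 := by exact_mod_cast hδ.ne'
  have h1 : ((p.1 : ℂ) + (p.2 : ℂ) * I) = ((q.1 : ℂ) + (q.2 : ℂ) * I) := mul_left_cancel₀ hd h
  have h2 := congrArg Complex.re h1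
  have h3 := congrArg Complex.im h1
  simp at h2 h3
  exact Prod.ext h2 h3

lemma fin_grid {g : ℂ → ℝ} (hgc : HasCompactSupport g) {δ : ℝ} (hδ : 0 < δ) :
    {q : ℤ × ℤ | g (grid δ q) ≠ 0}.Finite := by
  obtain ⟨R, hR⟩ := hgc.isCompact.isBounded.exists_norm_le
  have h1 : {q : ℤ × ℤ | g (grid δ q) ≠ 0} ⊆
      (Set.Icc (-⌈R / δ⌉) ⌈R / δ⌉) ×ˢ (Set.Icc (-⌈R / δ⌉) ⌈R / δ⌉) := by
    intro q hq
    have h2 := hR (grid δ q) (subset_tsupport _ hq)
    have h3 : |(grid δ q).re| ≤ R := (Complex.abs_re_le_norm _).trans h2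
    have h4 : |(grid δ q).im| ≤ R := (Complex.abs_im_le_norm _).trans h2
    have e3 : (grid δ q).re = δ * q.1 := by simp [grid]
    have e4 : (grid δ q).im = δ * q.2 := by simp [grid]
    rw [e3, abs_mul, abs_of_pos hδ] at h3
    rw [e4, abs_mul, abs_of_pos hδ] at h4
    have h5 : |(q.1 : ℝ)| ≤ R / δ := by rw [le_div_iff₀ hδ]; linarith
    have h6 : |(q.2 : ℝ)| ≤ R / δ := by rw [le_div_iff₀ hδ]; linarith
    have h7 := Int.le_ceil (R / δ)
    have h8 : |(q.1 : ℝ)| ≤ (⌈R / δ⌉ : ℝ) := h5.trans h7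
    have h9 : |(q.2 : ℝ)| ≤ (⌈R / δ⌉ : ℝ) := h6.trans h7
    rw [abs_le] at h8 h9
    refine ⟨⟨?_, ?_⟩, ⟨?_, ?_⟩⟩
    · exact_mod_cast h8.1
    · exact_mod_cast h8.2
    · exact_mod_cast h9.1
    · exact_mod_cast h9.2
  exact ((Set.finite_Icc _ _).prod (Set.finite_Icc _ _)).subset h1

/-- index set of the grid system -/
noncomputable def Tg (g : ℂ → ℝ) (δ : ℝ) : Finset (ℤ × ℤ) :=
  open Classical in if h : {q : ℤ × ℤ | g (grid δ q) ≠ 0}.Finite then h.toFinset else ∅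

lemma mem_Tg {g : ℂ → ℝ} (hgc : HasCompactSupport g) {δ : ℝ} (hδ : 0 < δ) (q : ℤ × ℤ) :
    q ∈ Tg g δ ↔ g (grid δ q) ≠ 0 := by
  rw [Tg, dif_pos (fin_grid hgc hδ)]
  simp

/-- points -/
noncomputable def xg (g : ℂ → ℝ) (δ : ℝ) : Tg g δ → ℂ := fun q => grid δ q
/-- masses -/
noncomputable def mg (g : ℂ → ℝ) (δ : ℝ) : Tg g δ → ℝ := fun q => δ ^ 2 * g (grid δ q)

lemma mg_pos {g : ℂ → ℝ} (hg0 : ∀ z, 0 ≤ g z) (hgc : HasCompactSupport g) {δ : ℝ} (hδ : 0 < δ)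
    (i : Tg g δ) : 0 < mg g δ i := by
  have h1 := (mem_Tg hgc hδ i).1 i.2
  have h2 : 0 < g (grid δ i) := lt_of_le_of_ne (hg0 _) (Ne.symm h1)
  exact mul_pos (by positivity) h2

lemma xg_inj (g : ℂ → ℝ) {δ : ℝ} (hδ : 0 < δ) : Function.Injective (xg g δ) :=
  (grid_inj hδ).comp Subtype.val_injective

lemma tsum_Tg {M : Type*} [AddCommMonoid M] [TopologicalSpace M] [T2Space M]
    {g : ℂ → ℝ} (hgc : HasCompactSupport g) {δ : ℝ} (hδ : 0 < δ)
    (f : ℤ × ℤ → M) (hf : ∀ q, g (grid δ q) = 0 → f q = 0) :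
    ∑' q, f q = ∑ i : Tg g δ, f i := by
  rw [tsum_eq_sum (s := Tg g δ), ← Finset.sum_coe_sort]
  intro q hq
  apply hf
  by_contra h
  exact hq ((mem_Tg hgc hδ q).2 h)

/-- weighted Riemann sums over the system -/
lemma sum_mg {g : ℂ → ℝ} (hg : Continuous g) (hgc : HasCompactSupport g) {h : ℂ → ℝ}
    (hh : Continuous h) :
    Tendsto (fun δ : ℝ => ∑ i : Tg g δ, mg g δ i * h (xg g δ i)) (𝓝[>] 0)
      (𝓝 (∫ z, g z * h z)) := by
  have h1 := quad_riemann (E := ℝ) (f := fun z => g z * h z) (hg.mul hh) (hgc.mul_right)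
  refine h1.congr' ?_
  filter_upwards [self_mem_nhdsWithin] with δ hδ
  rw [tsum_Tg hgc (Set.mem_Ioi.1 hδ)]
  · refine Finset.sum_congr rfl fun i _ => ?_
    simp only [mg, xg, smul_eq_mul]
    ring
  · intro q hq
    simp [hq]

lemma sum_mg_one {g : ℂ → ℝ} (hg : Continuous g) (hgc : HasCompactSupport g) :
    Tendsto (fun δ : ℝ => ∑ i : Tg g δ, mg g δ i) (𝓝[>] 0) (𝓝 (∫ z, g z)) := by
  have := sum_mg hg hgc (h := fun _ => 1) continuous_const
  simpa using this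

/-- evaluation of Cauchy integrals away from the support -/
lemma sum_eval {g : ℂ → ℝ} (hgc : HasCompactSupport g) {f : ℂ → ℂ}
    (hf : Continuous f) (hf0 : ∀ z, g z = 0 → f z = 0) {p : ℂ} (hp : p ∉ tsupport g) :
    Tendsto (fun δ : ℝ => ∑ i : Tg g δ, (δ : ℂ) ^ 2 * f (xg g δ i) * (p - xg g δ i)⁻¹) (𝓝[>] 0)
      (𝓝 (∫ z, f z * (p - z)⁻¹)) := by
  have hfc : HasCompactSupport f := by
    refine hgc.mono' (subset_trans ?_ (subset_tsupport g))
    intro z hz hz'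
    exact hz (hf0 z hz')
  have hcont : Continuous (fun z => f z * (p - z)⁻¹) := by
    rw [continuous_iff_continuousAt]
    intro z
    by_cases hz : z = p
    · subst hz
      have h1 : ∀ᶠ w in 𝓝 z, g w = 0 := by
        have := (isClosed_tsupport g).isOpen_compl.mem_nhds hp
        filter_upwards [this] with w hw
        exact image_eq_zero_of_notMem_tsupport hw
      have h2 : (fun w => f w * (z - w)⁻¹) =ᶠ[𝓝 z] fun _ => 0 := by
        filter_upwards [h1] with w hw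
        rw [hf0 w hw, zero_mul]
      exact (continuousAt_const (y := (0:ℂ))).congr h2.symm
    · exact hf.continuousAt.mul ((continuousAt_const.sub continuousAt_id).inv₀
        (sub_ne_zero.2 (Ne.symm hz)))
  have h1 := quad_riemann (E := ℂ) (f := fun z => f z * (p - z)⁻¹) hcont (hfc.mul_right)
  refine h1.congr' ?_
  filter_upwards [self_mem_nhdsWithin] with δ hδ
  rw [tsum_Tg hgc (Set.mem_Ioi.1 hδ)]
  · refine Finset.sum_congr rfl fun i _ => ?_
    simp only [xg, Complex.real_smul]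
    push_cast
    ring
  · intro q hq
    simp [hf0 _ hq]

/-- Cauchy sums at the sites -/
lemma sum_site {g : ℂ → ℝ} (hgc : HasCompactSupport g) {f : ℂ → ℂ}
    (hf : Continuous f) (hf0 : ∀ z, g z = 0 → f z = 0) {ε : ℝ} (hε : 0 < ε) :
    ∀ᶠ δ : ℝ in 𝓝[>] 0, ∀ i : Tg g δ,
      ‖∑ j : Tg g δ, (δ : ℂ) ^ 2 * f (xg g δ j) * (xg g δ i - xg g δ j)⁻¹
        - ∫ z, f z * (xg g δ i - z)⁻¹‖ ≤ ε := by
  have hfc : HasCompactSupport f := by
    refine hgc.mono' (subset_trans ?_ (subset_tsupport g))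
    intro z hz hz'
    exact hz (hf0 z hz')
  have h1 := quad_cauchy hf hfc ε hε
  filter_upwards [h1, self_mem_nhdsWithin] with δ hδ1 hδ i
  have h2 := hδ1 i
  rw [tsum_Tg hgc (Set.mem_Ioi.1 hδ)] at h2
  · exact h2
  · intro q hq
    simp [hf0 _ hq]

end Pool.Agent.H761R2.SV
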