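import Pool.Agent.H761R2.SV.Cau

set_option autoImplicit false
open Matrix Finset Complex
open scoped ComplexConjugate

namespace Pool.Agent.H761R2.SV

/-- row labels of the two extra rows -/
def rb (b : ℂ) : Fin 2 → Bool × ℂ := ![(true, b), (false, b)]
/-- column labels of the two extra columns -/
def cb (c : ℂ) : Fin 2 → Bool × ℂ := ![(false, c), (true, c)]

/-- Möbius factor -/
noncomputable def phi (b c p : ℂ) : ℂ := (p - b) / (p - c)

lemma phi_ne {b c p : ℂ} (h1 : p ≠ b) (h2 : p ≠ c) : phi b c p ≠ 0 :=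
  div_ne_zero (sub_ne_zero.2 h1) (sub_ne_zero.2 h2)

/-- row scaling -/
noncomputable def rsc (b c : ℂ) (r : Bool × ℂ) : ℂ := if r.1 then phi b c r.2 else conj (phi b c r.2)
/-- column scaling -/
noncomputable def csc (b c : ℂ) (r : Bool × ℂ) : ℂ :=
  if r.1 then (conj (phi b c r.2))⁻¹ else (phi b c r.2)⁻¹

lemma schur_entry (b c : ℂ) (r s : Bool × ℂ) (hr : r.2 ≠ b ∧ r.2 ≠ c) (hs : s.2 ≠ b ∧ s.2 ≠ c)
    (hrs : r.1 ≠ s.1 → r.2 ≠ s.2) :
    ent r s - (ent r (false, c) * (b - c) * ent (true, b) s +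
      ent r (true, c) * (-conj (c - b)) * ent (false, b) s) =
      rsc b c r * ent r s * csc b c s := by
  obtain ⟨r1, p⟩ := r
  obtain ⟨s1, q⟩ := s
  cases r1 <;> cases s1
  · simp
  · -- r = B p, s = A q
    have h1 : q ≠ p := fun h => hrs (by simp) h.symm
    have h2 := phi_id (p := q) (q := p) (b := c) (c := b) h1 hs.1 (Ne.symm hr.2) hr.1
    have h3 := congrArg conj h2
    simp only [ent_BA, ent_BB, ent_AA, rsc, csc, phi, if_true, Bool.false_eq_true, if_false]
    have e4 : q - c ≠ 0 := sub_ne_zero.2 hs.2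
    have e5 : q - b ≠ 0 := sub_ne_zero.2 hs.1
    have e6 : ((p - c) / (p - b))⁻¹ = (p - b) / (p - c) := inv_div _ _
    have e7 : (conj ((q - b) / (q - c)))⁻¹ = conj ((q - c) / (q - b)) := by
      rw [← map_inv₀, inv_div]
    rw [e6] at h3
    rw [e7]
    simp only [map_sub conj ((q - p)⁻¹), map_mul] at h3
    linear_combination -h3
  · -- r = A p, s = B q
    have h1 : p ≠ q := hrs (by simp)
    have h2 := phi_id (p := p) (q := q) (b := b) (c := c) h1 hr.2 (Ne.symm hs.1) hs.2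
    simp only [ent_AB, ent_BB, ent_AA, rsc, csc, phi]
    simp only [if_true, Bool.false_eq_true, if_false]
    linear_combination h2
  · simp

/-- the twist: adding rows `b_A, b_B` and columns `c_B, c_A` -/
lemma twist {κ : Type*} [Fintype κ] [DecidableEq κ] (l : κ → Bool × ℂ) (b c : ℂ) (hbc : b ≠ c)
    (hl : ∀ i, (l i).2 ≠ b ∧ (l i).2 ≠ c) (hll : ∀ i j, (l i).1 ≠ (l j).1 → (l i).2 ≠ (l j).2) :
    det (entM (Sum.elim l (rb b)) (Sum.elim l (cb c))) =
      ((‖b - c‖ ^ 2)⁻¹ : ℝ) * ((∏ i, (rsc b c (l i) * csc b c (l i))) * det (entM l l)) := by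
  have hbc' : b - c ≠ 0 := sub_ne_zero.2 hbc
  have hcb' : c - b ≠ 0 := sub_ne_zero.2 hbc.symm
  have hcc : conj (c - b) ≠ 0 := (map_ne_zero _).2 hcb'
  set D : Matrix (Fin 2) (Fin 2) ℂ := diagonal ![(b - c)⁻¹, -conj ((c - b)⁻¹)] with hD
  set D' : Matrix (Fin 2) (Fin 2) ℂ := diagonal ![(b - c), -conj (c - b)] with hD'
  have hDD' : D * D' = 1 := by
    rw [hD, hD', diagonal_mul_diagonal, ← diagonal_one]
    congr 1
    funext i
    fin_cases i
    · simp [inv_mul_cancel₀ hbc']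
    · show (-conj ((c - b)⁻¹)) * (-conj (c - b)) = 1
      rw [map_inv₀, neg_mul_neg]
      exact inv_mul_cancel₀ hcc
  have hD'D : D' * D = 1 := by
    rw [hD, hD', diagonal_mul_diagonal, ← diagonal_one]
    congr 1
    funext i
    fin_cases i
    · simp [mul_inv_cancel₀ hbc']
    · show (-conj (c - b)) * (-conj ((c - b)⁻¹)) = 1
      rw [map_inv₀, neg_mul_neg]
      exact mul_inv_cancel₀ hcc
  let _ : Invertible D := ⟨D', hD'D, hDD'⟩
  have h1 : entM (Sum.elim l (rb b)) (Sum.elim l (cb c)) = fromBlocks (entM l l)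
      (Matrix.of fun (i : κ) (e : Fin 2) => ent (l i) (cb c e))
      (Matrix.of fun (e : Fin 2) (j : κ) => ent (rb b e) (l j)) D := by
    ext i j
    rcases i with i | i <;> rcases j with j | j
    · rfl
    · rfl
    · rfl
    · fin_cases i <;> fin_cases j <;> simp [entM, rb, cb, hD]
  rw [h1, det_fromBlocks₂₂]
  have h2 : ⅟D = D' := rfl
  rw [h2]
  have h3 : det D = ((‖b - c‖ ^ 2)⁻¹ : ℝ) := by
    rw [hD, det_diagonal, Fin.prod_univ_two]
    simp only [Matrix.cons_val_zero, Matrix.cons_val_one]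
    rw [Complex.ofReal_inv, Complex.ofReal_pow, ← Complex.mul_conj', mul_inv]
    congr 1
    rw [← map_neg, ← map_inv₀, neg_inv, neg_sub]
  have h4 : entM l l - (Matrix.of fun (i : κ) (e : Fin 2) => ent (l i) (cb c e)) * D' *
      (Matrix.of fun (e : Fin 2) (j : κ) => ent (rb b e) (l j)) =
      diagonal (fun i => rsc b c (l i)) * entM l l * diagonal (fun j => csc b c (l j)) := by
    ext i j
    rw [mul_diagonal, diagonal_mul, Matrix.sub_apply, mul_apply]
    simp only [Fin.sum_univ_two, hD', mul_diagonal, Matrix.of_apply, Matrix.cons_val_zero,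
      Matrix.cons_val_one, rb, cb, entM]
    exact schur_entry b c (l i) (l j) (hl i) (hl j) (hll i j)
  rw [h3, h4, det_mul, det_mul, det_diagonal, det_diagonal, Finset.prod_mul_distrib]
  ring

end Pool.Agent.H761R2.SV
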