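import Pool.Agent.H761R2.SV.Cau

set_option autoImplicit false
open Matrix Finset Complex
open scoped ComplexConjugate

namespace Pool.Agent.H761R2.SV

section
variable {V : Type} [Fintype V] [DecidableEq V]

/-- Coulomb weight of the neutral configuration with charges `+1` on `A`, `-1` on `B`. -/
noncomputable def W (y : V → ℂ) (A B : Finset V) : ℝ := E2 (fun i : A => y i) (fun j : B => y j)

/-- sign function -/
noncomputable def sg (A B : Finset V) (v : V) : ℝ := (if v ∈ A then 1 else 0) - (if v ∈ B then 1 else 0)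

/-- energy -/
noncomputable def Qs (y : V → ℂ) (σ : V → ℝ) : ℝ := ∑ u, ∑ v, σ u * σ v * Real.log ‖y u - y v‖

omit [Fintype V] in
lemma W_nonneg (y : V → ℂ) (A B : Finset V) : 0 ≤ W y A B := E2_nonneg _ _

lemma sum_sg (A B : Finset V) : ∑ v, sg A B v = (A.card : ℝ) - B.card := by
  simp [sg, Finset.sum_sub_distrib]

lemma sum_sg_mul (A B : Finset V) (f : V → ℝ) :
    ∑ v, sg A B v * f v = ∑ v ∈ A, f v - ∑ v ∈ B, f v := by
  simp [sg, sub_mul, Finset.sum_sub_distrib]

lemma Qs_sg (y : V → ℂ) (A B : Finset V) :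
    Qs y (sg A B) = (∑ u ∈ A, ∑ v ∈ A, Real.log ‖y u - y v‖) + (∑ u ∈ B, ∑ v ∈ B, Real.log ‖y u - y v‖)
      - 2 * ∑ u ∈ A, ∑ v ∈ B, Real.log ‖y u - y v‖ := by
  have h1 : Qs y (sg A B) = ∑ u, sg A B u * ∑ v, sg A B v * Real.log ‖y u - y v‖ := by
    rw [Qs]
    refine Finset.sum_congr rfl fun u _ => ?_
    rw [Finset.mul_sum]
    exact Finset.sum_congr rfl fun v _ => by ring
  rw [h1, sum_sg_mul]
  simp only [sum_sg_mul, Finset.sum_sub_distrib]
  have h2 : ∑ u ∈ B, ∑ v ∈ A, Real.log ‖y u - y v‖ = ∑ u ∈ A, ∑ v ∈ B, Real.log ‖y u - y v‖ := by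
    rw [Finset.sum_comm]
    exact Finset.sum_congr rfl fun u _ => Finset.sum_congr rfl fun v _ => by rw [norm_sub_rev]
  rw [h2]
  ring

lemma W_eq (y : V → ℂ) (hy : Function.Injective y) (A B : Finset V) (hAB : Disjoint A B) :
    W y A B = if A.card = B.card then Real.exp (Qs y (sg A B)) else 0 := by
  by_cases h : A.card = B.card
  · rw [if_pos h]
    have e : (A : Type) ≃ B := Fintype.equivOfCardEq (by simpa using h)
    have h1 : det (Lam (fun i : A => y i) (fun j : B => y j)) =
        conj (det ((Xm (fun i : A => y i) (fun j : B => y j)).submatrix id e)) *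
          det ((Xm (fun i : A => y i) (fun j : B => y j)).submatrix id e) := by
      rw [Lam_eq]; exact det_anti_eq _ _ e
    have h2 : (Xm (fun i : A => y i) (fun j : B => y j)).submatrix id e =
        Xm (fun i : A => y i) (fun i : A => y (e i)) := rfl
    have h3 := cauchy_norm A (fun i : A => y i) (fun i : A => y (e i))
      (hy.comp Subtype.val_injective) (hy.comp (Subtype.val_injective.comp e.injective))
      (fun i j hij => by
        have := hy hij
        exact (Finset.disjoint_left.1 hAB i.2) (this ▸ (e j).2))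
    rw [W, E2, h1, h2, ← Complex.normSq_eq_conj_mul_self, Complex.ofReal_re,
      Complex.normSq_eq_norm_sq, h3, ← Real.exp_nat_mul]
    congr 1
    rw [Qs_sg, Tq]
    have h4 : ∑ i : A, ∑ j : A, Real.log ‖y i - y j‖ = ∑ u ∈ A, ∑ v ∈ A, Real.log ‖y u - y v‖ := by
      rw [← Finset.sum_coe_sort A]
      exact Finset.sum_congr rfl fun u _ => (Finset.sum_coe_sort A (fun v => Real.log ‖y u - y v‖))
    have h5 : ∑ i : A, ∑ j : A, Real.log ‖y (e i) - y (e j)‖ =
        ∑ u ∈ B, ∑ v ∈ B, Real.log ‖y u - y v‖ := by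
      rw [← Finset.sum_coe_sort B, ← Equiv.sum_comp e]
      refine Finset.sum_congr rfl fun u _ => ?_
      rw [← Finset.sum_coe_sort B, ← Equiv.sum_comp e]
    have h6 : ∑ i : A, ∑ j : A, Real.log ‖y i - y (e j)‖ =
        ∑ u ∈ A, ∑ v ∈ B, Real.log ‖y u - y v‖ := by
      rw [← Finset.sum_coe_sort A]
      refine Finset.sum_congr rfl fun u _ => ?_
      rw [← Finset.sum_coe_sort B, ← Equiv.sum_comp e]
    rw [h4, h5, h6]
    push_cast
    ring
  · rw [if_neg h, W, E2, Lam_eq, det_anti_ne _ _ (by simpa using h)]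
    simp

lemma W_symm (y : V → ℂ) (hy : Function.Injective y) (A B : Finset V) (hAB : Disjoint A B) :
    W y B A = W y A B := by
  rw [W_eq y hy A B hAB, W_eq y hy B A hAB.symm]
  have : sg B A = fun v => - sg A B v := by funext v; simp [sg]
  rw [this, Qs, Qs]
  simp [eq_comm]

end

end Pool.Agent.H761R2.SV
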